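import Pool.Agent.Mg.Ff7db47n.N1

section

/-!
From complexes with supports to binary multicomplexes: definitions.
-/

namespace Pool.Agent.MP_f7db47_al.GR

open Matrix KN Polynomial

universe v w

/-- A labelled ring with torsion tests and diagonal projections. -/
structure Sys : Type (v + 1) where
  A : Type v
  [ring : Ring A]
  Λ : Type
  H : Fam A Λ
  ι : Type
  L : ι → Fam A Λ
  S : ι → Submonoid A
  β : Type
  Δ : β → A →+* A

attribute [instance] Sys.ring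

/-- The axioms of a system. -/
structure Sys.Good (𝒮 : Sys.{v}) : Prop where
  mul : LR 𝒮.H
  mulL : ∀ a, LR (𝒮.L a)
  le : ∀ a, 𝒮.H ≤ 𝒮.L a
  sc : ∀ a, ∀ w ∈ 𝒮.S a, Sc (𝒮.L a) w
  dH : ∀ b ⦃i j x⦄, x ∈ 𝒮.H i j → 𝒮.Δ b x ∈ 𝒮.H i j
  dd : ∀ b x, 𝒮.Δ b (𝒮.Δ b x) = 𝒮.Δ b x

/-- All tests hold. -/
def TorS (𝒮 : Sys.{v}) (X : Cx 𝒮.A 𝒮.Λ) : Prop := ∀ a, ∃ w ∈ 𝒮.S a, Nul (𝒮.L a) w X

/-- The objects of a system. -/
structure Ob (𝒮 : Sys.{v}) (X : Cx 𝒮.A 𝒮.Λ) : Prop where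
  ok : Ok 𝒮.H X
  tor : TorS 𝒮 X

section Fams

variable {A : Type v} [Ring A] {Λ : Type}

/-- All entries are fixed by `δ`. -/
def Fix (δ : A →+* A) (X : Cx A Λ) : Prop := X.p.map δ = X.p ∧ X.D.map δ = X.D

/-- Maps that preserve an extra label. -/
def grF (Γ : Type) (H : Fam A Λ) : Fam A (Λ × Γ) := fun a b =>
  { carrier := {x | x ∈ H a.1 b.1 ∧ (x ≠ 0 → a.2 = b.2)}
    zero_mem' := ⟨zero_mem _, fun c => absurd rfl c⟩
    add_mem' := fun {x y} h h' => ⟨add_mem h.1 h'.1, fun c => by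
      by_cases d : x = 0
      · exact h'.2 fun e => c (by rw [d, e, add_zero])
      · exact h.2 d⟩
    neg_mem' := fun h => ⟨neg_mem h.1, fun c => h.2 fun e => c (by rw [e, neg_zero])⟩ }

/-- Pairs. -/
def fF (H : Fam A Λ) : Fam (A × A) (Λ × ℤ) := fun a b => (H a.1 b.1).prod (H a.1 b.1)

/-- Pairs of triangular matrices with the same diagonal. -/
def eF (H : Fam A Λ) : Fam (A × A) (Λ × ℤ) := fun a b =>
  { carrier := {x | x.1 ∈ H a.1 b.1 ∧ x.2 ∈ H a.1 b.1 ∧ (a.2 = b.2 → x.1 = x.2) ∧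
      (b.2 < a.2 → x = 0)}
    zero_mem' := ⟨zero_mem _, zero_mem _, fun _ => rfl, fun _ => rfl⟩
    add_mem' := fun {x y} h h' => ⟨add_mem h.1 h'.1, add_mem h.2.1 h'.2.1,
      fun c => congrArg₂ (· + ·) (h.2.2.1 c) (h'.2.2.1 c),
      fun c => by rw [h.2.2.2 c, h'.2.2.2 c, add_zero]⟩
    neg_mem' := fun h => ⟨neg_mem h.1, neg_mem h.2.1, fun c => congrArg (- ·) (h.2.2.1 c),
      fun c => by rw [h.2.2.2 c, neg_zero]⟩ }

/-- Polynomials. -/
def pF (H : Fam A Λ) : Fam A[X] Λ := fun a b =>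
  { carrier := {f | ∀ n, f.coeff n ∈ H a b}
    zero_mem' := fun _ => zero_mem _
    add_mem' := fun h h' n => by
      rw [coeff_add]
      exact add_mem (h n) (h' n)
    neg_mem' := fun h n => by
      rw [coeff_neg]
      exact neg_mem (h n) }

/-- Pairs of polynomials with the same constant term. -/
def bF (H : Fam A Λ) : Fam (A[X] × A[X]) Λ := fun a b =>
  { carrier := {x | x.1 ∈ pF H a b ∧ x.2 ∈ pF H a b ∧ x.1.coeff 0 = x.2.coeff 0}
    zero_mem' := ⟨zero_mem _, zero_mem _, rfl⟩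
    add_mem' := fun h h' => ⟨add_mem h.1 h'.1, add_mem h.2.1 h'.2.1, by
      rw [Prod.fst_add, Prod.snd_add, coeff_add, coeff_add, h.2.2, h'.2.2]⟩
    neg_mem' := fun h => ⟨neg_mem h.1, neg_mem h.2.1, by
      rw [Prod.fst_neg, Prod.snd_neg, coeff_neg, coeff_neg, h.2.2]⟩ }

/-- The two projections. -/
def br (A : Type v) [Ring A] : Bool → (A × A →+* A)
  | false => RingHom.fst A A
  | true => RingHom.snd A A

/-- The matrix of pairs. -/
def pr {I J : Type} (f g : Matrix I J A) : Matrix I J (A × A) := fun i j => (f i j, g i j)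

/-- One branch of a complex of pairs. -/
@[reducible] def zb (ε : Bool) (Z : Cx (A × A) Λ) : Cx A Λ := Z.smap (br A ε) id

/-- `X'` is the restriction of `X` along `e`. -/
structure CRes (X X' : Cx A Λ) (e : X'.J → X.J) : Prop where
  t : ∀ i, X'.t i = X.t (e i)
  p : X'.p = X.p.submatrix e e
  D : X'.D = X.D.submatrix e e

/-- A splitting of an index set into two parts. -/
structure Spl (J' J J'' : Type) : Type where
  l : J' → J
  r : J'' → J
  bij : Function.Bijective (Sum.elim l r)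

/-- The splitting of a sum. -/
@[reducible] def Spl.sum (J' J'' : Type) : Spl J' (J' ⊕ J'') J'' :=
  ⟨Sum.inl, Sum.inr, Sum.elim_inl_inr ▸ Function.bijective_id⟩

/-- The splitting given by a predicate. -/
@[reducible] def Spl.of {J : Type} (U : J → Prop) [DecidablePred U] :
    Spl {j // U j} J {j // ¬U j} := ⟨Subtype.val, Subtype.val, (Equiv.sumCompl U).bijective⟩

/-- The product of a splitting with a set. -/
@[reducible] def Spl.prod {J' J J'' : Type} (a : Spl J' J J'') (K : Type) :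
    Spl (J' × K) (J × K) (J'' × K) :=
  ⟨Prod.map a.l id, Prod.map a.r id, by
    have e : Sum.elim (Prod.map a.l id) (Prod.map a.r id) =
        Prod.map (Sum.elim a.l a.r) id ∘ (Equiv.sumProdDistrib J' J'' K).symm := by
      funext x
      rcases x with x | x <;> rfl
    rw [e]
    exact (a.bij.prodMap Function.bijective_id).comp (Equiv.bijective _)⟩

/-- The sum of two splittings. -/
@[reducible] def Spl.add {I' I I'' J' J J'' : Type} (a : Spl I' I I'') (b : Spl J' J J'') :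
    Spl (I' ⊕ J') (I ⊕ J) (I'' ⊕ J'') :=
  ⟨Sum.map a.l b.l, Sum.map a.r b.r, by
    have e : Sum.elim (Sum.map a.l b.l) (Sum.map a.r b.r) =
        Sum.map (Sum.elim a.l a.r) (Sum.elim b.l b.r) ∘ Equiv.sumSumSumComm I' J' I'' J'' := by
      funext x
      rcases x with (x | x) | x | x <;> rfl
    rw [e]
    exact (a.bij.sumMap b.bij).comp (Equiv.bijective _)⟩

/-- `f` is block triangular with diagonal blocks `f'` and `f''`. -/
structure Blk {I' I I'' J' J J'' : Type} (a : Spl I' I I'') (b : Spl J' J J'')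
    (f' : Matrix I' J' A) (f : Matrix I J A) (f'' : Matrix I'' J'' A) : Prop where
  l : f' = f.submatrix a.l b.l
  r : f'' = f.submatrix a.r b.r
  z : ∀ i j, f (a.r i) (b.l j) = 0

/-- `X` is block triangular with diagonal blocks `X'` (sub) and `X''` (quotient). -/
structure CTr (X' X X'' : Cx A Λ) (a : Spl X'.J X.J X''.J) : Prop where
  tl : ∀ i, X'.t i = X.t (a.l i)
  tr : ∀ i, X''.t i = X.t (a.r i)
  p : Blk a a X'.p X.p X''.p
  D : Blk a a X'.D X.D X''.D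

/-- The piece of weight `k`. -/
@[reducible] def pc (X : Cx A Λ) (ω : X.J → ℤ) (k : ℤ) : Cx A Λ :=
  X.res (Subtype.val : {j // ω j = k} → X.J)

/-- The matrix does not raise the weight. -/
def Low {I J : Type} (ω' : I → ℤ) (ω : J → ℤ) (f : Matrix I J A) : Prop :=
  ∀ i j, f i j ≠ 0 → ω' i ≤ ω j

/-- The part that preserves the weight. -/
def dg0 {I J : Type} (ω' : I → ℤ) (ω : J → ℤ) (f : Matrix I J A) : Matrix I J A :=
  fun i j => if ω' i = ω j then f i j else 0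

/-- The signs. -/
def sg (A : Type v) [Ring A] {J : Type} [DecidableEq J] (f : J → ℤ) : Matrix J J A :=
  diagonal fun j => (((f j).negOnePow : ℤ) : A)

end Fams

/-- Extension of scalars to the ring of two lines. -/
@[reducible] noncomputable def Sys.B (𝒮 : Sys.{v}) : Sys.{v} where
  A := 𝒮.A[X] × 𝒮.A[X]
  Λ := 𝒮.Λ
  H := bF 𝒮.H
  ι := Option 𝒮.ι
  L a := a.elim (bF 𝒮.H) fun a => bF (𝒮.L a)
  S a := a.elim (Submonoid.powers (X, X)) fun a => (𝒮.S a).map (RingHom.prod C C)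
  β := 𝒮.β
  Δ b := RingHom.prodMap (mapRingHom (𝒮.Δ b)) (mapRingHom (𝒮.Δ b))

/-- The graded form. -/
@[reducible] def Sys.E (𝒮 : Sys.{v}) : Sys.{v} where
  A := 𝒮.A × 𝒮.A
  Λ := 𝒮.Λ × ℤ
  H := eF 𝒮.H
  ι := Option 𝒮.ι
  L a := a.elim (fF 𝒮.H) fun a => eF (𝒮.L a)
  S a := a.elim ⊥ (dS 𝒮.S)
  β := Option 𝒮.β
  Δ b := b.elim (RingHom.prod (RingHom.fst _ _) (RingHom.fst _ _))
    fun b => RingHom.prodMap (𝒮.Δ b) (𝒮.Δ b)

/-- The iterated graded form. -/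
def Sys.En (𝒮 : Sys.{v}) : ℕ → Sys.{v}
  | 0 => 𝒮
  | j + 1 => (𝒮.En j).E

/-- An extra label. -/
@[reducible] def Sys.gr (𝒮 : Sys.{v}) (Γ : Type) : Sys.{v} where
  A := 𝒮.A
  Λ := 𝒮.Λ × Γ
  H := grF Γ 𝒮.H
  ι := 𝒮.ι
  L a := grF Γ (𝒮.L a)
  S := 𝒮.S
  β := 𝒮.β
  Δ := 𝒮.Δ

/-- Additive invariants. -/
structure AddC (𝒮 : Sys.{v}) {M : Type w} [AddCommGroup M] (κ : Cx 𝒮.A 𝒮.Λ → M) : Prop where
  ext : ∀ X Y t, Ob 𝒮 X → Ob 𝒮 Y → Tw 𝒮.H X Y t → κ (X.ext Y t) = κ X + κ Y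
  nul : ∀ X, Ok 𝒮.H X → Nul 𝒮.H 1 X → κ X = 0
  dia : ∀ b X, Ob 𝒮 X → Fix (𝒮.Δ b) X → κ X = 0

/-- All additive invariants vanish. -/
def ZC (𝒮 : Sys.{v}) : Prop :=
  ∀ (M : Type w) [AddCommGroup M] (κ : Cx 𝒮.A 𝒮.Λ → M), AddC 𝒮 κ → ∀ X, Ob 𝒮 X → κ X = 0

/-- An embedding of the ambient rings that identifies the two systems. -/
structure Eqd (𝒮 𝒮' : Sys.{v}) (ψ : 𝒮.A →+* 𝒮'.A) (π : 𝒮.Λ ≃ 𝒮'.Λ) (e : 𝒮.ι ≃ 𝒮'.ι)
    (e' : 𝒮.β ≃ 𝒮'.β) : Prop where
  inj : Function.Injective ψ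
  H : ∀ a b y, y ∈ 𝒮'.H (π a) (π b) ↔ ∃ x ∈ 𝒮.H a b, ψ x = y
  L : ∀ i a b y, y ∈ 𝒮'.L (e i) (π a) (π b) ↔ ∃ x ∈ 𝒮.L i a b, ψ x = y
  S : ∀ i y, y ∈ 𝒮'.S (e i) ↔ ∃ x ∈ 𝒮.S i, ψ x = y
  Δ : ∀ b x, 𝒮'.Δ (e' b) (ψ x) = ψ (𝒮.Δ b x)

/-- Equivalent systems. -/
def Eqv (𝒮 𝒮' : Sys.{v}) : Prop := ∃ ψ π e e', Eqd 𝒮 𝒮' ψ π e e'

section Poly

variable {A : Type v} [Ring A] {Λ I I' J K : Type}

/-- The lift to polynomials of small degree. -/
noncomputable def up1 (A : Type v) [Ring A] (J : Type) [DecidableEq J] (n : ℕ) :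
    Matrix J (J × Fin n) A[X] := fun i x => if i = x.1 then X ^ (x.2 : ℕ) else 0

/-- The first `n` coefficients. -/
def dn (n : ℕ) (f : Matrix I K A[X]) : Matrix (I × Fin n) K A := fun x k => (f x.1 k).coeff x.2

/-- Division by a power of the variable. -/
noncomputable def sd (n : ℕ) (f : Matrix I K A[X]) : Matrix I K A[X] := f.map divX^[n]

/-- Toeplitz matrices. -/
noncomputable def tz [Fintype I] [DecidableEq I] (n' n : ℕ) (f : Matrix I' I A[X]) :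
    Matrix (I' × Fin n') (I × Fin n) A := dn n' (f * up1 A I n)

/-- Reduction modulo the `n`-th power of the variable. -/
@[reducible] noncomputable def T1 (n : ℕ) (Z : Cx A[X] Λ) : Cx A Λ where
  J := Z.J × Fin n
  t x := Z.t x.1
  p := tz n n Z.p
  D := tz n n Z.D

/-- The comparison map, before the idempotent is applied. -/
noncomputable def th0 (n N : ℕ) (Z : Cx A[X] Λ) (h : Matrix Z.J Z.J A[X]) :
    Matrix Z.J (Z.J × Fin n) A[X] :=
  Z.p * up1 A Z.J n - ((1 - X) * X ^ (n - N) : A[X]) • (h * sd n (Z.D * up1 A Z.J n))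

/-- The comparison map. -/
noncomputable def th (n N : ℕ) (Z : Cx A[X] Λ) (h : Matrix Z.J Z.J A[X]) :
    Matrix (Z.J × Fin (n + 1)) (Z.J × Fin n) A := dn (n + 1) (th0 n N Z h) * tz n n Z.p

/-- A null-homotopy of a power of the variable. -/
def Wit1 (H : Fam A Λ) (Z : Cx A[X] Λ) (N : ℕ) (h : Matrix Z.J Z.J A[X]) : Prop :=
  Mp (pF H) 1 Z Z h ∧ Z.D * h + h * Z.D = (X ^ N : A[X]) • Z.p

/-- A null-homotopy of a power of the variable, for pairs. -/
def Wit (H : Fam A Λ) (Z : Cx (A[X] × A[X]) Λ) (N : ℕ) (h : Matrix Z.J Z.J (A[X] × A[X])) : Prop :=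
  Mp (bF H) 1 Z Z h ∧ Z.D * h + h * Z.D = ((X, X) ^ N : A[X] × A[X]) • Z.p

/-- The graded reduction. -/
@[reducible] noncomputable def TE (n : ℕ) (c : ℤ) (Z : Cx (A[X] × A[X]) Λ) :
    Cx (A × A) (Λ × ℤ) where
  J := Z.J × Fin n
  t x := (((Z.t x.1).1, c - (x.2 : ℕ)), (Z.t x.1).2)
  p := pr (T1 n (zb false Z)).p (T1 n (zb true Z)).p
  D := pr (T1 n (zb false Z)).D (T1 n (zb true Z)).D

/-- The comparison map for pairs. -/
noncomputable def thE (n N : ℕ) (Z : Cx (A[X] × A[X]) Λ) (h : Matrix Z.J Z.J (A[X] × A[X])) :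
    Matrix (Z.J × Fin (n + 1)) (Z.J × Fin n) (A × A) :=
  pr (th n N (zb false Z) (h.map (br _ false))) (th n N (zb true Z) (h.map (br _ true)))

/-- The retraction. -/
@[reducible] noncomputable def rho (n N : ℕ) (Z : Cx (A[X] × A[X]) Λ)
    (h : Matrix Z.J Z.J (A[X] × A[X])) : Cx (A × A) (Λ × ℤ) :=
  (TE (n + 1) 0 Z).cone (TE n n Z) (thE n N Z h)

/-- Homogeneous matrices. -/
noncomputable def mono (N : ℕ) (j' : I' → ℤ) (j : I → ℤ) (f : Matrix I' I A) : Matrix I' I A[X] :=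
  fun i' i => monomial (N + j i - j' i').toNat (f i' i)

/-- The level of an index. -/
abbrev lv (Y : Cx (A × A) (Λ × ℤ)) : Y.J → ℤ := fun i => (Y.t i).1.2

/-- Homogeneous matrices of pairs. -/
noncomputable def monE (N : ℕ) (Y : Cx (A × A) (Λ × ℤ)) (f : Matrix Y.J Y.J (A × A)) :
    Matrix Y.J Y.J (A[X] × A[X]) :=
  pr (mono N (lv Y) (lv Y) (f.map (br A false))) (mono N (lv Y) (lv Y) (f.map (br A true)))

/-- Forget the grading. -/
@[reducible] noncomputable def fg (Y : Cx (A × A) (Λ × ℤ)) : Cx (A[X] × A[X]) Λ where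
  J := Y.J
  t i := ((Y.t i).1.1, (Y.t i).2)
  p := monE 0 Y Y.p
  D := monE 0 Y Y.D

/-- Shift the levels. -/
@[reducible] def upE (c : ℤ) (Y : Cx (A × A) (Λ × ℤ)) : Cx (A × A) (Λ × ℤ) where
  J := Y.J
  t i := (((Y.t i).1.1, (Y.t i).1.2 + c), (Y.t i).2)
  p := Y.p
  D := Y.D

/-- The weight on the retraction of a graded complex. -/
def om (Y : Cx (A × A) (Λ × ℤ)) (a : ℤ) (n : ℕ) : (Y.J × Fin (n + 1)) ⊕ (Y.J × Fin n) → ℤ :=
  Sum.elim (fun x => lv Y x.1 + (x.2 : ℕ) - 1) fun x =>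
    if a + n ≤ lv Y x.1 + (x.2 : ℕ) then lv Y x.1 + (x.2 : ℕ) else lv Y x.1 + (x.2 : ℕ) - 1

/-- The part of level at most `c`. -/
@[reducible] def leE (c : ℤ) (Y : Cx (A × A) (Λ × ℤ)) : Cx (A × A) (Λ × ℤ) :=
  Y.res (Subtype.val : {i // lv Y i ≤ c} → Y.J)

/-- The part of level above `c`. -/
@[reducible] def gtE (c : ℤ) (Y : Cx (A × A) (Λ × ℤ)) : Cx (A × A) (Λ × ℤ) :=
  Y.res (Subtype.val : {i // ¬lv Y i ≤ c} → Y.J)

end Poly

/-- The old tests hold. -/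
def TorE (𝒮 : Sys.{v}) (Y : Cx (𝒮.A × 𝒮.A) (𝒮.Λ × ℤ)) : Prop :=
  ∀ a, ∃ w ∈ 𝒮.S a, Nul (eF (𝒮.L a)) (w, w) Y

end Pool.Agent.MP_f7db47_al.GR

end

section

/-!
Block triangular matrices.
-/

namespace Pool.Agent.MP_f7db47_al.GR

open Matrix KN

universe v w

variable {A : Type v} [Ring A] {Λ : Type} {I' I I'' J' J J'' K' K K'' : Type}
  {a : Spl I' I I''} {b : Spl J' J J''} {c : Spl K' K K''}
  {f' g' : Matrix I' J' A} {f g : Matrix I J A} {f'' g'' : Matrix I'' J'' A}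

theorem b1_mul {L M : Type} [Fintype J'] [Fintype J] [Fintype J''] (b : Spl J' J J'')
    (f : Matrix I J A) (g : Matrix J K A) (x : L → I) (y : M → K) :
    (f * g).submatrix x y =
      f.submatrix x b.l * g.submatrix b.l y + f.submatrix x b.r * g.submatrix b.r y := by
  ext i k
  rw [submatrix_apply, mul_apply, ← (Equiv.ofBijective _ b.bij).sum_comp, Fintype.sum_sum_type]
  rfl

theorem b1_z (h : Blk a b f' f f'') : f.submatrix a.r b.l = 0 := Matrix.ext h.z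

theorem b1_l (a : Spl I' I I'') : Function.Injective a.l :=
  fun _ _ e => Sum.inl_injective (a.bij.1 (a₁ := .inl _) (a₂ := .inl _) e)

theorem b1_r (a : Spl I' I I'') : Function.Injective a.r :=
  fun _ _ e => Sum.inr_injective (a.bij.1 (a₁ := .inr _) (a₂ := .inr _) e)

theorem b1_blk (h : ∀ i j, f (a.r i) (b.l j) = 0) :
    Blk a b (f.submatrix a.l b.l) f (f.submatrix a.r b.r) := ⟨rfl, rfl, h⟩

theorem Blk.zero (a : Spl I' I I'') (b : Spl J' J J'') : Blk a b (0 : Matrix I' J' A) 0 0 :=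
  ⟨rfl, rfl, fun _ _ => rfl⟩

theorem Blk.add (h : Blk a b f' f f'') (k : Blk a b g' g g'') :
    Blk a b (f' + g') (f + g) (f'' + g'') :=
  ⟨h.l ▸ k.l ▸ rfl, h.r ▸ k.r ▸ rfl, fun i j => by rw [Matrix.add_apply, h.z, k.z, add_zero]⟩

theorem Blk.neg (h : Blk a b f' f f'') : Blk a b (-f') (-f) (-f'') :=
  ⟨h.l ▸ rfl, h.r ▸ rfl, fun i j => by rw [Matrix.neg_apply, h.z, neg_zero]⟩

theorem Blk.sub (h : Blk a b f' f f'') (k : Blk a b g' g g'') :
    Blk a b (f' - g') (f - g) (f'' - g'') :=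
  ⟨h.l ▸ k.l ▸ rfl, h.r ▸ k.r ▸ rfl, fun i j => by rw [Matrix.sub_apply, h.z, k.z, sub_zero]⟩

theorem Blk.smul (w : A) (h : Blk a b f' f f'') : Blk a b (w • f') (w • f) (w • f'') :=
  ⟨h.l ▸ rfl, h.r ▸ rfl, fun i j => by rw [Matrix.smul_apply, h.z, smul_zero]⟩

theorem Blk.finsum {κ : Type} (T : Finset κ) {F' : κ → Matrix I' J' A} {F : κ → Matrix I J A}
    {F'' : κ → Matrix I'' J'' A} (h : ∀ k ∈ T, Blk a b (F' k) (F k) (F'' k)) :
    Blk a b (∑ k ∈ T, F' k) (∑ k ∈ T, F k) (∑ k ∈ T, F'' k) := by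
  induction T using Finset.cons_induction with
  | empty => exact Blk.zero a b
  | cons k T hk ih =>
    simp only [Finset.sum_cons]
    exact (h k (Finset.mem_cons_self _ _)).add (ih fun k hk => h k (Finset.mem_cons_of_mem hk))

theorem Blk.mul [Fintype J'] [Fintype J] [Fintype J''] {g' : Matrix J' K' A} {g : Matrix J K A}
    {g'' : Matrix J'' K'' A} (h : Blk a b f' f f'') (k : Blk b c g' g g'') :
    Blk a c (f' * g') (f * g) (f'' * g'') :=
  ⟨by rw [b1_mul b, b1_z k, Matrix.mul_zero, add_zero, h.l, k.l],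
    by rw [b1_mul b, b1_z h, Matrix.zero_mul, zero_add, h.r, k.r], fun i j => by
    have := b1_mul b f g a.r c.l
    rw [b1_z h, b1_z k, Matrix.mul_zero, Matrix.zero_mul, add_zero] at this
    exact congrFun₂ this i j⟩

theorem Blk.map {B : Type w} [Ring B] {φ : A → B} (h0 : φ 0 = 0) (h : Blk a b f' f f'') :
    Blk a b (f'.map φ) (f.map φ) (f''.map φ) :=
  ⟨h.l ▸ rfl, h.r ▸ rfl, fun i j => by rw [map_apply, h.z, h0]⟩

/-- Equalities pass to the diagonal blocks. -/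
theorem Blk.eq (h : Blk a b f' f f'') (k : Blk a b g' f g'') : f' = g' ∧ f'' = g'' :=
  ⟨h.l.trans k.l.symm, h.r.trans k.r.symm⟩

theorem Blk.hm {H : Fam A Λ} {d : ℤ} {s : I → Λ × ℤ} {t : J → Λ × ℤ} (h : Blk a b f' f f'')
    (k : Hm H d s t f) {s' : I' → Λ × ℤ} {t' : J' → Λ × ℤ} {s'' : I'' → Λ × ℤ}
    {t'' : J'' → Λ × ℤ} (h1 : ∀ i, s' i = s (a.l i)) (h2 : ∀ i, t' i = t (b.l i))
    (h3 : ∀ i, s'' i = s (a.r i)) (h4 : ∀ i, t'' i = t (b.r i)) :
    Hm H d s' t' f' ∧ Hm H d s'' t'' f'' :=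
  ⟨fun i j => by rw [h1, h2, h.l]; exact k _ _, fun i j => by rw [h3, h4, h.r]; exact k _ _⟩

theorem blk_diag [DecidableEq I'] [DecidableEq I] [DecidableEq I''] (a : Spl I' I I'')
    {u' : I' → A} {u : I → A} {u'' : I'' → A} (h : ∀ i, u' i = u (a.l i))
    (h' : ∀ i, u'' i = u (a.r i)) : Blk a a (diagonal u') (diagonal u) (diagonal u'') :=
  ⟨by rw [submatrix_diagonal _ _ (b1_l a), funext h]; rfl,
    by rw [submatrix_diagonal _ _ (b1_r a), funext h']; rfl,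
    fun _ _ => diagonal_apply_ne _ fun e =>
      Sum.inr_ne_inl (a.bij.1 (a₁ := .inr _) (a₂ := .inl _) e)⟩

theorem blk_ind [DecidableEq I'] [DecidableEq I] [DecidableEq I''] (a : Spl I' I I'')
    {U' : Set I'} {U : Set I} {U'' : Set I''} (h : ∀ i, i ∈ U' ↔ a.l i ∈ U)
    (h' : ∀ i, i ∈ U'' ↔ a.r i ∈ U) : Blk a a (ind A U') (ind A U) (ind A U'') :=
  blk_diag a (fun i => by rw [propext (h i)]) fun i => by rw [propext (h' i)]

theorem blk_sg [DecidableEq I'] [DecidableEq I] [DecidableEq I''] (a : Spl I' I I'')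
    {u' : I' → ℤ} {u : I → ℤ} {u'' : I'' → ℤ} (h : ∀ i, u' i = u (a.l i))
    (h' : ∀ i, u'' i = u (a.r i)) : Blk a a (sg A u') (sg A u) (sg A u'') :=
  blk_diag a (fun i => by rw [h]) fun i => by rw [h']

theorem blk_sum (f' : Matrix I' J' A) (t : Matrix I' J'' A) (f'' : Matrix I'' J'' A) :
    Blk (Spl.sum I' I'') (Spl.sum J' J'') f' (fromBlocks f' t 0 f'') f'' :=
  ⟨rfl, rfl, fun _ _ => rfl⟩

theorem blk_of {U : I → Prop} [DecidablePred U] {U' : J → Prop} [DecidablePred U']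
    (h : ∀ i j, ¬U i → U' j → f i j = 0) :
    Blk (Spl.of U) (Spl.of U') (f.submatrix Subtype.val Subtype.val) f
      (f.submatrix Subtype.val Subtype.val) := ⟨rfl, rfl, fun i j => h _ _ i.2 j.2⟩

theorem Blk.rows {g' : Matrix K' J' A} {g : Matrix K J A} {g'' : Matrix K'' J'' A}
    (h : Blk a b f' f f'') (k : Blk c b g' g g'') :
    Blk (a.add c) b (fromRows f' g') (fromRows f g) (fromRows f'' g'') :=
  ⟨by rw [h.l, k.l]; ext (i | i) j <;> rfl, by rw [h.r, k.r]; ext (i | i) j <;> rfl,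
    by rintro (i | i) j; exacts [h.z i j, k.z i j]⟩

theorem Blk.cols {g' : Matrix I' K' A} {g : Matrix I K A} {g'' : Matrix I'' K'' A}
    (h : Blk a b f' f f'') (k : Blk a c g' g g'') :
    Blk a (b.add c) (fromCols f' g') (fromCols f g) (fromCols f'' g'') :=
  ⟨by rw [h.l, k.l]; ext i (j | j) <;> rfl, by rw [h.r, k.r]; ext i (j | j) <;> rfl,
    by rintro i (j | j); exacts [h.z i j, k.z i j]⟩

theorem Blk.blocks {L' L L'' : Type} {e : Spl L' L L''} {g' : Matrix I' K' A} {g : Matrix I K A}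
    {g'' : Matrix I'' K'' A} {u' : Matrix L' J' A} {u : Matrix L J A} {u'' : Matrix L'' J'' A}
    {x' : Matrix L' K' A} {x : Matrix L K A} {x'' : Matrix L'' K'' A} (h1 : Blk a b f' f f'')
    (h2 : Blk a c g' g g'') (h3 : Blk e b u' u u'') (h4 : Blk e c x' x x'') :
    Blk (a.add e) (b.add c) (fromBlocks f' g' u' x') (fromBlocks f g u x)
      (fromBlocks f'' g'' u'' x'') :=
  ⟨by rw [h1.l, h2.l, h3.l, h4.l]; ext (i | i) (j | j) <;> rfl,
    by rw [h1.r, h2.r, h3.r, h4.r]; ext (i | i) (j | j) <;> rfl,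
    by rintro (i | i) (j | j); exacts [h1.z i j, h2.z i j, h3.z i j, h4.z i j]⟩

theorem Blk.pr (h : Blk a b f' f f'') (k : Blk a b g' g g'') :
    Blk a b (pr f' g') (pr f g) (pr f'' g'') :=
  ⟨h.l ▸ k.l ▸ rfl, h.r ▸ k.r ▸ rfl, fun i j => Prod.ext (h.z i j) (k.z i j)⟩

/-- Matrices with more indices whose entries only depend on the entries of `f`. -/
theorem Blk.ent {B : Type w} [Ring B] {P Q : Type} (h : Blk a b f' f f'') (φ : I × P → J × Q → A → B)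
    (h0 : ∀ x y, φ x y 0 = 0) :
    Blk (a.prod P) (b.prod Q)
      (Matrix.of fun x y => φ (a.l x.1, x.2) (b.l y.1, y.2) (f' x.1 y.1))
      (Matrix.of fun x y => φ x y (f x.1 y.1))
      (Matrix.of fun x y => φ (a.r x.1, x.2) (b.r y.1, y.2) (f'' x.1 y.1)) :=
  ⟨h.l ▸ rfl, h.r ▸ rfl, fun x y => (congrArg (φ _ _) (h.z x.1 y.1)).trans (h0 _ _)⟩

section Cx

variable {H : Fam A Λ} {X' X X'' Y' Y Y'' : Cx A Λ} {a : Spl X'.J X.J X''.J}
  {b : Spl Y'.J Y.J Y''.J}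

theorem ctr_ext (X Y : Cx A Λ) (t : Matrix X.J Y.J A) : CTr X (X.ext Y t) Y (Spl.sum _ _) :=
  ⟨fun _ => rfl, fun _ => rfl, blk_sum _ _ _, blk_sum _ _ _⟩

theorem CTr.ok (h : CTr X' X X'' a) (hX : Ok H X) : Ok H X' ∧ Ok H X'' :=
  have h1 := h.p.hm hX.hp h.tl h.tl h.tr h.tr
  have h2 := h.D.hm hX.hD h.tl h.tl h.tr h.tr
  have h3 := (h.p.mul h.p).eq (hX.pp.symm ▸ h.p)
  have h4 := (h.p.mul h.D).eq (hX.pD.symm ▸ h.D)
  have h5 := (h.D.mul h.p).eq (hX.Dp.symm ▸ h.D)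
  have h6 := (h.D.mul h.D).eq (hX.DD.symm ▸ Blk.zero a a)
  ⟨⟨h1.1, h2.1, h3.1, h4.1, h5.1, h6.1⟩, h1.2, h2.2, h3.2, h4.2, h5.2, h6.2⟩

theorem CTr.nul (h : CTr X' X X'' a) {w : A} {s : Matrix X.J X.J A} (hs : Hm H 1 X.t X.t s)
    (e : X.D * s + s * X.D = w • X.p) (hz : ∀ i j, s (a.r i) (a.l j) = 0) :
    Nul H w X' ∧ Nul H w X'' :=
  have k := b1_blk hz
  have h1 := k.hm hs h.tl h.tl h.tr h.tr
  have h2 := ((h.D.mul k).add (k.mul h.D)).eq (e.symm ▸ h.p.smul w)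
  ⟨⟨_, h1.1, h2.1⟩, _, h1.2, h2.2⟩

theorem CTr.sh (h : CTr X' X X'' a) (n : ℤ) : CTr (X'.sh n) (X.sh n) (X''.sh n) a :=
  ⟨fun i => by simp only [h.tl], fun i => by simp only [h.tr], h.p, h.D.neg⟩

theorem CTr.ext (h : CTr X' X X'' a) (k : CTr Y' Y Y'' b) {t' : Matrix X'.J Y'.J A}
    {t : Matrix X.J Y.J A} {t'' : Matrix X''.J Y''.J A} (ht : Blk a b t' t t'') :
    CTr (X'.ext Y' t') (X.ext Y t) (X''.ext Y'' t'') (a.add b) :=
  ⟨by rintro (i | i); exacts [h.tl i, k.tl i], by rintro (i | i); exacts [h.tr i, k.tr i],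
    h.p.blocks (.zero a b) (.zero b a) k.p, h.D.blocks ht (.zero b a) k.D⟩

/-- A block triangular complex is a degreewise split extension. -/
theorem CTr.ses (hH : LR H) (h : CTr X' X X'' a) (hX : Ok H X) :
    Ch H X X' (X.p.submatrix id a.l) ∧ Ch H X'' X (X.p.submatrix a.r id) ∧
    Mp H 0 X' X (X'.p * X.p.submatrix a.l id) ∧ Mp H 0 X X'' (X.p.submatrix id a.r * X''.p) ∧
    X'.p * X.p.submatrix a.l id * X.p.submatrix id a.l = X'.p ∧
    X.p.submatrix a.r id * (X.p.submatrix id a.r * X''.p) = X''.p ∧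
    X.p.submatrix id a.l * (X'.p * X.p.submatrix a.l id) +
      X.p.submatrix id a.r * X''.p * X.p.submatrix a.r id = X.p := by
  obtain ⟨o', o''⟩ := h.ok hX
  have s : ∀ {L M : Type} (f g : Matrix X.J X.J A) (x : L → X.J) (y : M → X.J),
      f.submatrix x id * g.submatrix id y = (f * g).submatrix x y := fun _ _ _ _ => rfl
  have e1 := b1_mul a X.p X.p id a.l
  have e2 := b1_mul a X.p X.D id a.l
  have e3 := b1_mul a X.p X.p a.r id
  have e4 := b1_mul a X.D X.p a.r id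
  have e5 := b1_mul a X.p X.p id id
  rw [hX.pp, b1_z h.p, Matrix.mul_zero, add_zero, ← h.p.l] at e1
  rw [hX.pD, b1_z h.D, Matrix.mul_zero, add_zero, ← h.D.l] at e2
  rw [hX.pp, b1_z h.p, Matrix.zero_mul, zero_add, ← h.p.r] at e3
  rw [hX.Dp, b1_z h.D, Matrix.zero_mul, zero_add, ← h.D.r] at e4
  rw [hX.pp] at e5
  refine ⟨⟨⟨fun i j => h.tl j ▸ hX.hp _ _, (s _ _ id _).trans (by rw [hX.pp]), e1.symm⟩,
      (s _ _ id _).trans (by rw [hX.Dp, e2])⟩,
    ⟨⟨fun i j => h.tr i ▸ hX.hp _ _, e3.symm, (s _ _ _ id).trans (by rw [hX.pp])⟩,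
      e4.symm.trans ((s _ _ _ id).trans (by rw [hX.pD])).symm⟩,
    ⟨o'.hp.mul hH (d' := 0) (fun i j => h.tl i ▸ hX.hp _ _) rfl, by rw [← Matrix.mul_assoc, o'.pp],
      by rw [Matrix.mul_assoc]; exact congrArg _ ((s _ _ _ id).trans (by rw [hX.pp]))⟩,
    ⟨Hm.mul hH (d := 0) (fun i j => h.tr j ▸ hX.hp _ _) o''.hp rfl,
      by rw [← Matrix.mul_assoc]; exact congrArg (· * _) ((s _ _ id _).trans (by rw [hX.pp])),
      by rw [Matrix.mul_assoc, o''.pp]⟩, ?_, ?_, ?_⟩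
  · rw [Matrix.mul_assoc, s, hX.pp, ← h.p.l, o'.pp]
  · rw [← Matrix.mul_assoc, s, hX.pp, ← h.p.r, o''.pp]
  · rw [← Matrix.mul_assoc, ← e1, Matrix.mul_assoc, ← e3, ← e5, submatrix_id_id]

end Cx

end Pool.Agent.MP_f7db47_al.GR

end

section

/-!
The constructions on systems, and matrices of pairs.
-/

namespace Pool.Agent.MP_f7db47_al.GR

open Matrix KN Polynomial

universe v w

section Fam

variable {A : Type v} [Ring A] {Λ : Type} {H H' : Fam A Λ}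

theorem lr_gr (Γ : Type) (h : LR H) : LR (grF Γ H) := fun _ _ _ _ _ hx hy =>
  ⟨h hx.1 hy.1, fun e => (hx.2 (left_ne_zero_of_mul e)).trans (hy.2 (right_ne_zero_of_mul e))⟩

theorem lr_f (h : LR H) : LR (fF H) := fun _ _ _ _ _ hx hy => ⟨h hx.1 hy.1, h hx.2 hy.2⟩

theorem lr_e (h : LR H) : LR (eF H) := fun a b c x y hx hy => by
  have k : b.2 < a.2 ∨ c.2 < b.2 → x * y = 0 := fun e =>
    e.elim (fun e => by rw [hx.2.2.2 e, zero_mul]) fun e => by rw [hy.2.2.2 e, mul_zero]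
  refine ⟨h hx.1 hy.1, h hx.2.1 hy.2.1, fun e => ?_, fun e => k (by omega)⟩
  by_cases e' : b.2 < a.2 ∨ c.2 < b.2
  · rw [k e']
    rfl
  · exact congrArg₂ (· * ·) (hx.2.2.1 (by omega)) (hy.2.2.1 (by omega))

theorem lr_p (h : LR H) : LR (pF H) := fun _ _ _ _ _ hx hy n => by
  rw [coeff_mul]
  exact sum_mem fun _ _ => h (hx _) (hy _)

theorem lr_b (h : LR H) : LR (bF H) := fun _ _ _ x y hx hy =>
  ⟨lr_p h hx.1 hy.1, lr_p h hx.2.1 hy.2.1, by
    rw [Prod.fst_mul, Prod.snd_mul, mul_coeff_zero, mul_coeff_zero, hx.2.2, hy.2.2]⟩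

theorem gr_mono (Γ : Type) (h : H ≤ H') : grF Γ H ≤ grF Γ H' :=
  fun _ _ _ hx => ⟨h _ _ hx.1, hx.2⟩

theorem e_mono (h : H ≤ H') : eF H ≤ eF H' :=
  fun _ _ _ hx => ⟨h _ _ hx.1, h _ _ hx.2.1, hx.2.2⟩

theorem b_mono (h : H ≤ H') : bF H ≤ bF H' :=
  fun _ _ _ hx => ⟨fun n => h _ _ (hx.1 n), fun n => h _ _ (hx.2.1 n), hx.2.2⟩

theorem e_le_f : eF H ≤ fF H := fun _ _ _ hx => ⟨hx.1, hx.2.1⟩

theorem sc_gr (Γ : Type) {w : A} (h : Sc H w) : Sc (grF Γ H) w :=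
  ⟨h.1, fun _ _ _ hx => ⟨h.2 hx.1, fun e => hx.2 (right_ne_zero_of_mul e)⟩⟩

theorem sc_e {w : A} (h : Sc H w) : Sc (eF H) (w, w) :=
  ⟨fun _ => Prod.ext (h.1 _) (h.1 _), fun _ _ _ hx => ⟨h.2 hx.1, h.2 hx.2.1,
    fun c => congrArg (w * ·) (hx.2.2.1 c), fun c => by rw [hx.2.2.2 c, mul_zero]⟩⟩

theorem sc_p {w : A} (h : Sc H w) : Sc (pF H) (C w) :=
  ⟨fun _ => Polynomial.ext fun n => by rw [coeff_C_mul, coeff_mul_C, h.1], fun _ _ _ hx n => by
    rw [coeff_C_mul]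
    exact h.2 (hx n)⟩

theorem sc_b {w : A} (h : Sc H w) : Sc (bF H) (C w, C w) :=
  ⟨fun _ => Prod.ext ((sc_p h).1 _) ((sc_p h).1 _), fun _ _ x hx =>
    ⟨(sc_p h).2 hx.1, (sc_p h).2 hx.2.1, by
      rw [Prod.fst_mul, Prod.snd_mul, coeff_C_mul, coeff_C_mul, hx.2.2]⟩⟩

theorem sc_pX : Sc (pF H) (X : A[X]) :=
  ⟨fun _ => X_mul, fun _ _ _ hx n => by
    rcases n with _ | n
    · rw [coeff_X_mul_zero]
      exact zero_mem _
    · rw [coeff_X_mul]
      exact hx n⟩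

theorem sc_pX' : Sc (pF H) (1 - X : A[X]) :=
  ⟨fun _ => by rw [sub_mul, mul_sub, one_mul, mul_one, X_mul], fun _ _ _ hx => by
    rw [sub_mul, one_mul]
    exact sub_mem hx (sc_pX.2 hx)⟩

theorem sc_bX : Sc (bF H) ((X, X) : A[X] × A[X]) :=
  ⟨fun _ => Prod.ext X_mul X_mul, fun _ _ x hx => ⟨sc_pX.2 hx.1, sc_pX.2 hx.2.1, by
    rw [Prod.fst_mul, Prod.snd_mul, coeff_X_mul_zero, coeff_X_mul_zero]⟩⟩

end Fam

theorem Sys.Good.B {𝒮 : Sys.{v}} (h : 𝒮.Good) : 𝒮.B.Good := by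
  have k : ∀ b i j x, x ∈ pF 𝒮.H i j → mapRingHom (𝒮.Δ b) x ∈ pF 𝒮.H i j := fun b i j x hx n => by
    rw [coe_mapRingHom, coeff_map]
    exact h.dH b (hx n)
  have k' : ∀ b x, mapRingHom (𝒮.Δ b) (mapRingHom (𝒮.Δ b) x) = mapRingHom (𝒮.Δ b) x :=
    fun b x => Polynomial.ext fun n => by
      rw [coe_mapRingHom, coeff_map, coeff_map, h.dd]
  refine ⟨lr_b h.mul, ?_, ?_, ?_, fun b i j x hx => ⟨k b i j _ hx.1, k b i j _ hx.2.1, ?_⟩,
    fun b x => Prod.ext (k' b _) (k' b _)⟩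
  · rintro (_ | a)
    exacts [lr_b h.mul, lr_b (h.mulL a)]
  · rintro (_ | a)
    exacts [le_rfl, b_mono (h.le a)]
  · rintro (_ | a) w ⟨n, hn⟩
    · exact hn ▸ sc_bX.pow n
    · exact hn.2 ▸ sc_b (h.sc a n hn.1)
  · change (x.1.map (𝒮.Δ b)).coeff 0 = (x.2.map (𝒮.Δ b)).coeff 0
    rw [coeff_map, coeff_map, hx.2.2]

theorem Sys.Good.E {𝒮 : Sys.{v}} (h : 𝒮.Good) : 𝒮.E.Good := by
  refine ⟨lr_e h.mul, ?_, ?_, ?_, ?_, ?_⟩
  · rintro (_ | a)
    exacts [lr_f h.mul, lr_e (h.mulL a)]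
  · rintro (_ | a)
    exacts [e_le_f, e_mono (h.le a)]
  · rintro (_ | a) w hw
    · exact Submonoid.mem_bot.1 hw ▸ Sc.one
    · obtain ⟨n, hn⟩ := hw
      exact hn.2 ▸ sc_e (h.sc a n hn.1)
  · rintro (_ | b) i j x hx
    · exact ⟨hx.1, hx.1, fun _ => rfl, fun c => by rw [hx.2.2.2 c, map_zero]⟩
    · exact ⟨h.dH b hx.1, h.dH b hx.2.1, fun c => congrArg (𝒮.Δ b) (hx.2.2.1 c),
        fun c => by rw [hx.2.2.2 c, map_zero]⟩
  · rintro (_ | b) x
    exacts [rfl, Prod.ext (h.dd b _) (h.dd b _)]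

theorem Sys.Good.gr {𝒮 : Sys.{v}} (h : 𝒮.Good) (Γ : Type) : (𝒮.gr Γ).Good :=
  ⟨lr_gr Γ h.mul, fun a => lr_gr Γ (h.mulL a), fun a => gr_mono Γ (h.le a),
    fun a w hw => sc_gr Γ (h.sc a w hw), fun b _ _ _ hx =>
      ⟨h.dH b hx.1, fun e => hx.2 fun c => e (by rw [c, map_zero])⟩, h.dd⟩

theorem Sys.Good.En {𝒮 : Sys.{v}} (h : 𝒮.Good) (j : ℕ) : (𝒮.En j).Good := by
  induction j with
  | zero => exact h
  | succ j ih => exact ih.E

section Pr

variable {A : Type v} [Ring A] {Λ I J K : Type} {H : Fam A Λ}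

theorem br_pr (f g : Matrix I J A) (ε : Bool) : (pr f g).map (br A ε) = cond ε g f := by
  cases ε <;> rfl

theorem pr_br (f : Matrix I J (A × A)) : pr (f.map (br A false)) (f.map (br A true)) = f := rfl

theorem br_ext {f g : Matrix I J (A × A)} (h : ∀ ε, f.map (br A ε) = g.map (br A ε)) : f = g := by
  rw [← pr_br f, h, h, pr_br]

theorem pr_zero : pr (0 : Matrix I J A) 0 = 0 := rfl

theorem pr_add (f g f' g' : Matrix I J A) : pr f g + pr f' g' = pr (f + f') (g + g') := rfl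

theorem pr_neg (f g : Matrix I J A) : -pr f g = pr (-f) (-g) := rfl

theorem pr_sub (f g f' g' : Matrix I J A) : pr f g - pr f' g' = pr (f - f') (g - g') := rfl

theorem pr_mul [Fintype J] (f g : Matrix I J A) (f' g' : Matrix J K A) :
    pr f g * pr f' g' = pr (f * f') (g * g') :=
  br_ext fun ε => by
    rw [Matrix.map_mul, br_pr, br_pr, br_pr]
    cases ε <;> rfl

theorem pr_smul (a b : A) (f g : Matrix I J A) : (a, b) • pr f g = pr (a • f) (b • g) := rfl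

theorem pr_blocks {I' J' : Type} (a a' : Matrix I J A) (b b' : Matrix I J' A) (c c' : Matrix I' J A)
    (d d' : Matrix I' J' A) : fromBlocks (pr a a') (pr b b') (pr c c') (pr d d') =
      pr (fromBlocks a b c d) (fromBlocks a' b' c' d') := by
  funext i j
  rcases i with i | i <;> rcases j with j | j <;> rfl

theorem map_smul' {B : Type w} [Ring B] (φ : A →+* B) (a : A) (f : Matrix I J A) :
    (a • f).map φ = φ a • f.map φ := Matrix.ext fun _ _ => φ.map_mul _ _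

theorem hm_f {d : ℤ} {s : I → (Λ × ℤ) × ℤ} {t : J → (Λ × ℤ) × ℤ} {f : Matrix I J (A × A)} :
    Hm (fF H) d s t f ↔ ∀ ε, Hm H d (fun i => ((s i).1.1, (s i).2)) (fun j => ((t j).1.1, (t j).2))
      (f.map (br A ε)) := by
  refine ⟨fun h ε i j => ⟨?_, fun e => (h i j).2 fun c => e (by rw [map_apply, c, map_zero])⟩,
    fun h i j => ⟨⟨(h false i j).1, (h true i j).1⟩, fun e => ?_⟩⟩
  · cases ε
    exacts [(h i j).1.1, (h i j).1.2]
  · by_cases c : (f i j).1 = 0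
    exacts [(h true i j).2 fun c' => e (Prod.ext c c'), (h false i j).2 c]

theorem hm_e {d : ℤ} {s : I → (Λ × ℤ) × ℤ} {t : J → (Λ × ℤ) × ℤ} {f : Matrix I J (A × A)} :
    Hm (eF H) d s t f ↔ Hm (fF H) d s t f ∧ ∀ i j, ((s i).1.2 = (t j).1.2 → (f i j).1 = (f i j).2) ∧
      ((t j).1.2 < (s i).1.2 → f i j = 0) :=
  ⟨fun h => ⟨h.mono e_le_f, fun i j => (h i j).1.2.2⟩,
    fun h i j => ⟨⟨(h.1 i j).1.1, (h.1 i j).1.2, h.2 i j⟩, (h.1 i j).2⟩⟩

theorem low_e {d : ℤ} {s : I → (Λ × ℤ) × ℤ} {t : J → (Λ × ℤ) × ℤ} {f : Matrix I J (A × A)}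
    (h : Hm (eF H) d s t f) : Low (fun i => (s i).1.2) (fun j => (t j).1.2) f :=
  fun i j e => not_lt.1 fun c => e ((h i j).1.2.2.2 c)

variable {Y : Cx (A × A) (Λ × ℤ)}

/-- A complex of pairs is contractible if both branches are. -/
theorem nul_f : Nul (fF H) 1 Y ↔ ∀ ε, Nul H 1 ((zb ε Y).lab Prod.fst) := by
  refine ⟨fun ⟨s, h1, h2⟩ ε => ⟨s.map (br A ε), hm_f.1 h1 ε, ?_⟩, fun h => ?_⟩
  · have := congrArg (·.map (br A ε)) h2
    simp only [one_smul, Matrix.map_add _ (map_add (br A ε)), Matrix.map_mul] at this ⊢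
    exact this
  · obtain ⟨s, h1, h2⟩ := h false
    obtain ⟨s', h1', h2'⟩ := h true
    refine ⟨pr s s', hm_f.2 fun ε => ?_, br_ext fun ε => ?_⟩
    · cases ε
      exacts [h1, h1']
    · rw [one_smul] at h2 h2' ⊢
      rw [Matrix.map_add _ (map_add (br A ε)), Matrix.map_mul, Matrix.map_mul]
      cases ε
      exacts [h2, h2']

theorem g3_z {d : ℤ} {f : Matrix Y.J Y.J (A × A)} (h : Hm (eF H) d Y.t Y.t f) (c : ℤ) (i j : Y.J)
    (hi : ¬lv Y i ≤ c) (hj : lv Y j ≤ c) : f i j = 0 :=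
  (h i j).1.2.2.2 (lt_of_le_of_lt hj (not_le.1 hi))

theorem g3_ctr (h : Ok (eF H) Y) (c : ℤ) :
    CTr (leE c Y) Y (gtE c Y) (Spl.of fun i => lv Y i ≤ c) :=
  ⟨fun _ => rfl, fun _ => rfl, blk_of (g3_z h.hp c), blk_of (g3_z h.hD c)⟩

theorem g3_nul {w : A × A} (hY : Ok (eF H) Y) (h : Nul (eF H) w Y) (c : ℤ) :
    Nul (eF H) w (leE c Y) ∧ Nul (eF H) w (gtE c Y) := by
  obtain ⟨s, h1, h2⟩ := h
  exact (g3_ctr hY c).nul h1 h2 fun i j => g3_z h1 c _ _ i.2 j.2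

theorem g3_up (c : ℤ) ⦃a b : Λ × ℤ⦄ ⦃x : A × A⦄ (h : x ∈ eF H a b) :
    x ∈ eF H (a.1, a.2 + c) (b.1, b.2 + c) :=
  ⟨h.1, h.2.1, fun e => h.2.2.1 (add_right_cancel e), fun e => h.2.2.2 (lt_of_add_lt_add_right e)⟩

theorem ok_le (h : Ok (eF H) Y) (c : ℤ) : Ok (eF H) (leE c Y) := ((g3_ctr h c).ok h).1

theorem ok_gt (h : Ok (eF H) Y) (c : ℤ) : Ok (eF H) (gtE c Y) := ((g3_ctr h c).ok h).2

theorem nul_le {w : A × A} (hY : Ok (eF H) Y) (h : Nul (eF H) w Y) (c : ℤ) :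
    Nul (eF H) w (leE c Y) := (g3_nul hY h c).1

theorem nul_gt {w : A × A} (hY : Ok (eF H) Y) (h : Nul (eF H) w Y) (c : ℤ) :
    Nul (eF H) w (gtE c Y) := (g3_nul hY h c).2

theorem ok_up (h : Ok (eF H) Y) (c : ℤ) : Ok (eF H) (upE c Y) :=
  h.lab (π := fun a => (a.1, a.2 + c)) (g3_up c)

theorem nul_up {w : A × A} (h : Nul (eF H) w Y) (c : ℤ) : Nul (eF H) w (upE c Y) :=
  h.lab (π := fun a => (a.1, a.2 + c)) (g3_up c)

end Pr

variable {𝒮 : Sys.{v}} {Y : Cx (𝒮.A × 𝒮.A) (𝒮.Λ × ℤ)}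

theorem ob_E : Ob 𝒮.E Y ↔ Ok (eF 𝒮.H) Y ∧ Nul (fF 𝒮.H) 1 Y ∧ TorE 𝒮 Y := by
  refine ⟨fun h => ⟨h.ok, ?_, fun a => ?_⟩, fun h => ⟨h.1, ?_⟩⟩
  · obtain ⟨w, hw, k⟩ := h.tor none
    exact Submonoid.mem_bot.1 hw ▸ k
  · obtain ⟨_, ⟨w, hw, rfl⟩, k⟩ := h.tor (some a)
    exact ⟨w, hw, k⟩
  · rintro (_ | a)
    · exact ⟨1, one_mem _, h.2.1⟩
    · obtain ⟨w, hw, k⟩ := h.2.2 a
      exact ⟨_, ⟨w, hw, rfl⟩, k⟩

theorem TorE.le (hS : 𝒮.Good) (hY : Ok (eF 𝒮.H) Y) (h : TorE 𝒮 Y) (c : ℤ) : TorE 𝒮 (leE c Y) :=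
  fun a => (h a).imp fun _ k => ⟨k.1, nul_le (hY.mono (e_mono (hS.le a))) k.2 c⟩

theorem TorE.gt (hS : 𝒮.Good) (hY : Ok (eF 𝒮.H) Y) (h : TorE 𝒮 Y) (c : ℤ) : TorE 𝒮 (gtE c Y) :=
  fun a => (h a).imp fun _ k => ⟨k.1, nul_gt (hY.mono (e_mono (hS.le a))) k.2 c⟩

theorem TorE.up (h : TorE 𝒮 Y) (c : ℤ) : TorE 𝒮 (upE c Y) :=
  fun a => (h a).imp fun _ k => ⟨k.1, nul_up k.2 c⟩

end Pool.Agent.MP_f7db47_al.GR

end

section

/-!
Truncation of polynomial matrices.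
-/

namespace Pool.Agent.MP_f7db47_al.GR

open Matrix KN Polynomial

universe v w

variable {A : Type v} [Ring A] {Λ I I' K L : Type} {H : Fam A Λ} {n n' : ℕ}

theorem dn_add (f g : Matrix I K A[X]) : dn n (f + g) = dn n f + dn n g := by
  ext x k
  simp [dn]

theorem dn_neg (f : Matrix I K A[X]) : dn n (-f) = -dn n f := by
  ext x k
  simp [dn]

theorem dn_sub (f g : Matrix I K A[X]) : dn n (f - g) = dn n f - dn n g := by
  ext x k
  simp [dn]

theorem dn_zero : dn n (0 : Matrix I K A[X]) = 0 := by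
  ext x k
  simp [dn]

theorem dn_pow (f : Matrix I K A[X]) : dn n ((X ^ n : A[X]) • f) = 0 := by
  ext x k
  simp [dn, coeff_X_pow_mul']

theorem dn_C (w : A) (f : Matrix I K A[X]) : dn n ((C w : A[X]) • f) = w • dn n f := by
  ext x k
  simp [dn]

theorem dn_mul_C [Fintype K] (f : Matrix I K A[X]) (g : Matrix K L A) :
    dn n (f * g.map C) = dn n f * g := by
  ext x k
  simp [dn, Matrix.mul_apply]

theorem g4_div (p : A[X]) (n m : ℕ) : (divX^[n] p).coeff m = p.coeff (m + n) := by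
  induction n generalizing m with
  | zero => rfl
  | succ n ih => rw [Function.iterate_succ_apply', coeff_divX, ih, add_assoc, add_comm 1]

theorem sd_add (f g : Matrix I K A[X]) : sd n (f + g) = sd n f + sd n g := by
  ext i k m
  simp [sd, g4_div]

theorem sd_zero : sd n (0 : Matrix I K A[X]) = 0 := by
  ext i k m
  simp [sd, g4_div]

theorem sd_pow (f : Matrix I K A[X]) : sd n ((X ^ n : A[X]) • f) = f := by
  ext i k m
  simp [sd, g4_div]

theorem sd_mul_C [Fintype K] (f : Matrix I K A[X]) (g : Matrix K L A) :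
    sd n (f * g.map C) = sd n f * g.map C := by
  ext i k m
  simp [sd, g4_div, Matrix.mul_apply]

theorem coeff_sd (f : Matrix I K A[X]) (i : I) (k : K) (m : ℕ) :
    (sd n f i k).coeff m = (f i k).coeff (m + n) := g4_div _ _ _

theorem pow_smul_inj {f g : Matrix I K A[X]} (h : (X ^ n : A[X]) • f = (X ^ n : A[X]) • g) :
    f = g := by
  rw [← sd_pow (n := n) f, h, sd_pow]

theorem eq_pow_of_dn {f : Matrix I K A[X]} (h : dn n f = 0) : (X ^ n : A[X]) • sd n f = f := by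
  ext i k m
  rw [Matrix.smul_apply, smul_eq_mul, coeff_X_pow_mul', coeff_sd]
  split_ifs with c
  · rw [Nat.sub_add_cancel c]
  · exact (congrFun₂ h (i, ⟨m, not_le.1 c⟩) k).symm

theorem dn_map {δ : A →+* A} (f : Matrix I K A[X]) :
    dn n (f.map (mapRingHom δ)) = (dn n f).map δ := by
  ext x k
  simp [dn]

theorem sd_map {δ : A →+* A} (f : Matrix I K A[X]) :
    sd n (f.map (mapRingHom δ)) = (sd n f).map (mapRingHom δ) := by
  ext i k m
  simp [sd, g4_div]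

theorem hm_dn {d : ℤ} {s : I → Λ × ℤ} {t : K → Λ × ℤ} {f : Matrix I K A[X]}
    (h : Hm (pF H) d s t f) : Hm H d (fun x : I × Fin n => s x.1) t (dn n f) :=
  fun x k => ⟨(h x.1 k).1 _, fun e => (h x.1 k).2 fun e1 => e (by simp [dn, e1])⟩

theorem hm_sd {d : ℤ} {s : I → Λ × ℤ} {t : K → Λ × ℤ} {f : Matrix I K A[X]}
    (h : Hm (pF H) d s t f) : Hm (pF H) d s t (sd n f) :=
  fun i k => ⟨fun m => coeff_sd f i k m ▸ (h i k).1 _, fun e => (h i k).2 fun e1 => e (by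
    ext m
    simp [coeff_sd, e1])⟩

theorem hm_C {d : ℤ} {s : I → Λ × ℤ} {t : K → Λ × ℤ} {g : Matrix I K A} (h : Hm H d s t g) :
    Hm (pF H) d s t (g.map C) :=
  fun i k => ⟨fun m => by
    rw [Matrix.map_apply, coeff_C]
    split_ifs
    exacts [(h i k).1, zero_mem _], fun e => (h i k).2 fun e1 => e (by simp [e1])⟩

variable [Fintype I] [DecidableEq I]

theorem mul_up_apply (f : Matrix I' I A[X]) (i : I') (x : I × Fin n) :
    (f * up1 A I n) i x = f i x.1 * X ^ (x.2 : ℕ) := by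
  simp [up1, Matrix.mul_apply]

theorem tz_apply (f : Matrix I' I A[X]) (x' : I' × Fin n') (x : I × Fin n) :
    tz n' n f x' x = (f x'.1 x.1 * X ^ (x.2 : ℕ)).coeff x'.2 := by
  rw [← mul_up_apply]
  rfl

theorem g4_up (g : Matrix (I × Fin n) K A) (i : I) (k : K) (m : ℕ) :
    ((up1 A I n * g.map C) i k).coeff m = if h : m < n then g (i, ⟨m, h⟩) k else 0 := by
  simp only [Matrix.mul_apply, finsetSum_coeff, Matrix.map_apply, coeff_mul_C, up1]
  split_ifs with c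
  · rw [Finset.sum_eq_single (i, ⟨m, c⟩)]
    · simp
    · rintro ⟨j, l⟩ - e
      split_ifs with e1
      · rw [coeff_X_pow, if_neg, zero_mul]
        exact fun e2 => e (Prod.ext e1.symm (Fin.ext e2.symm))
      · simp
    · simp
  · refine Finset.sum_eq_zero fun x _ => ?_
    split_ifs
    · rw [coeff_X_pow, if_neg, zero_mul]
      exact fun e2 => c (e2 ▸ x.2.2)
    · simp

theorem up_dn (f : Matrix I K A[X]) :
    up1 A I n * (dn n f).map C + (X ^ n : A[X]) • sd n f = f := by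
  ext i k m
  rw [Matrix.add_apply, coeff_add, g4_up, Matrix.smul_apply, smul_eq_mul, coeff_X_pow_mul',
    coeff_sd]
  by_cases c : m < n
  · simp [c, dn, c.not_ge]
  · simp [c, not_lt.1 c]

theorem dn_up (g : Matrix (I × Fin n) K A) : dn n (up1 A I n * g.map C) = g := by
  ext x k
  simp [dn, g4_up]

theorem dn_mul (h : n' ≤ n) (f : Matrix I' I A[X]) (g : Matrix I K A[X]) :
    dn n' (f * g) = tz n' n f * dn n g := by
  have e : dn n' (f * ((X ^ n : A[X]) • sd n g)) = 0 := by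
    rw [mul_smul_cen fun _ => X_pow_mul, ← Nat.add_sub_cancel' h, pow_add, mul_smul, dn_pow]
  conv_lhs => rw [← up_dn (n := n) g, Matrix.mul_add, dn_add, e, add_zero, ← Matrix.mul_assoc,
    dn_mul_C]
  rfl

theorem tz_mul [Fintype K] [DecidableEq K] (f : Matrix I' I A[X]) (g : Matrix I K A[X]) :
    tz n n (f * g) = tz n n f * tz n n g := by
  rw [tz, Matrix.mul_assoc, dn_mul le_rfl]
  rfl

theorem tz_add (f g : Matrix I' I A[X]) : tz n' n (f + g) = tz n' n f + tz n' n g := by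
  rw [tz, Matrix.add_mul, dn_add]
  rfl

theorem tz_zero : tz n' n (0 : Matrix I' I A[X]) = 0 := by
  rw [tz, Matrix.zero_mul, dn_zero]

theorem tz_C (w : A) (f : Matrix I' I A[X]) : tz n' n ((C w : A[X]) • f) = w • tz n' n f := by
  rw [tz, Matrix.smul_mul, dn_C]
  rfl

theorem up_map {δ : A →+* A} : (up1 A I n).map (mapRingHom δ) = up1 A I n := by
  ext1 i x
  simp only [up1, Matrix.map_apply]
  split_ifs <;> simp

theorem tz_map {δ : A →+* A} (f : Matrix I' I A[X]) :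
    tz n' n (f.map (mapRingHom δ)) = (tz n' n f).map δ := by
  rw [tz, tz, ← dn_map, Matrix.map_mul, up_map]

theorem hm_mul_up {d : ℤ} {s : I' → Λ × ℤ} {t : I → Λ × ℤ} {f : Matrix I' I A[X]}
    (h : Hm (pF H) d s t f) : Hm (pF H) d s (fun x : I × Fin n => t x.1) (f * up1 A I n) :=
  fun i x => ⟨fun m => by
    rw [mul_up_apply, coeff_mul_X_pow']
    split_ifs
    exacts [(h i x.1).1 _, zero_mem _],
  fun e => (h i x.1).2 fun e1 => e (by rw [mul_up_apply, e1, zero_mul])⟩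

theorem hm_up_mul {d : ℤ} {s : I → Λ × ℤ} {t : K → Λ × ℤ} {g : Matrix (I × Fin n) K A}
    (h : Hm H d (fun x => s x.1) t g) : Hm (pF H) d s t (up1 A I n * g.map C) :=
  fun i k => ⟨fun m => by
    rw [g4_up]
    split_ifs
    exacts [(h (i, _) k).1, zero_mem _], fun e => by
    by_contra c
    refine e (Polynomial.ext fun m => ?_)
    rw [g4_up, coeff_zero]
    split_ifs with e1
    exacts [by_contra fun e2 => c ((h (i, ⟨m, e1⟩) k).2 e2), rfl]⟩

theorem hm_tz {d : ℤ} {s : I' → Λ × ℤ} {t : I → Λ × ℤ} {f : Matrix I' I A[X]}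
    (h : Hm (pF H) d s t f) :
    Hm H d (fun x : I' × Fin n' => s x.1) (fun x : I × Fin n => t x.1) (tz n' n f) :=
  hm_dn (hm_mul_up h)

variable {Z : Cx A[X] Λ} {N : ℕ} {h : Matrix Z.J Z.J A[X]}

theorem ok_T1 (hZ : Ok (pF H) Z) (n : ℕ) : Ok H (T1 n Z) :=
  ⟨hm_tz hZ.hp, hm_tz hZ.hD, by rw [← tz_mul, hZ.pp], by rw [← tz_mul, hZ.pD],
    by rw [← tz_mul, hZ.Dp], by rw [← tz_mul, hZ.DD, tz_zero]⟩

theorem up_del (Z : Cx A[X] Λ) (n : ℕ) : Z.D * up1 A Z.J n =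
    up1 A Z.J n * (tz n n Z.D).map C + (X ^ n : A[X]) • sd n (Z.D * up1 A Z.J n) :=
  (up_dn _).symm

theorem del_anti (hD : Z.D * Z.D = 0) (n : ℕ) : Z.D * sd n (Z.D * up1 A Z.J n) =
    -(sd n (Z.D * up1 A Z.J n) * (tz n n Z.D).map C) := by
  have e : dn n (Z.D * up1 A Z.J n * (tz n n Z.D).map C) = 0 := by
    rw [dn_mul_C]
    exact (tz_mul _ _).symm.trans (by rw [hD, tz_zero])
  have e1 := congrArg (Z.D * ·) (up_del Z n)
  simp only [Matrix.mul_add, ← Matrix.mul_assoc, hD, Matrix.zero_mul] at e1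
  rw [mul_smul_cen fun _ => X_pow_mul, ← eq_pow_of_dn e, sd_mul_C, ← smul_add] at e1
  exact eq_neg_of_add_eq_zero_right (pow_smul_inj (n := n) (e1.symm.trans (smul_zero _).symm))

theorem th_ch (hH : LR H) (hZ : Ok (pF H) Z) (hh : Wit1 H Z N h) (hn : N ≤ n) :
    Ch H (T1 (n + 1) Z) (T1 n Z) (th n N Z h) := by
  have o := ok_T1 hZ n
  have s : Sc (pF H) ((1 - X) * X ^ (n - N) : A[X]) := sc_pX'.mul (sc_pX.pow _)
  have e : Z.D * th0 n N Z h = th0 n N Z h * (tz n n Z.D).map C +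
      (X ^ (n + 1) : A[X]) • (Z.p * sd n (Z.D * up1 A Z.J n)) := by
    have e1 := congrArg (Z.p * ·) (up_del Z n)
    have e2 := congrArg (fun u => ((1 - X) * X ^ (n - N) : A[X]) • (u * sd n (Z.D * up1 A Z.J n)))
      hh.2
    have e3 : ((1 - X) * X ^ (n - N) * X ^ N : A[X]) = X ^ n - X ^ (n + 1) := by
      rw [mul_assoc, ← pow_add, Nat.sub_add_cancel hn, sub_mul, one_mul, ← pow_succ']
    simp only [Matrix.mul_add, ← Matrix.mul_assoc, hZ.pD,
      mul_smul_cen (w := (X ^ n : A[X])) fun _ => X_pow_mul] at e1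
    simp only [Matrix.add_mul, Matrix.mul_assoc, del_anti hZ.DD, Matrix.smul_mul, smul_smul,
      smul_add, e3, Matrix.mul_neg, smul_neg, sub_smul] at e2
    rw [th0, Matrix.mul_sub, Matrix.sub_mul, mul_smul_cen s.1, ← Matrix.mul_assoc, hZ.Dp,
      Matrix.smul_mul, Matrix.mul_assoc h, eq_sub_of_add_eq e2, ← sub_eq_iff_eq_add.2 e1]
    abel
  refine ⟨⟨(hm_dn ((hm_mul_up hZ.hp).sub (((hh.1.hm.mul (lr_p hH) (hm_sd (hm_mul_up hZ.hD))
    (by omega))).smul s))).mul hH o.hp rfl, ?_, ?_⟩, ?_⟩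
  · rw [th, ← Matrix.mul_assoc, ← dn_mul le_rfl, th0, Matrix.mul_sub, mul_smul_cen s.1,
      ← Matrix.mul_assoc, ← Matrix.mul_assoc, hZ.pp, hh.1.pl]
  · rw [th, Matrix.mul_assoc, o.pp]
  · rw [th, Matrix.mul_assoc, o.pD, ← Matrix.mul_assoc, ← dn_mul le_rfl, e, dn_add, dn_pow,
      add_zero, dn_mul_C, Matrix.mul_assoc, o.Dp]

end Pool.Agent.MP_f7db47_al.GR

end

section

/-!
Signs and weights.
-/

namespace Pool.Agent.MP_f7db47_al.GR

open Matrix KN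

universe v w

variable {A : Type v} [Ring A] {Λ : Type} {H : Fam A Λ} {X' X X'' Y Z : Cx A Λ} {w : A}

section Sg

variable {I J K : Type} [Fintype I] [DecidableEq I] [Fintype J] [DecidableEq J]

theorem sg_sg (u : J → ℤ) : sg A u * sg A u = 1 := by
  rw [sg, diagonal_mul_diagonal, ← diagonal_one]
  congr 1
  funext j
  rw [← Int.cast_mul, Int.units_coe_mul_self, Int.cast_one]

omit [Fintype I] [DecidableEq I] in
theorem mul_sg_apply (f : Matrix I J A) (u : J → ℤ) (i : I) (j : J) :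
    (f * sg A u) i j = (u j).negOnePow • f i j := by
  rw [sg, mul_diagonal, Units.smul_def, zsmul_eq_mul']

omit [Fintype J] [DecidableEq J] in
theorem sg_mul_apply (f : Matrix I J A) (u : I → ℤ) (i : I) (j : J) :
    (sg A u * f) i j = (u i).negOnePow • f i j := by
  rw [sg, diagonal_mul, Units.smul_def, zsmul_eq_mul]

theorem sg_comm {u' : I → ℤ} {u : J → ℤ} {f : Matrix I J A} (h : ∀ i j, f i j ≠ 0 → u' i = u j) :
    sg A u' * f = f * sg A u := by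
  ext i j
  rw [sg_mul_apply, mul_sg_apply]
  by_cases e : f i j = 0
  · rw [e, smul_zero, smul_zero]
  · rw [h i j e]

theorem sg_anti {u' : I → ℤ} {u : J → ℤ} {f : Matrix I J A}
    (h : ∀ i j, f i j ≠ 0 → u' i = u j + 1 ∨ u' i = u j - 1) : sg A u' * f = -(f * sg A u) := by
  ext i j
  rw [Matrix.neg_apply, sg_mul_apply, mul_sg_apply]
  by_cases e : f i j = 0
  · rw [e, smul_zero, smul_zero, neg_zero]
  · rcases h i j e with c | c
    · rw [c, Int.negOnePow_succ, Units.neg_smul]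
    · rw [c, Int.negOnePow_sub, Int.negOnePow_one, mul_neg, mul_one, Units.neg_smul]

omit [Fintype I] [DecidableEq I] in
theorem hm_mul_sg {d : ℤ} {s : I → Λ × ℤ} {t : J → Λ × ℤ} {f : Matrix I J A} (h : Hm H d s t f)
    (u : J → ℤ) : Hm H d s t (f * sg A u) := fun i j => by
  rw [mul_sg_apply, Units.smul_def]
  exact ⟨zsmul_mem (h i j).1 _, fun e => (h i j).2 fun c => e (by rw [c, smul_zero])⟩

omit [Fintype J] [DecidableEq J] in
theorem hm_sg_mul {d : ℤ} {s : I → Λ × ℤ} {t : J → Λ × ℤ} {f : Matrix I J A} (h : Hm H d s t f)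
    (u : I → ℤ) : Hm H d s t (sg A u * f) := fun i j => by
  rw [sg_mul_apply, Units.smul_def]
  exact ⟨zsmul_mem (h i j).1 _, fun e => (h i j).2 fun c => e (by rw [c, smul_zero])⟩

omit [Fintype I] [DecidableEq I] [DecidableEq J] in
theorem Low.mul {ω' : I → ℤ} {ω : J → ℤ} {ω'' : K → ℤ} {f : Matrix I J A} {g : Matrix J K A}
    (h : Low ω' ω f) (k : Low ω ω'' g) : Low ω' ω'' (f * g) := fun i l e => by
  rw [Matrix.mul_apply] at e
  obtain ⟨j, -, hj⟩ := Finset.exists_ne_zero_of_sum_ne_zero e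
  exact (h i j (left_ne_zero_of_mul hj)).trans (k j l (right_ne_zero_of_mul hj))

omit [Fintype I] [DecidableEq I] [DecidableEq J] in
theorem dg0_mul {ω' : I → ℤ} {ω : J → ℤ} {ω'' : K → ℤ} {f : Matrix I J A} {g : Matrix J K A}
    (h : Low ω' ω f) (k : Low ω ω'' g) : dg0 ω' ω'' (f * g) = dg0 ω' ω f * dg0 ω ω'' g := by
  ext i l
  simp only [dg0, Matrix.mul_apply, Finset.ite_sum_zero]
  refine Finset.sum_congr rfl fun j _ => ?_
  by_cases a : f i j = 0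
  · simp [a]
  by_cases b : g j l = 0
  · simp [b]
  have := h i j a
  have := k j l b
  split_ifs <;> first | rfl | omega | simp

omit [Fintype I] [DecidableEq I] [DecidableEq J] in
theorem g1a_left (ω' : I → ℤ) (ω : J → ℤ) (ω'' : K → ℤ) (f : Matrix I J A) (g : Matrix J K A) :
    dg0 ω' ω'' (dg0 ω' ω f * g) = dg0 ω' ω f * dg0 ω ω'' g := by
  ext i l
  simp only [dg0, Matrix.mul_apply, Finset.ite_sum_zero]
  refine Finset.sum_congr rfl fun j _ => ?_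
  split_ifs <;> first | rfl | omega | simp

omit [Fintype I] [DecidableEq I] [DecidableEq J] in
theorem g1a_right (ω' : I → ℤ) (ω : J → ℤ) (ω'' : K → ℤ) (f : Matrix I J A) (g : Matrix J K A) :
    dg0 ω' ω'' (f * dg0 ω ω'' g) = dg0 ω' ω f * dg0 ω ω'' g := by
  ext i l
  simp only [dg0, Matrix.mul_apply, Finset.ite_sum_zero]
  refine Finset.sum_congr rfl fun j _ => ?_
  split_ifs <;> first | rfl | omega | simp

omit [Fintype I] [DecidableEq I] [Fintype J] [DecidableEq J] in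
theorem g1a_add (ω' : I → ℤ) (ω : J → ℤ) (f g : Matrix I J A) :
    dg0 ω' ω (f + g) = dg0 ω' ω f + dg0 ω' ω g := by
  ext i j
  simp only [dg0, Matrix.add_apply]
  split_ifs <;> simp

omit [Fintype I] [DecidableEq I] [Fintype J] [DecidableEq J] in
theorem g1a_low (ω' : I → ℤ) (ω : J → ℤ) (f : Matrix I J A) : Low ω' ω (dg0 ω' ω f) :=
  fun i j e => by
    by_contra c
    exact e (if_neg fun d => c d.le)

theorem nil_wt (ω : J → ℤ) {N : Matrix J J A} (h : ∀ i j, N i j ≠ 0 → ω i < ω j) :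
    ∃ m : ℕ, N ^ (m + 1) = 0 := by
  have k : ∀ (m : ℕ) i j, (N ^ (m + 1)) i j ≠ 0 → ω i + m < ω j := fun m => by
    induction m with
    | zero => simpa using h
    | succ m ih =>
      intro i j e
      rw [pow_succ, Matrix.mul_apply] at e
      obtain ⟨l, -, hl⟩ := Finset.exists_ne_zero_of_sum_ne_zero e
      have := ih i l (left_ne_zero_of_mul hl)
      have := h l j (right_ne_zero_of_mul hl)
      omega
  obtain ⟨m, hm⟩ := Finite.bddAbove_range fun x : J × J => (ω x.2 - ω x.1).toNat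
  refine ⟨m, Matrix.ext fun i j => ?_⟩
  by_contra e
  have := k m i j e
  have : (ω j - ω i).toNat ≤ m := hm ⟨(i, j), rfl⟩
  omega

end Sg

theorem g1a_pert (hH : LR H) (hX : Ok H X) (hw : Sc H w) {h : Matrix X.J X.J A}
    (hh : Hm H 1 X.t X.t h) (pl : X.p * h = h) (ω : X.J → ℤ)
    (hN : ∀ i j, (X.D * h + h * X.D - w • X.p) i j ≠ 0 → ω i < ω j) :
    ∃ m : ℕ, Nul H (w ^ (m + 1)) X := by
  obtain ⟨m, hm⟩ := nil_wt ω hN
  refine ⟨m, pert hH hX hw hh (((hX.hD.mul hH hh (by omega)).add (hh.mul hH hX.hD (by omega))).sub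
    (hX.hp.smul hw)) ?_ (add_sub_cancel _ _).symm hm⟩
  rw [Matrix.mul_sub, Matrix.mul_add, ← Matrix.mul_assoc, ← Matrix.mul_assoc, hX.pD, pl,
    mul_smul_cen hw.1, hX.pp]

theorem pert_wt (hH : LR H) (hX : Ok H X) (hw : Sc H w) {h : Matrix X.J X.J A} (hh : Mp H 1 X X h)
    (ω : X.J → ℤ) (hN : ∀ i j, (X.D * h + h * X.D - w • X.p) i j ≠ 0 → ω i < ω j) :
    ∃ m : ℕ, Nul H (w ^ (m + 1)) X := g1a_pert hH hX hw hh.hm hh.pl ω hN

/-- A filtered complex is torsion if its associated graded complex is. -/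
theorem fil_nul (hH : LR H) (hX : Ok H X) (hw : Sc H w) (ω : X.J → ℤ) (hp : Low ω ω X.p)
    (hD : Low ω ω X.D) (h : Nul H w (X.re (dg0 ω ω X.p) (dg0 ω ω X.D))) :
    ∃ m : ℕ, Nul H (w ^ (m + 1)) X := by
  obtain ⟨s, h1, h2⟩ := h
  have h0 : Hm H 1 X.t X.t (dg0 ω ω s) := fun i j => by
    unfold dg0
    split_ifs
    exacts [h1 i j, ⟨zero_mem _, fun e => absurd rfl e⟩]
  have l0 := hp.mul (g1a_low ω ω s)
  have e0 : dg0 ω ω (dg0 ω ω s) = dg0 ω ω s := by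
    ext i j
    simp only [dg0]
    split_ifs <;> rfl
  have e1 : dg0 ω ω X.D * dg0 ω ω s + dg0 ω ω s * dg0 ω ω X.D = w • dg0 ω ω X.p := by
    have := congrArg (dg0 ω ω) h2
    rw [g1a_add, g1a_left, g1a_right] at this
    rw [this]
    ext i j
    simp only [dg0, Matrix.smul_apply]
    split_ifs <;> simp
  have e2 : dg0 ω ω (X.D * (X.p * dg0 ω ω s) + X.p * dg0 ω ω s * X.D) = w • dg0 ω ω X.p := by
    have := congrArg (dg0 ω ω X.p * ·) e1
    simp only [mul_smul_cen hw.1, Matrix.mul_add, ← Matrix.mul_assoc, ← dg0_mul hp hp,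
      ← dg0_mul hp hD, hX.pp, hX.pD] at this
    rw [← Matrix.mul_assoc, hX.Dp, g1a_add, dg0_mul l0 hD, g1a_right, g1a_right, this]
  refine g1a_pert hH hX hw (hX.hp.mul hH h0 rfl) (by rw [← Matrix.mul_assoc, hX.pp]) ω
    fun i j e => ?_
  rw [Matrix.sub_apply, Matrix.smul_apply, sub_ne_zero] at e
  refine lt_of_le_of_ne ?_ fun c => e ?_
  · by_contra c
    refine e ?_
    rw [Matrix.add_apply, not_not.1 fun d => c (hD.mul l0 i j d),
      not_not.1 fun d => c (l0.mul hD i j d), not_not.1 fun d => c (hp i j d), smul_zero, add_zero]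
  · have := congrFun₂ e2 i j
    simpa only [dg0, Matrix.smul_apply, if_pos c] using this

theorem fil_one (hH : LR H) (hX : Ok H X) (ω : X.J → ℤ) (hp : Low ω ω X.p) (hD : Low ω ω X.D)
    (h : Nul H 1 (X.re (dg0 ω ω X.p) (dg0 ω ω X.D))) : Nul H 1 X := by
  obtain ⟨m, hm⟩ := fil_nul hH hX Sc.one ω hp hD h
  rwa [one_pow] at hm

/-- A chain map with a section up to terms that raise a weight. -/
theorem cone_wt (hH : LR H) (hY : Ok H Y) (hX : Ok H X) {b : Matrix Y.J X.J A} (hb : Ch H Y X b)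
    {i : Matrix X.J Y.J A} (hi : Mp H 0 X Y i) {h : Matrix X.J X.J A} (hh : Mp H 1 X X h)
    (e1 : b * i = Y.p) (e2 : b * h = 0) (ω : X.J → ℕ)
    (hN : ∀ x y, (X.D * h + h * X.D + i * b - X.p) x y ≠ 0 → ω y < ω x) :
    Nul H 1 (Y.cone X b) := by
  obtain ⟨m, hm⟩ := g1a_pert hH (hY.cone hX hb) Sc.one (h := fromBlocks 0 0 i (-h))
    (Hm.blocks (Hm.zero _ _) (Hm.zero _ _) (hi.hm.shift_left 1 (by omega))
      (hh.hm.neg.shift 1 1 (by omega))) (by simp [fromBlocks_multiply, hi.pl, hh.pl])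
    (Sum.elim (fun _ => 1) fun x => -(ω x : ℤ)) (by
      simp only [fromBlocks_multiply, fromBlocks_add, one_smul, sub_eq_add_neg, fromBlocks_neg]
      rintro (x | x) (y | y) e
      · simp [e1] at e
      · simp [e2] at e
      · simp only [Sum.elim_inl, Sum.elim_inr]
        omega
      · have := hN x y fun c => e (by
          rw [← c, fromBlocks_apply₂₂]
          simp [sub_eq_add_neg, add_assoc, add_left_comm])
        simp only [Sum.elim_inr]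
        omega)
  rwa [one_pow] at hm

end Pool.Agent.MP_f7db47_al.GR

end

section

/-!
Exactness, cones, split exact sequences.
-/

namespace Pool.Agent.MP_f7db47_al.GR

open Matrix KN

universe v w

variable {A : Type v} [Ring A] {Λ : Type} {H : Fam A Λ} {X' X X'' Y Z : Cx A Λ} {w : A}

theorem g1_ring {R : Type*} [Ring R] {p D h E E' : R} (pD : p * D = D) (Dp : D * p = D)
    (DD : D * D = 0) (e1 : E' * E = E) (e2 : E' * E' = E') (e3 : E * (D * E') = D * E')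
    (e : (p - (D * h + h * D)) * E = 0) : D * ((p - (D * h + h * D)) * E') = 0 ∧
      ∀ y, D * y = (p - (D * h + h * D)) * E' →
        (p - (D * (h + (p * y - p * y * E)) + (h + (p * y - p * y * E)) * D)) * E' = 0 := by
  constructor
  · have c : D * (p - (D * h + h * D)) = (p - (D * h + h * D)) * D := by
      simp only [mul_sub, sub_mul, mul_add, add_mul, ← mul_assoc, pD, Dp, DD, zero_mul, zero_add]
      rw [mul_assoc h, DD, mul_zero, add_zero]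
    rw [← mul_assoc, c, mul_assoc, ← e3, ← mul_assoc, e, zero_mul]
  · intro y hy
    have c1 : D * (p * y - p * y * E) * E' = (p - (D * h + h * D)) * E' := by
      rw [mul_sub, ← mul_assoc D (p * y), ← mul_assoc D p, Dp, hy, mul_assoc _ E' E, e1, e,
        sub_zero, mul_assoc, e2]
    have c2 : (p * y - p * y * E) * D * E' = 0 := by
      rw [mul_assoc, sub_mul, mul_assoc _ E, e3, sub_self]
    generalize p * y - p * y * E = a at c1 c2 ⊢
    have c3 : (p - (D * (h + a) + (h + a) * D)) * E' =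
        (p - (D * h + h * D)) * E' - D * a * E' - a * D * E' := by noncomm_ring
    rw [c3, c1, c2, sub_self, sub_zero]

/-- Exactness on matrices gives a contraction. -/
theorem nul_of_exact (hH : LR H) (hX : Ok H X)
    (h : ∀ z : Matrix X.J X.J A, Hm H 0 X.t X.t z → X.p * z = z → X.D * z = 0 →
      ∃ y, Hm H 1 X.t X.t y ∧ X.D * y = z) : Nul H 1 X := by
  classical
  obtain ⟨L, hL⟩ := exists_bd X
  have key : ∀ n : ℕ, ∃ s, Hm H 1 X.t X.t s ∧ X.p * s = s ∧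
      (X.p - (X.D * s + s * X.D)) * ind A {j | (X.t j).2 < n - L} = 0 := by
    intro n
    induction n with
    | zero =>
      refine ⟨0, Hm.zero _ _, mul_zero _, ?_⟩
      ext i j
      have := (hL j).1
      rw [mul_ind_apply, if_neg (by simp only [Set.mem_ofPred_eq]; omega), Matrix.zero_apply]
    | succ n ih =>
      obtain ⟨s, h1, h2, h3⟩ := ih
      have g := g1_ring (E' := ind A {j | (X.t j).2 < (n + 1 : ℕ) - L}) hX.pD hX.Dp hX.DD
        (by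
          rw [ind_mul_ind, Set.inter_eq_right.2 fun j hj => ?_]
          simp only [Set.mem_ofPred_eq] at hj ⊢
          omega)
        (by rw [ind_mul_ind, Set.inter_self])
        (by
          ext i j
          rw [ind_mul_apply, mul_ind_apply]
          split_ifs with a b b
          · rfl
          · rfl
          · by_contra c
            have := (hX.hD i j).2 (Ne.symm c)
            simp only [Set.mem_ofPred_eq] at a b
            omega
          · rfl) h3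
      obtain ⟨y, y1, y2⟩ := h _ ((hX.hp.sub ((hX.hD.mul hH h1 (by omega)).add
        (h1.mul hH hX.hD (by omega)))).mul_ind _) (by
          rw [← mul_assoc, mul_sub, mul_add, ← mul_assoc, ← mul_assoc, hX.pp, hX.pD, h2]) g.1
      have y3 : Hm H 1 X.t X.t (X.p * y) := hX.hp.mul hH y1 (by omega)
      refine ⟨_, h1.add (y3.sub (y3.mul_ind _)), ?_, g.2 y y2⟩
      rw [mul_add, mul_sub, h2, ← mul_assoc X.p (X.p * y), ← mul_assoc X.p X.p, hX.pp]
  obtain ⟨s, h1, -, h3⟩ := key (2 * L + 1)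
  refine ⟨s, h1, ?_⟩
  rw [one_smul, eq_comm, ← sub_eq_zero, ← h3]
  ext i j
  have := (hL j).2
  rw [mul_ind_apply, if_pos (by simp only [Set.mem_ofPred_eq]; omega)]

/-- Two out of three. -/
theorem cone_left (hH : LR H) (hX : Ok H X) (hY : Ok H Y) (hZ : Ok H Z) {f : Matrix Y.J X.J A}
    {g : Matrix Z.J Y.J A} (hf : Ch H Y X f) (hg : Ch H Z Y g) (h1 : Nul H 1 (Z.cone Y g))
    (h2 : Nul H 1 (Z.cone X (g * f))) : Nul H 1 (Y.cone X f) := by
  obtain ⟨g', a, b, c⟩ := he_of_cone hH hY hZ hg h1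
  obtain ⟨m, a', d, c'⟩ := he_of_cone hH hX hZ (hg.comp hH hf) h2
  have hm := c'.hg.comp hH hg
  have hφ := hf.comp hH hm
  refine cone_nul hH hX hY (g := m * g) (h := a') (k := a + g' * d * g - a * (f * (m * g)))
    ⟨hf, hm, c'.hh, (c.hh.add ((c.hg.hm.mul hH c'.hk rfl).mul hH hg.hm (by omega))).sub
      (c.hh.mul hH hφ.hm (by omega)), by rw [Matrix.mul_assoc, c'.gf], ?_⟩
  have e1 : g * (f * (m * g)) = g - (Z.D * d + d * Z.D) * g := by
    rw [← Matrix.mul_assoc, ← Matrix.mul_assoc, eq_sub_of_add_eq c'.fg, Matrix.sub_mul, hg.pl]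
  have e2 : g' * ((Z.D * d + d * Z.D) * g) = Y.D * (g' * d * g) + g' * d * g * Y.D := by
    rw [a2_conj c.hg.cm hg.cm, Matrix.mul_assoc]
  have e3 := hφ.pl
  have e4 := hφ.cm
  rw [← c.gf, Matrix.add_mul, Matrix.mul_assoc, e1, Matrix.mul_sub, e2] at e3
  rw [← c.gf]
  generalize f * (m * g) = φ at e3 e4 ⊢
  generalize g' * d * g = ψ at e3 ⊢
  generalize g' * g = χ at e3 ⊢
  have e5 : φ + (Y.D * (a + ψ - a * φ) + (a + ψ - a * φ) * Y.D) =
      φ - (χ - (Y.D * ψ + ψ * Y.D) + (Y.D * a * φ + a * (φ * Y.D))) +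
        (χ + (Y.D * a + a * Y.D)) := by noncomm_ring
  rw [e5, ← e4, ← mul_assoc a, ← add_mul, e3, sub_self, zero_add]

theorem g1_ok (hX : Ok H X) (u : X.J → ℤ)
    (hu : ∀ ⦃i j x⦄, x ∈ H (X.t i).1 (X.t j).1 → x ≠ 0 → u i = u j) :
    Ok H (X.re X.p (X.D * sg A u)) :=
  ⟨hX.hp, hm_mul_sg hX.hD u, hX.pp, by rw [← mul_assoc, hX.pD],
    by rw [mul_assoc, sg_comm fun i j => hu (hX.hp i j).1, ← mul_assoc, hX.Dp],
    by rw [← mul_assoc, mul_assoc X.D, sg_comm fun i j => hu (hX.hD i j).1, ← mul_assoc, hX.DD,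
      zero_mul, zero_mul]⟩

theorem g1_ch {b : Matrix Y.J X.J A} (hb : Ch H Y X b) {u' : Y.J → ℤ} {u : X.J → ℤ}
    (hb' : ∀ i j, b i j ≠ 0 → u' i = u j) :
    Ch H (Y.re Y.p (Y.D * sg A u')) (X.re X.p (X.D * sg A u)) b :=
  ⟨⟨hb.hm, hb.pl, hb.pr⟩, by
    rw [Matrix.mul_assoc, sg_comm hb', ← Matrix.mul_assoc, hb.cm, Matrix.mul_assoc]⟩

theorem g1_ht (hX : Ok H X) {u : X.J → ℤ}
    (hu : ∀ ⦃i j x⦄, x ∈ H (X.t i).1 (X.t j).1 → x ≠ 0 → u i = u j) {h : Matrix X.J X.J A}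
    (hh : Hm H 1 X.t X.t h) :
    X.D * sg A u * (sg A u * h) + sg A u * h * (X.D * sg A u) = X.D * h + h * X.D := by
  rw [mul_assoc, ← mul_assoc (sg A u), sg_sg, one_mul, sg_comm fun i j => hu (hh i j).1,
    ← sg_comm fun i j => hu (hX.hD i j).1, mul_assoc, ← mul_assoc (sg A u), sg_sg, one_mul]

/-- Signs that commute with everything do not change the contractibility of a cone. -/
theorem cone_sg (hH : LR H) (hY : Ok H Y) (hX : Ok H X) {b : Matrix Y.J X.J A} (hb : Ch H Y X b)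
    (u' : Y.J → ℤ) (u : X.J → ℤ) (hu : ∀ ⦃i j x⦄, x ∈ H (Y.t i).1 (Y.t j).1 → x ≠ 0 → u' i = u' j)
    (hu' : ∀ ⦃i j x⦄, x ∈ H (X.t i).1 (X.t j).1 → x ≠ 0 → u i = u j)
    (hu'' : ∀ ⦃i j x⦄, x ∈ H (X.t i).1 (Y.t j).1 → x ≠ 0 → u i = u' j)
    (hb' : ∀ i j, b i j ≠ 0 → u' i = u j) (h : Nul H 1 (Y.cone X b)) :
    Nul H 1 ((Y.re Y.p (Y.D * sg A u')).cone (X.re X.p (X.D * sg A u)) b) := by
  obtain ⟨g, a, k, c⟩ := he_of_cone hH hX hY hb h
  exact cone_nul hH (g1_ok hX u hu') (g1_ok hY u' hu) (g := g) (h := sg A u * a) (k := sg A u' * k)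
    ⟨g1_ch hb hb', g1_ch c.hg fun i j => hu'' (c.hg.hm i j).1, hm_sg_mul c.hh u, hm_sg_mul c.hk u',
      (congrArg _ (g1_ht hX hu' c.hh)).trans c.gf, (congrArg _ (g1_ht hY hu c.hk)).trans c.fg⟩

/-- Degreewise split short exact sequences are extensions. -/
theorem ses_ext (hH : LR H) (h' : Ok H X') (h : Ok H X) (h'' : Ok H X'') {i : Matrix X.J X'.J A}
    {q : Matrix X''.J X.J A} {r : Matrix X'.J X.J A} {s : Matrix X.J X''.J A} (hi : Ch H X X' i)
    (hq : Ch H X'' X q) (hr : Mp H 0 X' X r) (hs : Mp H 0 X X'' s) (e1 : r * i = X'.p)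
    (e2 : q * s = X''.p) (e3 : i * r + s * q = X.p) :
    Tw H X' X'' (r * X.D * s) ∧ Ch H X (X'.ext X'' (r * X.D * s)) (fromCols i s) ∧
      Ch H (X'.ext X'' (r * X.D * s)) X (fromRows r q) ∧ fromCols i s * fromRows r q = X.p ∧
      fromRows r q * fromCols i s = fromBlocks X'.p 0 0 X''.p := by
  have qi : q * i = 0 := by
    have := hq.pr
    rw [← e3, Matrix.mul_add, ← Matrix.mul_assoc, ← Matrix.mul_assoc, e2, hq.pl,
      add_eq_right] at this
    rw [← hi.pr, ← e1, ← Matrix.mul_assoc, ← Matrix.mul_assoc, this, Matrix.zero_mul]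
  have rs : r * s = 0 := by
    have := hr.pr
    rw [← e3, Matrix.mul_add, ← Matrix.mul_assoc, ← Matrix.mul_assoc, e1, hr.pl,
      add_eq_left] at this
    rw [← hs.pr, ← e2, ← Matrix.mul_assoc, ← Matrix.mul_assoc, this, Matrix.zero_mul]
  have d1 : X'.D = r * X.D * i := by
    rw [Matrix.mul_assoc, hi.cm, ← Matrix.mul_assoc, e1, h'.pD]
  have d2 : X''.D = q * (X.D * s) := by rw [← Matrix.mul_assoc, ← hq.cm, Matrix.mul_assoc, e2, h''.Dp]
  have c1 : i * (r * X.D * s) + s * X''.D = X.D * s := by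
    rw [d2, Matrix.mul_assoc r, ← Matrix.mul_assoc i, ← Matrix.mul_assoc s, ← Matrix.add_mul, e3,
      ← Matrix.mul_assoc, h.pD]
  have c2 : X'.D * r + r * X.D * s * q = r * X.D := by
    rw [d1, Matrix.mul_assoc _ i, Matrix.mul_assoc _ s, ← Matrix.mul_add, e3, Matrix.mul_assoc,
      h.Dp]
  refine ⟨⟨(hr.comp hH ⟨h.hD, h.pD, h.Dp⟩ rfl).comp hH hs (by omega), ?_⟩,
    ⟨⟨hi.hm.cols hs.hm, ?_, ?_⟩, ?_⟩, ⟨⟨hr.hm.rows hq.hm, ?_, ?_⟩, ?_⟩, ?_, ?_⟩
  · rw [d1, Matrix.mul_assoc _ i, Matrix.mul_assoc _ s X''.D, ← Matrix.mul_add, c1,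
      Matrix.mul_assoc, ← Matrix.mul_assoc X.D, h.DD, Matrix.zero_mul, Matrix.mul_zero]
  · simp [hi.pl, hs.pl]
  · simp [fromCols_mul_fromBlocks, hi.pr, hs.pr]
  · simp [fromCols_mul_fromBlocks, hi.cm, c1]
  · simp [fromBlocks_mul_fromRows, hr.pl, hq.pl]
  · simp [hr.pr, hq.pr]
  · simp [fromBlocks_mul_fromRows, hq.cm, c2]
  · rw [fromCols_mul_fromRows, e3]
  · rw [fromRows_mul_fromCols, e1, e2, qi, rs]

end Pool.Agent.MP_f7db47_al.GR

end

section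

/-!
The comparison map is an equivalence.
-/

namespace Pool.Agent.MP_f7db47_al.GR

open Matrix KN Polynomial

universe v w

theorem g5_alg {B : Type v} [Ring B] {J K : Type} [Fintype J] {D p h : Matrix J J B}
    {c y y' e : B} (hc : ∀ x, c * x = x * c) (hy : ∀ x, y * x = x * y) (hy' : ∀ x, y' * x = x * y')
    (ce : c * e = y - y') (iy : ∀ {f g : Matrix J K B}, y • f = y • g → f = g)
    (iy' : ∀ {f g : Matrix J K B}, y' • f = y' • g → f = g) (pp : p * p = p) (pD : p * D = D)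
    (Dp : D * p = D) (DD : D * D = 0) (ph : p * h = h) (hp : h * p = h)
    (hh : D * h + h * D = e • p) {S T σ q w : Matrix J K B} (h1 : D * S = y • σ)
    (h2 : y' • q = D * T + p * S - c • (h * σ)) (hw : w = p * T + c • (h * q)) :
    D * w = y • q - p * S ∧ p * w = w ∧ ∀ V u τ, V + y • u = w → D * V = -S + y • τ →
      p * V - c • (h * τ) = p * T - y' • (p * u) - D * c • (h * u) := by
  have a : ∀ {a b d : Matrix J J B}, a * b = d → ∀ f : Matrix J K B, a * (b * f) = d * f :=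
    fun e f => by rw [← Matrix.mul_assoc, e]
  have k : ∀ f : Matrix J K B,
      c • (D * (h * f)) = y • (p * f) - y' • (p * f) - c • (h * (D * f)) := fun f => by
    rw [← sub_smul, ← ce, mul_smul, ← Matrix.smul_mul e, ← hh, Matrix.add_mul, smul_add,
      Matrix.mul_assoc, Matrix.mul_assoc, add_sub_cancel_right]
  have pσ : p * σ = σ := iy (by rw [← mul_smul_cen hy, ← h1, a pD])
  have Dσ : D * σ = 0 := iy (by rw [← mul_smul_cen hy, ← h1, a DD, Matrix.zero_mul, smul_zero])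
  have Dq : D * q = σ := iy' (by
    rw [← mul_smul_cen hy', h2, Matrix.mul_sub, Matrix.mul_add, a DD, a Dp, mul_smul_cen hc, k,
      pσ, Dσ, h1]
    simp)
  have pq : p * q = q := iy' (by
    rw [← mul_smul_cen hy', h2, Matrix.mul_sub, Matrix.mul_add, a pD, a pp, mul_smul_cen hc, a ph])
  have Dw : D * w = y • q - p * S := by
    rw [hw, Matrix.mul_add, a Dp, mul_smul_cen hc, k, pq, Dq, h2]
    abel
  have pw : p * w = w := by rw [hw, Matrix.mul_add, a pp, mul_smul_cen hc, a ph]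
  refine ⟨Dw, pw, fun V u τ e1 e2 => ?_⟩
  obtain rfl := eq_sub_of_add_eq e1
  have hτ : h * τ = h * q - h * (D * u) := iy (by
    rw [← mul_smul_cen hy, ← neg_add_eq_iff_eq_add.2 e2, neg_neg, Matrix.mul_sub, Dw,
      mul_smul_cen hy]
    simp only [Matrix.mul_add, Matrix.mul_sub, mul_smul_cen hy, a hp, smul_sub]
    abel)
  rw [Matrix.mul_sub, pw, mul_smul_cen hy, mul_smul_cen hc, k, hτ, smul_sub, hw]
  abel

variable {A : Type v} [Ring A] {Λ : Type} {H : Fam A Λ} {Z : Cx A[X] Λ} {n N : ℕ}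
  {h : Matrix Z.J Z.J A[X]}

theorem g5_th {K : Type} {s : Matrix (Z.J × Fin n) K A} (e : tz n n Z.p * s = s) :
    th n N Z h * s = dn (n + 1) (Z.p * (up1 A Z.J n * s.map C) -
      ((1 - X) * X ^ (n - N) : A[X]) • (h * (sd n (Z.D * up1 A Z.J n) * s.map C))) := by
  rw [th, Matrix.mul_assoc, e, ← dn_mul_C, th0, Matrix.sub_mul, Matrix.smul_mul, Matrix.mul_assoc,
    Matrix.mul_assoc]

theorem g5_del {K : Type} (s : Matrix (Z.J × Fin n) K A) :
    Z.D * (up1 A Z.J n * s.map C) = up1 A Z.J n * (tz n n Z.D * s).map C +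
      (X ^ n : A[X]) • (sd n (Z.D * up1 A Z.J n) * s.map C) := by
  rw [← Matrix.mul_assoc, Matrix.map_mul, ← Matrix.mul_assoc, ← Matrix.smul_mul, ← Matrix.add_mul,
    ← up_del]

theorem g5_tz {K : Type} (f : Matrix Z.J Z.J A[X]) (s : Matrix (Z.J × Fin n) K A) :
    dn n (f * (up1 A Z.J n * s.map C)) = tz n n f * s := by rw [dn_mul le_rfl, dn_up]

theorem th_nul (hH : LR H) (hZ : Ok (pF H) Z) (hh : Wit1 H Z N h) (hn : N ≤ n) :
    Nul H 1 ((T1 (n + 1) Z).cone (T1 n Z) (th n N Z h)) := by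
  refine nul_of_exact hH ((ok_T1 hZ _).cone (ok_T1 hZ _) (th_ch hH hZ hh hn)) fun z hz e1 e2 => ?_
  have ht : Hm H 0 (fun x : Z.J × Fin (n + 1) => Z.t x.1) _ z.toRows₁ := fun i j => hz (.inl i) j
  have hs : Hm H (-1) (fun x : Z.J × Fin n => Z.t x.1) _ z.toRows₂ := fun i j =>
    ⟨(hz (.inr i) j).1, fun e => by
      have := (hz (.inr i) j).2 e
      simp only [Sum.elim_inr] at this ⊢
      omega⟩
  rw [← fromRows_toRows z] at e1 e2 ⊢
  rw [← fromRows_zero] at e2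
  generalize z.toRows₁ = t at *
  generalize z.toRows₂ = s at *
  simp only [fromBlocks_mul_fromRows, Matrix.zero_mul, add_zero, zero_add, fromRows_ext_iff,
    Matrix.neg_mul, neg_eq_zero] at e1 e2
  have sc : Sc (pF H) ((1 - X) * X ^ (n - N) : A[X]) := sc_pX'.mul (sc_pX.pow _)
  have sx := fun m => (Sc.pow (H := pF H) sc_pX m).1
  have hP := lr_p hH
  have hT := hm_up_mul ht
  have hS := hm_up_mul hs
  have h1 := g5_del (Z := Z) s
  rw [e2.2, Matrix.map_zero _ (map_zero _), Matrix.mul_zero, zero_add] at h1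
  have h2 := e2.1
  rw [g5_th e1.2, ← g5_tz, ← dn_add, ← add_sub_assoc] at h2
  have hq := hm_sd (n := n + 1) (((hZ.hD.mul hP hT (e := -1) rfl).add (hZ.hp.mul hP hS rfl)).sub
    ((hh.1.hm.mul hP ((hm_sd (n := n) (hm_mul_up hZ.hD)).mul hP (hm_C hs) (e := -2) rfl)
      (e := -1) rfl).smul sc))
  have hw := (hZ.hp.mul hP hT (e := 0) rfl).add ((hh.1.hm.mul hP hq (e := 0) rfl).smul sc)
  obtain ⟨a1, a2, a3⟩ := g5_alg sc.1 (sx n) (sx (n + 1))
    (by rw [mul_assoc, ← pow_add, Nat.sub_add_cancel hn, sub_mul, one_mul, pow_succ'])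
    pow_smul_inj pow_smul_inj hZ.pp hZ.pD hZ.Dp hZ.DD hh.1.pl hh.1.pr hh.2 h1 (eq_pow_of_dn h2) rfl
  generalize Z.p * (up1 A Z.J (n + 1) * t.map C) + _ = w at hw a1 a2 a3
  have b1 : tz n n Z.D * dn n w = -s := by
    rw [← dn_mul le_rfl, a1, dn_sub, dn_pow, g5_tz, e1.2, zero_sub]
  have b2 : tz n n Z.p * dn n w = dn n w := by rw [← dn_mul le_rfl, a2]
  have b3 := a3 _ _ _ (up_dn w) (by rw [g5_del, b1, Matrix.map_neg _ (map_neg _), Matrix.mul_neg])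
  refine ⟨fromRows (dn (n + 1) (((1 - X) * X ^ (n - N) : A[X]) • (h * sd n w))) (dn n w),
    Hm.rows (hm_dn ((hh.1.hm.mul hP (hm_sd hw) rfl).smul sc)) ((hm_dn hw).shift_left 1 rfl), ?_⟩
  rw [fromBlocks_mul_fromRows, g5_th b2, b3, dn_sub, dn_sub, dn_pow, g5_tz, e1.1, dn_mul le_rfl,
    Matrix.neg_mul, b1]
  simp

end Pool.Agent.MP_f7db47_al.GR

end

section

/-!
The comparison map does not depend on the choices.
-/

namespace Pool.Agent.MP_f7db47_al.GR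

open Matrix KN Polynomial

universe v w

variable {A : Type v} [Ring A] {Λ : Type} {H : Fam A Λ} {Z : Cx A[X] Λ} {n N : ℕ}
  {h h' : Matrix Z.J Z.J A[X]}

theorem Wit1.pow (hh : Wit1 H Z N h) (m : ℕ) : Wit1 H Z (N + m) ((X ^ m : A[X]) • h) := by
  have c := (sc_pX (H := H)).pow m
  refine ⟨⟨hh.1.hm.smul c, ?_, ?_⟩, ?_⟩
  · rw [mul_smul_cen c.1, hh.1.pl]
  · rw [Matrix.smul_mul, hh.1.pr]
  · rw [mul_smul_cen c.1, Matrix.smul_mul, ← smul_add, hh.2, smul_smul, ← pow_add, add_comm]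

theorem th_pow (h : Matrix Z.J Z.J A[X]) {m : ℕ} (hn : N + m ≤ n) :
    th n (N + m) Z ((X ^ m : A[X]) • h) = th n N Z h := by
  rw [th, th, th0, th0, Matrix.smul_mul, smul_smul, mul_assoc, ← pow_add,
    show n - (N + m) + m = n - N by omega]

theorem th_ind (hH : LR H) (hZ : Ok (pF H) Z) (hh : Wit1 H Z N h) (hh' : Wit1 H Z N h')
    (hn : 2 * N ≤ n) : ∃ k, Mp H 1 (T1 (n + 1) Z) (T1 n Z) k ∧
      th n N Z h' = th n N Z h + ((T1 (n + 1) Z).D * k + k * (T1 n Z).D) := by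
  have c := (sc_pX' (H := H)).mul (sc_pX.pow (n - 2 * N))
  have hT := ok_T1 hZ n
  have e1 : Z.D * (h' - h) = -((h' - h) * Z.D) := by
    rw [eq_neg_iff_add_eq_zero, Matrix.mul_sub, Matrix.sub_mul, sub_add_sub_comm, hh.2, hh'.2,
      sub_self]
  have e2 : (X ^ N : A[X]) • (h' - h) = Z.D * (h * (h' - h)) - h * (h' - h) * Z.D := by
    rw [sub_eq_add_neg (Z.D * _), Matrix.mul_assoc, ← Matrix.mul_neg, ← e1, ← Matrix.mul_assoc,
      ← Matrix.mul_assoc, ← Matrix.add_mul, hh.2, Matrix.smul_mul, Matrix.mul_sub, hh.1.pl,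
      hh'.1.pl]
  obtain ⟨k, hk⟩ : ∃ k, k = -(((1 - X) * X ^ (n - 2 * N) : A[X]) •
    (h * (h' - h) * sd n (Z.D * up1 A Z.J n))) := ⟨_, rfl⟩
  have e3 : th0 n N Z h' = th0 n N Z h + (Z.D * k + k * (tz n n Z.D).map C) := by
    have e4 : ((1 - X) * X ^ (n - N) : A[X]) • ((h' - h) * sd n (Z.D * up1 A Z.J n)) =
        -(Z.D * k + k * (tz n n Z.D).map C) := by
      rw [show n - N = n - 2 * N + N by omega, pow_add, ← mul_assoc, mul_smul, ← Matrix.smul_mul _ (h' - h),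
        e2, Matrix.sub_mul, Matrix.mul_assoc _ Z.D, del_anti hZ.DD, hk, Matrix.mul_neg,
        Matrix.mul_neg, Matrix.neg_mul, ← neg_add, neg_neg, mul_smul_cen c.1, Matrix.smul_mul,
        ← smul_add, sub_neg_eq_add, Matrix.mul_assoc Z.D, Matrix.mul_assoc (h * _)]
    rw [th0, th0, ← sub_neg_eq_add, ← e4, Matrix.sub_mul, smul_sub]
    abel
  refine ⟨dn (n + 1) k * tz n n Z.p, ⟨(hm_dn ?_).mul hH hT.hp (add_zero _).symm, ?_, ?_⟩, ?_⟩
  · rw [hk]
    exact (((hh.1.hm.mul (lr_p hH) (hh'.1.hm.sub hh.1.hm) rfl).mul (lr_p hH)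
      (hm_sd (hm_mul_up hZ.hD)) (by norm_num)).smul c).neg
  · rw [← Matrix.mul_assoc, ← dn_mul le_rfl, hk, Matrix.mul_neg, mul_smul_cen c.1,
      ← Matrix.mul_assoc, ← Matrix.mul_assoc, hh.1.pl]
  · rw [Matrix.mul_assoc, hT.pp]
  · rw [th, th, e3, dn_add, dn_add, dn_mul le_rfl, dn_mul_C, Matrix.add_mul, Matrix.add_mul,
      Matrix.mul_assoc, Matrix.mul_assoc, Matrix.mul_assoc, hT.Dp, hT.pD]

theorem th_map {δ : A →+* A} (hp : Z.p.map (mapRingHom δ) = Z.p) (hD : Z.D.map (mapRingHom δ) = Z.D)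
    (hh : h.map (mapRingHom δ) = h) : (th n N Z h).map δ = th n N Z h := by
  rw [th, Matrix.map_mul, ← dn_map, ← tz_map, hp, th0, Matrix.map_sub _ (map_sub _), map_smul',
    Matrix.map_mul, Matrix.map_mul, ← sd_map, Matrix.map_mul, hp, hD, hh, up_map]
  simp

variable {I' I I'' J' J J'' : Type} {a : Spl I' I I''} {b : Spl J' J J''}
  {f' : Matrix I' J' A[X]} {f : Matrix I J A[X]} {f'' : Matrix I'' J'' A[X]}

theorem Blk.dn (hf : Blk a b f' f f'') (n : ℕ) :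
    Blk (a.prod (Fin n)) b (dn n f') (dn n f) (dn n f'') :=
  ⟨by rw [hf.l]; rfl, by rw [hf.r]; rfl, fun i j => (congrArg (coeff · _) (hf.z i.1 j)).trans rfl⟩

theorem g6_up [Fintype J'] [DecidableEq J'] [Fintype J] [DecidableEq J] [Fintype J'']
    [DecidableEq J''] (hf : Blk a b f' f f'') (n : ℕ) :
    Blk a (b.prod (Fin n)) (f' * up1 A J' n) (f * up1 A J n) (f'' * up1 A J'' n) := by
  refine ⟨Matrix.ext fun i j => ?_, Matrix.ext fun i j => ?_, fun i j => ?_⟩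
  · rw [submatrix_apply, mul_up_apply, mul_up_apply, hf.l]
    rfl
  · rw [submatrix_apply, mul_up_apply, mul_up_apply, hf.r]
    rfl
  · exact (mul_up_apply _ _ _).trans ((congrArg (· * _) (hf.z i j.1)).trans (zero_mul _))

theorem Blk.tz [Fintype J'] [DecidableEq J'] [Fintype J] [DecidableEq J] [Fintype J'']
    [DecidableEq J''] (hf : Blk a b f' f f'') (n' n : ℕ) :
    Blk (a.prod (Fin n')) (b.prod (Fin n)) (tz n' n f') (tz n' n f) (tz n' n f'') :=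
  (g6_up hf n).dn n'

theorem CTr.th {Z' Z'' : Cx A[X] Λ} {a : Spl Z'.J Z.J Z''.J} (hZ : CTr Z' Z Z'' a)
    {h' : Matrix Z'.J Z'.J A[X]} {h'' : Matrix Z''.J Z''.J A[X]} (hh : Blk a a h' h h'') :
    Blk (a.prod (Fin (n + 1))) (a.prod (Fin n)) (th n N Z' h') (th n N Z h) (th n N Z'' h'') :=
  (((g6_up hZ.p n).sub ((hh.mul ((g6_up hZ.D n).map (φ := divX^[n])
    (Function.iterate_fixed divX_zero n))).smul _)).dn _).mul (hZ.p.tz n n)

end Pool.Agent.MP_f7db47_al.GR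

end

section

/-!
Additive invariants of complexes.
-/

namespace Pool.Agent.MP_f7db47_al.GR

open Matrix KN

universe v w

section Pc

variable {A : Type v} [Ring A] {Λ : Type} {H : Fam A Λ} {X : Cx A Λ} {ω : X.J → ℤ}

theorem g2_mul {J : Type} [Fintype J] {ω : J → ℤ} {f g : Matrix J J A} (hf : Low ω ω f)
    (hg : Low ω ω g) (k : ℤ) :
    f.submatrix (Subtype.val : {j // ω j = k} → J) (Subtype.val : {j // ω j = k} → J) *
      g.submatrix Subtype.val (Subtype.val : {j // ω j = k} → J) =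
      (f * g).submatrix Subtype.val Subtype.val := by
  ext i j
  simp only [Matrix.mul_apply, submatrix_apply]
  rw [← Finset.sum_subtype (Finset.univ.filter fun l => ω l = k) (by simp) fun l => f i l * g l j]
  refine Finset.sum_subset (Finset.subset_univ _) fun l _ hl => by_contra fun c => hl ?_
  have h1 := hf _ _ (left_ne_zero_of_mul c)
  have h2 := hg _ _ (right_ne_zero_of_mul c)
  have := i.2
  have := j.2
  exact Finset.mem_filter.2 ⟨Finset.mem_univ _, by omega⟩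

theorem ok_pc (hX : Ok H X) (hp : Low ω ω X.p) (hD : Low ω ω X.D) (k : ℤ) : Ok H (pc X ω k) :=
  ⟨hX.hp.submatrix _ _, hX.hD.submatrix _ _, by rw [g2_mul hp hp, hX.pp],
    by rw [g2_mul hp hD, hX.pD], by rw [g2_mul hD hp, hX.Dp], by rw [g2_mul hD hD, hX.DD]; rfl⟩

theorem nul_pc {w : A} {h : Matrix X.J X.J A} (hD : Low ω ω X.D) (hh : Low ω ω h)
    (hm : Hm H 1 X.t X.t h) (e : X.D * h + h * X.D = w • X.p) (k : ℤ) : Nul H w (pc X ω k) :=
  ⟨h.submatrix Subtype.val Subtype.val, hm.submatrix _ _, by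
    rw [g2_mul hD hh, g2_mul hh hD]
    exact congrArg (fun f : Matrix X.J X.J A => f.submatrix Subtype.val Subtype.val) e⟩

/-- The part of weight less than `a`. -/
@[reducible] def g2_lt (X : Cx A Λ) (ω : X.J → ℤ) (a : ℤ) : Cx A Λ :=
  X.res (Subtype.val : {j // ω j < a} → X.J)

/-- One step of the filtration. -/
def g2_spl {J : Type} (ω : J → ℤ) (a : ℤ) :
    Spl {j // ω j < a} {j // ω j < a + 1} {j // ω j = a} where
  l j := ⟨j.1, by have := j.2; omega⟩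
  r j := ⟨j.1, by have := j.2; omega⟩
  bij := by
    constructor
    · rintro (⟨i, hi⟩ | ⟨i, hi⟩) (⟨j, hj⟩ | ⟨j, hj⟩) e <;> obtain rfl : i = j := congrArg Subtype.val e
      exacts [rfl, by omega, by omega, rfl]
    · intro j
      by_cases h : ω j.1 < a
      · exact ⟨.inl ⟨j.1, h⟩, rfl⟩
      · exact ⟨.inr ⟨j.1, by have := j.2; omega⟩, rfl⟩

theorem g2_ctr (hp : Low ω ω X.p) (hD : Low ω ω X.D) (a : ℤ) :
    CTr (g2_lt X ω a) (g2_lt X ω (a + 1)) (pc X ω a) (g2_spl ω a) :=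
  have k : ∀ f : Matrix X.J X.J A, Low ω ω f → ∀ (i : {j // ω j = a}) (j : {j // ω j < a}),
      f i j = 0 := fun f hf i j => by_contra fun c => by
    have := hf _ _ c
    have := i.2
    have := j.2
    omega
  ⟨fun _ => rfl, fun _ => rfl, ⟨rfl, rfl, k _ hp⟩, ⟨rfl, rfl, k _ hD⟩⟩

theorem g2_ok (hX : Ok H X) (hp : Low ω ω X.p) (hD : Low ω ω X.D) (a : ℤ) :
    Ok H (g2_lt X ω a) :=
  have k : ∀ f : Matrix X.J X.J A, Low ω ω f → ∀ i j, ¬ ω i < a → ω j < a → f i j = 0 :=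
    fun f hf i j hi hj => by_contra fun c => by
      have := hf _ _ c
      omega
  (CTr.ok (X'' := X.res (Subtype.val : {j // ¬ ω j < a} → X.J)) (a := Spl.of fun j => ω j < a)
    ⟨fun _ => rfl, fun _ => rfl, blk_of (k _ hp), blk_of (k _ hD)⟩ hX).1

theorem g2_he {X' X'' : Cx A Λ} {a : Spl X'.J X.J X''.J} (hH : LR H) (h : CTr X' X X'' a)
    (hX : Ok H X) : ∃ t, Tw H X' X'' t ∧ HE H (X'.ext X'' t) X := by
  obtain ⟨h1, h2, h3, h4, h5, h6, h7⟩ := h.ses hH hX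
  obtain ⟨k1, k2, k3, k4, k5⟩ := ses_ext hH (h.ok hX).1 hX (h.ok hX).2 h1 h2 h3 h4 h5 h6 h7
  exact ⟨_, k1, HE.of_iso k2 k3 k5 k4⟩

theorem g2_ind (hX : Ok H X) (ω : X.J → ℤ) (k₀ : ℤ) (P : ℤ → Prop)
    (h0 : ∀ a, a ≤ k₀ → Nul H 1 (g2_lt X ω a) → P a) (hs : ∀ b, P b → P (b + 1)) :
    ∃ b, k₀ < b ∧ P b ∧ HE H (g2_lt X ω b) X := by
  obtain ⟨N, hN⟩ := Finite.exists_le fun o : Option X.J => |o.elim k₀ ω|
  have h1 : -N ≤ k₀ ∧ k₀ ≤ N := abs_le.1 (hN none)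
  have h2 : ∀ j, -N ≤ ω j ∧ ω j ≤ N := fun j => abs_le.1 (hN (some j))
  refine ⟨N + 1, by omega, Int.leInduction (m := -N) (motive := fun b _ => P b) (h0 _ h1.1 ⟨0, Hm.zero _ _, ?_⟩)
    (fun b _ => hs b) _ (by omega), (Sub.res hX _ fun i j _ => ?_).he hX⟩
  · ext i
    exact absurd i.2 (not_lt.2 (h2 _).1)
  · exact ⟨Int.lt_add_one_of_le (h2 i).2, Int.lt_add_one_of_le (h2 j).2⟩

/-- The last piece of a contractible complex is contractible. -/
theorem nul_pc_single (hH : LR H) (hX : Ok H X) (hp : Low ω ω X.p) (hD : Low ω ω X.D)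
    (h : Nul H 1 X) {k₀ : ℤ} (h' : ∀ k, k ≠ k₀ → Nul H 1 (pc X ω k)) : Nul H 1 (pc X ω k₀) := by
  obtain ⟨b, hb, h1, h2⟩ := g2_ind hX ω k₀ (fun b => (b ≤ k₀ → Nul H 1 (g2_lt X ω b)) ∧
      (k₀ < b → Nul H 1 (g2_lt X ω b) → Nul H 1 (pc X ω k₀)))
    (fun a ha hn => ⟨fun _ => hn, fun c => absurd ha (not_le.2 c)⟩) fun b hb => by
      obtain ⟨t, ht, e⟩ := g2_he hH (g2_ctr hp hD b) (g2_ok hX hp hD _)
      refine ⟨fun c => Nul.he hH Sc.one ?_ e, fun c hn => ?_⟩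
      · simpa only [mul_one] using
          Nul.ext hH Sc.one Sc.one ht (hb.1 (by omega)) (h' b (by omega))
      · replace hn := hn.he hH Sc.one e.symm
        by_cases d : b = k₀
        · subst d
          simpa only [mul_one] using Nul.right hH Sc.one ht hn (hb.1 le_rfl)
        · refine hb.2 (by omega) ?_
          simpa only [mul_one] using Nul.left hH Sc.one ht hn (h' b d)
  exact h1.2 hb (h.he hH Sc.one h2.symm)

end Pc

variable {𝒮 : Sys.{v}} {X' X X'' Y : Cx 𝒮.A 𝒮.Λ} {t : Matrix X.J Y.J 𝒮.A}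

theorem Ob.of_nul (hX : Ok 𝒮.H X) (hS : 𝒮.Good) (h : Nul 𝒮.H 1 X) : Ob 𝒮 X :=
  ⟨hX, fun a => ⟨1, one_mem _, h.mono (hS.le a)⟩⟩

theorem TorS.ext (hS : 𝒮.Good) (hX : TorS 𝒮 X) (hY : TorS 𝒮 Y) (ht : Tw 𝒮.H X Y t) :
    TorS 𝒮 (X.ext Y t) := fun a => by
  obtain ⟨w, hw, h⟩ := hX a
  obtain ⟨w', hw', h'⟩ := hY a
  exact ⟨_, mul_mem hw hw',
    Nul.ext (hS.mulL a) (hS.sc a w hw) (hS.sc a w' hw') (ht.mono (hS.le a)) h h'⟩

theorem TorS.left (hS : 𝒮.Good) (h : TorS 𝒮 (X.ext Y t)) (hY : TorS 𝒮 Y) (ht : Tw 𝒮.H X Y t) :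
    TorS 𝒮 X := fun a => by
  obtain ⟨w, hw, h⟩ := h a
  obtain ⟨w', hw', h'⟩ := hY a
  exact ⟨_, mul_mem hw' hw, Nul.left (hS.mulL a) (hS.sc a w' hw') (ht.mono (hS.le a)) h h'⟩

theorem TorS.right (hS : 𝒮.Good) (h : TorS 𝒮 (X.ext Y t)) (hX : TorS 𝒮 X) (ht : Tw 𝒮.H X Y t) :
    TorS 𝒮 Y := fun a => by
  obtain ⟨w, hw, h⟩ := h a
  obtain ⟨w', hw', h'⟩ := hX a
  exact ⟨_, mul_mem hw' hw, Nul.right (hS.mulL a) (hS.sc a w' hw') (ht.mono (hS.le a)) h h'⟩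

theorem TorS.sh (h : TorS 𝒮 X) (n : ℤ) : TorS 𝒮 (X.sh n) := fun a =>
  (h a).imp fun _ c => ⟨c.1, c.2.sh n⟩

theorem TorS.he (hS : 𝒮.Good) (h : TorS 𝒮 X) (e : HE 𝒮.H X Y) : TorS 𝒮 Y := fun a =>
  (h a).imp fun w c => ⟨c.1, c.2.he (hS.mulL a) (hS.sc a w c.1) (e.mono (hS.le a))⟩

theorem Ob.ext (hS : 𝒮.Good) (hX : Ob 𝒮 X) (hY : Ob 𝒮 Y) (ht : Tw 𝒮.H X Y t) :
    Ob 𝒮 (X.ext Y t) := ⟨hX.ok.ext hY.ok ht, hX.tor.ext hS hY.tor ht⟩

theorem Ob.sh (h : Ob 𝒮 X) (n : ℤ) : Ob 𝒮 (X.sh n) := ⟨h.ok.sh n, h.tor.sh n⟩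

variable {M : Type w} [AddCommGroup M] {κ : Cx 𝒮.A 𝒮.Λ → M}

theorem g2_sh (hκ : AddC 𝒮 κ) (hX : Ob 𝒮 X) : κ X + κ (X.sh 1) = 0 := by
  rw [← hκ.ext _ _ _ hX (hX.sh 1) (Ch.id hX.ok).tw]
  refine hκ.nul _ (hX.ok.cone hX.ok (Ch.id hX.ok)) ?_
  have := cone_smul hX.ok (Sc.one (H := 𝒮.H))
  rwa [one_smul] at this

theorem AddC.he (hκ : AddC 𝒮 κ) (hS : 𝒮.Good) (hX : Ob 𝒮 X) (hY : Ok 𝒮.H Y) (e : HE 𝒮.H X Y) :
    Ob 𝒮 Y ∧ κ X = κ Y := by
  have hY' : Ob 𝒮 Y := ⟨hY, hX.tor.he hS e⟩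
  obtain ⟨f, g, h, k, e⟩ := e
  have h1 := hκ.nul _ (hY.cone hX.ok e.hf) (cone_nul hS.mul hX.ok hY e)
  rw [hκ.ext _ _ _ hY' (hX.sh 1) e.hf.tw] at h1
  exact ⟨hY', add_right_cancel ((g2_sh hκ hX).trans h1.symm)⟩

theorem AddC.sh (hκ : AddC 𝒮 κ) (hS : 𝒮.Good) (hX : Ob 𝒮 X) : κ (X.sh 1) = -κ X :=
  have _ := hS
  eq_neg_of_add_eq_zero_right (g2_sh hκ hX)

theorem AddC.ctr (hκ : AddC 𝒮 κ) (hS : 𝒮.Good) {a : Spl X'.J X.J X''.J} (h : CTr X' X X'' a)
    (h' : Ob 𝒮 X') (hX : Ok 𝒮.H X) (h'' : Ob 𝒮 X'') : Ob 𝒮 X ∧ κ X = κ X' + κ X'' := by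
  obtain ⟨t, ht, e⟩ := g2_he hS.mul h hX
  obtain ⟨h1, h2⟩ := hκ.he hS (h'.ext hS h'' ht) hX e
  exact ⟨h1, h2.symm.trans (hκ.ext _ _ _ h' h'' ht)⟩

/-- A model for a piece. -/
theorem AddC.pc_eq (hκ : AddC 𝒮 κ) (hS : 𝒮.Good) {ω : X.J → ℤ} {k : ℤ} {e : X'.J → X.J}
    (h : CRes X X' e) (he : Function.Injective e) (hr : ∀ j, j ∈ Set.range e ↔ ω j = k)
    (h' : Ob 𝒮 X') : Ob 𝒮 (pc X ω k) ∧ κ (pc X ω k) = κ X' := by
  have s := (Sub.of_equiv (X' := X') (X := pc X ω k)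
    (Equiv.ofBijective (fun i => ⟨e i, (hr _).1 ⟨i, rfl⟩⟩)
      ⟨fun i j c => he (congrArg Subtype.val c), fun j =>
        ((hr _).2 j.2).imp fun _ c => Subtype.ext c⟩) h.t h.p h.D).1
  have o := s.ok_iff.1 h'.ok
  exact (hκ.he hS h' o (s.he o)).imp_right Eq.symm

/-- Only one piece of a filtration contributes. -/
theorem AddC.fil (hκ : AddC 𝒮 κ) (hS : 𝒮.Good) (hX : Ok 𝒮.H X) {ω : X.J → ℤ} (hp : Low ω ω X.p)
    (hD : Low ω ω X.D) (ho : ∀ k, Ob 𝒮 (pc X ω k)) (k₀ : ℤ)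
    (h0 : ∀ k, k ≠ k₀ → κ (pc X ω k) = 0) : Ob 𝒮 X ∧ κ X = κ (pc X ω k₀) := by
  obtain ⟨b, hb, h1, h2⟩ := g2_ind hX ω k₀ (fun b => Ob 𝒮 (g2_lt X ω b) ∧
      κ (g2_lt X ω b) = if k₀ < b then κ (pc X ω k₀) else 0)
    (fun a ha hn => ⟨Ob.of_nul (g2_ok hX hp hD a) hS hn, by
      rw [if_neg (not_lt.2 ha), hκ.nul _ (g2_ok hX hp hD a) hn]⟩) fun b hb => by
      obtain ⟨k1, k2⟩ := hκ.ctr hS (g2_ctr hp hD b) hb.1 (g2_ok hX hp hD _) (ho b)
      refine ⟨k1, ?_⟩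
      rw [k2, hb.2]
      by_cases d : b = k₀
      · rw [d, if_neg (lt_irrefl _), if_pos (lt_add_one _), zero_add]
      · rw [h0 b d, add_zero]
        exact if_congr (by omega) rfl rfl
  obtain ⟨k1, k2⟩ := hκ.he hS h1.1 hX h2
  exact ⟨k1, by rw [← k2, h1.2, if_pos hb]⟩

end Pool.Agent.MP_f7db47_al.GR

end

section

/-!
The retraction takes values in objects.
-/

namespace Pool.Agent.MP_f7db47_al.GR

open Matrix KN Polynomial

universe v w

section Fam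

variable {A : Type v} [Ring A] {Λ : Type} {H : Fam A Λ} {Z Z' : Cx (A[X] × A[X]) Λ} {n N : ℕ}
  {h : Matrix Z.J Z.J (A[X] × A[X])}

theorem hm_br {d : ℤ} {I J : Type} {s : I → Λ × ℤ} {t : J → Λ × ℤ}
    {f : Matrix I J (A[X] × A[X])} (hf : Hm (bF H) d s t f) (ε : Bool) :
    Hm (pF H) d s t (f.map (br _ ε)) := fun i j =>
  ⟨by cases ε; exacts [(hf i j).1.1, (hf i j).1.2.1],
    fun e => (hf i j).2 fun e' => e (by rw [map_apply, e', map_zero])⟩

theorem g7_mul {B C : Type v} [Ring B] [Ring C] (φ : B →+* C) {I J K : Type} [Fintype J]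
    {f : Matrix I J B} {g : Matrix J K B} {k : Matrix I K B} (e : f * g = k) :
    f.map φ * g.map φ = k.map φ := by rw [← Matrix.map_mul, e]

theorem g7_htp {B C : Type v} [Ring B] [Ring C] (φ : B →+* C) {J : Type} [Fintype J]
    {D s p : Matrix J J B} {w : B} (e : D * s + s * D = w • p) :
    D.map φ * s.map φ + s.map φ * D.map φ = φ w • p.map φ := by
  rw [← Matrix.map_mul, ← Matrix.map_mul, ← Matrix.map_add _ (map_add φ), e, map_smul']

theorem ok_br (hZ : Ok (bF H) Z) (ε : Bool) : Ok (pF H) (zb ε Z) :=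
  ⟨hm_br hZ.hp ε, hm_br hZ.hD ε, g7_mul _ hZ.pp, g7_mul _ hZ.pD, g7_mul _ hZ.Dp,
    (g7_mul _ hZ.DD).trans (Matrix.map_zero _ (map_zero _))⟩

theorem Wit.br (hh : Wit H Z N h) (ε : Bool) : Wit1 H (zb ε Z) N (h.map (br _ ε)) :=
  ⟨⟨hm_br hh.1.hm ε, g7_mul _ hh.1.pl, g7_mul _ hh.1.pr⟩,
    (g7_htp _ hh.2).trans (by rw [map_pow]; cases ε <;> rfl)⟩

theorem hm_TE {d : ℤ} {f : Matrix Z.J Z'.J (A[X] × A[X])} (hf : Hm (bF H) d Z.t Z'.t f) (n : ℕ)
    (c : ℤ) : Hm (eF H) d (TE n c Z).t (TE n c Z').t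
      (pr (tz n n (f.map (br _ false))) (tz n n (f.map (br _ true)))) := by
  refine hm_e.2 ⟨hm_f.2 fun ε => ?_, fun i j => ⟨fun e => ?_, fun e => ?_⟩⟩
  · rw [br_pr]
    cases ε
    exacts [hm_tz (hm_br hf false), hm_tz (hm_br hf true)]
  · have e' : (i.2 : ℕ) = j.2 := by simp only at e; omega
    simp only [pr, tz_apply, e', coeff_mul_X_pow', le_refl, if_true, Nat.sub_self]
    exact (hf i.1 j.1).1.2.2
  · have e' : ¬(j.2 : ℕ) ≤ i.2 := by simp only at e; omega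
    simp only [pr, tz_apply, coeff_mul_X_pow', if_neg e']
    rfl

theorem ok_TE (hZ : Ok (bF H) Z) (n : ℕ) (c : ℤ) : Ok (eF H) (TE n c Z) :=
  have a := ok_T1 (ok_br hZ false) n
  have b := ok_T1 (ok_br hZ true) n
  ⟨hm_TE hZ.hp n c, hm_TE hZ.hD n c, (pr_mul ..).trans (congrArg₂ pr a.pp b.pp),
    (pr_mul ..).trans (congrArg₂ pr a.pD b.pD), (pr_mul ..).trans (congrArg₂ pr a.Dp b.Dp),
    (pr_mul ..).trans ((congrArg₂ pr a.DD b.DD).trans pr_zero)⟩

theorem nul_TE {w : A} (hZ : Nul (bF H) (C w, C w) Z) (n : ℕ) (c : ℤ) :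
    Nul (eF H) (w, w) (TE n c Z) := by
  obtain ⟨s, h1, h2⟩ := hZ
  have e : ∀ ε, tz n n (Z.D.map (br _ ε)) * tz n n (s.map (br _ ε)) +
      tz n n (s.map (br _ ε)) * tz n n (Z.D.map (br _ ε)) = w • tz n n (Z.p.map (br _ ε)) := by
    intro ε
    rw [← tz_mul, ← tz_mul, ← tz_add, ← tz_C, g7_htp _ h2]
    cases ε <;> rfl
  refine ⟨_, hm_TE h1 n c, ?_⟩
  rw [pr_mul, pr_mul, pr_add, pr_smul]
  exact congrArg₂ pr (e false) (e true)

/-- There is no condition on maps from positive levels to the other levels. -/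
theorem hm_cross {d : ℤ} {f g : Matrix (Z.J × Fin (n + 1)) (Z.J × Fin n) A}
    (hf : Hm H d (T1 (n + 1) (zb false Z)).t (T1 n (zb false Z)).t f)
    (hg : Hm H d (T1 (n + 1) (zb true Z)).t (T1 n (zb true Z)).t g) :
    Hm (eF H) d (TE (n + 1) 0 Z).t (TE n n Z).t (pr f g) := by
  refine hm_e.2 ⟨hm_f.2 fun ε => ?_, fun i j => ?_⟩
  · rw [br_pr]
    cases ε
    exacts [hf, hg]
  · have := j.2.isLt
    exact ⟨fun e => by simp only at e; omega, fun e => by simp only at e; omega⟩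

theorem thE_ch (hH : LR H) (hZ : Ok (bF H) Z) (hh : Wit H Z N h) (hn : N ≤ n) :
    Ch (eF H) (TE (n + 1) 0 Z) (TE n n Z) (thE n N Z h) :=
  have a := th_ch hH (ok_br hZ false) (hh.br false) hn
  have b := th_ch hH (ok_br hZ true) (hh.br true) hn
  ⟨⟨hm_cross a.hm b.hm, (pr_mul ..).trans (congrArg₂ pr a.pl b.pl),
    (pr_mul ..).trans (congrArg₂ pr a.pr b.pr)⟩,
    (pr_mul ..).trans ((congrArg₂ pr a.cm b.cm).trans (pr_mul ..).symm)⟩

theorem rho_nul (hH : LR H) (hZ : Ok (bF H) Z) (hh : Wit H Z N h) (hn : N ≤ n)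
    (h0 : Nul (bF H) 1 Z) : Nul (eF H) 1 (rho n N Z h) := by
  have h1 : Nul (bF H) (C 1, C 1) Z := by rwa [C_1]
  have := Nul.ext (lr_e hH) Sc.one Sc.one (thE_ch hH hZ hh hn).tw (nul_TE h1 _ _)
    ((nul_TE h1 _ _).sh 1)
  rwa [mul_one] at this

theorem g7_fix {δ : A →+* A} {I J : Type} {f : Matrix I J (A[X] × A[X])}
    (hf : f.map (RingHom.prodMap (mapRingHom δ) (mapRingHom δ)) = f) (ε : Bool) :
    (f.map (br _ ε)).map (mapRingHom δ) = f.map (br _ ε) := by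
  conv_rhs => rw [← hf]
  cases ε <;> rfl

theorem g7_pr {δ : A →+* A} {I J : Type} {f g : Matrix I J A} (hf : f.map δ = f)
    (hg : g.map δ = g) : (pr f g).map (RingHom.prodMap δ δ) = pr f g := congrArg₂ pr hf hg

theorem g7_tz {δ : A →+* A} {J : Type} [Fintype J] [DecidableEq J] {f : Matrix J J (A[X] × A[X])}
    (hf : f.map (RingHom.prodMap (mapRingHom δ) (mapRingHom δ)) = f) (n : ℕ) :
    (pr (tz n n (f.map (br _ false))) (tz n n (f.map (br _ true)))).map (RingHom.prodMap δ δ) =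
      pr (tz n n (f.map (br _ false))) (tz n n (f.map (br _ true))) :=
  g7_pr (by rw [← tz_map, g7_fix hf]) (by rw [← tz_map, g7_fix hf])

end Fam

variable {𝒮 : Sys.{v}} {Z : Cx (𝒮.A[X] × 𝒮.A[X]) 𝒮.Λ} {n N : ℕ}
  {h : Matrix Z.J Z.J (𝒮.A[X] × 𝒮.A[X])}

theorem exists_wit (hS : 𝒮.Good) (hZ : Ob 𝒮.B Z) : ∃ N h, Wit 𝒮.H Z N h := by
  obtain ⟨_, ⟨N, rfl⟩, h⟩ := hZ.tor none
  exact ⟨N, Nul.sand (lr_b hS.mul) hZ.ok ((sc_bX (H := 𝒮.H)).pow N).1 h⟩

theorem rho_ob (hS : 𝒮.Good) (hZ : Ob 𝒮.B Z) (hh : Wit 𝒮.H Z N h) (hn : N ≤ n) :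
    Ob 𝒮.E (rho n N Z h) := by
  have c := thE_ch hS.mul hZ.ok hh hn
  refine ob_E.2 ⟨(ok_TE hZ.ok _ _).cone (ok_TE hZ.ok _ _) c, nul_f.2 fun ε => ?_, fun a => ?_⟩
  · have k := th_nul hS.mul (ok_br hZ.ok ε) (hh.br ε) hn
    refine (Sub.nul_iff (A := 𝒮.A) ?_).1 k
    refine (Sub.of_equiv (A := 𝒮.A) (by exact Equiv.refl _) ?_ ?_ ?_).1
    · rintro (i | i) <;> rfl
    all_goals
      ext (i | i) (j | j) <;> cases ε <;> rfl
  · obtain ⟨_, ⟨w, hw, rfl⟩, h1⟩ := hZ.tor (some a)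
    have s := sc_e (hS.sc a w hw)
    exact ⟨w * w, mul_mem hw hw, Nul.ext (lr_e (hS.mulL a)) s s (c.tw.mono (e_mono (hS.le a)))
      (nul_TE h1 _ _) ((nul_TE h1 _ _).sh 1)⟩

theorem rho_fix (hS : 𝒮.Good) (hh : Wit 𝒮.H Z N h) {b : 𝒮.β} (hF : Fix (𝒮.B.Δ b) Z) :
    Wit 𝒮.H Z N (h.map (𝒮.B.Δ b)) ∧
      ∀ n, Fix (𝒮.E.Δ (some b)) (rho n N Z (h.map (𝒮.B.Δ b))) := by
  have hd : (h.map (𝒮.B.Δ b)).map (𝒮.B.Δ b) = h.map (𝒮.B.Δ b) := by
    ext1 i j
    exact hS.B.dd b _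
  refine ⟨⟨⟨fun i j => ⟨hS.B.dH b (hh.1.hm i j).1, fun e => (hh.1.hm i j).2 fun e' =>
    e (by rw [map_apply, e', map_zero])⟩, ?_, ?_⟩, ?_⟩, fun n => ⟨?_, ?_⟩⟩
  · simpa only [hF.1] using g7_mul (𝒮.B.Δ b) hh.1.pl
  · simpa only [hF.1] using g7_mul (𝒮.B.Δ b) hh.1.pr
  · have e : 𝒮.B.Δ b (X, X) = (X, X) := Prod.ext (map_X _) (map_X _)
    simpa only [hF.1, hF.2, map_pow, e] using g7_htp (𝒮.B.Δ b) hh.2
  · refine (fromBlocks_map ..).trans ?_
    rw [Matrix.map_zero _ (map_zero _), Matrix.map_zero _ (map_zero _)]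
    exact congrArg₂ (fromBlocks · 0 0 ·) (g7_tz hF.1 _) (g7_tz hF.1 _)
  · refine (fromBlocks_map ..).trans ?_
    rw [Matrix.map_zero _ (map_zero _), Matrix.map_neg _ (map_neg _)]
    have e := fun ε => th_map (n := n) (N := N) (Z := zb ε Z) (g7_fix hF.1 ε) (g7_fix hF.2 ε)
      (g7_fix hd ε)
    exact congr(fromBlocks $(g7_tz hF.2 _) $(g7_pr (e false) (e true)) 0 (-$(g7_tz hF.2 _)))

end Pool.Agent.MP_f7db47_al.GR

end

section

/-!
The retraction is well defined and additive.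
-/

namespace Pool.Agent.MP_f7db47_al.GR

open Matrix KN Polynomial

universe v w

section Fam

variable {A : Type v} [Ring A] {Λ : Type} {H : Fam A Λ} {Z Z' Z'' : Cx (A[X] × A[X]) Λ}
  {n N N' L m : ℕ} {h k : Matrix Z.J Z.J (A[X] × A[X])} {h' : Matrix Z'.J Z'.J (A[X] × A[X])}

theorem g7b_pow (hh : Wit H Z N h) (e : L = N + m) :
    Wit H Z L (((X, X) ^ m : A[X] × A[X]) • h) :=
  ⟨a2_smul (sc_bX.pow m) hh.1, by
    rw [mul_smul_cen ((sc_bX (H := H)).pow m).1, Matrix.smul_mul, ← smul_add, hh.2, smul_smul,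
      ← pow_add, add_comm, e]⟩

theorem g7b_rho (h : Matrix Z.J Z.J (A[X] × A[X])) (e : L = N + m) (hn : L ≤ n) :
    rho n L Z (((X, X) ^ m : A[X] × A[X]) • h) = rho n N Z h := by
  subst e
  have e1 : ∀ ε, (((X, X) ^ m : A[X] × A[X]) • h).map (br _ ε) =
      (X ^ m : A[X]) • h.map (br _ ε) := fun ε => by
    rw [map_smul', map_pow]
    cases ε <;> rfl
  refine congrArg ((TE (n + 1) 0 Z).cone (TE n n Z)) ?_
  rw [thE, thE, e1, e1]
  exact congrArg₂ pr (th_pow (Z := zb false Z) _ hn) (th_pow (Z := zb true Z) _ hn)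

theorem g7b_he (hH : LR H) (hZ : Ok (bF H) Z) (hh : Wit H Z N h) (hk : Wit H Z N k)
    (hn : 2 * N ≤ n) : HE (eF H) (rho n N Z h) (rho n N Z k) := by
  obtain ⟨s, m, e⟩ := th_ind hH (ok_br hZ false) (hh.br false) (hk.br false) hn
  obtain ⟨s', m', e'⟩ := th_ind hH (ok_br hZ true) (hh.br true) (hk.br true) hn
  have hs : Mp (eF H) 0 (TE (n + 1) 0 Z) ((TE n n Z).sh 1) (pr s s') :=
    ⟨(hm_cross m.hm m'.hm).shift_right 1 (by omega),
      (pr_mul _ _ _ _).trans (congrArg₂ pr m.pl m'.pl),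
      (pr_mul _ _ _ _).trans (congrArg₂ pr m.pr m'.pr)⟩
  have e1 : thE n N Z k = thE n N Z h +
      ((TE (n + 1) 0 Z).D * pr s s' - pr s s' * ((TE n n Z).sh 1).D) := by
    rw [Matrix.mul_neg, sub_neg_eq_add, pr_mul, pr_mul, pr_add, thE, thE, pr_add]
    exact congrArg₂ pr e e'
  have := (ext_htpy (lr_e hH) (ok_TE hZ _ _) ((ok_TE hZ _ _).sh 1) hs
    (thE_ch hH hZ hh (by omega)).tw).2
  rwa [← e1] at this

theorem g7b_wit (hH : LR H) {t : Matrix Z.J Z'.J (A[X] × A[X])} (ht : Tw (bF H) Z Z' t)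
    (hh : Wit H Z N h) (hh' : Wit H Z' N' h') : Wit H (Z.ext Z' t) (N + N')
      (fromBlocks (((X, X) ^ N' : A[X] × A[X]) • h) (-(h * t * h')) 0
        (((X, X) ^ N : A[X] × A[X]) • h')) := by
  obtain ⟨a1, a2⟩ := g7b_pow (m := N') hh rfl
  obtain ⟨b1, b2⟩ := g7b_pow (m := N) hh' (add_comm N N')
  have c : Mp (bF H) 1 Z Z' (-(h * t * h')) :=
    a5_neg ((hh.1.comp (lr_b hH) ht.toMp (e := 0) (by omega)).comp (lr_b hH) hh'.1 (by omega))
  have hw := fun m => ((sc_bX (H := H)).pow m).1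
  have e1 := eq_sub_of_add_eq hh.2
  have e2 := eq_sub_of_add_eq' hh'.2
  have e3 : Z.D * (h * t * h') = ((X, X) ^ N : A[X] × A[X]) • (t * h') + h * t * Z'.D * h' := by
    rw [← Matrix.mul_assoc, ← Matrix.mul_assoc, e1, Matrix.sub_mul, Matrix.sub_mul,
      Matrix.smul_mul, Matrix.smul_mul, ht.pl, Matrix.mul_assoc h Z.D t, a4_neg ht]
    simp [Matrix.mul_assoc]
  have e4 : h * t * h' * Z'.D = ((X, X) ^ N' : A[X] × A[X]) • (h * t) - h * t * Z'.D * h' := by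
    rw [Matrix.mul_assoc (h * t) h', e2, Matrix.mul_sub, mul_smul_cen (hw _),
      Matrix.mul_assoc h t Z'.p, ht.pr]
    simp [Matrix.mul_assoc]
  refine ⟨⟨Hm.blocks a1.hm c.hm (Hm.zero _ _) b1.hm, ?_, ?_⟩, ?_⟩
  · simp only [fromBlocks_multiply, a1.pl, c.pl, b1.pl, Matrix.zero_mul, Matrix.mul_zero, add_zero,
      zero_add]
  · simp only [fromBlocks_multiply, a1.pr, c.pr, b1.pr, Matrix.zero_mul, Matrix.mul_zero, add_zero,
      zero_add]
  · simp only [fromBlocks_multiply, fromBlocks_add, fromBlocks_smul, fromBlocks_inj,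
      Matrix.zero_mul, Matrix.mul_zero, add_zero, zero_add, smul_zero]
    refine ⟨a2, ?_, trivial, b2⟩
    rw [Matrix.mul_neg, Matrix.neg_mul, e3, e4, mul_smul_cen (hw _), Matrix.smul_mul]
    abel

variable {a : Spl Z'.J Z.J Z''.J}

theorem g7b_zb (hZ : CTr Z' Z Z'' a) (ε : Bool) : CTr (zb ε Z') (zb ε Z) (zb ε Z'') a :=
  ⟨hZ.tl, hZ.tr, hZ.p.map (map_zero _), hZ.D.map (map_zero _)⟩

theorem g7b_TE (hZ : CTr Z' Z Z'' a) (n : ℕ) (c : ℤ) :
    CTr (TE n c Z') (TE n c Z) (TE n c Z'') (a.prod (Fin n)) :=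
  ⟨fun i => congrArg (fun y : Λ × ℤ => ((y.1, c - (i.2 : ℕ)), y.2)) (hZ.tl i.1),
    fun i => congrArg (fun y : Λ × ℤ => ((y.1, c - (i.2 : ℕ)), y.2)) (hZ.tr i.1),
    ((g7b_zb hZ false).p.tz n n).pr ((g7b_zb hZ true).p.tz n n),
    ((g7b_zb hZ false).D.tz n n).pr ((g7b_zb hZ true).D.tz n n)⟩

theorem g7b_ctr (hZ : CTr Z' Z Z'' a) {h'' : Matrix Z''.J Z''.J (A[X] × A[X])}
    (hh : Blk a a h' h h'') : CTr (rho n N Z' h') (rho n N Z h) (rho n N Z'' h'')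
      ((a.prod (Fin (n + 1))).add (a.prod (Fin n))) :=
  (g7b_TE hZ _ _).ext ((g7b_TE hZ _ _).sh 1) (((g7b_zb hZ false).th (hh.map (map_zero _))).pr
    ((g7b_zb hZ true).th (hh.map (map_zero _))))

end Fam

variable {𝒮 : Sys.{v}} {Z Z' : Cx (𝒮.A[X] × 𝒮.A[X]) 𝒮.Λ} {N N' : ℕ}
  {h k : Matrix Z.J Z.J (𝒮.A[X] × 𝒮.A[X])} {h' : Matrix Z'.J Z'.J (𝒮.A[X] × 𝒮.A[X])}
  {M : Type w} [AddCommGroup M] {κ : Cx 𝒮.E.A 𝒮.E.Λ → M}

theorem rho_ind (hκ : AddC 𝒮.E κ) (hS : 𝒮.Good) (hZ : Ob 𝒮.B Z) (hh : Wit 𝒮.H Z N h)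
    (hk : Wit 𝒮.H Z N' k) : ∀ᶠ n in Filter.atTop, κ (rho n N Z h) = κ (rho n N' Z k) := by
  filter_upwards [Filter.eventually_ge_atTop (2 * (N + N'))] with n hn
  have a := g7b_pow (m := N') hh rfl
  have b := g7b_pow (m := N) hk (add_comm N N')
  rw [← g7b_rho (m := N') h rfl (by omega), ← g7b_rho (m := N) k (add_comm N N') (by omega)]
  exact (hκ.he hS.E (rho_ob hS hZ a (by omega)) (rho_ob hS hZ b (by omega)).ok
    (g7b_he hS.mul hZ.ok a b hn)).2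

theorem rho_ext (hκ : AddC 𝒮.E κ) (hS : 𝒮.Good) (hZ : Ob 𝒮.B Z) (hZ' : Ob 𝒮.B Z')
    {t : Matrix Z.J Z'.J (𝒮.A[X] × 𝒮.A[X])} (ht : Tw (bF 𝒮.H) Z Z' t) (hh : Wit 𝒮.H Z N h)
    (hh' : Wit 𝒮.H Z' N' h') : ∃ g, Wit 𝒮.H (Z.ext Z' t) (N + N') g ∧ ∀ n, N + N' ≤ n →
      κ (rho n (N + N') (Z.ext Z' t) g) = κ (rho n N Z h) + κ (rho n N' Z' h') := by
  have c := g7b_wit hS.mul ht hh hh'
  refine ⟨_, c, fun n hn => ?_⟩
  rw [← g7b_rho (m := N') h rfl hn, ← g7b_rho (m := N) h' (add_comm N N') hn]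
  exact (hκ.ctr hS.E (g7b_ctr (ctr_ext Z Z' t) (blk_sum _ _ _))
    (rho_ob hS hZ (g7b_pow hh rfl) hn) (rho_ob hS (hZ.ext hS.B hZ' ht) c hn).ok
    (rho_ob hS hZ' (g7b_pow hh' (add_comm N N')) hn)).2

end Pool.Agent.MP_f7db47_al.GR

end

section

/-!
Cones of identities with shifted levels.
-/

namespace Pool.Agent.MP_f7db47_al.GR

open Matrix KN

universe v w

variable {𝒮 : Sys.{v}} {Q Y : Cx (𝒮.A × 𝒮.A) (𝒮.Λ × ℤ)} {c : ℤ}
  {M : Type w} [AddCommGroup M] {κ : Cx 𝒮.E.A 𝒮.E.Λ → M}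

section Aux

variable {A : Type v} [Ring A] {Λ : Type} {H : Fam A Λ} {Z : Cx (A × A) (Λ × ℤ)} {d : ℤ}
  {f : Matrix Z.J Z.J (A × A)}

theorem g8_up (h : Hm (eF H) d Z.t Z.t f) (hc : 0 < c) : Hm (eF H) d Z.t (upE c Z).t f :=
  fun i j => ⟨⟨(h i j).1.1, (h i j).1.2.1, fun e => by
    rw [(h i j).1.2.2.2 (by simp only at e; omega)]; rfl,
    fun e => (h i j).1.2.2.2 (by simp only at e; omega)⟩, (h i j).2⟩

theorem g8_uu (h : Hm (eF H) d Z.t Z.t f) (c : ℤ) : Hm (eF H) d (upE c Z).t (upE c Z).t f :=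
  fun i j => ⟨⟨(h i j).1.1, (h i j).1.2.1, fun e => (h i j).1.2.2.1 (by simp only at e; omega),
    fun e => (h i j).1.2.2.2 (by simp only at e; omega)⟩, (h i j).2⟩

theorem g8_low {a b e : Matrix Z.J Z.J (A × A)} {d₁ d₂ d₃ : ℤ} (h : Hm (eF H) d Z.t Z.t f)
    (ha : Hm (eF H) d₁ Z.t Z.t a) (hb : Hm (eF H) d₂ Z.t Z.t b) (he : Hm (eF H) d₃ Z.t Z.t e) :
    Low (Sum.elim (lv Z) (lv Z)) (Sum.elim (lv Z) (lv Z)) (fromBlocks f a b e) := by
  rintro (i | i) (j | j)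
  exacts [low_e h i j, low_e ha i j, low_e hb i j, low_e he i j]

theorem g8_fix {a b e : Matrix Z.J Z.J (A × A)} {d₁ d₂ d₃ : ℤ} (h : Hm (eF H) d Z.t Z.t f)
    (ha : Hm (eF H) d₁ Z.t Z.t a) (hb : Hm (eF H) d₂ Z.t Z.t b) (he : Hm (eF H) d₃ Z.t Z.t e)
    {i j : Z.J ⊕ Z.J} (hij : Sum.elim (lv Z) (lv Z) i = Sum.elim (lv Z) (lv Z) j) :
    RingHom.prod (RingHom.fst A A) (RingHom.fst A A) (fromBlocks f a b e i j) =
      fromBlocks f a b e i j := by
  refine Prod.ext rfl ?_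
  rcases i with i | i <;> rcases j with j | j
  exacts [(h i j).1.2.2.1 hij, (ha i j).1.2.2.1 hij, (hb i j).1.2.2.1 hij, (he i j).1.2.2.1 hij]

theorem g8_eq (Z : Cx (A × A) (Λ × ℤ)) (c : ℤ) : upE (-c) (upE c Z) = Z :=
  congrArg (fun t => Cx.mk Z.J t Z.p Z.D) (funext fun i => by
    simp only [add_neg_cancel_right])

end Aux

theorem ch_up (hQ : Ok (eF 𝒮.H) Q) (hc : 0 < c) : Ch (eF 𝒮.H) Q (upE c Q) Q.p :=
  ⟨⟨g8_up hQ.hp hc, hQ.pp, hQ.pp⟩, hQ.Dp.trans hQ.pD.symm⟩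

theorem cid (hκ : AddC 𝒮.E κ) (hS : 𝒮.Good) (hQ : Ok (eF 𝒮.H) Q) (hT : TorE 𝒮 Q) (hc : 0 < c) :
    Ob 𝒮.E (Q.cone (upE c Q) Q.p) ∧ κ (Q.cone (upE c Q) Q.p) = 0 := by
  have hX := hQ.cone (ok_up hQ c) (ch_up hQ hc)
  have z : Hm (eF 𝒮.H) 0 Q.t Q.t 0 := Hm.zero _ _
  have hp := g8_low hQ.hp z z hQ.hp
  have hD := g8_low hQ.hD hQ.hp z hQ.hD.neg
  have ho : ∀ k, Ob 𝒮.E (pc (Q.cone (upE c Q) Q.p) (Sum.elim (lv Q) (lv Q)) k) := fun k => by
    refine ob_E.2 ⟨ok_pc hX hp hD k, nul_pc (h := fromBlocks 0 0 Q.p 0) hD (g8_low z z hQ.hp z)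
      (Hm.blocks (Hm.zero _ _) (Hm.zero _ _) (fun i j => ?_) (Hm.zero _ _)) ?_ k, fun a => ?_⟩
    · exact ⟨⟨(hQ.hp i j).1.1, (hQ.hp i j).1.2.1⟩,
        fun e => by have := (hQ.hp i j).2 e; simp only; omega⟩
    · simp [fromBlocks_multiply, fromBlocks_add, hQ.pp, hQ.pD, hQ.Dp]
    · obtain ⟨w, hw, h⟩ := hT a
      obtain ⟨s, h1, h2⟩ := h.sand (lr_e (hS.mulL a)) (hQ.mono (e_mono (hS.le a)))
        (sc_e (hS.sc a w hw)).1
      refine ⟨w, hw, nul_pc (h := fromBlocks s 0 0 (-s)) hD (g8_low h1.hm (Hm.zero (d := 0) _ _)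
        (Hm.zero (d := 0) _ _) h1.hm.neg) (Hm.blocks h1.hm (Hm.zero _ _) (Hm.zero _ _)
          ((g8_uu h1.hm.neg c).shift 1 1 (by omega))) ?_ k⟩
      simp [fromBlocks_multiply, fromBlocks_add, fromBlocks_smul, h1.pl, h1.pr, h2]
  have h0 : ∀ k, κ (pc (Q.cone (upE c Q) Q.p) (Sum.elim (lv Q) (lv Q)) k) = 0 := fun k =>
    hκ.dia none _ (ho k)
      ⟨Matrix.ext fun i j => g8_fix hQ.hp z z hQ.hp (i.2.trans j.2.symm),
        Matrix.ext fun i j => g8_fix hQ.hD hQ.hp z hQ.hD.neg (i.2.trans j.2.symm)⟩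
  have h := hκ.fil hS.E hX hp hD ho 0 fun k _ => h0 k
  exact ⟨h.1, h.2.trans (h0 0)⟩

theorem cid_htpy (hκ : AddC 𝒮.E κ) (hS : 𝒮.Good) (hQ : Ok (eF 𝒮.H) Q) (hT : TorE 𝒮 Q) (hc : 0 < c)
    {θ k : Matrix Q.J Q.J (𝒮.A × 𝒮.A)} (hk : Mp (eF 𝒮.H) 1 Q (upE c Q) k)
    (e : θ + (Q.D * k + k * Q.D) = Q.p) :
    Ob 𝒮.E (Q.cone (upE c Q) θ) ∧ κ (Q.cone (upE c Q) θ) = 0 := by
  have hU := (ok_up hQ c).sh 1
  have hs : Mp (eF 𝒮.H) 0 Q ((upE c Q).sh 1) (-k) :=
    ⟨hk.hm.neg.shift_right 1 (by omega), by rw [Matrix.mul_neg, hk.pl],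
      by rw [Matrix.neg_mul, hk.pr]⟩
  have h := ext_htpy (lr_e hS.mul) hQ hU hs (ch_up hQ hc).tw
  have e' : Q.p + (Q.D * -k - -k * -Q.D) = θ := by
    rw [← e, Matrix.mul_neg, Matrix.neg_mul, Matrix.mul_neg]
    abel
  rw [e'] at h
  obtain ⟨h1, h2⟩ := cid hκ hS hQ hT hc
  have h3 := hκ.he hS.E h1 (hQ.ext hU h.1) h.2
  exact ⟨h3.1, h3.2.symm.trans h2⟩

theorem g8_ob (hY : Ob 𝒮.E Y) (c : ℤ) : Ob 𝒮.E (upE c Y) := by
  obtain ⟨h1, h2, h3⟩ := ob_E.1 hY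
  exact ob_E.2 ⟨ok_up h1 c, h2, h3.up c⟩

theorem g8_pos (hκ : AddC 𝒮.E κ) (hS : 𝒮.Good) (hY : Ob 𝒮.E Y) (hc : 0 < c) :
    κ (upE c Y) = κ Y := by
  have h := (cid hκ hS hY.ok (ob_E.1 hY).2.2 hc).2
  rw [hκ.ext _ _ _ hY ((g8_ob hY c).sh 1) (ch_up hY.ok hc).tw, hκ.sh hS.E (g8_ob hY c)] at h
  exact (add_neg_eq_zero.1 h).symm

theorem up_inv (hκ : AddC 𝒮.E κ) (hS : 𝒮.Good) (hY : Ob 𝒮.E Y) (c : ℤ) :
    Ob 𝒮.E (upE c Y) ∧ κ (upE c Y) = κ Y := by
  refine ⟨g8_ob hY c, ?_⟩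
  rcases lt_trichotomy c 0 with h | rfl | h
  · rw [← g8_pos hκ hS (g8_ob hY c) (neg_pos.2 h), g8_eq]
  · exact congrArg κ (congrArg (fun t => Cx.mk Y.J t Y.p Y.D) (funext fun i => by
      simp only [add_zero]))
  · exact g8_pos hκ hS hY h

end Pool.Agent.MP_f7db47_al.GR

end

section

/-!
Homogeneous matrices.
-/

namespace Pool.Agent.MP_f7db47_al.GR

open Matrix KN Polynomial

universe v w

section One

variable {A : Type v} [Ring A] {Λ I I' I'' : Type} {j : I → ℤ} {j' : I' → ℤ} {j'' : I'' → ℤ}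
  {N N' n n' : ℕ}

theorem mono_add (f g : Matrix I' I A) : mono N j' j (f + g) = mono N j' j f + mono N j' j g :=
  Matrix.ext fun _ _ => map_add (monomial _) _ _

theorem mono_zero : mono N j' j (0 : Matrix I' I A) = 0 :=
  Matrix.ext fun _ _ => map_zero (monomial _)

theorem g9a_congr {k l : ℕ} {c : A} (h : c ≠ 0 → k = l) : monomial k c = monomial l c := by
  by_cases e : c = 0
  · rw [e, map_zero, map_zero]
  · rw [h e]

theorem g9a_low [Fintype I'] {f : Matrix I'' I' A} {g : Matrix I' I A}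
    (hf : ∀ a b, f a b ≠ 0 → j'' a ≤ N + j' b) (hg : ∀ a b, g a b ≠ 0 → j' a ≤ N' + j b) (a : I'')
    (b : I) (h : (f * g) a b ≠ 0) : j'' a ≤ (N + N' : ℕ) + j b := by
  obtain ⟨k, -, hk⟩ := Finset.exists_ne_zero_of_sum_ne_zero h
  have h1 := hf a k (left_ne_zero_of_mul hk)
  have h2 := hg k b (right_ne_zero_of_mul hk)
  omega

theorem g9a_coeff {f : Matrix I' I A} (hf : ∀ a b, f a b ≠ 0 → j' a ≤ N + j b) (a : I') (b : I)
    (m : ℕ) : (mono N j' j f a b).coeff m = if j' a + m = N + j b then f a b else 0 := by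
  rw [mono, coeff_monomial]
  by_cases e : f a b = 0
  · rw [e, ite_self, ite_self]
  · have := hf a b e
    exact if_congr (by omega) rfl rfl

theorem g9a_up [Fintype I] [DecidableEq I] {f : Matrix I' I A}
    (hf : ∀ a b, f a b ≠ 0 → j' a ≤ N + j b) : mono N j' j f * up1 A I n =
      mono N j' (fun y : I × Fin n => j y.1 + (y.2 : ℕ)) (f.submatrix id Prod.fst) := by
  refine Matrix.ext fun a y => ?_
  rw [mul_up_apply, mono, mono, monomial_mul_X_pow]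
  exact g9a_congr fun e => by have := hf a y.1 e; omega

theorem g9a_sum {c ν : ℤ} {t : A} (h : t ≠ 0 → c ≤ ν) :
    (∑ μ : Fin n, if c + (μ : ℕ) = ν then t else 0) = if ¬c ≤ ν - n then t else 0 := by
  by_cases e : t = 0
  · simp [e]
  have := h e
  split_ifs with h1
  · exact Finset.sum_eq_zero fun μ _ => if_neg (by omega)
  · rw [Finset.sum_eq_single ⟨(ν - c).toNat, by omega⟩ (fun μ _ hμ => if_neg fun e' =>
      hμ (Fin.ext (by dsimp only; omega))) fun e' => absurd (Finset.mem_univ _) e']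
    exact if_pos (by dsimp only; omega)

theorem mono_mul [Fintype I'] {f : Matrix I'' I' A} {g : Matrix I' I A}
    (hf : ∀ a b, f a b ≠ 0 → j'' a ≤ N + j' b) (hg : ∀ a b, g a b ≠ 0 → j' a ≤ N' + j b) :
    mono N j'' j' f * mono N' j' j g = mono (N + N') j'' j (f * g) := by
  refine Matrix.ext fun a b => ?_
  rw [Matrix.mul_apply, mono, Matrix.mul_apply, map_sum]
  refine Finset.sum_congr rfl fun k _ => ?_
  rw [mono, mono, monomial_mul_monomial]
  refine g9a_congr fun e => ?_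
  have h1 := hf a k (left_ne_zero_of_mul e)
  have h2 := hg k b (right_ne_zero_of_mul e)
  omega

theorem mono_pow {f : Matrix I' I A} (hf : ∀ a b, f a b ≠ 0 → j' a ≤ N + j b) (m : ℕ) :
    (X ^ m : A[X]) • mono N j' j f = mono (m + N) j' j f := by
  refine Matrix.ext fun a b => ?_
  rw [Matrix.smul_apply, smul_eq_mul, mono, mono, X_pow_mul_monomial]
  exact g9a_congr fun e => by have := hf a b e; omega

theorem mono_C (w : A) (f : Matrix I' I A) : (C w : A[X]) • mono N j' j f = mono N j' j (w • f) :=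
  Matrix.ext fun _ _ => C_mul_monomial

theorem tz_mono [Fintype I] [DecidableEq I] {f : Matrix I' I A}
    (hf : ∀ a b, f a b ≠ 0 → j' a ≤ N + j b) (x' : I' × Fin n') (x : I × Fin n) :
    tz n' n (mono N j' j f) x' x =
      if j' x'.1 + (x'.2 : ℕ) = N + j x.1 + (x.2 : ℕ) then f x'.1 x.1 else 0 := by
  rw [tz, g9a_up hf, dn, g9a_coeff fun a b e => by have := hf a b.1 e; omega, add_assoc]
  rfl

theorem g9a_th0 {Z : Cx A[X] Λ} {j : Z.J → ℤ} {p D s : Matrix Z.J Z.J A} (hp : Z.p = mono 0 j j p)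
    (hD : Z.D = mono 0 j j D) (lp : Low j j p) (lD : Low j j D) (hN : ∀ a b, j a ≤ N + j b)
    (hn : N ≤ n) (a : Z.J) (y : Z.J × Fin n) (m : ℕ) {ν : ℤ} (hν : j y.1 + (y.2 : ℕ) = ν) :
    (th0 n N Z (mono N j j s) a y).coeff m =
      (if j a + m = ν then (p - s * ind A {i | j i ≤ ν - n} * D) a y.1 else 0) +
      if j a + m = ν + 1 then (s * ind A {i | j i ≤ ν - n} * D) a y.1 else 0 := by
  subst hν
  obtain ⟨g, hg⟩ : ∃ g : Matrix Z.J (Z.J × Fin n) A,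
    ∀ k y, g k y = if j k ≤ j y.1 + (y.2 : ℕ) - n then D k y.1 else 0 := ⟨_, fun _ _ => rfl⟩
  have lg : ∀ k y, g k y ≠ 0 → j k ≤ (0 : ℕ) + (j y.1 + (y.2 : ℕ) - n) := fun k y e => by
    by_contra c
    exact e (by rw [hg, if_neg (by omega)])
  have e1 : sd n (Z.D * up1 A Z.J n) = mono 0 j (fun y => j y.1 + (y.2 : ℕ) - n) g := by
    refine Matrix.ext fun k y => Polynomial.ext fun r => ?_
    rw [coeff_sd, hD, g9a_up fun a b e => by have := lD a b e; omega,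
      g9a_coeff fun a b e => by have := lD a b.1 e; omega, g9a_coeff lg, hg]
    split_ifs <;> first | rfl | omega
  have e2 : (s * g) a y = (s * ind A {i | j i ≤ j y.1 + (y.2 : ℕ) - n} * D) a y.1 := by
    rw [Matrix.mul_apply, Matrix.mul_apply]
    refine Finset.sum_congr rfl fun k _ => ?_
    rw [mul_ind_apply, hg, Set.mem_ofPred_eq]
    split_ifs <;> simp
  have l2 := g9a_low (f := s) (fun a b _ => hN a b) lg
  rw [th0, e1, hp, g9a_up fun a b e => by have := lp a b e; omega,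
    mono_mul (fun a b _ => hN a b) lg, sub_mul, one_mul, ← _root_.pow_succ', sub_smul, mono_pow l2,
    mono_pow l2, Matrix.sub_apply, Matrix.sub_apply, coeff_sub, coeff_sub,
    g9a_coeff fun a b e => by have := lp a b.1 e; omega,
    g9a_coeff fun a b e => by have := l2 a b e; omega,
    g9a_coeff fun a b e => by have := l2 a b e; omega, e2, Matrix.sub_apply]
  split_ifs <;> first | omega | simp

/-- The entries of the comparison map of a graded complex. -/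
theorem th_mono {Z : Cx A[X] Λ} {j : Z.J → ℤ} {p D s : Matrix Z.J Z.J A} (hp : Z.p = mono 0 j j p)
    (hD : Z.D = mono 0 j j D) (lp : Low j j p) (lD : Low j j D) (hN : ∀ a b, j a ≤ N + j b)
    (hn : N ≤ n) (x' : Z.J × Fin (n + 1)) (x : Z.J × Fin n) :
    th n N Z (mono N j j s) x' x =
      (if j x'.1 + (x'.2 : ℕ) = j x.1 + (x.2 : ℕ) then
        ((p - s * ind A {i | j i ≤ j x.1 + (x.2 : ℕ) - n} * D) *
          ind A {i | ¬j i ≤ j x.1 + (x.2 : ℕ) - n} * p) x'.1 x.1 else 0) +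
      if j x'.1 + (x'.2 : ℕ) = j x.1 + (x.2 : ℕ) + 1 then
        (s * ind A {i | j i ≤ j x.1 + (x.2 : ℕ) - n} * D *
          ind A {i | ¬j i ≤ j x.1 + (x.2 : ℕ) - n} * p) x'.1 x.1 else 0 := by
  obtain ⟨ν, hν⟩ : ∃ ν, j x.1 + (x.2 : ℕ) = ν := ⟨_, rfl⟩
  rw [th, Matrix.mul_apply, Fintype.sum_prod_type, hν, Matrix.mul_apply, Matrix.mul_apply (N := p),
    Finset.ite_sum_zero, Finset.ite_sum_zero, ← Finset.sum_add_distrib]
  refine Finset.sum_congr rfl fun i _ => ?_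
  rw [Finset.sum_congr rfl fun μ _ => ?_, g9a_sum (c := j i) (ν := ν)
    (t := ((if j x'.1 + (x'.2 : ℕ) = ν then (p - s * ind A {i | j i ≤ ν - n} * D) x'.1 i else 0) +
      if j x'.1 + (x'.2 : ℕ) = ν + 1 then (s * ind A {i | j i ≤ ν - n} * D) x'.1 i else 0) *
        p i x.1) fun e => by have := lp _ _ (right_ne_zero_of_mul e); omega]
  · rw [mul_ind_apply, mul_ind_apply, Set.mem_ofPred_eq]
    split_ifs <;> first | omega | simp
  · rename_i μ _
    rw [hp, tz_mono fun a b e => by have := lp a b e; omega, Nat.cast_zero, zero_add, hν]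
    by_cases e : j i + (μ : ℕ) = ν
    · rw [if_pos e, if_pos e, dn, g9a_th0 hp hD lp lD hN hn _ _ _ e]
    · rw [if_neg e, if_neg e, mul_zero]

end One

end Pool.Agent.MP_f7db47_al.GR

end

section

/-!
Forgetting the grading.
-/

namespace Pool.Agent.MP_f7db47_al.GR

open Matrix KN Polynomial

universe v w

section Two

variable {A : Type v} [Ring A] {Λ : Type} {H : Fam A Λ} {Y : Cx (A × A) (Λ × ℤ)} {N n : ℕ}
  {s : Matrix Y.J Y.J (A × A)}

theorem monE_br (f : Matrix Y.J Y.J (A × A)) (ε : Bool) :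
    (monE N Y f).map (br _ ε) = mono N (lv Y) (lv Y) (f.map (br A ε)) := by
  cases ε <;> rfl

theorem g9_br {f : Matrix Y.J Y.J (A × A)} (h : ∀ a b, f a b ≠ 0 → lv Y a ≤ N + lv Y b) (ε : Bool) :
    ∀ a b, (f.map (br A ε)) a b ≠ 0 → lv Y a ≤ N + lv Y b :=
  fun a b e => h a b fun c => e (by rw [Matrix.map_apply, c, map_zero])

theorem g9_low {d : ℤ} {f : Matrix Y.J Y.J (A × A)} (h : Hm (eF H) d Y.t Y.t f) :
    ∀ a b, f a b ≠ 0 → lv Y a ≤ (0 : ℕ) + lv Y b :=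
  fun a b e => by simpa using low_e h a b e

theorem g9_mul {N' : ℕ} {f g : Matrix Y.J Y.J (A × A)}
    (hf : ∀ a b, f a b ≠ 0 → lv Y a ≤ N + lv Y b) (hg : ∀ a b, g a b ≠ 0 → lv Y a ≤ N' + lv Y b) :
    monE N Y f * monE N' Y g = monE (N + N') Y (f * g) := br_ext fun ε => by
  rw [Matrix.map_mul, monE_br, monE_br, monE_br, mono_mul (g9_br hf ε) (g9_br hg ε), Matrix.map_mul]

theorem g9_add (f g : Matrix Y.J Y.J (A × A)) : monE N Y f + monE N Y g = monE N Y (f + g) :=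
  br_ext fun ε => by
    rw [Matrix.map_add _ (map_add _), monE_br, monE_br, monE_br, Matrix.map_add _ (map_add _),
      mono_add]

theorem g9_hm {d : ℤ} {f : Matrix Y.J Y.J (A × A)} (h : Hm (fF H) d Y.t Y.t f)
    (h0 : ∀ a b, N + lv Y b ≤ lv Y a → (f a b).1 = (f a b).2) :
    Hm (bF H) d (fg Y).t (fg Y).t (monE N Y f) := fun a b => by
  have k : ∀ (x : A) (m : ℕ), x ∈ H (Y.t a).1.1 (Y.t b).1.1 →
      monomial m x ∈ pF H (Y.t a).1.1 (Y.t b).1.1 := fun x m hx n => by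
    rw [coeff_monomial]
    split_ifs
    exacts [hx, zero_mem _]
  refine ⟨⟨k _ _ (h a b).1.1, k _ _ (h a b).1.2, ?_⟩, fun e => (h a b).2 fun c => e ?_⟩
  · change (monomial _ (f a b).1).coeff 0 = (monomial _ (f a b).2).coeff 0
    rw [coeff_monomial, coeff_monomial]
    split_ifs with c
    exacts [h0 a b (by omega), rfl]
  · change (monomial _ (f a b).1, monomial _ (f a b).2) = 0
    rw [c, Prod.fst_zero, Prod.snd_zero, monomial_zero_right]
    rfl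

theorem g9_hm0 {d : ℤ} {f : Matrix Y.J Y.J (A × A)} (h : Hm (eF H) d Y.t Y.t f) :
    Hm (bF H) d (fg Y).t (fg Y).t (monE 0 Y f) :=
  g9_hm (hm_e.1 h).1 fun a b c => by
    rcases (show lv Y b ≤ lv Y a by simpa using c).eq_or_lt with e | e
    · exact ((hm_e.1 h).2 a b).1 e.symm
    · rw [((hm_e.1 h).2 a b).2 e]
      rfl

theorem g9_ind (U : Set Y.J) (ε : Bool) : (ind (A × A) U).map (br A ε) = ind A U := by
  rw [ind, ind, diagonal_map (map_zero _)]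
  exact congrArg diagonal (funext fun j => by split_ifs <;> simp)

theorem ok_fg (hY : Ok (eF H) Y) : Ok (bF H) (fg Y) where
  hp := g9_hm0 hY.hp
  hD := g9_hm0 hY.hD
  pp := (g9_mul (g9_low hY.hp) (g9_low hY.hp)).trans (by rw [hY.pp])
  pD := (g9_mul (g9_low hY.hp) (g9_low hY.hD)).trans (by rw [hY.pD])
  Dp := (g9_mul (g9_low hY.hD) (g9_low hY.hp)).trans (by rw [hY.Dp])
  DD := (g9_mul (g9_low hY.hD) (g9_low hY.hD)).trans <| br_ext fun ε => by
    rw [hY.DD, monE_br, Matrix.map_zero _ (map_zero _), Matrix.map_zero _ (map_zero _), mono_zero]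

theorem wit_fg (hY : Ok (eF H) Y) (hs : Mp (fF H) 1 Y Y s) (e : Y.D * s + s * Y.D = Y.p)
    (hN : ∀ a b, lv Y a < N + lv Y b) : Wit H (fg Y) N (monE N Y s) := by
  have l : ∀ a b, s a b ≠ 0 → lv Y a ≤ N + lv Y b := fun a b _ => (hN a b).le
  refine ⟨⟨g9_hm hs.hm fun a b c => absurd (hN a b) (not_lt.2 c),
    (g9_mul (g9_low hY.hp) l).trans (by rw [hs.pl, zero_add]),
    (g9_mul l (g9_low hY.hp)).trans (by rw [hs.pr, add_zero])⟩, ?_⟩
  change monE 0 Y Y.D * _ + _ * monE 0 Y Y.D = _ • monE 0 Y Y.p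
  rw [g9_mul (g9_low hY.hD) l, g9_mul l (g9_low hY.hD), zero_add, add_zero, g9_add, e]
  refine br_ext fun ε => ?_
  rw [map_smul', monE_br, monE_br, map_pow, show br A[X] ε (X, X) = X by cases ε <;> rfl,
    mono_pow (g9_br (g9_low hY.hp) ε), add_zero]

theorem nul_fg {w : A} (hY : Ok (eF H) Y) (h : Nul (eF H) (w, w) Y) :
    Nul (bF H) (C w, C w) (fg Y) := by
  obtain ⟨s, hs, e⟩ := h
  refine ⟨monE 0 Y s, g9_hm0 hs, ?_⟩
  change monE 0 Y Y.D * _ + _ * monE 0 Y Y.D = _ • monE 0 Y Y.p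
  rw [g9_mul (g9_low hY.hD) (g9_low hs), g9_mul (g9_low hs) (g9_low hY.hD), g9_add, e]
  refine br_ext fun ε => ?_
  rw [map_smul', monE_br, monE_br, map_smul', show br A[X] ε (C w, C w) = C w by cases ε <;> rfl,
    show br A ε (w, w) = w by cases ε <;> rfl, mono_C]

theorem g9_ext {x y : A × A} (h : ∀ ε, br A ε x = br A ε y) : x = y := Prod.ext (h false) (h true)

theorem TE_fg (hY : Ok (eF H) Y) (c : ℤ) (x' x : Y.J × Fin n) :
    (TE n c (fg Y)).p x' x =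
      (if lv Y x'.1 + (x'.2 : ℕ) = lv Y x.1 + (x.2 : ℕ) then Y.p x'.1 x.1 else 0) ∧
    (TE n c (fg Y)).D x' x =
      if lv Y x'.1 + (x'.2 : ℕ) = lv Y x.1 + (x.2 : ℕ) then Y.D x'.1 x.1 else 0 := by
  have k : ∀ f : Matrix Y.J Y.J (A × A), (∀ a b, f a b ≠ 0 → lv Y a ≤ (0 : ℕ) + lv Y b) →
      pr (tz n n ((monE 0 Y f).map (br _ false))) (tz n n ((monE 0 Y f).map (br _ true))) x' x =
        if lv Y x'.1 + (x'.2 : ℕ) = lv Y x.1 + (x.2 : ℕ) then f x'.1 x.1 else 0 := fun f hf => by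
    rw [pr, monE_br, monE_br, tz_mono (g9_br hf false), tz_mono (g9_br hf true), Nat.cast_zero,
      zero_add]
    split_ifs <;> rfl
  exact ⟨k _ (g9_low hY.hp), k _ (g9_low hY.hD)⟩

theorem thE_fg (hY : Ok (eF H) Y) (hN : ∀ a b, lv Y a ≤ N + lv Y b) (hn : N ≤ n)
    (x' : Y.J × Fin (n + 1)) (x : Y.J × Fin n) :
    thE n N (fg Y) (monE N Y s) x' x =
      (if lv Y x'.1 + (x'.2 : ℕ) = lv Y x.1 + (x.2 : ℕ) then
        ((Y.p - s * ind (A × A) {i | lv Y i ≤ lv Y x.1 + (x.2 : ℕ) - n} * Y.D) *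
          ind (A × A) {i | ¬lv Y i ≤ lv Y x.1 + (x.2 : ℕ) - n} * Y.p) x'.1 x.1 else 0) +
      if lv Y x'.1 + (x'.2 : ℕ) = lv Y x.1 + (x.2 : ℕ) + 1 then
        (s * ind (A × A) {i | lv Y i ≤ lv Y x.1 + (x.2 : ℕ) - n} * Y.D *
          ind (A × A) {i | ¬lv Y i ≤ lv Y x.1 + (x.2 : ℕ) - n} * Y.p) x'.1 x.1 else 0 := by
  refine g9_ext fun ε => ?_
  have e : br A ε (thE n N (fg Y) (monE N Y s) x' x) =
      th n N (zb ε (fg Y)) (mono N (lv Y) (lv Y) (s.map (br A ε))) x' x := by cases ε <;> rfl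
  have l : ∀ {d} {f : Matrix Y.J Y.J (A × A)}, Hm (eF H) d Y.t Y.t f →
      Low (lv Y) (lv Y) (f.map (br A ε)) := fun h a b c => by simpa using g9_br (g9_low h) ε a b c
  rw [e, th_mono (Z := zb ε (fg Y)) (monE_br Y.p ε) (monE_br Y.D ε) (l hY.hp) (l hY.hD) hN hn,
    map_add, apply_ite (br A ε), apply_ite (br A ε), map_zero, ← Matrix.map_apply (f := br A ε),
    ← Matrix.map_apply (f := br A ε)]
  simp only [Matrix.map_mul, Matrix.map_sub _ (map_sub (br A ε)), g9_ind]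

end Two

theorem fg_ob {𝒮 : Sys.{v}} (hS : 𝒮.Good) {Y : Cx (𝒮.A × 𝒮.A) (𝒮.Λ × ℤ)} (hY : Ob 𝒮.E Y) :
    Ob 𝒮.B (fg Y) := by
  obtain ⟨h1, h2, h3⟩ := ob_E.1 hY
  refine ⟨ok_fg h1, ?_⟩
  rintro (_ | a)
  · obtain ⟨s, hs, e⟩ := h2.sand (lr_f hS.mul) (h1.mono e_le_f) fun x => by rw [one_mul, mul_one]
    obtain ⟨B, hB⟩ := (Set.finite_range fun x : Y.J × Y.J => lv Y x.1 - lv Y x.2).bddAbove
    have w := wit_fg (N := B.toNat + 1) h1 hs (e.trans (one_smul _ _)) fun a b => by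
      have := hB ⟨(a, b), rfl⟩
      simp only at this
      omega
    exact ⟨_, ⟨B.toNat + 1, rfl⟩, _, w.1.hm, w.2⟩
  · obtain ⟨w, hw, h⟩ := h3 a
    exact ⟨_, ⟨w, hw, rfl⟩, nul_fg (h1.mono (e_mono (hS.le a))) h⟩

end Pool.Agent.MP_f7db47_al.GR

end

section

/-!
The pieces of the retraction of a graded complex: small weights.
-/

namespace Pool.Agent.MP_f7db47_al.GR

open Matrix KN Polynomial

universe v w

variable {𝒮 : Sys.{v}} {Y : Cx (𝒮.A × 𝒮.A) (𝒮.Λ × ℤ)} {N n : ℕ} {a : ℤ}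
  {s : Matrix Y.J Y.J (𝒮.A × 𝒮.A)} {M : Type w} [AddCommGroup M] {κ : Cx 𝒮.E.A 𝒮.E.Λ → M}

theorem g10_ind0 {A : Type*} [Ring A] {J : Type} [DecidableEq J] {U : Set J}
    (h : ∀ i, i ∉ U) : ind A U = 0 := by
  ext i j
  rw [ind, diagonal_apply, if_neg (h i), ite_self]
  rfl

theorem g10_ind1 {A : Type*} [Ring A] {J : Type} [DecidableEq J] {U : Set J}
    (h : ∀ i, i ∈ U) : ind A U = 1 := by
  ext i j
  rw [ind, diagonal_apply, if_pos (h i), one_apply]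

theorem g10_om {x y : Y.J × Fin n} (h : lv Y x.1 + (x.2 : ℕ) = lv Y y.1 + (y.2 : ℕ)) :
    om Y a n (.inr x) ≤ om Y a n (.inr y) := by
  simp only [om, Sum.elim_inr, h, le_refl]

theorem om_low (hY : Ok (eF 𝒮.H) Y) (hN : ∀ i j, lv Y i ≤ N + lv Y j) (hn : N ≤ n)
    (ha : ∀ i, a ≤ lv Y i) :
    Low (om Y a n) (om Y a n) (rho n N (fg Y) (monE N Y s)).p ∧
      Low (om Y a n) (om Y a n) (rho n N (fg Y) (monE N Y s)).D := by
  constructor
  · rintro (x | x) (y | y) h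
    · have e := (ite_ne_right_iff.1 ((TE_fg hY 0 x y).1 ▸ h)).1
      simp only [om, Sum.elim_inl, e, le_refl]
    · exact absurd rfl h
    · exact absurd rfl h
    · exact g10_om (ite_ne_right_iff.1 ((TE_fg hY n x y).1 ▸ h)).1
  · rintro (x | x) (y | y) h
    · have e := (ite_ne_right_iff.1 ((TE_fg hY 0 x y).2 ▸ h)).1
      simp only [om, Sum.elim_inl, e, le_refl]
    · have h' : thE n N (fg Y) (monE N Y s) x y ≠ 0 := h
      rw [thE_fg hY hN hn] at h'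
      simp only [om, Sum.elim_inl, Sum.elim_inr]
      by_cases e : lv Y x.1 + (x.2 : ℕ) = lv Y y.1 + (y.2 : ℕ)
      · split_ifs <;> omega
      · rw [if_neg e, zero_add] at h'
        obtain ⟨e', h'⟩ := ite_ne_right_iff.1 h'
        by_cases c : a + n ≤ lv Y y.1 + (y.2 : ℕ)
        · rw [if_pos c]
          omega
        · rw [g10_ind0 (U := {i | lv Y i ≤ lv Y y.1 + (y.2 : ℕ) - n}) fun i hi => by
            have h1 : lv Y i ≤ _ := hi
            have := ha i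
            omega] at h'
          simp at h'
    · exact absurd rfl h
    · exact g10_om (ite_ne_right_iff.1 ((TE_fg hY n x y).2 ▸ neg_ne_zero.1 h)).1

theorem pc_small (hκ : AddC 𝒮.E κ) (hS : 𝒮.Good) (hY : Ob 𝒮.E Y)
    (hN : ∀ i j, lv Y i ≤ N + lv Y j) (hn : N < n) (ha : ∀ i, a ≤ lv Y i) {k : ℤ}
    (hk : k < a + n - 1) : Ob 𝒮.E (pc (rho n N (fg Y) (monE N Y s)) (om Y a n) k) ∧
      κ (pc (rho n N (fg Y) (monE N Y s)) (om Y a n) k) = 0 := by
  obtain ⟨h1, -, h3⟩ := ob_E.1 hY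
  obtain ⟨c1, c2⟩ := cid hκ hS (ok_up (ok_le h1 (k + 1)) (-(k + 1)))
    ((h3.le hS h1 (k + 1)).up (-(k + 1))) (c := n) (by omega)
  have b : ∀ i : {i // lv Y i ≤ k + 1}, (k + 1 - lv Y i).toNat < n := fun i => by
    have := ha i
    omega
  have b' : ∀ i : {i // lv Y i ≤ k + 1}, lv Y i + ((k + 1 - lv Y i).toNat : ℕ) = k + 1 :=
    fun i => by
      have := i.2
      omega
  rw [← c2]
  refine hκ.pc_eq hS.E (X := rho n N (fg Y) (monE N Y s))
    (e := Sum.map (fun i => (i.1, ⟨_, (b i).trans n.lt_succ_self⟩)) fun i => (i.1, ⟨_, b i⟩))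
    ⟨?_, ?_, ?_⟩ (Function.Injective.sumMap (fun i j e => Subtype.ext (congrArg Prod.fst e))
      fun i j e => Subtype.ext (congrArg Prod.fst e)) ?_ c1
  · rintro (i | i)
    · refine Prod.ext (Prod.ext rfl ?_) rfl
      have := b' i
      change lv Y i + -(k + 1) = 0 - ((k + 1 - lv Y i).toNat : ℕ)
      omega
    · refine Prod.ext (Prod.ext rfl ?_) rfl
      have := b' i
      change lv Y i + -(k + 1) + n = n - ((k + 1 - lv Y i).toNat : ℕ)
      omega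
  · ext1 (i | i) (j | j)
    · exact ((TE_fg h1 0 _ _).1.trans (if_pos ((b' i).trans (b' j).symm))).symm
    · rfl
    · rfl
    · exact ((TE_fg h1 n _ _).1.trans (if_pos ((b' i).trans (b' j).symm))).symm
  · ext1 (i | i) (j | j)
    · exact ((TE_fg h1 0 _ _).2.trans (if_pos ((b' i).trans (b' j).symm))).symm
    · refine ((thE_fg h1 hN hn.le _ _).trans ?_).symm
      simp only [b']
      rw [if_pos trivial, if_neg (by omega), add_zero,
        g10_ind0 (U := {i | lv Y i ≤ k + 1 - n}) fun i hi => by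
          have h1 : lv Y i ≤ _ := hi
          have := ha i
          omega,
        g10_ind1 (U := {i | ¬lv Y i ≤ k + 1 - n}) fun i hi => by
          have := ha i
          omega, Matrix.mul_zero, Matrix.zero_mul, sub_zero, Matrix.mul_one, h1.pp]
      rfl
    · rfl
    · exact congrArg (- ·) ((TE_fg h1 n _ _).2.trans (if_pos ((b' i).trans (b' j).symm))).symm
  · rintro (x | x)
    · simp only [om, Sum.elim_inl]
      constructor
      · rintro ⟨i | i, e⟩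
        · cases e
          have := b' i
          simp only
          omega
        · cases e
      · intro e
        refine ⟨.inl ⟨x.1, by omega⟩, congrArg Sum.inl (Prod.ext rfl (Fin.ext ?_))⟩
        simp only
        omega
    · simp only [om, Sum.elim_inr]
      constructor
      · rintro ⟨i | i, e⟩
        · cases e
        · cases e
          have := b' i
          simp only
          split_ifs <;> omega
      · intro e
        have e' : lv Y x.1 + (x.2 : ℕ) = k + 1 := by split_ifs at e <;> omega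
        refine ⟨.inr ⟨x.1, by omega⟩, congrArg Sum.inr (Prod.ext rfl (Fin.ext ?_))⟩
        simp only
        omega

theorem pc_mid (hκ : AddC 𝒮.E κ) (hS : 𝒮.Good) (hY : Ob 𝒮.E Y) (ha : ∀ i, a ≤ lv Y i)
    (ha' : ∀ i, lv Y i ≤ a + n) :
    Ob 𝒮.E (pc (rho n N (fg Y) (monE N Y s)) (om Y a n) (a + n - 1)) ∧
      κ (pc (rho n N (fg Y) (monE N Y s)) (om Y a n) (a + n - 1)) = κ Y := by
  obtain ⟨c1, c2⟩ := up_inv hκ hS hY (-(a + n))
  have b : ∀ i, (a + n - lv Y i).toNat < n + 1 := fun i => by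
    have := ha i
    omega
  have b' : ∀ i, lv Y i + ((a + n - lv Y i).toNat : ℕ) = a + n := fun i => by
    have := ha' i
    omega
  rw [← c2]
  refine hκ.pc_eq hS.E (X := rho n N (fg Y) (monE N Y s)) (e := fun i => Sum.inl (i, ⟨_, b i⟩))
    ⟨fun i => ?_, ?_, ?_⟩ (fun i j e => congrArg Prod.fst (Sum.inl.inj e)) ?_ c1
  · refine Prod.ext (Prod.ext rfl ?_) rfl
    have := b' i
    change lv Y i + -(a + n) = 0 - ((a + n - lv Y i).toNat : ℕ)
    omega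
  · ext1 i j
    exact ((TE_fg hY.ok 0 _ _).1.trans (if_pos ((b' i).trans (b' j).symm))).symm
  · ext1 i j
    exact ((TE_fg hY.ok 0 _ _).2.trans (if_pos ((b' i).trans (b' j).symm))).symm
  · rintro (x | x)
    · simp only [om, Sum.elim_inl]
      constructor
      · rintro ⟨i, e⟩
        cases e
        have := b' i
        simp only
        omega
      · intro e
        refine ⟨x.1, congrArg Sum.inl (Prod.ext rfl (Fin.ext ?_))⟩
        simp only
        omega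
    · simp only [om, Sum.elim_inr]
      constructor
      · rintro ⟨i, e⟩
        cases e
      · intro e
        split_ifs at e <;> omega

end Pool.Agent.MP_f7db47_al.GR

end

section

/-!
The pieces of the retraction of a graded complex: large weights.
-/

namespace Pool.Agent.MP_f7db47_al.GR

open Matrix KN Polynomial

universe v w

section Aux

variable {A : Type v} [Ring A] {J : Type} [Fintype J] [DecidableEq J] {u : J → ℤ} {c : ℤ}

theorem g10b_mul (f g : Matrix J J A) :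
    f.submatrix (Subtype.val : {i // ¬u i ≤ c} → J) (Subtype.val : {i // ¬u i ≤ c} → J) *
      g.submatrix (Subtype.val : {i // ¬u i ≤ c} → J) (Subtype.val : {i // ¬u i ≤ c} → J) =
      (f * ind A {i | ¬u i ≤ c} * g).submatrix Subtype.val Subtype.val := by
  ext i j
  simp only [Matrix.mul_apply (M := f * ind A _), submatrix_apply, mul_ind_apply, ite_mul, zero_mul,
    Set.mem_ofPred_eq]
  rw [Matrix.mul_apply, ← Finset.sum_filter]
  exact (Finset.sum_subtype _ (by simp) fun x => f i.1 x * g x j.1).symm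

theorem g10b_left (f : Matrix J J A) :
    (ind A {i | ¬u i ≤ c} * f).submatrix (Subtype.val : {i // ¬u i ≤ c} → J)
      (Subtype.val : {i // ¬u i ≤ c} → J) = f.submatrix Subtype.val Subtype.val := by
  ext i j
  exact (ind_mul_apply _ _ _ _).trans (if_pos i.2)

theorem g10b_low {f : Matrix J J A} (h : Low u u f) :
    ind A {i | ¬u i ≤ c} * f * ind A {i | ¬u i ≤ c} = ind A {i | ¬u i ≤ c} * f := by
  ext i j
  rw [mul_ind_apply, ind_mul_apply]
  split_ifs with h1 h2 h2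
  exacts [rfl, rfl, by_contra fun e => h2 ((h i j (Ne.symm e)).trans (not_not.1 h1)), rfl]

theorem g10b_res {f : Matrix J J A} (h : Low u u f) (g : Matrix J J A) :
    (f * ind A {i | ¬u i ≤ c} * g).submatrix (Subtype.val : {i // ¬u i ≤ c} → J)
      (Subtype.val : {i // ¬u i ≤ c} → J) = (f * g).submatrix Subtype.val Subtype.val := by
  rw [← g10b_left, ← Matrix.mul_assoc, ← Matrix.mul_assoc, g10b_low h, Matrix.mul_assoc, g10b_left]

omit [Fintype J] in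
theorem g10b_add : ind A {i | u i ≤ c} + ind A {i | ¬u i ≤ c} = 1 := by
  rw [ind, ind, diagonal_add, ← diagonal_one]
  refine congrArg _ (funext fun i => ?_)
  split_ifs with h h' h'
  exacts [absurd h h', add_zero _, zero_add _, absurd h h']

end Aux

variable {𝒮 : Sys.{v}} {Y : Cx (𝒮.A × 𝒮.A) (𝒮.Λ × ℤ)} {N n : ℕ} {a : ℤ}
  {s : Matrix Y.J Y.J (𝒮.A × 𝒮.A)} {M : Type w} [AddCommGroup M] {κ : Cx 𝒮.E.A 𝒮.E.Λ → M}

theorem g10b_cone (hκ : AddC 𝒮.E κ) (hS : 𝒮.Good) (hY : Ob 𝒮.E Y) (hs : Mp (fF 𝒮.H) 1 Y Y s)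
    (e : Y.D * s + s * Y.D = Y.p) (ha' : ∀ i, lv Y i ≤ a + n) {k : ℤ} (hk : a + n ≤ k) :
    Ob 𝒮.E ((upE (-(k + 1)) (gtE (k - n) Y)).cone (upE (n + 1) (upE (-(k + 1)) (gtE (k - n) Y)))
      ((s * ind _ {i | lv Y i ≤ k - n} * Y.D * ind _ {i | ¬lv Y i ≤ k - n} * Y.p).submatrix
        Subtype.val Subtype.val)) ∧
    κ ((upE (-(k + 1)) (gtE (k - n) Y)).cone (upE (n + 1) (upE (-(k + 1)) (gtE (k - n) Y)))
      ((s * ind _ {i | lv Y i ≤ k - n} * Y.D * ind _ {i | ¬lv Y i ≤ k - n} * Y.p).submatrix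
        Subtype.val Subtype.val)) = 0 := by
  obtain ⟨ok, -, tor⟩ := ob_E.1 hY
  have lp : Low (lv Y) (lv Y) Y.p := low_e ok.hp
  have lD : Low (lv Y) (lv Y) Y.D := low_e ok.hD
  have e1 : ∀ {f}, Low (lv Y) (lv Y) f → ∀ g : Matrix Y.J Y.J (𝒮.A × 𝒮.A),
      s * ind _ {i | ¬lv Y i ≤ k - n} * f * ind _ {i | ¬lv Y i ≤ k - n} * g =
        s * ind _ {i | ¬lv Y i ≤ k - n} * (f * g) := fun {f} h g => by
    rw [Matrix.mul_assoc s, Matrix.mul_assoc s, g10b_low h]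
    simp only [Matrix.mul_assoc]
  refine cid_htpy hκ hS (ok_up (ok_gt ok _) _) ((tor.gt hS ok _).up _) (by omega)
    (k := (s * ind _ {i | ¬lv Y i ≤ k - n} * Y.p).submatrix Subtype.val Subtype.val)
    ⟨hm_e.2 ⟨fun i j => ((hs.hm.mul_ind _).mul (lr_f hS.mul) (ok.hp.mono e_le_f) (e := 1)
      (by omega)) i.1 j.1, fun i j => ?_⟩, ?_, ?_⟩ ?_
  · have h1 := ha' i.1
    have h2 := j.2
    exact ⟨fun c => by dsimp only [lv] at *; omega, fun c => by dsimp only [lv] at *; omega⟩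
  · refine (g10b_mul _ _).trans ((g10b_res lp _).trans ?_)
    rw [← Matrix.mul_assoc, ← Matrix.mul_assoc, hs.pl]
  · refine (g10b_mul _ _).trans ?_
    rw [e1 lp, ok.pp]
  · have e2 : s * ind _ {i | lv Y i ≤ k - n} * Y.D * ind _ {i | ¬lv Y i ≤ k - n} * Y.p +
        (Y.D * (s * ind _ {i | ¬lv Y i ≤ k - n} * Y.p) +
          s * ind _ {i | ¬lv Y i ≤ k - n} * Y.p * ind _ {i | ¬lv Y i ≤ k - n} * Y.D) =
        Y.p * ind _ {i | ¬lv Y i ≤ k - n} * Y.p := by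
      rw [e1 lp, ok.pD, ← congrArg (s * ind _ {i | ¬lv Y i ≤ k - n} * ·) ok.Dp, ← e1 lD,
        add_left_comm, ← Matrix.add_mul, ← Matrix.add_mul, ← Matrix.add_mul, ← Matrix.mul_add,
        g10b_add, Matrix.mul_one, ← Matrix.mul_assoc, ← Matrix.mul_assoc, ← Matrix.add_mul,
        ← Matrix.add_mul, e]
    refine (congrArg₂ (· + ·) rfl (congrArg₂ (· + ·) ((g10b_mul _ _).trans (g10b_res lD _))
      (g10b_mul _ _))).trans ?_
    refine (congrArg (Matrix.submatrix · Subtype.val Subtype.val) e2).trans ?_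
    exact (g10b_res lp _).trans (by rw [ok.pp])

theorem pc_large (hκ : AddC 𝒮.E κ) (hS : 𝒮.Good) (hY : Ob 𝒮.E Y) (hs : Mp (fF 𝒮.H) 1 Y Y s)
    (e : Y.D * s + s * Y.D = Y.p) (hN : ∀ i j, lv Y i ≤ N + lv Y j) (hn : N ≤ n)
    (ha : ∀ i, a ≤ lv Y i) (ha' : ∀ i, lv Y i ≤ a + n) {k : ℤ} (hk : a + n ≤ k) :
    Ob 𝒮.E (pc (rho n N (fg Y) (monE N Y s)) (om Y a n) k) ∧
      κ (pc (rho n N (fg Y) (monE N Y s)) (om Y a n) k) = 0 := by
  obtain ⟨h1, h2⟩ := g10b_cone hκ hS hY hs e ha' hk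
  obtain ⟨f, hf⟩ : ∃ f : {i // ¬lv Y i ≤ k - n} → Fin (n + 1),
      ∀ i, ((f i : ℕ) : ℤ) = k + 1 - lv Y i.1 :=
    ⟨fun i => ⟨(k + 1 - lv Y i.1).toNat, by have := i.2; omega⟩, fun i => by
      have := ha' i.1
      dsimp only
      omega⟩
  obtain ⟨g, hg⟩ : ∃ g : {i // ¬lv Y i ≤ k - n} → Fin n,
      ∀ i, ((g i : ℕ) : ℤ) = k - lv Y i.1 :=
    ⟨fun i => ⟨(k - lv Y i.1).toNat, by have := i.2; have := ha' i.1; omega⟩, fun i => by
      have := ha' i.1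
      dsimp only
      omega⟩
  rw [← h2]
  refine hκ.pc_eq hS.E (e := Sum.map (fun i => (i.1, f i)) fun i => (i.1, g i)) ⟨?_, ?_, ?_⟩
    (Function.Injective.sumMap (fun i j c => Subtype.ext (congrArg Prod.fst c))
      fun i j c => Subtype.ext (congrArg Prod.fst c)) ?_ h1
  · rintro (i | i)
    · exact Prod.ext (Prod.ext rfl (by have := hf i; dsimp [lv] at *; omega)) rfl
    · exact Prod.ext (Prod.ext rfl (by have := hg i; dsimp [lv] at *; omega)) rfl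
  · ext (i | i) (j | j) : 1
    · exact ((TE_fg hY.ok 0 (i.1, f i) (j.1, f j)).1.trans (if_pos (by simp [hf]))).symm
    · rfl
    · rfl
    · exact ((TE_fg hY.ok n (i.1, g i) (j.1, g j)).1.trans (if_pos (by simp [hg]))).symm
  · ext (i | i) (j | j) : 1
    · exact ((TE_fg hY.ok 0 (i.1, f i) (j.1, f j)).2.trans (if_pos (by simp [hf]))).symm
    · refine ((thE_fg hY.ok hN hn (i.1, f i) (j.1, g j)).trans ?_).symm
      have e1 : lv Y j.1 + (g j : ℕ) = k := by rw [hg]; ring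
      have e2 : lv Y i.1 + (f i : ℕ) = k + 1 := by rw [hf]; ring
      dsimp only
      rw [e1, e2, if_neg (by omega), if_pos rfl, zero_add]
      rfl
    · rfl
    · exact congrArg Neg.neg
        ((TE_fg hY.ok n (i.1, g i) (j.1, g j)).2.trans (if_pos (by simp [hg]))).symm
  · rintro (⟨i, m⟩ | ⟨i, m⟩)
    · have := m.2
      refine ⟨?_, fun c => ?_⟩
      · rintro ⟨j | j, c⟩ <;> cases c
        have := hf j
        dsimp [om]
        omega
      · dsimp [om] at c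
        exact ⟨.inl ⟨i, by omega⟩, congrArg (fun x => Sum.inl (i, x))
          (Fin.ext (by have := hf ⟨i, by omega⟩; dsimp only at this; omega))⟩
    · have := m.2
      refine ⟨?_, fun c => ?_⟩
      · rintro ⟨j | j, c⟩ <;> cases c
        have := hg j
        dsimp [om]
        omega
      · dsimp [om] at c
        exact ⟨.inr ⟨i, by omega⟩, congrArg (fun x => Sum.inr (i, x))
          (Fin.ext (by have := hg ⟨i, by omega⟩; dsimp only at this; omega))⟩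

end Pool.Agent.MP_f7db47_al.GR

end

section

/-!
From the ring of two lines to the graded form.
-/

namespace Pool.Agent.MP_f7db47_al.GR

open Matrix KN Polynomial

universe v w

section

open Filter

variable {𝒮 : Sys.{v}} {M : Type w} [AddCommGroup M] {κ : Cx 𝒮.E.A 𝒮.E.Λ → M}

open Classical in
/-- The invariant of the retraction, as a germ. -/
noncomputable def g11_k (κ : Cx 𝒮.E.A 𝒮.E.Λ → M) (Z : Cx 𝒮.B.A 𝒮.B.Λ) :
    Germ (atTop : Filter ℕ) M :=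
  if c : ∃ N h, Wit 𝒮.H Z N h then
    ((fun n => κ (rho n c.choose Z c.choose_spec.choose) : ℕ → M) : Germ atTop M)
  else 0

theorem g11_eq (hκ : AddC 𝒮.E κ) (hS : 𝒮.Good) {Z : Cx 𝒮.B.A 𝒮.B.Λ} (hZ : Ob 𝒮.B Z) {N : ℕ}
    {h : Matrix Z.J Z.J (𝒮.A[X] × 𝒮.A[X])} (hh : Wit 𝒮.H Z N h) :
    g11_k κ Z = ((fun n => κ (rho n N Z h) : ℕ → M) : Germ atTop M) := by
  have c : ∃ N h, Wit 𝒮.H Z N h := ⟨N, h, hh⟩
  rw [g11_k, dif_pos c]
  exact Germ.coe_eq.2 (rho_ind hκ hS hZ c.choose_spec.choose_spec hh)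

theorem g11_add (hκ : AddC 𝒮.E κ) (hS : 𝒮.Good) : AddC 𝒮.B (g11_k κ) where
  ext Z Z' t hZ hZ' ht := by
    obtain ⟨N, h, hh⟩ := exists_wit hS hZ
    obtain ⟨N', h', hh'⟩ := exists_wit hS hZ'
    obtain ⟨g, hg, e⟩ := rho_ext hκ hS hZ hZ' ht hh hh'
    rw [g11_eq hκ hS (hZ.ext hS.B hZ' ht) hg, g11_eq hκ hS hZ hh, g11_eq hκ hS hZ' hh',
      ← Germ.coe_add]
    exact Germ.coe_eq.2 (eventually_atTop.2 ⟨_, e⟩)
  nul Z hZ h0 := by
    have hO := Ob.of_nul hZ hS.B h0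
    obtain ⟨N, h, hh⟩ := exists_wit hS hO
    rw [g11_eq hκ hS hO hh, ← Germ.coe_zero]
    exact Germ.coe_eq.2 (eventually_atTop.2 ⟨N, fun n hn =>
      hκ.nul _ (rho_ob hS hO hh hn).ok (rho_nul hS.mul hZ hh hn h0)⟩)
  dia b Z hZ hF := by
    obtain ⟨N, h, hh⟩ := exists_wit hS hZ
    obtain ⟨h1, h2⟩ := rho_fix hS hh hF
    rw [g11_eq hκ hS hZ h1, ← Germ.coe_zero]
    exact Germ.coe_eq.2 (eventually_atTop.2 ⟨N, fun n hn =>
      hκ.dia (some b) _ (rho_ob hS hZ h1 hn) (h2 n)⟩)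

theorem g11_fg (hκ : AddC 𝒮.E κ) (hS : 𝒮.Good) {Y : Cx (𝒮.A × 𝒮.A) (𝒮.Λ × ℤ)} (hY : Ob 𝒮.E Y) :
    ∃ N h, Wit 𝒮.H (fg Y) N h ∧ ∀ n, N < n → κ (rho n N (fg Y) h) = κ Y := by
  have hO := (ob_E.1 hY).1
  obtain ⟨s, hs, e⟩ :=
    Nul.sand (lr_f hS.mul) (hO.mono e_le_f) (fun x => by simp) (ob_E.1 hY).2.1
  rw [one_smul] at e
  obtain ⟨a, ha⟩ := (Set.finite_range (lv Y)).bddBelow
  obtain ⟨b, hb⟩ := (Set.finite_range (lv Y)).bddAbove
  have ha : ∀ i, a ≤ lv Y i := fun i => ha ⟨i, rfl⟩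
  have hb : ∀ i, lv Y i < a + ((b - a).toNat + 1 : ℕ) := fun i => by
    have := hb ⟨i, rfl⟩
    omega
  generalize (b - a).toNat + 1 = N at hb
  have hN : ∀ i j, lv Y i < N + lv Y j := fun i j => by
    have := ha j
    have := hb i
    omega
  have hw := wit_fg hO hs e hN
  refine ⟨N, _, hw, fun n hn => ?_⟩
  have ha' : ∀ i, lv Y i ≤ a + n := fun i => by
    have := hb i
    omega
  have hN' : ∀ i j, lv Y i ≤ N + lv Y j := fun i j => (hN i j).le
  have k1 := fun k (hk : k < a + n - 1) => pc_small (s := s) hκ hS hY hN' hn ha hk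
  have k2 := pc_mid (s := s) (N := N) hκ hS hY ha ha'
  have k3 := fun k (hk : a + n ≤ k) => pc_large hκ hS hY hs e hN' hn.le ha ha' hk
  have hl := om_low (s := s) hO hN' hn.le ha
  refine (hκ.fil hS.E (rho_ob hS (fg_ob hS hY) hw hn.le).ok hl.1 hl.2 (fun k => ?_) (a + n - 1)
    fun k hk => ?_).2.trans k2.2
  · rcases lt_trichotomy k (a + n - 1) with c | rfl | c
    exacts [(k1 k c).1, k2.1, (k3 k (by omega)).1]
  · rcases lt_or_gt_of_ne hk with c | c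
    exacts [(k1 k c).2, (k3 k (by omega)).2]

end

theorem zc_E {𝒮 : Sys.{v}} (hS : 𝒮.Good) (h : ZC.{v, w} 𝒮.B) : ZC.{v, w} 𝒮.E := by
  intro M _ κ hκ Y hY
  obtain ⟨N, g, hg, e⟩ := g11_fg hκ hS hY
  have h0 := h _ _ (g11_add hκ hS) _ (fg_ob hS hY)
  rw [g11_eq hκ hS (fg_ob hS hY) hg, ← Filter.Germ.coe_zero, Filter.Germ.coe_eq] at h0
  obtain ⟨n, h1, h2⟩ := (h0.and (Filter.eventually_gt_atTop N)).exists
  exact (e n h2).symm.trans h1

end Pool.Agent.MP_f7db47_al.GR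

end

section

/-!
Equivalent systems.
-/

namespace Pool.Agent.MP_f7db47_al.GR

open Matrix KN Polynomial

universe v w

section

variable {A A' : Type v} [Ring A] [Ring A'] {Λ Λ' : Type} {H : Fam A Λ} {H' : Fam A' Λ'}
  {ψ : A →+* A'} {π : Λ ≃ Λ'} (hi : Function.Injective ψ) {X Y : Cx A Λ} {I J K : Type}
  (hH : ∀ a b y, y ∈ H' (π a) (π b) ↔ ∃ x ∈ H a b, ψ x = y)

theorem g12_smul (w : A) (f : Matrix I J A) : ψ w • f.map ψ = (w • f).map ψ :=
  Matrix.ext fun _ _ => (map_mul ψ _ _).symm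

include hH in
theorem g12_ex {d : ℤ} {s : I → Λ × ℤ} {t : J → Λ × ℤ} {f' : Matrix I J A'}
    (h : Hm H' d (fun i => (π (s i).1, (s i).2)) (fun j => (π (t j).1, (t j).2)) f') :
    ∃ f : Matrix I J A, f.map ψ = f' := by
  choose f _ h2 using fun i j => (hH _ _ _).1 (h i j).1
  exact ⟨Matrix.of f, Matrix.ext h2⟩

include hH in
theorem g12_surj {X' : Cx A' Λ'} (h : Ok H' X') : ∃ X : Cx A Λ, X.smap ψ π = X' := by
  obtain ⟨J, t', p', D'⟩ := X'
  obtain ⟨t, rfl⟩ : ∃ t : J → Λ × ℤ, (fun j => (π (t j).1, (t j).2)) = t' :=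
    ⟨fun j => (π.symm (t' j).1, (t' j).2), funext fun j => by rw [π.apply_symm_apply]⟩
  obtain ⟨p, rfl⟩ := g12_ex (I := J) (J := J) hH h.hp
  obtain ⟨D, rfl⟩ := g12_ex (I := J) (J := J) hH h.hD
  exact ⟨⟨J, t, p, D⟩, rfl⟩

include hi

theorem g12_eq {f g : Matrix I J A} : f.map ψ = g.map ψ ↔ f = g := (map_injective hi).eq_iff

theorem g12_mul [Fintype J] {f : Matrix I J A} {g : Matrix J K A} {k : Matrix I K A} :
    f.map ψ * g.map ψ = k.map ψ ↔ f * g = k := by rw [← Matrix.map_mul, g12_eq hi]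

theorem g12_add [Fintype I] [Fintype J] {a : Matrix I I A} {b : Matrix J J A}
    {f k : Matrix I J A} :
    a.map ψ * f.map ψ + f.map ψ * b.map ψ = k.map ψ ↔ a * f + f * b = k := by
  rw [← Matrix.map_mul, ← Matrix.map_mul, ← Matrix.map_add _ (map_add ψ), g12_eq hi]

theorem g12_pull (X : Cx A Λ) : (X.smap ψ π).smap (Function.invFun ψ) π.symm = X := by
  have e : ∀ f : Matrix X.J X.J A, (f.map ψ).map (Function.invFun ψ) = f :=
    fun f => Matrix.ext fun _ _ => Function.leftInverse_invFun hi _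
  simp only [Cx.smap, e, Equiv.symm_apply_apply]

include hH

theorem g12_hm {d : ℤ} {s : I → Λ × ℤ} {t : J → Λ × ℤ} {f : Matrix I J A} :
    Hm H' d (fun i => (π (s i).1, (s i).2)) (fun j => (π (t j).1, (t j).2)) (f.map ψ) ↔
      Hm H d s t f :=
  forall₂_congr fun _ _ => and_congr ((hH _ _ _).trans
    ⟨fun ⟨_, h, e⟩ => hi e ▸ h, fun h => ⟨_, h, rfl⟩⟩) (imp_congr_left (map_ne_zero_iff ψ hi))

theorem g12_ok : Ok H' (X.smap ψ π) ↔ Ok H X :=
  ⟨fun h => ⟨(g12_hm hi hH).1 h.hp, (g12_hm hi hH).1 h.hD, (g12_mul hi).1 h.pp, (g12_mul hi).1 h.pD,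
      (g12_mul hi).1 h.Dp, (g12_mul hi).1 (h.DD.trans (Matrix.map_zero ψ (map_zero ψ)).symm)⟩,
    fun h => ⟨(g12_hm hi hH).2 h.hp, (g12_hm hi hH).2 h.hD, (g12_mul hi).2 h.pp,
      (g12_mul hi).2 h.pD, (g12_mul hi).2 h.Dp,
      ((g12_mul hi).2 h.DD).trans (Matrix.map_zero ψ (map_zero ψ))⟩⟩

theorem g12_nul {w : A} : Nul H' (ψ w) (X.smap ψ π) ↔ Nul H w X := by
  constructor
  · rintro ⟨s', h1, h2⟩
    obtain ⟨s, rfl⟩ := g12_ex hH h1
    exact ⟨s, (g12_hm hi hH).1 h1, (g12_add hi).1 (h2.trans (g12_smul w X.p))⟩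
  · rintro ⟨s, h1, h2⟩
    exact ⟨s.map ψ, (g12_hm hi hH).2 h1, ((g12_add hi).2 h2).trans (g12_smul w X.p).symm⟩

theorem g12_tw {t : Matrix X.J Y.J A} (h : Tw H' (X.smap ψ π) (Y.smap ψ π) (t.map ψ)) :
    Tw H X Y t :=
  ⟨⟨(g12_hm hi hH).1 h.hm, (g12_mul hi).1 h.pl, (g12_mul hi).1 h.pr⟩,
    (g12_add hi).1 (h.cm.trans (Matrix.map_zero ψ (map_zero ψ)).symm)⟩

end

variable {𝒮 𝒮' 𝒮'' : Sys.{v}}

theorem g12_ob {ψ π e e'} (h : Eqd 𝒮 𝒮' ψ π e e') {X : Cx 𝒮.A 𝒮.Λ} :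
    Ob 𝒮' (X.smap ψ π) ↔ Ob 𝒮 X := by
  refine ⟨fun c => ⟨(g12_ok h.inj h.H).1 c.ok, fun a => ?_⟩,
    fun c => ⟨(g12_ok h.inj h.H).2 c.ok, e.surjective.forall.2 fun a => ?_⟩⟩
  · obtain ⟨v, hv, hn⟩ := c.tor (e a)
    obtain ⟨w, hw, rfl⟩ := (h.S a v).1 hv
    exact ⟨w, hw, (g12_nul h.inj (h.L a)).1 hn⟩
  · obtain ⟨w, hw, hn⟩ := c.tor a
    exact ⟨ψ w, (h.S a _).2 ⟨w, hw, rfl⟩, (g12_nul h.inj (h.L a)).2 hn⟩

theorem Eqv.pull (h : Eqv 𝒮 𝒮') (h' : ZC.{v, w} 𝒮') : ZC.{v, w} 𝒮 := by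
  obtain ⟨ψ, π, e, e', h⟩ := h
  intro M _ κ hκ X hX
  rw [← g12_pull (π := π) h.inj X]
  refine h' M (fun X' => κ (X'.smap (Function.invFun ψ) π.symm))
    ⟨fun X' Y' t' h1 h2 ht => ?_, fun X' h1 h2 => ?_, fun b X' h1 h2 => ?_⟩ _ ((g12_ob h).2 hX)
  · obtain ⟨X, rfl⟩ := g12_surj h.H h1.ok
    obtain ⟨Y, rfl⟩ := g12_surj h.H h2.ok
    obtain ⟨t, rfl⟩ := g12_ex h.H ht.hm
    have e1 : (X.ext Y t).smap ψ π = (X.smap ψ π).ext (Y.smap ψ π) (t.map ψ) :=
      smap_ext (φ := ψ.toAddMonoidHom) t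
    rw [← e1, g12_pull h.inj, g12_pull h.inj, g12_pull h.inj]
    exact hκ.ext X Y t ((g12_ob h).1 h1) ((g12_ob h).1 h2) (g12_tw h.inj h.H ht)
  · obtain ⟨X, rfl⟩ := g12_surj h.H h1
    rw [← map_one ψ] at h2
    rw [g12_pull h.inj]
    exact hκ.nul X ((g12_ok h.inj h.H).1 h1) ((g12_nul h.inj h.H).1 h2)
  · obtain ⟨X, rfl⟩ := g12_surj h.H h1.ok
    obtain ⟨b, rfl⟩ := e'.surjective b
    have e1 : ∀ f : Matrix X.J X.J 𝒮.A, (f.map ψ).map (𝒮'.Δ (e' b)) = f.map ψ →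
        f.map (𝒮.Δ b) = f := fun f c =>
      (g12_eq h.inj).1 ((Matrix.ext fun _ _ => (h.Δ b _).symm).trans c)
    rw [g12_pull h.inj]
    exact hκ.dia b X ((g12_ob h).1 h1) ⟨e1 _ h2.1, e1 _ h2.2⟩

end Pool.Agent.MP_f7db47_al.GR

end

section

/-!
The two constructions commute.
-/

namespace Pool.Agent.MP_f7db47_al.GR

open Matrix KN Polynomial

universe v w

variable {𝒮 𝒮' 𝒮'' : Sys.{v}}

theorem Eqv.refl (𝒮 : Sys.{v}) : Eqv 𝒮 𝒮 :=
  ⟨RingHom.id _, Equiv.refl _, Equiv.refl _, Equiv.refl _, Function.injective_id,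
    fun _ _ y => ⟨fun h => ⟨y, h, rfl⟩, fun ⟨_, h, e⟩ => e ▸ h⟩,
    fun _ _ _ y => ⟨fun h => ⟨y, h, rfl⟩, fun ⟨_, h, e⟩ => e ▸ h⟩,
    fun _ y => ⟨fun h => ⟨y, h, rfl⟩, fun ⟨_, h, e⟩ => e ▸ h⟩, fun _ _ => rfl⟩

theorem g12b_comp {A B C : Type v} {P : A → Prop} {Q : B → Prop} {R : C → Prop} {f : A → B}
    {g : B → C} (h : ∀ y, Q y ↔ ∃ x, P x ∧ f x = y) (h' : ∀ y, R y ↔ ∃ x, Q x ∧ g x = y) (y : C) :
    R y ↔ ∃ x, P x ∧ g (f x) = y := by
  rw [h']
  constructor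
  · rintro ⟨z, hz, rfl⟩
    obtain ⟨x, hx, rfl⟩ := (h z).1 hz
    exact ⟨x, hx, rfl⟩
  · rintro ⟨x, hx, rfl⟩
    exact ⟨f x, (h _).2 ⟨x, hx, rfl⟩, rfl⟩

theorem Eqv.trans (h : Eqv 𝒮 𝒮') (h' : Eqv 𝒮' 𝒮'') : Eqv 𝒮 𝒮'' := by
  obtain ⟨ψ, π, e, d, h⟩ := h
  obtain ⟨ψ', π', e', d', h'⟩ := h'
  exact ⟨ψ'.comp ψ, π.trans π', e.trans e', d.trans d', h'.inj.comp h.inj,
    fun a b => g12b_comp (f := ψ) (g := ψ') (h.H a b) (h'.H _ _),
    fun i a b => g12b_comp (f := ψ) (g := ψ') (h.L i a b) (h'.L _ _ _),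
    fun i => g12b_comp (f := ψ) (g := ψ') (h.S i) (h'.S _),
    fun b x => (h'.Δ _ _).trans (congrArg ψ' (h.Δ b x))⟩

section
variable {A A' : Type v} [Ring A] [Ring A'] {Λ Λ' : Type}

theorem g12b_e {ψ : A →+* A'} (hψ : Function.Injective ψ) {π : Λ → Λ'} {H : Fam A Λ}
    {H' : Fam A' Λ'} (h : ∀ a b y, y ∈ H' (π a) (π b) ↔ ∃ x ∈ H a b, ψ x = y) (a b : Λ × ℤ)
    (y : A' × A') :
    y ∈ eF H' (π a.1, a.2) (π b.1, b.2) ↔ ∃ x ∈ eF H a b, ψ.prodMap ψ x = y := by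
  constructor
  · rintro ⟨h1, h2, h3, h4⟩
    obtain ⟨x, hx, ex⟩ := (h _ _ _).1 h1
    obtain ⟨x', hx', ex'⟩ := (h _ _ _).1 h2
    refine ⟨(x, x'), ⟨hx, hx', fun c => hψ (ex.trans ((h3 c).trans ex'.symm)), fun c => ?_⟩,
      Prod.ext ex ex'⟩
    rw [h4 c] at ex ex'
    exact Prod.ext (hψ (ex.trans (map_zero ψ).symm)) (hψ (ex'.trans (map_zero ψ).symm))
  · rintro ⟨x, ⟨h1, h2, h3, h4⟩, rfl⟩
    exact ⟨(h _ _ _).2 ⟨_, h1, rfl⟩, (h _ _ _).2 ⟨_, h2, rfl⟩, fun c => congrArg ψ (h3 c),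
      fun c => by rw [h4 c, map_zero]⟩

theorem g12b_f {ψ : A →+* A'} {π : Λ → Λ'} {H : Fam A Λ}
    {H' : Fam A' Λ'} (h : ∀ a b y, y ∈ H' (π a) (π b) ↔ ∃ x ∈ H a b, ψ x = y) (a b : Λ × ℤ)
    (y : A' × A') :
    y ∈ fF H' (π a.1, a.2) (π b.1, b.2) ↔ ∃ x ∈ fF H a b, ψ.prodMap ψ x = y := by
  constructor
  · rintro ⟨h1, h2⟩
    obtain ⟨x, hx, ex⟩ := (h _ _ _).1 h1
    obtain ⟨x', hx', ex'⟩ := (h _ _ _).1 h2
    exact ⟨(x, x'), ⟨hx, hx'⟩, Prod.ext ex ex'⟩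
  · rintro ⟨x, ⟨h1, h2⟩, rfl⟩
    exact ⟨(h _ _ _).2 ⟨_, h1, rfl⟩, (h _ _ _).2 ⟨_, h2, rfl⟩⟩

/-- The exchange of pairs and polynomials. -/
noncomputable def g12b_sw (A : Type v) [Ring A] :
    (A × A)[X] × (A × A)[X] →+* (A[X] × A[X]) × (A[X] × A[X]) :=
  ((mapRingHom (RingHom.fst A A)).prodMap (mapRingHom (RingHom.fst A A))).prod
    ((mapRingHom (RingHom.snd A A)).prodMap (mapRingHom (RingHom.snd A A)))

theorem g12b_sw_apply (x : (A × A)[X] × (A × A)[X]) : g12b_sw A x =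
    ((x.1.map (RingHom.fst A A), x.2.map (RingHom.fst A A)),
      (x.1.map (RingHom.snd A A), x.2.map (RingHom.snd A A))) := rfl

theorem g12b_ext {f g : (A × A)[X]} (h : f.map (RingHom.fst A A) = g.map (RingHom.fst A A))
    (h' : f.map (RingHom.snd A A) = g.map (RingHom.snd A A)) : f = g := by
  refine Polynomial.ext fun n => Prod.ext ?_ ?_
  · simpa only [coeff_map, RingHom.coe_fst] using congrArg (coeff · n) h
  · simpa only [coeff_map, RingHom.coe_snd] using congrArg (coeff · n) h'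

theorem g12b_ex (p q : A[X]) :
    ∃ f : (A × A)[X], f.map (RingHom.fst A A) = p ∧ f.map (RingHom.snd A A) = q := by
  refine ⟨p.sum (fun n a => monomial n (a, 0)) + q.sum fun n a => monomial n (0, a), ?_, ?_⟩
  · simp [Polynomial.sum, Polynomial.map_sum, ← Polynomial.as_sum_support]
  · simp [Polynomial.sum, Polynomial.map_sum, ← Polynomial.as_sum_support]

theorem g12b_inj : Function.Injective (g12b_sw A) := fun _ _ h =>
  Prod.ext (g12b_ext (congrArg (·.1.1) h) (congrArg (·.2.1) h))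
    (g12b_ext (congrArg (·.1.2) h) (congrArg (·.2.2) h))

theorem g12b_of {P : (A × A)[X] × (A × A)[X] → Prop} {Q : (A[X] × A[X]) × (A[X] × A[X]) → Prop}
    (h : ∀ x, Q (g12b_sw A x) ↔ P x) (y) : Q y ↔ ∃ x, P x ∧ g12b_sw A x = y := by
  obtain ⟨f, f1, f2⟩ := g12b_ex y.1.1 y.2.1
  obtain ⟨g, g1, g2⟩ := g12b_ex y.1.2 y.2.2
  have e : g12b_sw A (f, g) = y := Prod.ext (Prod.ext f1 g1) (Prod.ext f2 g2)
  exact ⟨fun c => ⟨(f, g), (h _).1 (e ▸ c), e⟩, fun ⟨x, hx, c⟩ => c ▸ (h x).2 hx⟩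

theorem g12b_be (H : Fam A Λ) (a b : Λ × ℤ) (x : (A × A)[X] × (A × A)[X]) :
    g12b_sw A x ∈ eF (bF H) a b ↔ x ∈ bF (eF H) a b := by
  change (((∀ n, _ ∈ _) ∧ (∀ n, _ ∈ _) ∧ _ = _) ∧ ((∀ n, _ ∈ _) ∧ (∀ n, _ ∈ _) ∧ _ = _) ∧ _) ↔
    (∀ n, _ ∈ _ ∧ _ ∈ _ ∧ _) ∧ (∀ n, _ ∈ _ ∧ _ ∈ _ ∧ _) ∧ _ = _
  simp only [g12b_sw_apply, Prod.ext_iff, Polynomial.ext_iff, coeff_map, RingHom.coe_fst,
    RingHom.coe_snd, Prod.fst_zero, Prod.snd_zero, coeff_zero, forall_and,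
    forall_comm (α := ℕ)]
  tauto

theorem g12b_bf (H : Fam A Λ) (a b : Λ × ℤ) (x : (A × A)[X] × (A × A)[X]) :
    g12b_sw A x ∈ fF (bF H) a b ↔ x ∈ bF (fF H) a b := by
  change (((∀ n, _ ∈ _) ∧ (∀ n, _ ∈ _) ∧ _ = _) ∧ ((∀ n, _ ∈ _) ∧ (∀ n, _ ∈ _) ∧ _ = _)) ↔
    (∀ n, _ ∈ _ ∧ _ ∈ _) ∧ (∀ n, _ ∈ _ ∧ _ ∈ _) ∧ _ = _
  simp only [g12b_sw_apply, Prod.ext_iff, coeff_map, RingHom.coe_fst, RingHom.coe_snd, forall_and]
  tauto

end

theorem Eqv.E (h : Eqv 𝒮 𝒮') : Eqv 𝒮.E 𝒮'.E := by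
  obtain ⟨ψ, π, e, d, h⟩ := h
  refine ⟨ψ.prodMap ψ, π.prodCongr (Equiv.refl ℤ), e.optionCongr, d.optionCongr,
    h.inj.prodMap h.inj, g12b_e h.inj h.H, ?_, ?_, ?_⟩
  · rintro (_ | i)
    · exact g12b_f h.H
    · exact g12b_e h.inj (h.L i)
  · rintro (_ | i) y
    · exact ⟨fun c => ⟨1, one_mem _, (map_one _).trans (Submonoid.mem_bot.1 c).symm⟩,
        fun ⟨x, hx, c⟩ => by
          rw [← c, Submonoid.mem_bot.1 hx, map_one]
          exact one_mem _⟩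
    · constructor
      · rintro ⟨z, hz, rfl⟩
        obtain ⟨x, hx, rfl⟩ := (h.S i z).1 hz
        exact ⟨(x, x), ⟨x, hx, rfl⟩, rfl⟩
      · rintro ⟨_, ⟨x, hx, rfl⟩, rfl⟩
        exact ⟨ψ x, (h.S i _).2 ⟨x, hx, rfl⟩, rfl⟩
  · rintro (_ | b) x
    · rfl
    · exact Prod.ext (h.Δ b x.1) (h.Δ b x.2)

/-- The exchange of the two new tests. -/
def g12b_eq (ι : Type) : Option (Option ι) ≃ Option (Option ι) where
  toFun a := a.elim (some none) fun a => a.elim none fun a => some (some a)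
  invFun a := a.elim (some none) fun a => a.elim none fun a => some (some a)
  left_inv := by rintro (_ | _ | _) <;> rfl
  right_inv := by rintro (_ | _ | _) <;> rfl

theorem eqv_swap (𝒮 : Sys.{v}) : Eqv 𝒮.E.B 𝒮.B.E := by
  refine ⟨g12b_sw 𝒮.A, Equiv.refl _, g12b_eq _, Equiv.refl _, g12b_inj,
    fun a b => g12b_of (g12b_be _ a b), ?_, ?_, ?_⟩
  · rintro (_ | _ | i) a b
    · exact g12b_of (g12b_be _ a b)
    · exact g12b_of (g12b_bf _ a b)
    · exact g12b_of (g12b_be _ a b)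
  · rintro (_ | _ | i) y
    · have e : ∀ n : ℕ, g12b_sw 𝒮.A ((X, X) ^ n) = ((X, X) ^ n, (X, X) ^ n) := fun n => by
        rw [map_pow, g12b_sw_apply, map_X, map_X, Prod.pow_mk]
      constructor
      · rintro ⟨_, ⟨n, rfl⟩, rfl⟩
        exact ⟨_, ⟨n, rfl⟩, e n⟩
      · rintro ⟨_, ⟨n, rfl⟩, rfl⟩
        exact ⟨_, ⟨n, rfl⟩, (e n).symm⟩
    · constructor
      · intro c
        exact ⟨1, one_mem _, (map_one _).trans (Submonoid.mem_bot.1 c).symm⟩
      · rintro ⟨_, ⟨x, hx, rfl⟩, rfl⟩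
        rw [Submonoid.mem_bot.1 hx, map_one, map_one]
        exact one_mem _
    · have e : ∀ x : 𝒮.A, g12b_sw 𝒮.A (C (x, x), C (x, x)) = ((C x, C x), (C x, C x)) := fun x => by
        rw [g12b_sw_apply, map_C, map_C]
        rfl
      constructor
      · rintro ⟨_, ⟨x, hx, rfl⟩, rfl⟩
        exact ⟨_, ⟨_, ⟨x, hx, rfl⟩, rfl⟩, e x⟩
      · rintro ⟨_, ⟨_, ⟨x, hx, rfl⟩, rfl⟩, rfl⟩
        exact ⟨_, ⟨x, hx, rfl⟩, (e x).symm⟩
  · rintro (_ | b) x <;>
      exact Prod.ext (Prod.ext (by exact Polynomial.ext fun n => by simp [g12b_sw_apply])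
        (by exact Polynomial.ext fun n => by simp [g12b_sw_apply]))
        (Prod.ext (by exact Polynomial.ext fun n => by simp [g12b_sw_apply])
        (by exact Polynomial.ext fun n => by simp [g12b_sw_apply]))

theorem Eqv.En (h : Eqv 𝒮.B 𝒮') (j : ℕ) : Eqv (𝒮.En j).B (𝒮'.En j) := by
  induction j with
  | zero => exact h
  | succ j ih => exact (eqv_swap _).trans ih.E

end Pool.Agent.MP_f7db47_al.GR

end

section

/-!
Complexes of binary multicomplexes: definitions.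
-/

namespace Pool.Agent.MP_f7db47_al.GR

open Matrix KN

universe v w

/-- A complex of binary multicomplexes: the labels contain a multidegree. -/
structure DC (A : Type v) [Ring A] (Λ σ : Type) : Type (max 1 v)
    extends Cx A (Λ × (σ → ℤ)) where
  d : σ → Bool → Matrix J J A

variable {A : Type v} [Ring A] {Λ σ : Type}

namespace DC

/-- The degree of an index. -/
abbrev c (X : DC A Λ σ) : X.J → ℤ := fun i => (X.t i).2

/-- The multidegree of an index. -/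
abbrev m (X : DC A Λ σ) (s : σ) : X.J → ℤ := fun i => (X.t i).1.2 s

/-- The lines in direction `s`. -/
@[reducible] def vd [DecidableEq σ] (X : DC A Λ σ) (s : σ) (ε : Bool) : Cx A (Λ × (σ → ℤ)) where
  J := X.J
  t i := (((X.t i).1.1, Function.update (X.t i).1.2 s (X.c i)), X.m s i)
  p := X.p
  D := X.d s ε

/-- The total complexes in direction `s`. -/
@[reducible] def vT [DecidableEq σ] (X : DC A Λ σ) (s : σ) (ε : Bool) : Cx A (Λ × (σ → ℤ)) where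
  J := X.J
  t i := (((X.t i).1.1, Function.update (X.t i).1.2 s 0), X.c i + X.m s i)
  p := X.p
  D := X.D * sg A (X.m s) + X.d s ε

/-- Extensions. -/
@[reducible] def ext (X Y : DC A Λ σ) (t : Matrix X.J Y.J A) (τ : σ → Bool → Matrix X.J Y.J A) :
    DC A Λ σ where
  toCx := X.toCx.ext Y.toCx t
  d s ε := fromBlocks (X.d s ε) (τ s ε) 0 (Y.d s ε)

/-- The shift. -/
@[reducible] def sh (X : DC A Λ σ) : DC A Λ σ where
  toCx := X.toCx.sh 1
  d := X.d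

/-- The cone of `f : X → Y`. -/
@[reducible] def cone (Y X : DC A Λ σ) (f : Matrix Y.J X.J A) : DC A Λ σ := Y.ext X.sh f 0

/-- The same index set with other matrices. -/
@[reducible] def re (X : DC A Λ σ) (p D : Matrix X.J X.J A) (d : σ → Bool → Matrix X.J X.J A) :
    DC A Λ σ where
  toCx := X.toCx.re p D
  d := d

/-- The projection to the degree `k`. -/
noncomputable def ic (X : DC A Λ σ) (k : ℤ) : Matrix X.J X.J A := ind A {i | X.c i = k}

/-- The term of degree `k`, placed in degree zero. -/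
@[reducible] noncomputable def term (X : DC A Λ σ) (k : ℤ) : DC A Λ σ where
  J := X.J
  t i := ((X.t i).1, 0)
  p := X.p * X.ic k
  D := 0
  d s ε := X.d s ε * X.ic k

/-- Change of the set of directions. -/
@[reducible] def rx {σ' : Type} (X : DC A Λ σ) (e : σ' → σ) : DC A Λ σ' where
  J := X.J
  t i := (((X.t i).1.1, (X.t i).1.2 ∘ e), (X.t i).2)
  p := X.p
  D := X.D
  d s := X.d (e s)

end DC

section Pred

variable [DecidableEq σ]

/-- A complex of binary multicomplexes over the idempotent completion of `H`. -/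
structure DOk (H : Fam A Λ) (X : DC A Λ σ) : Prop where
  ok : Ok (grF _ H) X.toCx
  okd : ∀ s ε, Ok (grF _ H) (X.vd s ε)
  cm : ∀ s ε, X.D * X.d s ε = X.d s ε * X.D
  cd : ∀ s s' ε ε', s ≠ s' → X.d s ε * X.d s' ε' = X.d s' ε' * X.d s ε

/-- The terms are acyclic in direction `s`. -/
def Ac (H : Fam A Λ) (X : DC A Λ σ) (s : σ) : Prop := ∀ ε, Nul (grF _ H) 1 (X.vd s ε)

/-- The total complexes in direction `s` are acyclic. -/
def TAc (H : Fam A Λ) (X : DC A Λ σ) (s : σ) : Prop := ∀ ε, Nul (grF _ H) 1 (X.vT s ε)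

/-- The term of degree `k` is acyclic in direction `s`. -/
def AcAt (H : Fam A Λ) (X : DC A Λ σ) (s : σ) (k : ℤ) : Prop :=
  ∀ ε, ∃ h, Hm (grF _ H) 1 (X.vd s ε).t (X.vd s ε).t h ∧
    X.d s ε * h + h * X.d s ε = X.p * X.ic k

omit [DecidableEq σ] in
/-- Contractible when the binary differentials are forgotten. -/
abbrev WN (H : Fam A Λ) (X : DC A Λ σ) : Prop := Nul (grF _ H) 1 X.toCx

omit [DecidableEq σ] in
/-- Maps of complexes of multicomplexes. -/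
structure DMap (H : Fam A Λ) (Y X : DC A Λ σ) (f : Matrix Y.J X.J A) : Prop where
  ch : Ch (grF _ H) Y.toCx X.toCx f
  cm : ∀ s ε, Y.d s ε * f = f * X.d s ε

omit [DecidableEq σ] in
/-- All entries are fixed by `δ`. -/
def DFix (δ : A →+* A) (X : DC A Λ σ) : Prop := Fix δ X.toCx ∧ ∀ s ε, (X.d s ε).map δ = X.d s ε

omit [DecidableEq σ] in
/-- `X` is block triangular with diagonal blocks `X'` (sub) and `X''` (quotient). -/
structure Tri (X' X X'' : DC A Λ σ) (a : Spl X'.J X.J X''.J) : Prop where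
  c : CTr X'.toCx X.toCx X''.toCx a
  d : ∀ s ε, Blk a a (X'.d s ε) (X.d s ε) (X''.d s ε)

omit [DecidableEq σ] in
/-- Degreewise split short exact sequences. -/
def Ses (H : Fam A Λ) (X' X X'' : DC A Λ σ) : Prop :=
  ∃ (i : Matrix X.J X'.J A) (q : Matrix X''.J X.J A) (r : Matrix X'.J X.J A)
    (s : Matrix X.J X''.J A), DMap H X X' i ∧ DMap H X'' X q ∧
    Mp (grF _ H) 0 X'.toCx X.toCx r ∧ Mp (grF _ H) 0 X.toCx X''.toCx s ∧
    r * i = X'.p ∧ q * s = X''.p ∧ i * r + s * q = X.p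

/-- The objects: the terms are acyclic in the directions in `T`, the total complexes in the
others. -/
structure DOb (𝒮 : Sys.{v}) (T : Set σ) (X : DC 𝒮.A 𝒮.Λ σ) : Prop where
  ok : DOk 𝒮.H X
  tor : TorS (𝒮.gr (σ → ℤ)) X.toCx
  ac : ∀ s ∈ T, Ac 𝒮.H X s
  tac : ∀ s ∉ T, TAc 𝒮.H X s

/-- Additive invariants. -/
structure Add0 (𝒮 : Sys.{v}) (T : Set σ) {M : Type w} [AddCommGroup M]
    (κ : DC 𝒮.A 𝒮.Λ σ → M) : Prop where
  ext : ∀ X Y t τ, DOb 𝒮 T X → DOb 𝒮 T Y → DOk 𝒮.H (X.ext Y t τ) → κ (X.ext Y t τ) = κ X + κ Y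
  nul : ∀ X, DOb 𝒮 T X → WN 𝒮.H X → κ X = 0

/-- Additive invariants that vanish on diagonal objects. -/
structure AddD (𝒮 : Sys.{v}) (T : Set σ) {M : Type w} [AddCommGroup M]
    (κ : DC 𝒮.A 𝒮.Λ σ → M) : Prop extends Add0 𝒮 T κ where
  sd : ∀ s X, DOb 𝒮 T X → X.d s false = X.d s true → κ X = 0
  wd : ∀ b X, DOb 𝒮 T X → DFix (𝒮.Δ b) X → κ X = 0

/-- All additive invariants vanish. -/
def ZD (𝒮 : Sys.{v}) (σ : Type) [DecidableEq σ] (T : Set σ) : Prop :=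
  ∀ (M : Type w) [AddCommGroup M] (κ : DC 𝒮.A 𝒮.Λ σ → M), AddD 𝒮 T κ →
    ∀ X, DOb 𝒮 T X → κ X = 0

/-- Acyclic binary multicomplexes. -/
structure MOb (H : Fam A Λ) (X : DC A Λ σ) : Prop where
  ok : DOk H X
  D : X.D = 0
  c : ∀ i, X.c i = 0
  ac : ∀ s, Ac H X s

/-- The group of Grayson vanishes. -/
def GZ (H : Fam A Λ) (σ : Type) [DecidableEq σ] : Prop :=
  ∀ (M : Type w) [AddCommGroup M] (γ : DC A Λ σ → M),
    (∀ X' X X'', MOb H X' → MOb H X → MOb H X'' → Ses H X' X X'' → γ X = γ X' + γ X'') →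
    (∀ s X, MOb H X → X.d s false = X.d s true → γ X = 0) → ∀ X, MOb H X → γ X = 0

end Pred

section Koszul

variable {I I' I'' K K' : Type}

/-- Block matrices with integral patterns. -/
def kr (E : Matrix K' K ℤ) (B : K → Matrix I' I A) : Matrix (I' × K') (I × K) A :=
  fun x' x => E x'.2 x.2 • B x.2 x'.1 x.1

/-- The basis in level `lam`. -/
def val (j : I → ℤ) (lam : ℤ) (x : I × Bool) : Prop := j x.1 < lam ∨ (j x.1 = lam ∧ x.2 = false)

instance (j : I → ℤ) (lam : ℤ) (x : I × Bool) : Decidable (val j lam x) :=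
  inferInstanceAs (Decidable (_ ∨ _))

/-- The shape of graded matrices. -/
def Esh (j' : I' → ℤ) (j : I → ℤ) (f : Matrix I' I (A × A)) : Prop :=
  ∀ i' i, (j' i' = j i → (f i' i).1 = (f i' i).2) ∧ (j i < j' i' → f i' i = 0)

/-- The part in level `lam`. -/
def psi (j' : I' → ℤ) (j : I → ℤ) (lam : ℤ) (f : Matrix I' I (A × A)) :
    Matrix (I' × Bool) (I × Bool) A := fun x' x =>
  if val j' lam x' ∧ val j lam x ∧ (j x.1 = lam ∨ x'.2 = x.2) then br A x'.2 (f x'.1 x.1) else 0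

/-- Multiplication by one of the variables, from level `lam` to the next level. -/
def tau (A : Type v) [Ring A] [DecidableEq I] (j : I → ℤ) (ε : Bool) (lam : ℤ) :
    Matrix (I × Bool) (I × Bool) A := fun x' x =>
  if x'.1 = x.1 ∧ x'.2 = ε ∧ val j lam x ∧ (j x.1 = lam ∨ x.2 = ε) then 1 else 0

/-- Levels and alternating words (length, first letter). -/
def KK (n : ℕ) : Type :=
  {κ : ℤ × ℕ × Bool // -(n : ℤ) ≤ κ.1 ∧ κ.1 + κ.2.1 ≤ n ∧ (κ.2.1 = 0 → κ.2.2 = false)}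

instance (n : ℕ) : DecidableEq (KK n) := inferInstanceAs (DecidableEq (Subtype _))

noncomputable instance (n : ℕ) : Fintype (KK n) :=
  (((Set.finite_Icc (-(n : ℤ)) n).prod ((Set.finite_Iic (2 * n)).prod Set.finite_univ)).subset
    (s := _) (t := {κ : ℤ × ℕ × Bool | -(n : ℤ) ≤ κ.1 ∧ κ.1 + κ.2.1 ≤ n ∧
      (κ.2.1 = 0 → κ.2.2 = false)}) fun κ h => by
      obtain ⟨h1, h2, -⟩ := h
      exact ⟨⟨h1, by omega⟩, Set.mem_Iic.2 (by omega), trivial⟩).fintype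

/-- The level. -/
abbrev KK.l {n : ℕ} (κ : KK n) : ℤ := κ.1.1

/-- The length. -/
abbrev KK.r {n : ℕ} (κ : KK n) : ℕ := κ.1.2.1

/-- The first letter. -/
abbrev KK.e {n : ℕ} (κ : KK n) : Bool := κ.1.2.2

/-- The normal form of the first letter. -/
def nz (r : ℕ) (e : Bool) : Bool := if r = 0 then false else e

/-- The last letter. -/
def lst (r : ℕ) (e : Bool) : Bool := if Even r then !e else e

/-- Remove the first letter. -/
def Ek (n : ℕ) (e : Bool) : Matrix (KK n) (KK n) ℤ := fun κ' κ =>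
  if κ.r = κ'.r + 1 ∧ κ.e = e ∧ κ'.l = κ.l + 1 ∧ κ'.e = nz κ'.r (!e) then 1 else 0

/-- Remove the last letter. -/
def Ed (n : ℕ) (ε : Bool) : Matrix (KK n) (KK n) ℤ := fun κ' κ =>
  if κ.r = κ'.r + 1 ∧ lst κ.r κ.e = ε ∧ κ'.l = κ.l ∧ κ'.e = nz κ'.r κ.e then 1 else 0

/-- The level of an index. -/
abbrev lw (Y : DC (A × A) (Λ × ℤ) σ) : Y.J → ℤ := fun i => (Y.t i).1.1.2

/-- The action of a graded matrix. -/
noncomputable def vm (n : ℕ) (j' : I' → ℤ) (j : I → ℤ) (f : Matrix I' I (A × A)) :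
    Matrix ((I' × Bool) × KK n) ((I × Bool) × KK n) A := kr 1 fun κ => psi j' j κ.l f

/-- The Koszul differential. -/
noncomputable def vk (n : ℕ) (Y : DC (A × A) (Λ × ℤ) σ) :
    Matrix ((Y.J × Bool) × KK n) ((Y.J × Bool) × KK n) A :=
  ∑ e, kr (Ek n e) fun κ => tau A (lw Y) e κ.l * psi (lw Y) (lw Y) κ.l Y.p

/-- Koszul duality. -/
@[reducible] noncomputable def VV (n : ℕ) (Y : DC (A × A) (Λ × ℤ) σ) : DC A Λ (Option σ) where
  J := (Y.J × Bool) × KK n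
  t x := (((Y.t x.1.1).1.1.1, fun s => s.elim (x.2.l + x.2.r) (Y.t x.1.1).1.2),
    Y.c x.1.1 - x.2.l)
  p := vm n (lw Y) (lw Y) Y.p
  D := (vm n (lw Y) (lw Y) Y.D + vk n Y) * sg A fun x => x.2.l
  d s ε := s.elim (kr (Ed n ε) fun κ => psi (lw Y) (lw Y) κ.l Y.p)
    fun s => vm n (lw Y) (lw Y) (Y.d s ε)

/-- The associated graded complex. -/
@[reducible] def GG (Y : DC (A × A) (Λ × ℤ) σ) : Cx A (Λ × (Option σ → ℤ)) where
  J := Y.J
  t i := (((Y.t i).1.1.1, fun s => s.elim (lw Y i) (Y.t i).1.2), Y.c i - lw Y i)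
  p := dg0 (lw Y) (lw Y) (Y.p.map (br A false))
  D := dg0 (lw Y) (lw Y) (Y.D.map (br A false)) * sg A (lw Y)

/-- The projection to the associated graded complex. -/
def bet (n : ℕ) (Y : DC (A × A) (Λ × ℤ) σ) : Matrix Y.J ((Y.J × Bool) × KK n) A := fun i' x =>
  if x.2.r = 0 ∧ x.2.l = lw Y i' ∧ lw Y x.1.1 = lw Y i' ∧ x.1.2 = false then (Y.p i' x.1.1).1
  else 0

/-- The levels are bounded by `n`. -/
def Lw (n : ℕ) (Y : DC (A × A) (Λ × ℤ) σ) : Prop := ∀ i, -(n : ℤ) ≤ lw Y i ∧ lw Y i ≤ n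

/-- The total complex in the new direction. -/
@[reducible] def Tot (X : DC A Λ (Option σ)) : DC (A × A) (Λ × ℤ) σ where
  J := X.J
  t i := ((((X.t i).1.1, X.m none i), (X.t i).1.2 ∘ some), X.c i + X.m none i)
  p := pr X.p X.p
  D := pr (X.D * sg A (X.m none) + X.d none false) (X.D * sg A (X.m none) + X.d none true)
  d s ε := pr (X.d (some s) ε) (X.d (some s) ε)

/-- Alternating words (length, first letter) in two operators. -/
def wrd [Fintype I] (p : Matrix I I A) (d : Bool → Matrix I I A) : ℕ → Bool → Matrix I I A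
  | 0, _ => p
  | r + 1, e => d e * wrd p d r (!e)

/-- The unit. -/
def eta (n : ℕ) (X : DC A Λ (Option σ)) : Matrix ((X.J × Bool) × KK n) X.J A := fun x i =>
  if x.1.2 = false ∧ x.2.l = X.m none x.1.1 ∧ x.2.l + x.2.r = X.m none i then
    wrd X.p (X.d none) x.2.r x.2.e x.1.1 i else 0

/-- Levels and words of length at most one. -/
def KD (n : ℕ) : Type := {κ : ℤ × ℕ // -(n : ℤ) ≤ κ.1 ∧ κ.1 + κ.2 ≤ n ∧ κ.2 ≤ 1}

instance (n : ℕ) : DecidableEq (KD n) := inferInstanceAs (DecidableEq (Subtype _))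

noncomputable instance (n : ℕ) : Fintype (KD n) :=
  (((Set.finite_Icc (-(n : ℤ)) n).prod (Set.finite_Iic 1)).subset
    (s := _) (t := {κ : ℤ × ℕ | -(n : ℤ) ≤ κ.1 ∧ κ.1 + κ.2 ≤ n ∧ κ.2 ≤ 1}) fun κ h => by
      obtain ⟨h1, h2, h3⟩ := h
      exact ⟨⟨h1, by omega⟩, h3⟩).fintype

/-- The level. -/
abbrev KD.l {n : ℕ} (κ : KD n) : ℤ := κ.1.1

/-- The length. -/
abbrev KD.r {n : ℕ} (κ : KD n) : ℕ := κ.1.2

/-- The part in level `lam`, in the diagonal case. -/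
noncomputable def chi [Fintype I] [DecidableEq I] (j : I → ℤ) (lam : ℤ)
    (f : Matrix I' I (A × A)) : Matrix I' I A := f.map (br A false) * ind A {i | j i ≤ lam}

/-- Koszul duality in the diagonal case. -/
@[reducible] noncomputable def VD (n : ℕ) (Y : DC (A × A) (Λ × ℤ) σ) : DC A Λ (Option σ) where
  J := Y.J × KD n
  t x := (((Y.t x.1).1.1.1, fun s => s.elim (x.2.l + x.2.r) (Y.t x.1).1.2), Y.c x.1 - x.2.l)
  p := kr 1 fun κ => chi (lw Y) κ.l Y.p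
  D := (kr 1 (fun κ : KD n => chi (lw Y) κ.l Y.D) +
    kr (fun κ' κ : KD n => if κ.r = κ'.r + 1 ∧ κ'.l = κ.l + 1 then 1 else 0)
      fun κ => chi (lw Y) κ.l Y.p) * sg A fun x => x.2.l
  d s ε := s.elim (kr (fun κ' κ : KD n => if κ.r = κ'.r + 1 ∧ κ'.l = κ.l then 1 else 0)
    fun κ => chi (lw Y) κ.l Y.p) fun s => kr 1 fun κ => chi (lw Y) κ.l (Y.d s ε)

/-- The projection to the associated graded complex, in the diagonal case. -/
def beD (n : ℕ) (Y : DC (A × A) (Λ × ℤ) σ) : Matrix Y.J (Y.J × KD n) A := fun i' x =>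
  if x.2.r = 0 ∧ x.2.l = lw Y i' ∧ lw Y x.1 = lw Y i' then (Y.p i' x.1).1 else 0

/-- The comparison map in the diagonal case. -/
def zet (n : ℕ) (Y : DC (A × A) (Λ × ℤ) σ) : Matrix ((Y.J × Bool) × KK n) (Y.J × KD n) A :=
  fun x' x => if x'.2.l = x.2.l ∧ x'.2.r = x.2.r ∧ val (lw Y) x.2.l x'.1 ∧ lw Y x.1 ≤ x.2.l then
    (Y.p x'.1.1 x.1).1 else 0

/-- The projection to a branch. -/
def alp (n : ℕ) (Y : DC (A × A) (Λ × ℤ) σ) (ε : Bool) : Matrix Y.J ((Y.J × Bool) × KK n) A :=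
  fun i' x => if x.2.r = 0 ∧ val (lw Y) x.2.l x.1 ∧ (lw Y x.1.1 = x.2.l ∨ x.1.2 = ε) then
    br A ε (Y.p i' x.1.1) else 0

/-- A branch. -/
@[reducible] def brD (Y : DC (A × A) (Λ × ℤ) σ) (ε : Bool) : Cx A (Λ × (Option σ → ℤ)) where
  J := Y.J
  t i := (((Y.t i).1.1.1, fun s => s.elim 0 (Y.t i).1.2), Y.c i)
  p := Y.p.map (br A ε)
  D := Y.D.map (br A ε)

end Koszul

section Cover

/-- The data of a cover of one term. -/
structure Cov (W : DC A Λ (Option σ)) where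
  F : DC A Λ (Option σ)
  φ : Matrix W.J F.J A
  s : Matrix F.J W.J A

/-- The axioms of a cover of the term of degree `k`. -/
structure Cov.Ok [DecidableEq σ] (H : Fam A Λ) {W : DC A Λ (Option σ)} (C : Cov W) (k : ℤ) :
    Prop where
  mob : DOk H C.F
  D : C.F.D = 0
  c : ∀ i, C.F.c i = k
  hφ : Mp (grF _ H) 0 W.toCx C.F.toCx C.φ
  hs : Mp (grF _ H) 0 C.F.toCx W.toCx C.s
  φd : ∀ s ε, W.d s ε * C.φ = C.φ * C.F.d s ε
  sd : ∀ s ε, C.F.d (some s) ε * C.s = C.s * W.d (some s) ε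
  φs : C.φ * C.s = W.p * W.ic k
  ac : Ac H C.F none
  acs : ∀ s, Ac H W (some s) → Ac H C.F (some s)

/-- The kernel of a cover. -/
@[reducible] def Cov.K {W : DC A Λ (Option σ)} (C : Cov W) : DC A Λ (Option σ) :=
  C.F.re (C.F.p - C.s * C.φ) 0 fun s ε => C.F.d s ε * (C.F.p - C.s * C.φ)

/-- Replace a term by its cover. -/
@[reducible] def rr (W : DC A Λ (Option σ)) (C : Cov W) : DC A Λ (Option σ) :=
  (C.K.cone C.K C.K.p).ext W 0 fun s ε => s.elim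
    (fromRows (C.F.d none ε * C.s - C.s * W.d none ε)
      ((C.F.d none ε * C.s - C.s * W.d none ε) * W.D)) fun _ => 0

/-- Heights and alternating words; the two longest words are identified. -/
def WW (b : ℕ) : Type :=
  {κ : ℕ × ℕ × Bool // 1 ≤ κ.1 ∧ κ.1 ≤ b ∧ κ.2.1 ≤ κ.1 ∧ (κ.2.1 = 0 ∨ κ.2.1 = κ.1 → κ.2.2 = false)}

instance (b : ℕ) : DecidableEq (WW b) := inferInstanceAs (DecidableEq (Subtype _))

noncomputable instance (b : ℕ) : Fintype (WW b) :=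
  (((Set.finite_Iic b).prod ((Set.finite_Iic b).prod Set.finite_univ)).subset
    (s := _) (t := {κ : ℕ × ℕ × Bool | 1 ≤ κ.1 ∧ κ.1 ≤ b ∧ κ.2.1 ≤ κ.1 ∧
      (κ.2.1 = 0 ∨ κ.2.1 = κ.1 → κ.2.2 = false)}) fun κ h => by
      obtain ⟨-, h1, h2, -⟩ := h
      exact ⟨h1, h2.trans h1, trivial⟩).fintype

/-- The height. -/
abbrev WW.h {b : ℕ} (κ : WW b) : ℕ := κ.1.1

/-- The length. -/
abbrev WW.r {b : ℕ} (κ : WW b) : ℕ := κ.1.2.1

/-- The first letter. -/
abbrev WW.e {b : ℕ} (κ : WW b) : Bool := κ.1.2.2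

/-- Add a letter. -/
def Ew (b : ℕ) (ε : Bool) : Matrix (WW b) (WW b) ℤ := fun κ' κ =>
  if κ'.h = κ.h ∧ κ'.r = κ.r + 1 ∧ (κ.r = 0 ∨ κ.e ≠ ε) ∧ (κ'.r = κ'.h ∨ κ'.e = ε) then 1 else 0

/-- The projection to degree `k` and new multidegree `a`. -/
noncomputable def iw (W : DC A Λ (Option σ)) (k a : ℤ) : Matrix W.J W.J A :=
  ind A {i | W.c i = k ∧ W.m none i = a}

/-- The cover by free binary complexes. -/
@[reducible] noncomputable def bcov (a : ℤ) (b : ℕ) (k : ℤ) (W : DC A Λ (Option σ)) : Cov W where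
  F :=
    { J := W.J × WW b
      t x := (((W.t x.1).1.1, fun s => s.elim (a + x.2.h - x.2.r) fun s => W.m (some s) x.1), k)
      p := kr 1 fun κ => W.p * iw W k (a + κ.h)
      D := 0
      d s ε := s.elim (kr (Ew b ε) fun κ => W.p * iw W k (a + κ.h))
        fun s => kr 1 fun κ => W.d (some s) ε * iw W k (a + κ.h) }
  φ i x := (wrd W.p (W.d none) x.2.r x.2.e * iw W k (a + x.2.h)) i x.1
  s x i := if x.2.r = 0 then (W.p * iw W k (a + x.2.h)) x.1 i else 0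

/-- The cover of a diagonal term. -/
@[reducible] noncomputable def dcov (k : ℤ) (W : DC A Λ (Option σ)) : Cov W where
  F :=
    { J := W.J ⊕ W.J
      t := Sum.elim (fun i => ((W.t i).1, k)) fun i =>
        (((W.t i).1.1, fun s => s.elim (W.m none i - 1) fun s => W.m (some s) i), k)
      p := fromBlocks (W.p * W.ic k) 0 0 (W.p * W.ic k)
      D := 0
      d s ε := s.elim (fromBlocks 0 0 (W.p * W.ic k) 0)
        fun s => fromBlocks (W.d (some s) ε * W.ic k) 0 0 (W.d (some s) ε * W.ic k) }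
  φ := fromCols (W.p * W.ic k) (W.d none false * W.ic k)
  s := fromRows (W.p * W.ic k) 0

/-- The degrees are bounded by `n`. -/
def Cw (n : ℕ) (W : DC A Λ σ) : Prop := ∀ i, -(n : ℤ) ≤ W.c i ∧ W.c i ≤ n

/-- The new multidegree lies in a window. -/
def Mw (a b : ℤ) (W : DC A Λ (Option σ)) : Prop := ∀ i, a < W.m none i ∧ W.m none i ≤ b

/-- The resolution. -/
noncomputable def RR (n : ℕ) (W : DC A Λ (Option σ)) : ℕ → DC A Λ (Option σ)
  | 0 => W
  | k + 1 => rr (RR n W k) (bcov (-(n : ℤ) - 1 - k) (2 * n + 1 + k) (-(n : ℤ) + k) (RR n W k))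

/-- The resolution of a diagonal object. -/
noncomputable def RD (n : ℕ) (W : DC A Λ (Option σ)) : ℕ → DC A Λ (Option σ)
  | 0 => W
  | k + 1 => rr (RD n W k) (dcov (-(n : ℤ) + k) (RD n W k))

end Cover

end Pool.Agent.MP_f7db47_al.GR

end

section

/-!
The graded pieces of free modules over the ring of two lines.
-/

namespace Pool.Agent.MP_f7db47_al.GR

open Matrix KN

universe v w

variable {A : Type v} [Ring A] {Λ I I' I'' K K' K'' : Type} {j : I → ℤ} {j' : I' → ℤ}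
  {j'' : I'' → ℤ} {l : ℤ}

section Kr

theorem kr_add (E : Matrix K' K ℤ) (B B' : K → Matrix I' I A) :
    kr E B + kr E B' = kr E fun κ => B κ + B' κ := by
  ext x' x
  exact (smul_add _ _ _).symm

theorem kr_add' (E E' : Matrix K' K ℤ) (B : K → Matrix I' I A) :
    kr E B + kr E' B = kr (E + E') B := by
  ext x' x
  exact (add_smul _ _ _).symm

theorem kr_zero (B : K → Matrix I' I A) : kr (0 : Matrix K' K ℤ) B = 0 := by
  ext x' x
  exact zero_smul _ _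

theorem kr_zero' (E : Matrix K' K ℤ) : kr E (fun _ => (0 : Matrix I' I A)) = 0 := by
  ext x' x
  exact smul_zero _

theorem kr_smul (w : A) (E : Matrix K' K ℤ) (B : K → Matrix I' I A) :
    w • kr E B = kr E fun κ => w • B κ := by
  ext x' x
  exact smul_comm w _ _

theorem kr_congr {E : Matrix K' K ℤ} {B B' : K → Matrix I' I A}
    (h : ∀ κ' κ, E κ' κ ≠ 0 → B κ = B' κ) : kr E B = kr E B' := by
  ext x' x
  by_cases c : E x'.2 x.2 = 0
  · simp only [kr, c, zero_smul]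
  · simp only [kr, h _ _ c]

theorem kr_mul [Fintype I'] [Fintype K'] (E' : Matrix K'' K' ℤ) {E : Matrix K' K ℤ}
    {B' : K' → Matrix I'' I' A} {B : K → Matrix I' I A} {D : K → Matrix I'' I A}
    (h : ∀ κ' κ, E κ' κ ≠ 0 → B' κ' * B κ = D κ) : kr E' B' * kr E B = kr (E' * E) D := by
  ext x'' x
  simp only [kr, mul_apply, Fintype.sum_prod_type_right, Finset.sum_smul]
  refine Finset.sum_congr rfl fun κ' _ => ?_
  by_cases c : E κ' x.2 = 0
  · simp only [c, zero_smul, mul_zero, Finset.sum_const_zero]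
  · simp only [← h _ _ c, mul_apply, Finset.smul_sum, smul_mul_smul_comm]

theorem kr_map (δ : A →+* A) (E : Matrix K' K ℤ) (B : K → Matrix I' I A) :
    (kr E B).map δ = kr E fun κ => (B κ).map δ := by
  ext x' x
  exact map_zsmul δ _ _

theorem kr_ne {E : Matrix K' K ℤ} {B : K → Matrix I' I A} {x' : I' × K'} {x : I × K}
    (h : kr E B x' x ≠ 0) : E x'.2 x.2 ≠ 0 ∧ B x.2 x'.1 x.1 ≠ 0 :=   ⟨left_ne_zero_of_smul h, right_ne_zero_of_smul h⟩

theorem Blk.kr {I₁ I₂ J₁ J J₂ : Type} {a : Spl I₁ I I₂} {b : Spl J₁ J J₂} (E : Matrix K' K ℤ)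
    {B₁ : K → Matrix I₁ J₁ A} {B : K → Matrix I J A} {B₂ : K → Matrix I₂ J₂ A}
    (h : ∀ κ, Blk a b (B₁ κ) (B κ) (B₂ κ)) :
    Blk (a.prod K') (b.prod K) (kr E B₁) (kr E B) (kr E B₂) := by
  refine ⟨?_, ?_, fun x y => ?_⟩
  · ext x y
    exact congrArg (E x.2 y.2 • ·) (congrFun₂ (h y.2).l x.1 y.1)
  · ext x y
    exact congrArg (E x.2 y.2 • ·) (congrFun₂ (h y.2).r x.1 y.1)
  · exact (congrArg (E x.2 y.2 • ·) ((h y.2).z x.1 y.1)).trans (smul_zero _)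

end Kr

theorem Esh.mul [Fintype I'] {f : Matrix I'' I' (A × A)} {g : Matrix I' I (A × A)}
    (hf : Esh j'' j' f) (hg : Esh j' j g) : Esh j'' j (f * g) := by
  intro i'' i
  rw [mul_apply, Prod.fst_sum, Prod.snd_sum]
  refine ⟨fun c => Finset.sum_congr rfl fun i' _ => ?_,
    fun c => Finset.sum_eq_zero fun i' _ => ?_⟩
  · rcases lt_trichotomy (j' i') (j i) with d | d | d
    · rw [(hf i'' i').2 (c ▸ d), zero_mul]
      rfl
    · rw [Prod.fst_mul, Prod.snd_mul, (hf i'' i').1 (c.trans d.symm), (hg i' i).1 d]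
    · rw [(hg i' i).2 d, mul_zero]
      rfl
  · rcases lt_or_ge (j i) (j' i') with d | d
    · rw [(hg i' i).2 d, mul_zero]
    · rw [(hf i'' i').2 (d.trans_lt c), zero_mul]

theorem esh_of {Γ : Type} {H : Fam A Λ} {d : ℤ} {s : I' → ((Λ × ℤ) × Γ) × ℤ}
    {t : I → ((Λ × ℤ) × Γ) × ℤ} {f : Matrix I' I (A × A)} (h : Hm (grF Γ (eF H)) d s t f) :
    Esh (fun i => (s i).1.1.2) (fun i => (t i).1.1.2) f := fun i' i => (h i' i).1.1.2.2

theorem psi_add (f g : Matrix I' I (A × A)) : psi j' j l (f + g) = psi j' j l f + psi j' j l g := by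
  ext x' x
  simp only [psi, Matrix.add_apply, map_add]
  split_ifs
  exacts [rfl, (add_zero _).symm]

theorem psi_zero : psi j' j l (0 : Matrix I' I (A × A)) = 0 := by
  ext x' x
  simp only [psi, Matrix.zero_apply, map_zero, ite_self]

theorem psi_smul (w : A) (f : Matrix I' I (A × A)) :
    psi j' j l ((w, w) • f) = w • psi j' j l f := by
  ext ⟨i', e'⟩ x
  simp only [psi, Matrix.smul_apply, smul_eq_mul, map_mul]
  split_ifs
  · cases e' <;> rfl
  · exact (mul_zero _).symm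

theorem psi_map (δ : A →+* A) (f : Matrix I' I (A × A)) :
    psi j' j l (f.map (RingHom.prodMap δ δ)) = (psi j' j l f).map δ := by
  ext ⟨i', e'⟩ x
  simp only [psi, map_apply]
  split_ifs
  · cases e' <;> rfl
  · exact (map_zero _).symm

theorem psi_ne {f : Matrix I' I (A × A)} {x' : I' × Bool} {x : I × Bool}
    (h : psi j' j l f x' x ≠ 0) : f x'.1 x.1 ≠ 0 ∧ val j' l x' ∧ val j l x := by
  unfold psi at h
  split_ifs at h with c
  · exact ⟨fun e => h (by rw [e, map_zero]), c.1, c.2.1⟩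
  · exact absurd rfl h

theorem v1_key {p q r : ℤ} {a b : A × A} (h1 : q < p → a = 0) (h2 : q = r → b.1 = b.2)
    (h3 : r < q → b = 0) (e'' e : Bool) :
    ∑ e', (if (p < l ∨ p = l ∧ e'' = false) ∧ (q < l ∨ q = l ∧ e' = false) ∧ (q = l ∨ e'' = e')
      then br A e'' a else 0) *
      (if (q < l ∨ q = l ∧ e' = false) ∧ (r < l ∨ r = l ∧ e = false) ∧ (r = l ∨ e' = e)
      then br A e' b else 0) =
    if (p < l ∨ p = l ∧ e'' = false) ∧ (r < l ∨ r = l ∧ e = false) ∧ (r = l ∨ e'' = e)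
      then br A e'' (a * b) else 0 := by
  by_cases c1 : q < p
  · simp [h1 c1]
  by_cases c3 : r < q
  · simp [h3 c3]
  rw [Fintype.sum_bool]
  cases e'' <;> cases e <;> simp only [ite_zero_mul_ite_zero, map_mul, Bool.false_eq_true,
    Bool.true_eq_false, and_true, and_false, or_true, or_false] <;> split_ifs <;>
    first | omega | simp only [add_zero, zero_add]
  exact congrArg (_ * ·) (h2 (by omega))

theorem psi_mul [Fintype I'] {f : Matrix I'' I' (A × A)} {g : Matrix I' I (A × A)}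
    (hf : Esh j'' j' f) (hg : Esh j' j g) :
    psi j'' j' l f * psi j' j l g = psi j'' j l (f * g) := by
  ext ⟨i'', e''⟩ ⟨i, e⟩
  rw [mul_apply, Fintype.sum_prod_type]
  refine (Finset.sum_congr rfl fun i' _ =>
    v1_key (hf i'' i').2 (hg i' i).1 (hg i' i).2 e'' e).trans ?_
  rw [Finset.sum_ite_irrel, Finset.sum_const_zero, ← map_sum]
  rfl

theorem tau_mul_apply [Fintype I] [DecidableEq I] (ε : Bool) (g : Matrix (I × Bool) K A)
    (x' : I × Bool) (k : K) : (tau A j ε l * g) x' k =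
      if x'.2 = ε then (if j x'.1 = l then g (x'.1, false) k else
        if j x'.1 < l then g (x'.1, ε) k else 0) else 0 := by
  rw [mul_apply, Fintype.sum_prod_type, Finset.sum_eq_single x'.1]
  · obtain ⟨i', e'⟩ := x'
    cases e' <;> cases ε <;> simp only [Fintype.sum_bool, tau, val, ite_mul, one_mul, zero_mul,
      Bool.false_eq_true, Bool.true_eq_false, and_true, and_false, or_true, or_false, true_and,
      false_and, if_true, if_false, add_zero] <;> split_ifs <;>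
      first | omega | simp only [add_zero, zero_add]
  · intro i _ h
    simp only [tau, h.symm, false_and, if_false, zero_mul, Finset.sum_const_zero]
  · exact fun h => absurd (Finset.mem_univ _) h

theorem v1_mul_tau [Fintype I] [DecidableEq I] (ε : Bool) (g : Matrix K (I × Bool) A) (k : K)
    (x : I × Bool) : (g * tau A j ε l) k x =
      if val j l x ∧ (j x.1 = l ∨ x.2 = ε) then g k (x.1, ε) else 0 := by
  rw [mul_apply, Finset.sum_eq_single (x.1, ε)]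
  · simp only [tau, true_and, mul_ite, mul_one, mul_zero]
  · intro y _ h
    rw [tau, if_neg fun c => h (Prod.ext c.1 c.2.1), mul_zero]
  · exact fun h => absurd (Finset.mem_univ _) h

theorem psi_tau [Fintype I] [DecidableEq I] [Fintype I'] [DecidableEq I']
    {f : Matrix I' I (A × A)} (hf : Esh j' j f) (ε : Bool) :
    psi j' j (l + 1) f * tau A j ε l = tau A j' ε l * psi j' j l f := by
  ext ⟨i', e'⟩ ⟨i, e⟩
  rw [v1_mul_tau, tau_mul_apply]
  by_cases c : j i < j' i'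
  · simp only [psi, (hf i' i).2 c, map_zero, ite_self]
  have h := (hf i' i).1
  cases e' <;> cases ε <;> cases e <;> simp only [psi, val, Bool.false_eq_true,
    Bool.true_eq_false, and_true, and_false, or_true, or_false, if_true, if_false] <;>
    split_ifs <;> first | omega | rfl | exact (h (by omega)).symm

theorem tau_tau [Fintype I] [DecidableEq I] {ε ε' : Bool} (h : ε ≠ ε') :
    tau A j ε' (l + 1) * tau A j ε l = 0 := by
  ext x' x
  rw [v1_mul_tau, Matrix.zero_apply]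
  split_ifs with c
  · refine if_neg fun d => d.2.2.2.elim (fun e => ?_) h
    have := c.1
    unfold val at this
    simp only at e
    omega
  · rfl

theorem Blk.psi {I₁ I₂ J₁ J J₂ : Type} {a : Spl I₁ I I₂} {b : Spl J₁ J J₂}
    {f₁ : Matrix I₁ J₁ (A × A)} {f : Matrix I J (A × A)} {f₂ : Matrix I₂ J₂ (A × A)}
    (h : Blk a b f₁ f f₂) (j : I → ℤ) (k : J → ℤ) (l : ℤ) :
    Blk (a.prod Bool) (b.prod Bool) (psi (j ∘ a.l) (k ∘ b.l) l f₁) (psi j k l f)
      (psi (j ∘ a.r) (k ∘ b.r) l f₂) := by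
  refine ⟨?_, ?_, fun x y => ?_⟩
  · rw [h.l]
    rfl
  · rw [h.r]
    rfl
  · simp only [GR.psi, Prod.map_fst, h.z, map_zero, ite_self]

theorem blk_tau {I₁ I₂ : Type} [DecidableEq I₁] [DecidableEq I] [DecidableEq I₂] (a : Spl I₁ I I₂)
    (j : I → ℤ) (ε : Bool) (l : ℤ) : Blk (a.prod Bool) (a.prod Bool) (tau A (j ∘ a.l) ε l)
      (tau A j ε l) (tau A (j ∘ a.r) ε l) := by
  have hi := a.bij.1
  refine ⟨?_, ?_, fun x y => if_neg fun c => ?_⟩
  · ext x y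
    exact if_congr (and_congr (hi.comp Sum.inl_injective).eq_iff.symm Iff.rfl) rfl rfl
  · ext x y
    exact if_congr (and_congr (hi.comp Sum.inr_injective).eq_iff.symm Iff.rfl) rfl rfl
  · exact Sum.inr_ne_inl (hi (a₁ := .inr x.1) (a₂ := .inl y.1) c.1)

end Pool.Agent.MP_f7db47_al.GR

end

section

/-!
Complexes of multicomplexes: views.
-/

namespace Pool.Agent.MP_f7db47_al.GR

open Matrix KN

universe v w

variable {A : Type v} [Ring A] {Λ σ : Type} [DecidableEq σ] {H : Fam A Λ} {X Y : DC A Λ σ}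
  {t : Matrix X.J Y.J A} {τ : σ → Bool → Matrix X.J Y.J A} {s : σ}

omit [DecidableEq σ] in
theorem d1a_blocks {Γ : Type} {G : Fam A Γ} {P Q : Cx A Γ} {u : Matrix P.J Q.J A}
    (h : Ok G (P.ext Q u)) : Ok G P ∧ Ok G Q ∧ Tw G P Q u := by
  have pp := h.pp
  have pD := h.pD
  have Dp := h.Dp
  have DD := h.DD
  simp only [fromBlocks_multiply, Matrix.mul_zero, Matrix.zero_mul, add_zero, zero_add,
    fromBlocks_inj] at pp pD Dp
  rw [← fromBlocks_zero] at DD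
  simp only [fromBlocks_multiply, Matrix.mul_zero, Matrix.zero_mul, add_zero, zero_add,
    fromBlocks_inj] at DD
  exact ⟨⟨h.hp.b11, h.hD.b11, pp.1, pD.1, Dp.1, DD.1⟩,
    ⟨h.hp.b22, h.hD.b22, pp.2.2.2, pD.2.2.2, Dp.2.2.2, DD.2.2.2⟩,
    ⟨h.hD.b12, pD.2.1, Dp.2.1⟩, DD.2.1⟩

theorem d1a_upd {a b : σ → ℤ} {x y : ℤ} :
    Function.update a s x = Function.update b s y ↔ x = y ∧ ∀ s', s' ≠ s → a s' = b s' := by
  rw [Function.update_eq_iff, Function.update_self]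
  exact and_congr_right fun _ => forall₂_congr fun s' hs => by rw [Function.update_of_ne hs]

omit [DecidableEq σ] in
theorem d1a_sg {I J : Type} [DecidableEq I] [DecidableEq J] (u : I ⊕ J → ℤ) :
    sg A u = fromBlocks (sg A fun i => u (.inl i)) 0 0 (sg A fun j => u (.inr j)) := by
  unfold sg
  rw [fromBlocks_diagonal]
  congr 1
  funext j
  cases j <;> rfl

theorem vd_ext (X Y : DC A Λ σ) (t : Matrix X.J Y.J A) (τ : σ → Bool → Matrix X.J Y.J A) (s : σ)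
    (ε : Bool) : (X.ext Y t τ).vd s ε = (X.vd s ε).ext (Y.vd s ε) (τ s ε) := by
  simp only [DC.vd, Cx.ext]
  congr 1
  funext j
  cases j <;> rfl

theorem vT_ext (X Y : DC A Λ σ) (t : Matrix X.J Y.J A) (τ : σ → Bool → Matrix X.J Y.J A) (s : σ)
    (ε : Bool) : (X.ext Y t τ).vT s ε =
      (X.vT s ε).ext (Y.vT s ε) (t * sg A (Y.m s) + τ s ε) := by
  have e : fromBlocks X.D t 0 Y.D * sg A ((X.ext Y t τ).m s) +
      fromBlocks (X.d s ε) (τ s ε) 0 (Y.d s ε) = fromBlocks (X.D * sg A (X.m s) + X.d s ε)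
        (t * sg A (Y.m s) + τ s ε) 0 (Y.D * sg A (Y.m s) + Y.d s ε) := by
    rw [d1a_sg, fromBlocks_multiply, fromBlocks_add]
    simp only [Matrix.mul_zero, Matrix.zero_mul, add_zero, zero_add]
    rfl
  simp only [DC.vT, Cx.ext]
  congr 1
  funext j
  cases j <;> rfl

/-- Maps that preserve the multidegree and the degree, seen from direction `s`. -/
theorem hm_vd {f : Matrix X.J Y.J A} (h : Hm (grF _ H) 0 X.t Y.t f) (s : σ) (ε : Bool) :
    Hm (grF _ H) 0 (X.vd s ε).t (Y.vd s ε).t f := fun i j =>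
  ⟨⟨(h i j).1.1, fun e => d1a_upd.2 ⟨((h i j).2 e).trans (add_zero _),
    fun s' _ => congrFun ((h i j).1.2 e) s'⟩⟩,
    fun e => (congrFun ((h i j).1.2 e) s).trans (add_zero _).symm⟩

theorem hm_vd_iff {f : Matrix X.J Y.J A} {d : ℤ} {ε : Bool} :
    Hm (grF _ H) d (X.vd s ε).t (Y.vd s ε).t f ↔ ∀ i j, f i j ∈ H (X.t i).1.1 (Y.t j).1.1 ∧
      (f i j ≠ 0 → X.c i = Y.c j ∧ X.m s i = Y.m s j + d ∧ ∀ s', s' ≠ s → X.m s' i = Y.m s' j) :=
  ⟨fun h i j => ⟨(h i j).1.1, fun e => ⟨(d1a_upd.1 ((h i j).1.2 e)).1, (h i j).2 e,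
      (d1a_upd.1 ((h i j).1.2 e)).2⟩⟩,
    fun h i j => ⟨⟨(h i j).1, fun e => d1a_upd.2 ⟨((h i j).2 e).1, ((h i j).2 e).2.2⟩⟩,
      fun e => ((h i j).2 e).2.1⟩⟩

theorem hm_vT_iff {f : Matrix X.J Y.J A} {d : ℤ} {ε : Bool} :
    Hm (grF _ H) d (X.vT s ε).t (Y.vT s ε).t f ↔ ∀ i j, f i j ∈ H (X.t i).1.1 (Y.t j).1.1 ∧
      (f i j ≠ 0 → X.c i + X.m s i = Y.c j + Y.m s j + d ∧ ∀ s', s' ≠ s → X.m s' i = Y.m s' j) :=
  ⟨fun h i j => ⟨(h i j).1.1, fun e => ⟨(h i j).2 e, (d1a_upd.1 ((h i j).1.2 e)).2⟩⟩,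
    fun h i j => ⟨⟨(h i j).1, fun e => d1a_upd.2 ⟨rfl, ((h i j).2 e).2⟩⟩,
      fun e => ((h i j).2 e).1⟩⟩

theorem d1a_vT {f : Matrix X.J Y.J A} {d : ℤ} (h : Hm (grF _ H) d X.t Y.t f) (s : σ) (ε : Bool) :
    Hm (grF _ H) d (X.vT s ε).t (Y.vT s ε).t f :=
  hm_vT_iff.2 fun i j => ⟨(h i j).1.1, fun e => ⟨by
    have h1 : X.c i = Y.c j + d := (h i j).2 e
    have h2 : X.m s i = Y.m s j := congrFun ((h i j).1.2 e) s
    omega, fun s' _ => congrFun ((h i j).1.2 e) s'⟩⟩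

theorem d1a_vdT {f : Matrix X.J Y.J A} {d : ℤ} {ε : Bool}
    (h : Hm (grF _ H) d (X.vd s ε).t (Y.vd s ε).t f) :
    Hm (grF _ H) d (X.vT s ε).t (Y.vT s ε).t f :=
  hm_vT_iff.2 fun i j => ⟨(hm_vd_iff.1 h i j).1, fun e => by
    obtain ⟨h1, h2, h3⟩ := (hm_vd_iff.1 h i j).2 e
    exact ⟨by omega, h3⟩⟩

theorem DOk.vT (h : DOk H X) (s : σ) (ε : Bool) : Ok (grF _ H) (X.vT s ε) := by
  have cp : sg A (X.m s) * X.p = X.p * sg A (X.m s) :=
    sg_comm fun i j e => congrFun ((h.ok.hp i j).1.2 e) s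
  have cD : sg A (X.m s) * X.D = X.D * sg A (X.m s) :=
    sg_comm fun i j e => congrFun ((h.ok.hD i j).1.2 e) s
  have cd : sg A (X.m s) * X.d s ε = -(X.d s ε * sg A (X.m s)) :=
    sg_anti fun i j e => Or.inr (((h.okd s ε).hD i j).2 e)
  have pd : X.p * X.d s ε = X.d s ε := (h.okd s ε).pD
  have dp : X.d s ε * X.p = X.d s ε := (h.okd s ε).Dp
  have dd : X.d s ε * X.d s ε = 0 := (h.okd s ε).DD
  refine ⟨d1a_vT h.ok.hp s ε, (hm_mul_sg (d1a_vT h.ok.hD s ε) _).add (d1a_vdT (h.okd s ε).hD),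
    h.ok.pp, ?_, ?_, ?_⟩
  · change X.p * (X.D * sg A (X.m s) + X.d s ε) = X.D * sg A (X.m s) + X.d s ε
    rw [Matrix.mul_add, ← Matrix.mul_assoc, h.ok.pD, pd]
  · change (X.D * sg A (X.m s) + X.d s ε) * X.p = X.D * sg A (X.m s) + X.d s ε
    rw [Matrix.add_mul, Matrix.mul_assoc, cp, ← Matrix.mul_assoc, h.ok.Dp, dp]
  · change (X.D * sg A (X.m s) + X.d s ε) * (X.D * sg A (X.m s) + X.d s ε) = 0
    have e1 : X.D * sg A (X.m s) * (X.D * sg A (X.m s)) = 0 := by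
      rw [Matrix.mul_assoc, ← Matrix.mul_assoc (sg A (X.m s)), cD, ← Matrix.mul_assoc,
        ← Matrix.mul_assoc, h.ok.DD, Matrix.zero_mul, Matrix.zero_mul]
    have e2 : X.D * sg A (X.m s) * X.d s ε = -(X.d s ε * (X.D * sg A (X.m s))) := by
      rw [Matrix.mul_assoc, cd, Matrix.mul_neg, ← Matrix.mul_assoc, h.cm, Matrix.mul_assoc]
    rw [Matrix.add_mul, Matrix.mul_add, Matrix.mul_add, e1, e2, dd, zero_add, add_zero,
      neg_add_cancel]

theorem DOk.mono {H' : Fam A Λ} (h : DOk H X) (hH : H ≤ H') : DOk H' X :=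
  ⟨h.ok.mono (gr_mono _ hH), fun s ε => (h.okd s ε).mono (gr_mono _ hH), h.cm, h.cd⟩

theorem d1a_sh {f : Matrix X.J Y.J A} {d : ℤ} {ε : Bool}
    (h : Hm (grF _ H) d (X.vd s ε).t (Y.vd s ε).t f) :
    Hm (grF _ H) d (X.sh.vd s ε).t (Y.sh.vd s ε).t f :=
  (hm_vd_iff (X := X.sh) (Y := Y.sh)).2 fun i j => ⟨(hm_vd_iff.1 h i j).1, fun e => by
    obtain ⟨h1, h2, h3⟩ := (hm_vd_iff.1 h i j).2 e
    exact ⟨congrArg (· + 1) h1, h2, h3⟩⟩

theorem DOk.sh (h : DOk H X) : DOk H X.sh :=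
  ⟨h.ok.sh 1, fun s ε => ⟨d1a_sh (h.okd s ε).hp, d1a_sh (h.okd s ε).hD, (h.okd s ε).pp,
    (h.okd s ε).pD, (h.okd s ε).Dp, (h.okd s ε).DD⟩, fun s ε => by
      change -X.D * X.d s ε = X.d s ε * -X.D
      rw [Matrix.neg_mul, Matrix.mul_neg, h.cm], h.cd⟩

theorem DOk.blocks (h : DOk H (X.ext Y t τ)) : DOk H X ∧ DOk H Y ∧ Tw (grF _ H) X.toCx Y.toCx t ∧
    ∀ s ε, Tw (grF _ H) (X.vd s ε) (Y.vd s ε) (τ s ε) ∧
      Tw (grF _ H) (X.vT s ε) (Y.vT s ε) (t * sg A (Y.m s) + τ s ε) := by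
  have b0 := d1a_blocks h.ok
  have b1 := fun s ε => d1a_blocks (vd_ext X Y t τ s ε ▸ h.okd s ε)
  have b2 := fun s ε => d1a_blocks (vT_ext X Y t τ s ε ▸ h.vT s ε)
  have cm : ∀ s ε, X.D * X.d s ε = X.d s ε * X.D ∧ Y.D * Y.d s ε = Y.d s ε * Y.D := fun s ε => by
    have e := h.cm s ε
    simp only [fromBlocks_multiply, Matrix.mul_zero, Matrix.zero_mul, add_zero, zero_add,
      fromBlocks_inj] at e
    exact ⟨e.1, e.2.2.2⟩
  have cd : ∀ s s' ε ε', s ≠ s' → X.d s ε * X.d s' ε' = X.d s' ε' * X.d s ε ∧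
      Y.d s ε * Y.d s' ε' = Y.d s' ε' * Y.d s ε := fun s s' ε ε' hs => by
    have e := h.cd s s' ε ε' hs
    simp only [fromBlocks_multiply, Matrix.mul_zero, Matrix.zero_mul, add_zero, zero_add,
      fromBlocks_inj] at e
    exact ⟨e.1, e.2.2.2⟩
  exact ⟨⟨b0.1, fun s ε => (b1 s ε).1, fun s ε => (cm s ε).1,
      fun s s' ε ε' hs => (cd s s' ε ε' hs).1⟩,
    ⟨b0.2.1, fun s ε => (b1 s ε).2.1, fun s ε => (cm s ε).2,
      fun s s' ε ε' hs => (cd s s' ε ε' hs).2⟩, b0.2.2,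
    fun s ε => ⟨(b1 s ε).2.2, (b2 s ε).2.2⟩⟩

theorem DOk.ext (hX : DOk H X) (hY : DOk H Y) (ht : Tw (grF _ H) X.toCx Y.toCx t)
    (hτ : ∀ s ε, Tw (grF _ H) (X.vd s ε) (Y.vd s ε) (τ s ε))
    (h1 : ∀ s ε, X.D * τ s ε + t * Y.d s ε = X.d s ε * t + τ s ε * Y.D)
    (h2 : ∀ s s' ε ε', s ≠ s' →
      X.d s ε * τ s' ε' + τ s ε * Y.d s' ε' = X.d s' ε' * τ s ε + τ s' ε' * Y.d s ε) :
    DOk H (X.ext Y t τ) := by
  refine ⟨hX.ok.ext hY.ok ht, fun s ε => ?_, fun s ε => ?_, fun s s' ε ε' hs => ?_⟩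
  · rw [vd_ext]
    exact (hX.okd s ε).ext (hY.okd s ε) (hτ s ε)
  · simp only [fromBlocks_multiply, Matrix.mul_zero, Matrix.zero_mul, add_zero, zero_add]
    rw [hX.cm, hY.cm, h1]
  · simp only [fromBlocks_multiply, Matrix.mul_zero, Matrix.zero_mul, add_zero, zero_add]
    rw [hX.cd s s' ε ε' hs, hY.cd s s' ε ε' hs, h2 s s' ε ε' hs]

theorem DOk.cone {f : Matrix Y.J X.J A} (hY : DOk H Y) (hX : DOk H X) (hf : DMap H Y X f) :
    DOk H (Y.cone X f) :=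
  hY.ext hX.sh hf.ch.tw (fun _ _ => Tw.zero _ _) (fun s ε => by
      simp only [Pi.zero_apply, Matrix.mul_zero, Matrix.zero_mul, add_zero, zero_add]
      exact (hf.cm s ε).symm)
    fun _ _ _ _ _ => by simp only [Pi.zero_apply, Matrix.mul_zero, Matrix.zero_mul]

omit [DecidableEq σ] in
theorem tri_ext (X Y : DC A Λ σ) (t : Matrix X.J Y.J A) (τ : σ → Bool → Matrix X.J Y.J A) :
    Tri X (X.ext Y t τ) Y (Spl.sum _ _) :=
  ⟨⟨fun _ => rfl, fun _ => rfl, ⟨rfl, rfl, fun _ _ => rfl⟩, ⟨rfl, rfl, fun _ _ => rfl⟩⟩,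
    fun _ _ => ⟨rfl, rfl, fun _ _ => rfl⟩⟩

end Pool.Agent.MP_f7db47_al.GR

end

section

/-!
Alternating words.
-/

namespace Pool.Agent.MP_f7db47_al.GR

open Matrix KN

universe v w

variable {n b : ℕ}

theorem v2_sum {K : Type} [Fintype K] (P Q : K → Prop) [DecidablePred P] [DecidablePred Q]
    (R : Prop) [Decidable R] (hu : ∀ x y, P x → Q x → P y → Q y → x = y)
    (hR : R ↔ ∃ x, P x ∧ Q x) :
    ∑ x, (if P x then (1 : ℤ) else 0) * (if Q x then 1 else 0) = if R then 1 else 0 := by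
  by_cases h : R
  · obtain ⟨x, h1, h2⟩ := hR.1 h
    rw [if_pos h, Finset.sum_eq_single x, if_pos h1, if_pos h2, mul_one]
    · intro y _ hy
      split_ifs with a c
      exacts [absurd (hu y x a c h1 h2) hy, mul_zero _, zero_mul _, zero_mul _]
    · exact fun e => absurd (Finset.mem_univ x) e
  · rw [if_neg h]
    refine Finset.sum_eq_zero fun y _ => ?_
    split_ifs with a c
    exacts [absurd (hR.2 ⟨y, a, c⟩) h, mul_zero _, zero_mul _, zero_mul _]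

theorem v2_kk {κ κ' : KK n} (h1 : κ.l = κ'.l) (h2 : κ.r = κ'.r) (h3 : κ.e = κ'.e) : κ = κ' :=
  Subtype.ext (Prod.ext h1 (Prod.ext h2 h3))

theorem v2_ww {κ κ' : WW b} (h1 : κ.h = κ'.h) (h2 : κ.r = κ'.r) (h3 : κ.e = κ'.e) : κ = κ' :=
  Subtype.ext (Prod.ext h1 (Prod.ext h2 h3))

theorem v2_lst (r : ℕ) (e : Bool) : lst (r + 1) e = lst r (!e) := by
  by_cases h : Even r <;> simp [lst, Nat.even_add_one, h]

theorem v2_lst' (r : ℕ) (e : Bool) : lst (r + 1) e = !lst r e := by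
  by_cases h : Even r <;> simp [lst, Nat.even_add_one, h]

theorem v2_nz {r r' : ℕ} (h : r = r' + 1) (e : Bool) : nz r e = e := if_neg (by omega)

theorem Ek_ne {e : Bool} {κ' κ : KK n} (h : Ek n e κ' κ ≠ 0) :
    κ.r = κ'.r + 1 ∧ κ.e = e ∧ κ'.l = κ.l + 1 ∧ κ'.e = nz κ'.r (!e) :=
  by_contra fun c => h (if_neg c)

theorem Ed_ne {ε : Bool} {κ' κ : KK n} (h : Ed n ε κ' κ ≠ 0) :
    κ.r = κ'.r + 1 ∧ lst κ.r κ.e = ε ∧ κ'.l = κ.l ∧ κ'.e = nz κ'.r κ.e :=
  by_contra fun c => h (if_neg c)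

theorem Ek_Ek (e : Bool) : Ek n e * Ek n e = 0 := by
  ext a c
  refine Finset.sum_eq_zero fun x _ => by_contra fun h => ?_
  obtain ⟨h1, h2, -⟩ := Ek_ne (left_ne_zero_of_mul h)
  obtain ⟨-, -, -, h3⟩ := Ek_ne (right_ne_zero_of_mul h)
  rw [v2_nz h1, h2] at h3
  simp at h3

theorem Ed_Ed (ε : Bool) : Ed n ε * Ed n ε = 0 := by
  ext a c
  refine Finset.sum_eq_zero fun x _ => by_contra fun h => ?_
  obtain ⟨h1, h2, -⟩ := Ed_ne (left_ne_zero_of_mul h)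
  obtain ⟨h3, h4, -, h5⟩ := Ed_ne (right_ne_zero_of_mul h)
  rw [v2_nz h1] at h5
  rw [h3, v2_lst', ← h5, h2] at h4
  simp at h4

theorem Ek_Ed (e ε : Bool) : Ek n e * Ed n ε = Ed n ε * Ek n e := by
  ext a c
  obtain ⟨c1, c2, -⟩ := c.2
  refine (v2_sum _ _ (c.r = a.r + 2 ∧ c.e = e ∧ lst c.r c.e = ε ∧ a.l = c.l + 1 ∧
    a.e = nz a.r (!e)) ?_ ⟨?_, ?_⟩).trans (v2_sum _ _ _ ?_ ⟨?_, ?_⟩).symm
  · rintro x y ⟨h1, h2, h3, -⟩ - ⟨h4, h5, h6, -⟩ -
    exact v2_kk (by omega) (h1.trans h4.symm) (h2.trans h5.symm)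
  · rintro ⟨h1, h2, h3, h4, h5⟩
    exact ⟨⟨(c.l, a.r + 1, e), c1, by change c.l + (c.r : ℤ) ≤ n at c2; push_cast; omega,
      fun h => absurd h (Nat.succ_ne_zero _)⟩, ⟨rfl, rfl, h4, h5⟩, h1, h3, rfl,
      h2.symm.trans (v2_nz rfl _).symm⟩
  · rintro ⟨x, ⟨h1, h2, h3, h4⟩, h5, h6, h7, h8⟩
    rw [v2_nz h1] at h8
    exact ⟨by omega, h8.symm.trans h2, h6, by omega, h4⟩
  · rintro x y ⟨h1, -⟩ ⟨-, -, h2, h3⟩ ⟨h4, -⟩ ⟨-, -, h5, h6⟩
    rw [v2_nz h1] at h3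
    rw [v2_nz h4] at h6
    exact v2_kk (h2.trans h5.symm) (h1.trans h4.symm) (h3.trans h6.symm)
  · rintro ⟨h1, h2, h3, h4, h5⟩
    rw [h1, h2, v2_lst] at h3
    exact ⟨⟨(c.l + 1, a.r + 1, !e), by change -(n : ℤ) ≤ c.l at c1; omega,
      by change c.l + (c.r : ℤ) ≤ n at c2; push_cast; omega,
      fun h => absurd h (Nat.succ_ne_zero _)⟩, ⟨rfl, h3, h4, h5⟩, h1, h2, rfl,
      (v2_nz rfl _).symm⟩
  · rintro ⟨x, ⟨h1, h2, h3, h4⟩, h5, h6, h7, h8⟩
    rw [v2_nz h1] at h8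
    rw [h8] at h2 h4
    exact ⟨by omega, h6, by rw [h5, h6, v2_lst, h2], by omega, h4⟩

theorem Ew_ne {ε : Bool} {κ' κ : WW b} (h : Ew b ε κ' κ ≠ 0) :
    κ'.h = κ.h ∧ κ'.r = κ.r + 1 ∧ (κ.r = 0 ∨ κ.e ≠ ε) ∧ (κ'.r = κ'.h ∨ κ'.e = ε) :=
  by_contra fun c => h (if_neg c)

theorem Ew_Ew (ε : Bool) : Ew b ε * Ew b ε = 0 := by
  ext a c
  refine Finset.sum_eq_zero fun x _ => by_contra fun h => ?_
  obtain ⟨h1, h2, h3, -⟩ := Ew_ne (left_ne_zero_of_mul h)
  obtain ⟨-, h4, -, h5⟩ := Ew_ne (right_ne_zero_of_mul h)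
  have h6 : a.r ≤ a.h := a.2.2.2.1
  rcases h3 with h3 | h3
  · omega
  · exact h5.elim (by omega) h3

theorem v2_src {ε : Bool} {x y : WW b} (h1 : x.h = y.h) (h2 : x.r = y.r)
    (h3 : x.r = 0 ∨ x.e ≠ ε) (h4 : y.r = 0 ∨ y.e ≠ ε) : x = y := by
  refine v2_ww h1 h2 ?_
  by_cases h : x.r = 0
  · exact (x.2.2.2.2 (.inl h)).trans (y.2.2.2.2 (.inl (h2.symm.trans h))).symm
  · exact (Bool.eq_not.2 (h3.resolve_left h)).trans
      (Bool.eq_not.2 (h4.resolve_left (h2 ▸ h))).symm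

theorem v2_tgt {ε : Bool} {x y : WW b} (h1 : x.h = y.h) (h2 : x.r = y.r)
    (h3 : x.r = x.h ∨ x.e = ε) (h4 : y.r = y.h ∨ y.e = ε) : x = y := by
  refine v2_ww h1 h2 ?_
  by_cases h : x.r = x.h
  · exact (x.2.2.2.2 (.inr h)).trans (y.2.2.2.2 (.inr (h2.symm.trans (h.trans h1)))).symm
  · exact (h3.resolve_left h).trans (h4.resolve_left fun e => h (h2.trans (e.trans h1.symm))).symm

theorem Ew_contr (ε : Bool) : Ew b ε * (Ew b ε)ᵀ + (Ew b ε)ᵀ * Ew b ε = 1 := by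
  ext a c
  obtain ⟨a1, a2, a3, -⟩ := a.2
  change 1 ≤ a.h at a1
  change a.h ≤ b at a2
  change a.r ≤ a.h at a3
  have e1 : (Ew b ε * (Ew b ε)ᵀ) a c =
      if a = c ∧ a.r ≠ 0 ∧ (a.r = a.h ∨ a.e = ε) then 1 else 0 := by
    refine v2_sum _ _ _ ?_ ⟨?_, ?_⟩
    · rintro x y ⟨h1, h2, h3, -⟩ - ⟨h4, h5, h6, -⟩ -
      exact v2_src (h1.symm.trans h4) (by omega) h3 h6
    · rintro ⟨rfl, h1, h2⟩
      refine ⟨⟨(a.h, a.r - 1, nz (a.r - 1) (!ε)), a1, a2, by dsimp only; omega,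
        fun h => if_pos (by dsimp only at h; omega)⟩, and_self_iff.2 ⟨rfl, ?_, ?_, h2⟩⟩
      · exact (Nat.sub_add_cancel (by omega)).symm
      · exact (em (a.r - 1 = 0)).imp_right fun h => by
          change nz _ _ ≠ ε
          simp [nz, h]
    · rintro ⟨x, ⟨h1, h2, -, h3⟩, h4, h5, -, h6⟩
      exact ⟨v2_tgt (h1.trans h4.symm) (h2.trans h5.symm) h3 h6, by omega, h3⟩
  have e2 : ((Ew b ε)ᵀ * Ew b ε) a c =
      if a = c ∧ a.r ≠ a.h ∧ (a.r = 0 ∨ a.e ≠ ε) then 1 else 0 := by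
    refine v2_sum _ _ _ ?_ ⟨?_, ?_⟩
    · rintro x y ⟨h1, h2, -, h3⟩ - ⟨h4, h5, -, h6⟩ -
      exact v2_tgt (h1.trans h4.symm) (h2.trans h5.symm) h3 h6
    · rintro ⟨rfl, h1, h2⟩
      exact ⟨⟨(a.h, a.r + 1, if a.r + 1 = a.h then false else ε), a1, a2, by dsimp only; omega,
        fun h => if_pos (by dsimp only at h; omega)⟩, and_self_iff.2 ⟨rfl, rfl, h2,
          (em (a.r + 1 = a.h)).imp_right fun h => if_neg h⟩⟩
    · rintro ⟨x, ⟨h1, h2, h3, -⟩, h4, h5, h6, -⟩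
      have h7 : x.r ≤ x.h := x.2.2.2.1
      exact ⟨v2_src (h1.symm.trans h4) (by omega) h3 h6, by omega, h3⟩
  rw [Matrix.add_apply, e1, e2, one_apply]
  by_cases h : a = c
  · by_cases h1 : a.r = 0
    · rw [if_neg (by tauto), if_pos ⟨h, by omega, .inl h1⟩, if_pos h, zero_add]
    · by_cases h2 : a.r = a.h ∨ a.e = ε
      · rw [if_pos ⟨h, h1, h2⟩, if_neg (by tauto), if_pos h, add_zero]
      · rw [if_neg (by tauto), if_pos (by tauto), if_pos h, zero_add]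
  · rw [if_neg (by tauto), if_neg (by tauto), if_neg h, add_zero]

section Wrd

variable {A : Type v} [Ring A] {I : Type} [Fintype I] {p : Matrix I I A} {d : Bool → Matrix I I A}

theorem wrd_succ' (hp : ∀ e, p * d e = d e) (hp' : ∀ e, d e * p = d e) (r : ℕ) (e : Bool) :
    wrd p d (r + 1) e = wrd p d r e * d (lst (r + 1) e) := by
  induction r generalizing e with
  | zero => exact (hp' e).trans (hp e).symm
  | succ r ih => rw [wrd, ih, v2_lst (r + 1), ← Matrix.mul_assoc, wrd]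

theorem wrd_comm {f : Matrix I I A} (hp : f * p = p * f) (hd : ∀ e, f * d e = d e * f) (r : ℕ)
    (e : Bool) : f * wrd p d r e = wrd p d r e * f := by
  induction r generalizing e with
  | zero => exact hp
  | succ r ih => rw [wrd, ← Matrix.mul_assoc, hd, Matrix.mul_assoc, ih, Matrix.mul_assoc]

theorem p_wrd (hp : p * p = p) (hd : ∀ e, p * d e = d e) (r : ℕ) (e : Bool) :
    p * wrd p d r e = wrd p d r e := by
  cases r
  · exact hp
  · rw [wrd, ← Matrix.mul_assoc, hd]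

theorem wrd_p (hp : p * p = p) (r : ℕ) (e : Bool) : wrd p d r e * p = wrd p d r e := by
  induction r generalizing e with
  | zero => exact hp
  | succ r ih => rw [wrd, Matrix.mul_assoc, ih]

theorem d_wrd (hd : ∀ e, d e * d e = 0) (r : ℕ) (e : Bool) : d e * wrd p d (r + 1) e = 0 := by
  rw [wrd, ← Matrix.mul_assoc, hd, Matrix.zero_mul]

theorem wrd_d (hp : ∀ e, p * d e = d e) (hp' : ∀ e, d e * p = d e) (hd : ∀ e, d e * d e = 0)
    (r : ℕ) (e : Bool) : wrd p d (r + 1) e * d (lst (r + 1) e) = 0 := by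
  rw [wrd_succ' hp hp', Matrix.mul_assoc, hd, Matrix.mul_zero]

theorem wrd_map {δ : A →+* A} (hp : p.map δ = p) (hd : ∀ e, (d e).map δ = d e) (r : ℕ) (e : Bool) :
    (wrd p d r e).map δ = wrd p d r e := by
  induction r generalizing e with
  | zero => exact hp
  | succ r ih => rw [wrd, Matrix.map_mul, hd, ih]

end Wrd

/-- The entries of a word in the differentials of direction `s`. -/
theorem wrd_ent {A : Type v} [Ring A] {Λ σ : Type} [DecidableEq σ] {H : Fam A Λ} (hH : LR H)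
    {X : DC A Λ σ} (hX : DOk H X) (s : σ) (r : ℕ) (e : Bool) (i j : X.J) :
    wrd X.p (X.d s) r e i j ∈ H (X.t i).1.1 (X.t j).1.1 ∧ (wrd X.p (X.d s) r e i j ≠ 0 →
      X.c i = X.c j ∧ X.m s i + r = X.m s j ∧ ∀ s', s' ≠ s → X.m s' i = X.m s' j) := by
  have h : Hm (grF _ H) (-r) (X.vd s false).t (X.vd s false).t (wrd X.p (X.d s) r e) := by
    induction r generalizing e with
    | zero => exact (hX.okd s false).hp
    | succ r ih => exact (hX.okd s e).hD.mul (lr_gr _ hH) (ih _) (by omega)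
  obtain ⟨h1, h2⟩ := hm_vd_iff.1 h i j
  exact ⟨h1, fun c => ⟨(h2 c).1, by have := (h2 c).2.1; omega, (h2 c).2.2⟩⟩

end Pool.Agent.MP_f7db47_al.GR

end

section

/-!
The Koszul dual is a complex of multicomplexes.
-/

namespace Pool.Agent.MP_f7db47_al.GR

open Matrix KN

universe v w

variable {A : Type v} [Ring A] {Λ σ : Type} [DecidableEq σ] {H : Fam A Λ} {n : ℕ}
  {Y' Y Y'' : DC (A × A) (Λ × ℤ) σ}

theorem v3a_one {κ' κ : KK n} (h : (1 : Matrix (KK n) (KK n) ℤ) κ' κ ≠ 0) : κ' = κ :=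
  by_contra fun c => h (Matrix.one_apply_ne c)

/-- Patterns that preserve the level. -/
def v3a_LP (E : Matrix (KK n) (KK n) ℤ) : Prop := ∀ κ' κ, E κ' κ ≠ 0 → κ'.l = κ.l

theorem v3a_lp1 : v3a_LP (1 : Matrix (KK n) (KK n) ℤ) := fun _ _ h => by rw [v3a_one h]

theorem v3a_lpd (ε : Bool) : v3a_LP (Ed n ε) := fun _ _ h => (Ed_ne h).2.2.1

theorem v3a_mul {I I' I'' : Type} [Fintype I'] {j : I → ℤ} {j' : I' → ℤ} {j'' : I'' → ℤ}
    {f : Matrix I'' I' (A × A)} {g : Matrix I' I (A × A)} (hf : Esh j'' j' f) (hg : Esh j' j g)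
    (E' : Matrix (KK n) (KK n) ℤ) {E : Matrix (KK n) (KK n) ℤ} (hE : v3a_LP E) :
    (kr E' fun κ => psi j'' j' κ.l f) * (kr E fun κ => psi j' j κ.l g) =
      kr (E' * E) fun κ => psi j'' j κ.l (f * g) :=
  kr_mul E' fun κ' κ h => by rw [hE κ' κ h, psi_mul hf hg]

omit [DecidableEq σ] in
theorem vm_mul {I I' I'' : Type} [Fintype I'] {j : I → ℤ} {j' : I' → ℤ} {j'' : I'' → ℤ}
    {f : Matrix I'' I' (A × A)} {g : Matrix I' I (A × A)} (hf : Esh j'' j' f) (hg : Esh j' j g) :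
    vm n j'' j' f * vm n j' j g = vm n j'' j (f * g) := by
  rw [vm, vm, v3a_mul hf hg 1 v3a_lp1, Matrix.one_mul, vm]

theorem v3a_vm0 {I I' : Type} {j : I → ℤ} {j' : I' → ℤ} :
    vm n j' j (0 : Matrix I' I (A × A)) = 0 := by
  simp only [vm, psi_zero, kr_zero']

omit [DecidableEq σ] in
theorem v3a_kl {f : Matrix Y.J Y.J (A × A)} (hp : Esh (lw Y) (lw Y) Y.p)
    (hf : Esh (lw Y) (lw Y) f) {E : Matrix (KK n) (KK n) ℤ} (hE : v3a_LP E) :
    vk n Y * (kr E fun κ => psi (lw Y) (lw Y) κ.l f) =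
      ∑ e, kr (Ek n e * E) fun κ => tau A (lw Y) e κ.l * psi (lw Y) (lw Y) κ.l (Y.p * f) := by
  rw [vk, Finset.sum_mul]
  exact Finset.sum_congr rfl fun e _ => kr_mul _ fun κ' κ h => by
    rw [hE κ' κ h, Matrix.mul_assoc, psi_mul hp hf]

omit [DecidableEq σ] in
theorem v3a_kr {f : Matrix Y.J Y.J (A × A)} (hp : Esh (lw Y) (lw Y) Y.p)
    (hf : Esh (lw Y) (lw Y) f) (E : Matrix (KK n) (KK n) ℤ) :
    (kr E fun κ => psi (lw Y) (lw Y) κ.l f) * vk n Y =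
      ∑ e, kr (E * Ek n e) fun κ => tau A (lw Y) e κ.l * psi (lw Y) (lw Y) κ.l (f * Y.p) := by
  rw [vk, Finset.mul_sum]
  exact Finset.sum_congr rfl fun e _ => kr_mul _ fun κ' κ h => by
    rw [(Ek_ne h).2.2.1, ← Matrix.mul_assoc, psi_tau hf, Matrix.mul_assoc, psi_mul hf hp]

omit [DecidableEq σ] in
theorem vk_vm {f : Matrix Y.J Y.J (A × A)} (hp : Esh (lw Y) (lw Y) Y.p) (hf : Esh (lw Y) (lw Y) f)
    (h : f * Y.p = Y.p * f) : vk n Y * vm n (lw Y) (lw Y) f = vm n (lw Y) (lw Y) f * vk n Y := by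
  rw [vm, v3a_kl hp hf v3a_lp1, v3a_kr hp hf, h]
  simp only [Matrix.one_mul, Matrix.mul_one]

omit [DecidableEq σ] in
theorem v3a_kk (hp : Esh (lw Y) (lw Y) Y.p) : vk n Y * vk n Y = 0 := by
  rw [vk, Finset.sum_mul_sum]
  refine Finset.sum_eq_zero fun e' _ => Finset.sum_eq_zero fun e _ => ?_
  rw [kr_mul (D := fun κ => tau A (lw Y) e' (κ.l + 1) * tau A (lw Y) e κ.l *
    (psi (lw Y) (lw Y) κ.l Y.p * psi (lw Y) (lw Y) κ.l Y.p)) _ fun κ' κ h => by
      rw [(Ek_ne h).2.2.1, Matrix.mul_assoc, ← Matrix.mul_assoc (psi _ _ _ _), psi_tau hp]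
      simp only [Matrix.mul_assoc]]
  by_cases c : e = e'
  · rw [c, Ek_Ek, kr_zero]
  · simp only [tau_tau c, Matrix.zero_mul, kr_zero']

theorem v3a_sg {I : Type} [Fintype I] [DecidableEq I] {E : Matrix (KK n) (KK n) ℤ} (hE : v3a_LP E)
    (B : KK n → Matrix I I A) :
    sg A (fun x : I × KK n => x.2.l) * kr E B = kr E B * sg A fun x : I × KK n => x.2.l :=
  sg_comm fun _ _ h => hE _ _ (kr_ne h).1

omit [DecidableEq σ] in
theorem v3a_sgk : sg A (fun x : (Y.J × Bool) × KK n => x.2.l) * vk n Y =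
    -(vk n Y * sg A fun x : (Y.J × Bool) × KK n => x.2.l) := by
  rw [vk, Finset.mul_sum, Finset.sum_mul, ← Finset.sum_neg_distrib]
  exact Finset.sum_congr rfl fun e _ => sg_anti fun _ _ h => Or.inl (Ek_ne (kr_ne h).1).2.2.1

/-- The entries of `B` are controlled by those of `f`. -/
def v3a_En (H : Fam A Λ) (Y : DC (A × A) (Λ × ℤ) σ) (f : Matrix Y.J Y.J (A × A))
    (B : Matrix (Y.J × Bool) (Y.J × Bool) A) : Prop :=
  ∀ x' x, B x' x ∈ H (Y.t x'.1).1.1.1 (Y.t x.1).1.1.1 ∧ (B x' x ≠ 0 → f x'.1 x.1 ≠ 0)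

omit [DecidableEq σ] in
theorem v3a_psi {f : Matrix Y.J Y.J (A × A)} (hf : ∀ i' i, f i' i ∈ eF H (Y.t i').1.1 (Y.t i).1.1)
    (l : ℤ) : v3a_En H Y f (psi (lw Y) (lw Y) l f) := fun x' x => by
  refine ⟨?_, fun h => (psi_ne h).1⟩
  unfold psi
  split_ifs
  · rcases x' with ⟨i, _ | _⟩
    exacts [(hf _ _).1, (hf _ _).2.1]
  · exact zero_mem _

omit [DecidableEq σ] in
theorem v3a_tau {f : Matrix Y.J Y.J (A × A)} {B : Matrix (Y.J × Bool) (Y.J × Bool) A}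
    (h : v3a_En H Y f B) (e : Bool) (l : ℤ) : v3a_En H Y f (tau A (lw Y) e l * B) := fun x' x => by
  rw [tau_mul_apply]
  split_ifs
  exacts [h (x'.1, false) x, h (x'.1, e) x, ⟨zero_mem _, fun c => absurd rfl c⟩,
    ⟨zero_mem _, fun c => absurd rfl c⟩]

omit [DecidableEq σ] in
theorem v3a_ent {f : Matrix Y.J Y.J (A × A)} {B : KK n → Matrix (Y.J × Bool) (Y.J × Bool) A}
    (h : ∀ κ, v3a_En H Y f (B κ)) (E : Matrix (KK n) (KK n) ℤ) (x' x : (Y.J × Bool) × KK n) :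
    kr E B x' x ∈ H (Y.t x'.1.1).1.1.1 (Y.t x.1.1).1.1.1 ∧
      (kr E B x' x ≠ 0 → E x'.2 x.2 ≠ 0 ∧ f x'.1.1 x.1.1 ≠ 0) :=
  ⟨zsmul_mem (h _ _ _).1 _, fun c => ⟨(kr_ne c).1, (h _ _ _).2 (kr_ne c).2⟩⟩

omit [DecidableEq σ] in
theorem v3a_hm {d d' : ℤ} {f : Matrix Y.J Y.J (A × A)} (hf : Hm (grF _ (eF H)) d Y.t Y.t f)
    {B : KK n → Matrix (Y.J × Bool) (Y.J × Bool) A} (h : ∀ κ, v3a_En H Y f (B κ))
    {E : Matrix (KK n) (KK n) ℤ}
    (hE : ∀ κ' κ, E κ' κ ≠ 0 → κ'.l + κ'.r = κ.l + κ.r ∧ κ'.l + d' = κ.l + d) :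
    Hm (grF _ H) d' (VV n Y).t (VV n Y).t (kr E B) := fun x' x => by
  obtain ⟨h1, h2⟩ := v3a_ent h E x' x
  refine ⟨⟨h1, fun c => funext fun s => ?_⟩, fun c => ?_⟩
  · rcases s with _ | s
    exacts [(hE _ _ (h2 c).1).1, congrFun ((hf _ _).1.2 (h2 c).2) s]
  · have h3 := (hf _ _).2 (h2 c).2
    have h4 := (hE _ _ (h2 c).1).2
    simp only [DC.c]
    omega

omit [DecidableEq σ] in
theorem hm_vm {d : ℤ} {f : Matrix Y.J Y.J (A × A)} (hf : Hm (grF _ (eF H)) d Y.t Y.t f) :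
    Hm (grF _ H) d (VV n Y).t (VV n Y).t (vm n (lw Y) (lw Y) f) :=
  v3a_hm hf (fun _ => v3a_psi (fun i' i => (hf i' i).1.1) _) fun _ _ h => by
    rw [v3a_one h]
    exact ⟨rfl, rfl⟩

omit [DecidableEq σ] in
/-- A matrix that commutes with the three constituents of the differential. -/
theorem v3a_cm {g : Matrix ((Y.J × Bool) × KK n) ((Y.J × Bool) × KK n) A}
    (h1 : vm n (lw Y) (lw Y) Y.D * g = g * vm n (lw Y) (lw Y) Y.D) (h2 : vk n Y * g = g * vk n Y)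
    (h3 : sg A (fun x : (Y.J × Bool) × KK n => x.2.l) * g = g * sg A fun x => x.2.l) :
    (VV n Y).D * g = g * (VV n Y).D := by
  simp only
  rw [Matrix.mul_assoc, h3, ← Matrix.mul_assoc, Matrix.add_mul, h1, h2, ← Matrix.mul_add,
    Matrix.mul_assoc]

omit [DecidableEq σ] in
theorem vv_okc (hY : Ok (grF _ (eF H)) Y.toCx) (n : ℕ) : Ok (grF _ H) (VV n Y).toCx := by
  have ep : Esh (lw Y) (lw Y) Y.p := esh_of hY.hp
  have eD : Esh (lw Y) (lw Y) Y.D := esh_of hY.hD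
  have pD : (VV n Y).p * (VV n Y).D = (VV n Y).D := by
    have h1 : vm n (lw Y) (lw Y) Y.p * vk n Y = vk n Y :=
      (v3a_kr ep ep 1).trans (by simp only [hY.pp, Matrix.one_mul, vk])
    simp only
    rw [← Matrix.mul_assoc, Matrix.mul_add, vm_mul ep eD, hY.pD, h1]
  refine ⟨hm_vm hY.hp, hm_mul_sg ((hm_vm hY.hD).add (Hm.sum _ fun e _ => v3a_hm hY.hp
    (fun _ => v3a_tau (v3a_psi (fun i' i => (hY.hp i' i).1.1) _) _ _) fun _ _ h => ?_)) _,
    (vm_mul ep ep).trans (by rw [hY.pp]), pD, (v3a_cm ?_ (vk_vm ep ep rfl) ?_).trans pD, ?_⟩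
  · obtain ⟨h1, -, h2, -⟩ := Ek_ne h
    omega
  · rw [vm_mul ep eD, vm_mul eD ep, hY.pD, hY.Dp]
  · exact v3a_sg v3a_lp1 _
  · have h1 : vm n (lw Y) (lw Y) Y.D * vm n (lw Y) (lw Y) Y.D = 0 := by
      rw [vm_mul eD eD, hY.DD, v3a_vm0]
    have h2 := vk_vm (n := n) ep eD (hY.Dp.trans hY.pD.symm)
    have h3 : sg A (fun x : (Y.J × Bool) × KK n => x.2.l) * vm n (lw Y) (lw Y) Y.D =
      vm n (lw Y) (lw Y) Y.D * sg A fun x => x.2.l := v3a_sg v3a_lp1 _
    simp only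
    rw [Matrix.mul_assoc, ← Matrix.mul_assoc (sg A _), Matrix.mul_add (sg A _), h3, v3a_sgk,
      ← sub_eq_add_neg, ← Matrix.sub_mul, ← Matrix.mul_assoc, ← Matrix.mul_assoc, Matrix.mul_sub,
      Matrix.add_mul, Matrix.add_mul, h1, h2, v3a_kk ep, zero_add, add_zero, sub_self,
      Matrix.zero_mul, Matrix.zero_mul]

theorem vv_ok (hY : DOk (eF H) Y) (n : ℕ) : DOk H (VV n Y) := by
  have h0 := vv_okc hY.ok n
  have ep : Esh (lw Y) (lw Y) Y.p := esh_of hY.ok.hp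
  have eD : Esh (lw Y) (lw Y) Y.D := esh_of hY.ok.hD
  have ed : ∀ s ε, Esh (lw Y) (lw Y) (Y.d s ε) := fun s ε =>
    esh_of (s := (Y.vd s ε).t) (t := (Y.vd s ε).t) (hY.okd s ε).hD
  have pd : ∀ s ε, Y.p * Y.d s ε = Y.d s ε := fun s ε => (hY.okd s ε).pD
  have dp : ∀ s ε, Y.d s ε * Y.p = Y.d s ε := fun s ε => (hY.okd s ε).Dp
  have cE : ∀ ε f, Esh (lw Y) (lw Y) f → f * Y.p = Y.p * f →
      vm n (lw Y) (lw Y) f * (VV n Y).d none ε = (VV n Y).d none ε * vm n (lw Y) (lw Y) f :=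
    fun ε f hf h => (v3a_mul hf ep 1 (v3a_lpd ε)).trans <| Eq.trans
      (by rw [Matrix.one_mul, Matrix.mul_one, h]) (v3a_mul ep hf _ v3a_lp1).symm
  refine ⟨h0, ?_, ?_, ?_⟩
  · rintro (_ | s) ε
    · have pD : (VV n Y).p * (VV n Y).d none ε = (VV n Y).d none ε :=
        (v3a_mul ep ep 1 (v3a_lpd ε)).trans (by rw [Matrix.one_mul, hY.ok.pp]; rfl)
      refine ⟨hm_vd h0.hp _ _, hm_vd_iff.2 fun x' x => ?_, h0.pp, pD,
        (cE ε _ ep rfl).symm.trans pD, (v3a_mul ep ep _ (v3a_lpd ε)).trans (by rw [Ed_Ed, kr_zero])⟩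
      obtain ⟨h1, h2⟩ := v3a_ent (fun κ => v3a_psi (fun i' i => (hY.ok.hp i' i).1.1) κ.l)
        (Ed n ε) x' x
      refine ⟨h1, fun c => ?_⟩
      obtain ⟨h3, -, h4, -⟩ := Ed_ne (h2 c).1
      have h5 := (hY.ok.hp _ _).2 (h2 c).2
      refine ⟨?_, ?_, ?_⟩
      · simp only [DC.c]
        omega
      · simp only [DC.m, Option.elim]
        omega
      · rintro (_ | s') hs
        exacts [absurd rfl hs, congrFun ((hY.ok.hp _ _).1.2 (h2 c).2) s']
    · have hd := hm_vd_iff.1 (hY.okd s ε).hD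
      refine ⟨hm_vd h0.hp _ _, hm_vd_iff.2 fun x' x => ?_, h0.pp,
        (vm_mul ep (ed s ε)).trans (by rw [pd]; rfl), (vm_mul (ed s ε) ep).trans (by rw [dp]; rfl),
        (vm_mul (ed s ε) (ed s ε)).trans (by rw [(hY.okd s ε).DD, v3a_vm0])⟩
      obtain ⟨h1, h2⟩ := v3a_ent (fun κ => v3a_psi (fun i' i => (hd i' i).1) κ.l)
        (1 : Matrix (KK n) (KK n) ℤ) x' x
      refine ⟨h1, fun c => ?_⟩
      have h3 := v3a_one (h2 c).1
      obtain ⟨h4, h5, h6⟩ := (hd _ _).2 (h2 c).2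
      refine ⟨?_, h5, ?_⟩
      · simp only [DC.c] at h4 ⊢
        rw [h3, h4]
      · rintro (_ | s') hs
        · simp only [DC.m, Option.elim]
          rw [h3]
        · exact h6 s' fun e => hs (congrArg some e)
  · rintro (_ | s) ε
    · refine v3a_cm (cE ε _ eD (hY.ok.Dp.trans hY.ok.pD.symm)) ?_
        (v3a_sg (n := n) (v3a_lpd ε) fun κ => psi (lw Y) (lw Y) κ.l Y.p)
      refine (v3a_kl ep ep (v3a_lpd ε)).trans (Eq.trans ?_ (v3a_kr ep ep _).symm)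
      simp only [Ek_Ed]
    · exact v3a_cm ((vm_mul eD (ed s ε)).trans <| Eq.trans (by rw [hY.cm])
        (vm_mul (ed s ε) eD).symm) (vk_vm ep (ed s ε) ((dp s ε).trans (pd s ε).symm))
        (v3a_sg (n := n) v3a_lp1 fun κ => psi (lw Y) (lw Y) κ.l (Y.d s ε))
  · rintro (_ | s) (_ | s') ε ε' hs
    · exact absurd rfl hs
    · exact (cE ε _ (ed s' ε') ((dp _ _).trans (pd _ _).symm)).symm
    · exact cE ε' _ (ed s ε) ((dp _ _).trans (pd _ _).symm)
    · exact (vm_mul (ed s ε) (ed s' ε')).trans <| Eq.trans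
        (by rw [hY.cd s s' ε ε' fun e => hs (congrArg some e)]) (vm_mul (ed s' ε') (ed s ε)).symm

end Pool.Agent.MP_f7db47_al.GR

end

section

/-!
Properties of the Koszul dual.
-/

namespace Pool.Agent.MP_f7db47_al.GR

open Matrix KN

universe v w

variable {A : Type v} [Ring A] {Λ σ : Type} [DecidableEq σ] {H : Fam A Λ} {n : ℕ}
  {Y' Y Y'' : DC (A × A) (Λ × ℤ) σ}

section Aux

variable {I I' : Type} {j : I → ℤ} {j' : I' → ℤ}

theorem v3_ne {f : Matrix I' I (A × A)} {x' : (I' × Bool) × KK n} {x : (I × Bool) × KK n}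
    (h : vm n j' j f x' x ≠ 0) : x'.2 = x.2 ∧ f x'.1.1 x.1.1 ≠ 0 :=
  ⟨by_contra fun c => (kr_ne h).1 (one_apply_ne c), (psi_ne (kr_ne h).2).1⟩

theorem v3_add (f g : Matrix I' I (A × A)) : vm n j' j f + vm n j' j g = vm n j' j (f + g) := by
  simp only [vm, kr_add, psi_add]

theorem v3_smul (w : A) (f : Matrix I' I (A × A)) :
    vm n j' j ((w, w) • f) = w • vm n j' j f := by
  simp only [vm, kr_smul, psi_smul]

theorem v3_psi {δ : A →+* A} {f : Matrix I' I (A × A)} (h : f.map (RingHom.prodMap δ δ) = f)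
    (l : ℤ) : (psi j' j l f).map δ = psi j' j l f := by
  rw [← psi_map, h]

theorem v3_map {δ : A →+* A} {f : Matrix I' I (A × A)} (h : f.map (RingHom.prodMap δ δ) = f) :
    (vm n j' j f).map δ = vm n j' j f := by
  simp only [vm, kr_map, v3_psi h]

theorem v3_tau [DecidableEq I] (δ : A →+* A) (ε : Bool) (l : ℤ) :
    (tau A j ε l).map δ = tau A j ε l := by
  ext x y
  simp only [map_apply, tau, apply_ite δ, map_one, map_zero]

theorem v3_sg [DecidableEq I] (δ : A →+* A) (u : I → ℤ) : (sg A u).map δ = sg A u := by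
  ext x y
  simp only [map_apply, sg, diagonal_apply, apply_ite δ, map_intCast, map_zero]

end Aux

omit [DecidableEq σ] in
theorem vv_nul (hH : LR H) (hY : Ok (grF _ (eF H)) Y.toCx) {w : A} (hw : Sc H w)
    (h : Nul (grF _ (eF H)) (w, w) Y.toCx) (n : ℕ) : Nul (grF _ H) w (VV n Y).toCx := by
  obtain ⟨s, s1, s2⟩ := Nul.sand (lr_gr _ (lr_e hH)) hY (sc_e hw).1 h
  refine ⟨sg A (fun x => x.2.l) * vm n (lw Y) (lw Y) s, hm_sg_mul (hm_vm s1.hm) _, ?_⟩
  have e1 : ∀ f, sg A (fun x : (Y.J × Bool) × KK n => x.2.l) * vm n (lw Y) (lw Y) f =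
      vm n (lw Y) (lw Y) f * sg A fun x => x.2.l := fun f =>
    sg_comm fun x y c => by rw [(v3_ne c).1]
  have e2 : sg A (fun x : (Y.J × Bool) × KK n => x.2.l) * vk n Y =
      -(vk n Y * sg A fun x => x.2.l) := sg_anti fun x y c => by
    rw [vk, Matrix.sum_apply] at c
    obtain ⟨e, -, c⟩ := Finset.exists_ne_zero_of_sum_ne_zero c
    exact Or.inl (Ek_ne (kr_ne c).1).2.2.1
  have e3 := vk_vm (n := n) (esh_of hY.hp) (esh_of s1.hm) (s1.pr.trans s1.pl.symm)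
  have e4 := sg_sg (A := A) fun x : (Y.J × Bool) × KK n => x.2.l
  change (vm n (lw Y) (lw Y) Y.D + vk n Y) * _ * _ + _ * ((vm n (lw Y) (lw Y) Y.D + vk n Y) * _) =
    w • vm n (lw Y) (lw Y) Y.p
  rw [← v3_smul, ← s2, ← v3_add, ← vm_mul (esh_of hY.hD) (esh_of s1.hm),
    ← vm_mul (esh_of s1.hm) (esh_of hY.hD), Matrix.mul_assoc, ← Matrix.mul_assoc (sg A _), e4,
    Matrix.one_mul, e1, Matrix.mul_assoc, ← Matrix.mul_assoc (sg A _), Matrix.mul_add (sg A _), e1,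
    e2, Matrix.add_mul, Matrix.add_mul, Matrix.neg_mul, Matrix.mul_assoc, Matrix.mul_assoc, e4,
    Matrix.mul_one, Matrix.mul_one, Matrix.mul_add, Matrix.mul_neg, e3]
  abel

theorem vv_ac (hY : DOk (eF H) Y) {s : σ} (h : Ac (eF H) Y s) (n : ℕ) :
    Ac H (VV n Y) (some s) := fun ε => by
  obtain ⟨k, k1, k2⟩ := h ε
  refine ⟨vm n (lw Y) (lw Y) k, hm_vd_iff.2 fun x y =>
    ⟨(hm_vm (n := n) (Y := ⟨Y.vd s ε, Y.d⟩) k1 x y).1.1, fun c => ?_⟩, ?_⟩
  · obtain ⟨c1, c2⟩ := v3_ne c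
    obtain ⟨d1, d2, d3⟩ := (hm_vd_iff.1 k1 _ _).2 c2
    refine ⟨?_, d2, ?_⟩
    · change Y.c x.1.1 - x.2.l = Y.c y.1.1 - y.2.l
      rw [c1, d1]
    · rintro (_ | s') hs
      · change x.2.l + x.2.r = y.2.l + y.2.r
        rw [c1]
      · exact d3 s' fun e => hs (congrArg some e)
  · have e : Esh (lw Y) (lw Y) (Y.d s ε) := esh_of (s := (Y.vd s ε).t) (t := (Y.vd s ε).t)
      (hY.okd s ε).hD
    have e' : Esh (lw Y) (lw Y) k := esh_of (s := (Y.vd s ε).t) (t := (Y.vd s ε).t) k1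
    rw [one_smul] at k2 ⊢
    exact (congrArg₂ (· + ·) (vm_mul e e') (vm_mul e' e)).trans
      ((v3_add _ _).trans (congrArg (vm n (lw Y) (lw Y)) k2))

omit [DecidableEq σ] in
theorem vv_fix {δ : A →+* A} (h : DFix (RingHom.prodMap δ δ) Y) (n : ℕ) : DFix δ (VV n Y) := by
  refine ⟨⟨v3_map h.1.1, ?_⟩, ?_⟩
  · change ((vm n (lw Y) (lw Y) Y.D + vk n Y) * _).map δ = (vm n (lw Y) (lw Y) Y.D + vk n Y) * _
    simp only [vk, Fintype.sum_bool, Matrix.map_mul, Matrix.map_add _ (map_add δ), v3_sg,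
      v3_map h.1.2, kr_map, v3_tau, v3_psi h.1.1]
  · rintro (_ | s) ε
    · exact (kr_map δ _ _).trans (congrArg _ (funext fun κ => v3_psi h.1.1 _))
    · exact v3_map (h.2 s ε)

omit [DecidableEq σ] in
theorem vv_tri {a : Spl Y'.J Y.J Y''.J} (h : Tri Y' Y Y'' a) (n : ℕ) :
    Tri (VV n Y') (VV n Y) (VV n Y'') ((a.prod Bool).prod (KK n)) := by
  have e1 : lw Y' = lw Y ∘ a.l := funext fun i => congrArg (·.1.1.2) (h.c.tl i)
  have e2 : lw Y'' = lw Y ∘ a.r := funext fun i => congrArg (·.1.1.2) (h.c.tr i)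
  have b1 : ∀ {f' f} {f'' : Matrix _ _ (A × A)}, Blk a a f' f f'' → ∀ l, Blk (a.prod Bool) (a.prod Bool)
      (psi (lw Y') (lw Y') l f') (psi (lw Y) (lw Y) l f) (psi (lw Y'') (lw Y'') l f'') :=
    fun k l => e1 ▸ e2 ▸ k.psi _ _ l
  have b2 : ∀ ε l, Blk (a.prod Bool) (a.prod Bool) (tau A (lw Y') ε l) (tau A (lw Y) ε l)
      (tau A (lw Y'') ε l) := fun ε l => e1 ▸ e2 ▸ blk_tau a _ ε l
  refine ⟨⟨fun x => ?_, fun x => ?_, Blk.kr _ fun κ => b1 h.c.p _,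
    ((Blk.kr _ fun κ => b1 h.c.D _).add (Blk.finsum _ fun e _ =>
      Blk.kr _ fun κ => (b2 _ _).mul (b1 h.c.p _))).mul
      (blk_sg _ (fun _ => rfl) fun _ => rfl)⟩, ?_⟩
  · simp only [DC.c, h.c.tl, Prod.map_fst, Prod.map_snd, id]
  · simp only [DC.c, h.c.tr, Prod.map_fst, Prod.map_snd, id]
  · rintro (_ | s) ε
    · exact Blk.kr _ fun κ => b1 h.c.p _
    · exact Blk.kr _ fun κ => b1 (h.d s ε) _

end Pool.Agent.MP_f7db47_al.GR

end

section

/-!
The Koszul dual is equivalent to the associated graded complex.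
-/

namespace Pool.Agent.MP_f7db47_al.GR

open Matrix KN

universe v w

variable {A : Type v} [Ring A] {Λ σ : Type} {H : Fam A Λ} {n : ℕ} {Y : DC (A × A) (Λ × ℤ) σ}

section Rel

variable {I J K : Type} {R : I → J → Prop}

open Classical in
/-- The matrix of a relation. -/
noncomputable def v4_rel (A : Type v) [Ring A] (R : I → J → Prop) : Matrix I J A :=
  fun i j => if R i j then 1 else 0

theorem v4_ne {i : I} {j : J} (h : v4_rel A R i j ≠ 0) : R i j := by_contra fun e => h (if_neg e)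

variable [Fintype J] {f : Matrix J K A}

theorem v4_row {i : I} {j : J} (h : R i j) (u : ∀ j', R i j' → j' = j) (k : K) :
    (v4_rel A R * f) i k = f j k := by
  rw [mul_apply, Finset.sum_eq_single j (fun j' _ e => by
    rw [v4_rel, if_neg fun c => e (u j' c), zero_mul]) (by simp), v4_rel, if_pos h, one_mul]

theorem v4_row0 {i : I} (h : ∀ j, ¬R i j) (k : K) : (v4_rel A R * f) i k = 0 :=
  Finset.sum_eq_zero fun j _ => mul_eq_zero_of_left (if_neg (h j)) _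

theorem v4_hm {d d' e : ℤ} {s : I → Λ × ℤ} {t : J → Λ × ℤ} {u : K → Λ × ℤ} (h : Hm H d t u f)
    (hR : ∀ x z, R x z → (s x).1 = (t z).1 ∧ (s x).2 = (t z).2 + d') (he : e = d' + d) :
    Hm H e s u (v4_rel A R * f) := fun i k => by
  rw [mul_apply]
  refine ⟨sum_mem fun j _ => ?_, fun e0 => ?_⟩
  · rw [v4_rel]
    split_ifs with c
    · rw [one_mul, (hR _ _ c).1]
      exact (h j k).1
    · rw [zero_mul]
      exact zero_mem _
  · obtain ⟨j, -, hj⟩ := Finset.exists_ne_zero_of_sum_ne_zero e0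
    have h1 := (hR _ _ (v4_ne (left_ne_zero_of_mul hj))).2
    have h2 := (h j k).2 (right_ne_zero_of_mul hj)
    omega

theorem v4_sq [DecidableEq I] (h1 : ∀ i j j', R i j → R i j' → j' = j)
    (h2 : ∀ i i' j, R i j → R i' j → i' = i) :
    v4_rel A R * v4_rel A (fun j i => R i j) = ind A {i | ∃ j, R i j} := by
  classical
  ext i i'
  rw [ind, diagonal_apply]
  by_cases h : ∃ j, R i j
  · obtain ⟨j, hj⟩ := h
    rw [v4_row hj fun _ => h1 _ _ _ hj, v4_rel, if_pos (show i ∈ {i | ∃ j, R i j} from ⟨j, hj⟩)]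
    exact if_congr ⟨fun c => (h2 _ _ _ hj c).symm, fun c => c ▸ hj⟩ rfl rfl
  · rw [v4_row0 fun j c => h ⟨j, c⟩, if_neg (show i ∉ {i | ∃ j, R i j} from h), ite_self]

end Rel

theorem v4_ring {R : Type v} [Ring R] {S P a K s π : R} (SS : S * S = 1) (SP : S * P = P * S)
    (Sa : S * a = a * S) (Ss : S * s = -(s * S)) (SK : S * K = -(K * S)) (PP : P * P = P)
    (Pa : P * a = a) (aP : a * P = a) (PK : P * K = K * P) (hE : (K * s + s * K + π) * P = P) :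
    (a + K * P) * S * (S * (P * (s * P))) + S * (P * (s * P)) * ((a + K * P) * S) + P * π * P - P =
      a * (s * P) - P * (s * a) := by
  have e1 : (a + K * P) * S * (S * (P * (s * P))) = a * (s * P) + P * K * s * P := by
    linear_combination (norm := noncomm_ring) (a + K * P) * SS * (P * (s * P)) + aP * (s * P) +
      K * PP * (s * P) - PK * (s * P)
  have e2 : S * P * ((a + K * P) * S) = a - K * P := by
    linear_combination (norm := noncomm_ring) S * Pa * S + Sa * S + a * SS + S * PK * P * S +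
      S * K * PP * S + SK * P * S - K * SP * S - K * P * SS
  linear_combination (norm := noncomm_ring) e1 + SP * s * P * ((a + K * P) * S) +
    P * Ss * P * ((a + K * P) * S) - P * s * e2 + P * hE + PP

/-- The diagonal part of the first branch. -/
abbrev v4_g (Y : DC (A × A) (Λ × ℤ) σ) (f : Matrix Y.J Y.J (A × A)) : Matrix Y.J Y.J A :=
  dg0 (lw Y) (lw Y) (f.map (br A false))

theorem v4_gne {f : Matrix Y.J Y.J (A × A)} (i j : Y.J) (h : v4_g Y f i j ≠ 0) :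
    lw Y i = lw Y j := by_contra fun e => h (if_neg e)

theorem v4_gmul {f g : Matrix Y.J Y.J (A × A)} (hf : Esh (lw Y) (lw Y) f)
    (hg : Esh (lw Y) (lw Y) g) : v4_g Y f * v4_g Y g = v4_g Y (f * g) := by
  have low : ∀ {f : Matrix Y.J Y.J (A × A)}, Esh (lw Y) (lw Y) f →
      Low (lw Y) (lw Y) (f.map (br A false)) := fun h i j e =>
    not_lt.1 fun c => e (by rw [map_apply, (h i j).2 c, map_zero])
  rw [← dg0_mul (low hf) (low hg), ← Matrix.map_mul]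

theorem v4_ghm {d : ℤ} {f : Matrix Y.J Y.J (A × A)} (hf : Hm (grF _ (eF H)) d Y.t Y.t f) :
    Hm (grF _ H) d (GG Y).t (GG Y).t (v4_g Y f) := fun i j => by
  by_cases c : v4_g Y f i j = 0
  · exact ⟨c ▸ zero_mem _, fun e => absurd c e⟩
  have e := v4_gne i j c
  have e1 : v4_g Y f i j = (f i j).1 := if_pos e
  have e2 : f i j ≠ 0 := fun z => c (by rw [e1, z, Prod.fst_zero])
  have e3 := (hf i j).2 e2
  refine ⟨⟨e1 ▸ (hf i j).1.1.1, fun _ => ?_⟩, fun _ => ?_⟩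
  · simp only [e, (hf i j).1.2 e2]
  · simp only [DC.c]
    omega

theorem gg_ok (hY : Ok (grF _ (eF H)) Y.toCx) : Ok (grF _ H) (GG Y) := by
  have hp := esh_of hY.hp
  have hD := esh_of hY.hD
  refine ⟨v4_ghm hY.hp, hm_mul_sg (v4_ghm hY.hD) _, ?_, ?_, ?_, ?_⟩
  · rw [v4_gmul hp hp, hY.pp]
  · rw [← Matrix.mul_assoc, v4_gmul hp hD, hY.pD]
  · rw [Matrix.mul_assoc, sg_comm v4_gne, ← Matrix.mul_assoc, v4_gmul hD hp, hY.Dp]
  · rw [Matrix.mul_assoc, ← Matrix.mul_assoc (sg _ _), sg_comm v4_gne, ← Matrix.mul_assoc,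
      ← Matrix.mul_assoc, v4_gmul hD hD, hY.DD]
    have : v4_g Y 0 = 0 := by
      ext i j
      simp [dg0]
    rw [this, Matrix.zero_mul, Matrix.zero_mul]

/-- The lowest basis elements. -/
def v4_R0 (n : ℕ) (Y : DC (A × A) (Λ × ℤ) σ) (i : Y.J) (x : (Y.J × Bool) × KK n) : Prop :=
  x.1.1 = i ∧ x.1.2 = false ∧ x.2.r = 0 ∧ x.2.l = lw Y i

/-- Removal of the first letter. -/
def v4_R (n : ℕ) (Y : DC (A × A) (Λ × ℤ) σ) (x' x : (Y.J × Bool) × KK n) : Prop :=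
  (x.2.r = x'.2.r + 1 ∧ x'.2.l = x.2.l + 1 ∧ x'.2.e = nz x'.2.r (!x.2.e)) ∧ x'.1.1 = x.1.1 ∧
    x'.1.2 = x.2.e ∧ val (lw Y) x.2.l x.1 ∧ (lw Y x.1.1 = x.2.l ∨ x.1.2 = x.2.e)

theorem v4_ext {I : Type} {x y : (I × Bool) × KK n} (h1 : x.1.1 = y.1.1) (h2 : x.1.2 = y.1.2)
    (h3 : x.2.l = y.2.l) (h4 : x.2.r = y.2.r) (h5 : x.2.e = y.2.e) : x = y :=
  Prod.ext (Prod.ext h1 h2) (Subtype.ext (Prod.ext h3 (Prod.ext h4 h5)))

theorem v4_u0 (i : Y.J) (x y : (Y.J × Bool) × KK n) (h : v4_R0 n Y i x) (h' : v4_R0 n Y i y) :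
    y = x := v4_ext (h'.1.trans h.1.symm) (h'.2.1.trans h.2.1.symm) (h'.2.2.2.trans h.2.2.2.symm)
      (h'.2.2.1.trans h.2.2.1.symm) ((y.2.2.2.2 h'.2.2.1).trans (x.2.2.2.2 h.2.2.1).symm)

theorem v4_e0 (hL : Lw n Y) (i : Y.J) : ∃ x, v4_R0 n Y i x :=
  ⟨((i, false), ⟨(lw Y i, 0, false), (hL i).1, by simpa using (hL i).2, fun _ => rfl⟩),
    rfl, rfl, rfl, rfl⟩

theorem v4_col (g : Matrix Y.J Y.J A) (i : Y.J) (x : (Y.J × Bool) × KK n) :
    (g * v4_rel A (v4_R0 n Y)) i x =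
      if x.1.2 = false ∧ x.2.r = 0 ∧ x.2.l = lw Y x.1.1 then g i x.1.1 else 0 := by
  rw [mul_apply, Finset.sum_eq_single x.1.1 (fun j _ e => by
    rw [v4_rel, if_neg fun c => e c.1.symm, mul_zero]) (by simp)]
  simp [v4_rel, v4_R0]

theorem v4_bet : bet n Y = v4_g Y Y.p * v4_rel A (v4_R0 n Y) := by
  ext i x
  rw [v4_col, bet, v4_g, dg0, ← ite_and]
  exact if_congr ⟨fun ⟨a, b, c, d⟩ => ⟨⟨d, a, b.trans c.symm⟩, c.symm⟩,
    fun ⟨⟨d, a, b⟩, c⟩ => ⟨a, b.trans c.symm, c.symm, d⟩⟩ rfl rfl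

theorem v4_pi (hL : Lw n Y) {f : Matrix Y.J Y.J (A × A)} (hf : Esh (lw Y) (lw Y) f) :
    v4_rel A (v4_R0 n Y) * vm n (lw Y) (lw Y) f = v4_g Y f * v4_rel A (v4_R0 n Y) := by
  ext i x
  obtain ⟨y, hy⟩ := v4_e0 hL i
  rw [v4_row hy fun _ => v4_u0 _ _ _ hy, v4_col, v4_g, dg0, ← ite_and, vm, kr, one_apply, psi,
    ite_smul, one_smul, zero_smul, ← ite_and, hy.2.1, hy.1, map_apply]
  obtain ⟨a1, a2, a3, a4⟩ := hy
  by_cases z : f i x.1.1 = 0
  · simp [z]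
  have hl : lw Y i ≤ lw Y x.1.1 := not_lt.1 fun c => z ((hf _ _).2 c)
  refine if_congr ⟨fun ⟨b1, _, b3, _⟩ => ?_, fun ⟨⟨b1, b2, b3⟩, b4⟩ => ?_⟩ rfl rfl
  · rw [← b1, a4] at b3
    rw [← b1, a4]
    rcases b3 with b3 | b3
    · omega
    · exact ⟨⟨b3.2, a3, b3.1.symm⟩, b3.1.symm⟩
  · have e : x.2.l = y.2.l := by rw [a4, b3, b4]
    exact ⟨Subtype.ext (Prod.ext e.symm (Prod.ext (a3.trans b2.symm)
      ((y.2.2.2.2 a3).trans (x.2.2.2.2 b2).symm))), Or.inr ⟨by rw [a1, b3, b4], a2⟩,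
      Or.inr ⟨b3.symm, b1⟩, Or.inl b3.symm⟩

theorem v4_K : v4_rel A (v4_R n Y) = ∑ e, kr (Ek n e) fun κ => tau A (lw Y) e κ.l := by
  classical
  ext x' x
  rw [Matrix.sum_apply, Finset.sum_eq_single x.2.e (fun e _ c => by
    rw [kr, Ek, if_neg fun z => c z.2.1.symm, zero_smul]) (by simp)]
  simp only [v4_rel, v4_R, kr, Ek, tau, true_and, ite_smul, one_smul, zero_smul, ← ite_and]
  congr

theorem v4_vk (hp : Esh (lw Y) (lw Y) Y.p) :
    vk n Y = v4_rel A (v4_R n Y) * vm n (lw Y) (lw Y) Y.p ∧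
      vk n Y = vm n (lw Y) (lw Y) Y.p * v4_rel A (v4_R n Y) := by
  rw [v4_K, Finset.sum_mul, Finset.mul_sum, vk, vm]
  refine ⟨Finset.sum_congr rfl fun e _ => ?_, Finset.sum_congr rfl fun e _ => ?_⟩
  · rw [kr_mul (D := fun κ => tau A (lw Y) e κ.l * psi (lw Y) (lw Y) κ.l Y.p) _ fun κ' κ h => by
      rw [by_contra fun c : κ' ≠ κ => h (one_apply_ne c)], Matrix.mul_one]
  · rw [kr_mul (D := fun κ => tau A (lw Y) e κ.l * psi (lw Y) (lw Y) κ.l Y.p) _ fun κ' κ h => by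
      rw [(Ek_ne h).2.2.1, psi_tau hp], Matrix.one_mul]

theorem v4_vne {f : Matrix Y.J Y.J (A × A)} {x y : (Y.J × Bool) × KK n}
    (h : vm n (lw Y) (lw Y) f x y ≠ 0) : x.2 = y.2 ∧ val (lw Y) x.2.l x.1 := by
  have e : x.2 = y.2 := by_contra fun c => (kr_ne h).1 (one_apply_ne c)
  exact ⟨e, e ▸ (psi_ne (kr_ne h).2).2.1⟩

theorem bet_ch (hY : Ok (grF _ (eF H)) Y.toCx) (hL : Lw n Y) :
    Ch (grF _ H) (GG Y) (VV n Y).toCx (bet n Y) := by
  have hp := esh_of hY.hp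
  have hD := esh_of hY.hD
  have hG := gg_ok hY
  have e := v4_bet.trans (v4_pi (n := n) hL hp).symm
  refine ⟨⟨?_, ?_, ?_⟩, ?_⟩
  · rw [e]
    refine v4_hm (hm_vm hY.hp) (d' := 0) (fun i x h => ?_) rfl
    simp only [h.1, h.2.2.1, h.2.2.2, Nat.cast_zero, add_zero, and_self]
  · rw [v4_bet, ← Matrix.mul_assoc, hG.pp]
  · rw [e, Matrix.mul_assoc, vm_mul hp hp, hY.pp]
  · have z : v4_rel A (v4_R0 n Y) * v4_rel A (v4_R n Y) = 0 := by
      ext i x
      obtain ⟨y, hy⟩ := v4_e0 hL i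
      rw [v4_row hy fun _ => v4_u0 _ _ _ hy]
      refine if_neg fun ⟨⟨_, a1, _⟩, a2, _, a3, _⟩ => ?_
      rw [hy.2.2.2, ← hy.1, a2] at a1
      rcases a3 with a3 | a3 <;> omega
    have e2 := (vv_okc hY n).pD
    rw [v4_bet, ← Matrix.mul_assoc, hG.Dp, ← v4_pi hL hp, Matrix.mul_assoc _ _ (VV n Y).D, e2,
      ← Matrix.mul_assoc, Matrix.mul_add, (v4_vk hp).1, ← Matrix.mul_assoc, z, Matrix.zero_mul,
      add_zero, v4_pi hL hD, Matrix.mul_assoc, Matrix.mul_assoc,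
      sg_comm fun i x h => (v4_ne h).2.2.2.symm]

theorem v4_u1 (x' x y : (Y.J × Bool) × KK n) (h : v4_R n Y x' x) (h' : v4_R n Y x' y) : y = x := by
  obtain ⟨⟨a1, a2, -⟩, a4, a5, a6, a7⟩ := h
  obtain ⟨⟨b1, b2, -⟩, b4, b5, b6, b7⟩ := h'
  have e1 := b4.symm.trans a4
  have e2 : y.2.l = x.2.l := by omega
  have e3 := b5.symm.trans a5
  refine v4_ext e1 ?_ e2 (by omega) e3
  rw [val, e1, e2] at b6
  rw [e1, e2, e3] at b7
  rcases a6 with a6 | a6
  · exact (b7.resolve_left a6.ne).trans (a7.resolve_left a6.ne).symm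
  · exact (b6.resolve_left a6.1.not_lt).2.trans a6.2.symm

theorem v4_u2 (x' y x : (Y.J × Bool) × KK n) (h : v4_R n Y x' x) (h' : v4_R n Y y x) : y = x' := by
  obtain ⟨⟨a1, a2, a3⟩, a4, a5, -⟩ := h
  obtain ⟨⟨b1, b2, b3⟩, b4, b5, -⟩ := h'
  have e : y.2.r = x'.2.r := by omega
  exact v4_ext (b4.trans a4.symm) (b5.trans a5.symm) (by omega) e (by rw [a3, b3, e])

theorem v4_d1 (hL : Lw n Y) (x : (Y.J × Bool) × KK n) : (∃ y, v4_R n Y x y) ↔
    lw Y x.1.1 < x.2.l ∧ (x.2.r = 0 ∨ x.2.e ≠ x.1.2) := by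
  constructor
  · rintro ⟨y, ⟨-, a2, a3⟩, a4, a5, a6, -⟩
    refine ⟨by rw [a4]; rcases a6 with a6 | a6 <;> omega, or_iff_not_imp_left.2 fun c => ?_⟩
    rw [a3, a5, nz, if_neg c]
    exact Bool.not_ne_self _
  · rintro ⟨a1, a2⟩
    have h1 := (hL x.1.1).1
    have h2 : x.2.l + x.2.r ≤ n := x.2.2.2.1
    refine ⟨((x.1.1, if lw Y x.1.1 < x.2.l - 1 then x.1.2 else false),
      ⟨(x.2.l - 1, x.2.r + 1, x.1.2), by simp only; omega, by simp only; omega, by simp⟩),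
      ⟨rfl, (sub_add_cancel _ _).symm, ?_⟩, rfl, rfl, ?_, ?_⟩
    · by_cases c : x.2.r = 0
      exacts [(x.2.2.2.2 c).trans (if_pos c).symm,
        (Bool.eq_not_iff.2 (a2.resolve_left c)).trans (if_neg c).symm]
    · by_cases c : lw Y x.1.1 < x.2.l - 1
      exacts [Or.inl c, Or.inr ⟨show lw Y x.1.1 = x.2.l - 1 by omega, if_neg c⟩]
    · by_cases c : lw Y x.1.1 < x.2.l - 1
      exacts [Or.inr (if_pos c), Or.inl (show lw Y x.1.1 = x.2.l - 1 by omega)]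

theorem v4_d2 (x : (Y.J × Bool) × KK n) : (∃ y, v4_R n Y y x) ↔
    x.2.r ≠ 0 ∧ val (lw Y) x.2.l x.1 ∧ (lw Y x.1.1 = x.2.l ∨ x.1.2 = x.2.e) := by
  refine ⟨fun ⟨y, ⟨a1, _⟩, _, _, a⟩ => ⟨by omega, a⟩, fun ⟨a1, a⟩ => ?_⟩
  have h1 : -(n : ℤ) ≤ x.2.l := x.2.2.1
  have h2 : x.2.l + x.2.r ≤ n := x.2.2.2.1
  exact ⟨((x.1.1, x.2.e), ⟨(x.2.l + 1, x.2.r - 1, nz (x.2.r - 1) (!x.2.e)), by simp only; omega,
    by simp only; omega, fun c => if_pos c⟩), ⟨show x.2.r = x.2.r - 1 + 1 by omega, rfl, rfl⟩, rfl, rfl, a⟩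

theorem bet_nul (hH : LR H) (hY : Ok (grF _ (eF H)) Y.toCx) (hL : Lw n Y) :
    Nul (grF _ H) 1 ((GG Y).cone (VV n Y).toCx (bet n Y)) := by
  have hp := esh_of hY.hp
  have hD := esh_of hY.hD
  have hG := gg_ok hY
  have hV := vv_okc hY n
  have hb := bet_ch hY hL
  have lr := lr_gr (Option σ → ℤ) hH
  have PP := hV.pp
  have SP : ∀ f : Matrix Y.J Y.J (A × A), (sg A fun x => x.2.l) * vm n (lw Y) (lw Y) f =
      vm n (lw Y) (lw Y) f * sg A fun x => x.2.l := fun f =>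
    sg_comm fun x y h => by rw [(v4_vne h).1]
  have r0 : ∀ f : Matrix Y.J Y.J (A × A), Hm (fun _ _ : Unit => ⊤) 0 (fun x => ((), (x.2.r : ℤ)))
      (fun x => ((), (x.2.r : ℤ))) (vm n (lw Y) (lw Y) f) := fun f x y =>
    ⟨trivial, fun h => by simp only [(v4_vne h).1, add_zero]⟩
  have r1 : ∀ f g : Matrix Y.J Y.J (A × A), Hm (fun _ _ : Unit => ⊤) 1
      (fun x => ((), (x.2.r : ℤ))) (fun x => ((), (x.2.r : ℤ))) (vm n (lw Y) (lw Y) f *
        (v4_rel A (fun x y => v4_R n Y y x) * vm n (lw Y) (lw Y) g)) := fun f g =>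
    (r0 f).mul (fun _ _ _ _ _ _ _ => AddSubgroup.mem_top _) (v4_hm (r0 g) (d' := 1)
      (fun x y h => ⟨rfl, by simp only [h.1.1]; omega⟩) rfl) rfl
  refine cone_wt lr hG hV hb
    (i := (VV n Y).p * (v4_rel A (fun x i => v4_R0 n Y i x) * (GG Y).p))
    (h := (sg A fun x => x.2.l) * ((VV n Y).p * (v4_rel A (fun x y => v4_R n Y y x) * (VV n Y).p)))
    ⟨hV.hp.mul lr (v4_hm hG.hp (d' := 0) (fun x i h => ?_) rfl) rfl, ?_, ?_⟩
    ⟨hm_sg_mul (hV.hp.mul lr (v4_hm hV.hp (d' := 1) (fun x y h => ?_) rfl) rfl) _, ?_, ?_⟩ ?_ ?_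
    (fun x => x.2.r) fun x y h => ?_
  · simp only [h.1, h.2.2.1, h.2.2.2, Nat.cast_zero, add_zero, and_self]
  · rw [← Matrix.mul_assoc, PP]
  · rw [Matrix.mul_assoc, Matrix.mul_assoc, hG.pp]
  · obtain ⟨⟨a1, a2, -⟩, a4, -⟩ := h
    have : y.2.l + y.2.r = x.2.l + x.2.r := by omega
    exact ⟨by simp only [a4, this], by simp only [a4]; omega⟩
  · rw [← Matrix.mul_assoc, ← SP, Matrix.mul_assoc, ← Matrix.mul_assoc (vm _ _ _ _), PP]
  · simp only [Matrix.mul_assoc, PP]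
  · rw [← Matrix.mul_assoc, hb.pr, v4_bet, Matrix.mul_assoc, ← Matrix.mul_assoc (v4_rel _ _),
      v4_sq v4_u0 fun _ _ _ h h' => h'.1.symm.trans h.1]
    refine (congrArg _ (Matrix.ext fun i j => ?_)).trans hG.pp
    rw [ind_mul_apply, if_pos (show i ∈ {i | ∃ x, v4_R0 n Y i x} from v4_e0 hL i)]
  · ext i y
    refine Finset.sum_eq_zero fun x _ => by_contra fun c => ?_
    have h1 := (hm_sg_mul (r1 Y.p Y.p) (fun x => x.2.l) x y).2 (right_ne_zero_of_mul c)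
    have h2 : x.2.r = 0 := by_contra fun z => left_ne_zero_of_mul c (if_neg fun e => z e.1)
    simp only at h1
    omega
  · have e : (VV n Y).p * (v4_rel A (fun x i => v4_R0 n Y i x) * (GG Y).p) * bet n Y =
        (VV n Y).p * ind A {x | ∃ i, v4_R0 n Y i x} * (VV n Y).p := by
      rw [Matrix.mul_assoc, Matrix.mul_assoc, hb.pl, v4_bet, ← v4_pi hL hp,
        ← Matrix.mul_assoc (v4_rel _ _), v4_sq (R := fun x i => v4_R0 n Y i x)
          (fun _ _ _ h h' => h'.1.symm.trans h.1) fun _ _ _ => v4_u0 _ _ _, Matrix.mul_assoc]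
    rw [e, show (VV n Y).D = (_ + _ * _) * _ from congrArg (fun z => (_ + z) * _) (v4_vk hp).1,
      v4_ring (sg_sg _) (SP _) (SP _) (sg_anti fun x y h => Or.inr (by have := (v4_ne h).1.2.1; omega))
        (sg_anti fun x y h => Or.inl (v4_ne h).1.2.1) PP (by rw [vm_mul hp hD, hY.pD])
        (by rw [vm_mul hD hp, hY.Dp]) ((v4_vk hp).2.symm.trans (v4_vk hp).1)] at h
    · have := (((r1 Y.D Y.p).sub (r1 Y.p Y.D)) x y).2 h
      simp only at this
      omega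
    · rw [v4_sq v4_u1 v4_u2, v4_sq (R := fun x y => v4_R n Y y x) (fun _ _ _ => v4_u2 _ _ _)
        fun _ _ _ => v4_u1 _ _ _]
      ext x y
      by_cases z : vm n (lw Y) (lw Y) Y.p x y = 0
      · simp [Matrix.add_mul, ind_mul_apply, z]
      have hv := (v4_vne z).2
      have d0 : (∃ i, v4_R0 n Y i x) ↔ x.1.2 = false ∧ x.2.r = 0 ∧ x.2.l = lw Y x.1.1 :=
        ⟨fun ⟨_, a, b⟩ => a ▸ b, fun a => ⟨_, rfl, a⟩⟩
      simp only [Matrix.add_mul, Matrix.add_apply, ind_mul_apply, Set.mem_ofPred_eq, v4_d1 hL, v4_d2,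
        d0, hv]
      rcases hv with hv | hv
      · by_cases c1 : x.2.r = 0
        · simp [hv, hv.ne', c1]
        · by_cases c2 : x.1.2 = x.2.e
          · simp [hv, c1, c2]
          · simp [hv, hv.ne, c1, c2, Ne.symm c2]
      · by_cases c1 : x.2.r = 0 <;> simp [hv.1, hv.2, c1]

end Pool.Agent.MP_f7db47_al.GR

end

section

/-!
Complexes of multicomplexes: closure properties.
-/

namespace Pool.Agent.MP_f7db47_al.GR

open Matrix KN

universe v w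

section Aux

variable {A : Type v} [Ring A] {Λ : Type} {H : Fam A Λ}

theorem d1_conj {J : Type} [Fintype J] [DecidableEq J] {T T' u p h : Matrix J J A}
    (hu : u * u = 1) (hT : u * T = -(T' * u)) (hp : u * p = p * u)
    (e : T * h + h * T = (1 : A) • p) :
    T' * -(u * h * u) + -(u * h * u) * T' = (1 : A) • p := by
  have h1 : T' * u = -(u * T) := by rw [hT, neg_neg]
  have h2 : u * T' = -(T * u) := by
    have : u * T' = u * (T' * u) * u := by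
      rw [Matrix.mul_assoc, Matrix.mul_assoc, hu, Matrix.mul_one]
    rw [this, h1, Matrix.mul_neg, ← Matrix.mul_assoc, hu, Matrix.one_mul, Matrix.neg_mul]
  have h3 : u * (T * h + h * T) * u = p := by
    rw [e, one_smul, hp, Matrix.mul_assoc, hu, Matrix.mul_one]
  rw [Matrix.mul_neg, Matrix.neg_mul, Matrix.mul_assoc u h u, ← Matrix.mul_assoc T', h1,
    Matrix.mul_assoc u, Matrix.mul_assoc h, h2, one_smul, ← h3]
  simp [Matrix.mul_add, Matrix.add_mul, Matrix.mul_assoc]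

theorem d1_fil {X : Cx A Λ} (hH : LR H) (hX : Ok H X) (ω : X.J → ℤ) {f g h : Matrix X.J X.J A}
    (e : X.D = f + g) (hp : ∀ i j, X.p i j ≠ 0 → ω i = ω j) (hf : ∀ i j, f i j ≠ 0 → ω i = ω j)
    (hg : ∀ i j, g i j ≠ 0 → ω i < ω j) (hh : Hm H 1 X.t X.t h)
    (e' : f * h + h * f = (1 : A) • X.p) : Nul H 1 X := by
  have h1 : dg0 ω ω X.p = X.p := by
    ext i j
    exact ite_eq_left_iff.2 fun c => (of_not_not fun c' => c (hp i j c')).symm
  have h2 : dg0 ω ω X.D = f := by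
    ext i j
    rw [dg0, e, Matrix.add_apply]
    split_ifs with c
    · rw [of_not_not fun c' => (hg i j c').ne c, add_zero]
    · exact (of_not_not fun c' => c (hf i j c')).symm
  refine fil_one hH hX ω (fun i j c => (hp i j c).le) (fun i j c => ?_) ⟨h, hh, ?_⟩
  · by_cases c' : f i j = 0
    · exact (hg i j fun c'' => c (by rw [e, Matrix.add_apply, c', c'', add_zero])).le
    · exact (hf i j c').le
  · rw [h1, h2]
    exact e'

theorem d1_ne {I J : Type} [Fintype J] [DecidableEq J] {f : Matrix I J A} {u : J → ℤ} {i : I}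
    {j : J} (h : (f * sg A u) i j ≠ 0) : f i j ≠ 0 := fun c => h (by
  rw [mul_sg_apply, c, smul_zero])

end Aux

section Fam

variable {A : Type v} [Ring A] {Λ σ : Type} [DecidableEq σ] {H : Fam A Λ} {X Y : DC A Λ σ}
  {t : Matrix X.J Y.J A} {τ : σ → Bool → Matrix X.J Y.J A} {s : σ}

theorem ac_sh : Ac H X.sh s ↔ Ac H X s := by
  refine forall_congr' fun ε => exists_congr fun h => and_congr_left' ?_
  refine (hm_vd_iff (X := X.sh) (Y := X.sh)).trans (Iff.trans ?_ hm_vd_iff.symm)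
  simp only [DC.c, DC.m, add_left_inj]

omit [DecidableEq σ] in
theorem d1_m {d : ℤ} {f : Matrix X.J X.J A} (h : Hm (grF _ H) d X.t X.t f) (s : σ) (i j : X.J)
    (c : f i j ≠ 0) : X.m s i = X.m s j := congrFun ((h i j).1.2 c) s

theorem d1_d (h : DOk H X) (s : σ) (ε : Bool) (i j : X.J) (c : X.d s ε i j ≠ 0) :
    X.c i = X.c j ∧ X.m s i = X.m s j + -1 :=
  have := (hm_vd_iff.1 (h.okd s ε).hD i j).2 c
  ⟨this.1, this.2.1⟩

theorem tac_sh (h : DOk H X) : TAc H X.sh s ↔ TAc H X s := by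
  have h1 := sg_comm (d1_m h.ok.hD s)
  have h2 := sg_comm (d1_m h.ok.hp s)
  have h3 ε := sg_anti fun i j c => .inr (d1_d h s ε i j c).2
  have h4 (ε) (f : Matrix X.J X.J A) : Hm (grF _ H) 1 (X.sh.vT s ε).t (X.sh.vT s ε).t f ↔
      Hm (grF _ H) 1 (X.vT s ε).t (X.vT s ε).t f := by
    refine (hm_vT_iff (X := X.sh) (Y := X.sh)).trans (Iff.trans ?_ hm_vT_iff.symm)
    refine forall₂_congr fun i j => and_congr_right' (imp_congr_right fun _ => and_congr_left' ?_)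
    dsimp only [DC.c, DC.m]
    omega
  have h5 : X.sh.m s = X.m s := rfl
  refine forall_congr' fun ε => ⟨fun ⟨a, a1, a2⟩ => ⟨_, (hm_mul_sg (hm_sg_mul ((h4 ε a).1 a1)
    (X.m s)) (X.m s)).neg, d1_conj (sg_sg _) ?_ h2 a2⟩, fun ⟨a, a1, a2⟩ => ⟨_, (h4 ε _).2
      (hm_mul_sg (hm_sg_mul a1 (X.m s)) (X.m s)).neg, d1_conj (sg_sg _) ?_ h2 a2⟩⟩ <;>
  simp [Matrix.mul_add, Matrix.add_mul, ← Matrix.mul_assoc, h1, h3, h5, add_comm]

theorem WN.tac (hH : LR H) (h : DOk H X) (h0 : WN H X) (s : σ) : TAc H X s := fun ε => by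
  obtain ⟨a, a1, a2⟩ := h0
  refine d1_fil (lr_gr _ hH) (h.vT s ε) (X.m s) (h := sg A (X.m s) * a) rfl (d1_m h.ok.hp s)
    (fun i j c => d1_m h.ok.hD s i j (d1_ne c)) (fun i j c => ?_)
    (hm_sg_mul (hm_vT_iff.2 fun i j => ⟨(a1 i j).1.1, fun c => ⟨?_, fun s' _ =>
      d1_m a1 s' i j c⟩⟩) _) ?_
  · have := (d1_d h s ε i j c).2
    omega
  · have := d1_m a1 s i j c
    have : X.c i = X.c j + 1 := (a1 i j).2 c
    omega
  · rw [Matrix.mul_assoc, ← Matrix.mul_assoc _ _ a, sg_sg, Matrix.one_mul,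
      sg_comm (d1_m a1 s), ← sg_comm (d1_m h.ok.hD s), Matrix.mul_assoc a,
      ← Matrix.mul_assoc _ _ X.D, sg_sg, Matrix.one_mul]
    exact a2

theorem Ac.tac (hH : LR H) (h : DOk H X) (h0 : Ac H X s) : TAc H X s := fun ε => by
  obtain ⟨a, a1, a2⟩ := h0 ε
  refine d1_fil (lr_gr _ hH) (h.vT s ε) X.c (add_comm _ _) (fun i j c => ?_)
    (fun i j c => (d1_d h s ε i j c).1) (fun i j c => ?_)
    (hm_vT_iff.2 fun i j => (hm_vd_iff.1 a1 i j).imp_right fun b c => ⟨?_, (b c).2.2⟩) a2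
  · exact ((h.ok.hp i j).2 c).trans (add_zero _)
  · have : X.c i = X.c j + -1 := (h.ok.hD i j).2 (d1_ne c)
    omega
  · have := b c
    omega

theorem Ac.ext (hH : LR H) (h : DOk H (X.ext Y t τ)) (hX : Ac H X s) (hY : Ac H Y s) :
    Ac H (X.ext Y t τ) s := fun ε => by
  rw [vd_ext, ← one_mul (1 : A)]
  exact (hX ε).ext (lr_gr _ hH) Sc.one Sc.one (h.blocks.2.2.2 s ε).1 (hY ε)

theorem Ac.left (hH : LR H) (h : DOk H (X.ext Y t τ)) (h0 : Ac H (X.ext Y t τ) s) (hY : Ac H Y s) :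
    Ac H X s := fun ε => by
  rw [← one_mul (1 : A)]
  exact Nul.left (lr_gr _ hH) Sc.one (h.blocks.2.2.2 s ε).1 (vd_ext X Y t τ s ε ▸ h0 ε) (hY ε)

theorem TAc.ext (hH : LR H) (h : DOk H (X.ext Y t τ)) (hX : TAc H X s) (hY : TAc H Y s) :
    TAc H (X.ext Y t τ) s := fun ε => by
  rw [vT_ext, ← one_mul (1 : A)]
  exact (hX ε).ext (lr_gr _ hH) Sc.one Sc.one (h.blocks.2.2.2 s ε).2 (hY ε)

theorem TAc.left (hH : LR H) (h : DOk H (X.ext Y t τ)) (h0 : TAc H (X.ext Y t τ) s)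
    (hY : TAc H Y s) : TAc H X s := fun ε => by
  rw [← one_mul (1 : A)]
  exact Nul.left (lr_gr _ hH) Sc.one (h.blocks.2.2.2 s ε).2 (vT_ext X Y t τ s ε ▸ h0 ε) (hY ε)

theorem TAc.right (hH : LR H) (h : DOk H (X.ext Y t τ)) (h0 : TAc H (X.ext Y t τ) s)
    (hX : TAc H X s) : TAc H Y s := fun ε => by
  rw [← one_mul (1 : A)]
  exact Nul.right (lr_gr _ hH) Sc.one (h.blocks.2.2.2 s ε).2 (vT_ext X Y t τ s ε ▸ h0 ε) (hX ε)

end Fam

variable {𝒮 : Sys.{v}} {σ : Type} [DecidableEq σ] {T : Set σ} {X Y : DC 𝒮.A 𝒮.Λ σ}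

theorem DOb.ext (hS : 𝒮.Good) {t : Matrix X.J Y.J 𝒮.A} {τ : σ → Bool → Matrix X.J Y.J 𝒮.A}
    (hX : DOb 𝒮 T X) (hY : DOb 𝒮 T Y) (h : DOk 𝒮.H (X.ext Y t τ)) : DOb 𝒮 T (X.ext Y t τ) :=
  ⟨h, TorS.ext (hS.gr _) hX.tor hY.tor h.blocks.2.2.1,
    fun s c => (hX.ac s c).ext hS.mul h (hY.ac s c),
    fun s c => (hX.tac s c).ext hS.mul h (hY.tac s c)⟩

theorem DOb.sh (h : DOb 𝒮 T X) : DOb 𝒮 T X.sh :=
  ⟨h.ok.sh, h.tor.sh 1, fun s c => ac_sh.2 (h.ac s c), fun s c => (tac_sh h.ok).2 (h.tac s c)⟩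

theorem DOb.of_wn (hS : 𝒮.Good) (h : DOk 𝒮.H X) (h0 : WN 𝒮.H X) (ha : ∀ s ∈ T, Ac 𝒮.H X s) :
    DOb 𝒮 T X :=
  ⟨h, (Ob.of_nul (𝒮 := 𝒮.gr _) h.ok (hS.gr _) h0).tor, ha, fun s _ => WN.tac hS.mul h h0 s⟩

theorem DOb.anti (hS : 𝒮.Good) (h : DOb 𝒮 T X) {T' : Set σ} (hT : T' ⊆ T) : DOb 𝒮 T' X :=
  ⟨h.ok, h.tor, fun s c => h.ac s (hT c), fun s _ =>
    (em (s ∈ T)).elim (fun c => (h.ac s c).tac hS.mul h.ok) (h.tac s)⟩

end Pool.Agent.MP_f7db47_al.GR

end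

section

/-!
The total complexes of the Koszul dual are the branches.
-/

namespace Pool.Agent.MP_f7db47_al.GR

open Matrix KN

universe v w

variable {A : Type v} [Ring A] {Λ σ : Type} [DecidableEq σ] {H : Fam A Λ} {n : ℕ}
  {Y : DC (A × A) (Λ × ℤ) σ}

section aux

variable {I I' I'' : Type} {j : I → ℤ} {j' : I' → ℤ} {ε : Bool} {l : ℤ}

/-- The projection from the level `l` to a branch. -/
def v5_al (j : I → ℤ) (ε : Bool) (f : Matrix I' I (A × A)) (l : ℤ) : Matrix I' (I × Bool) A :=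
  fun i x => if val j l x ∧ (j x.1 = l ∨ x.2 = ε) then br A ε (f i x.1) else 0

/-- The empty words. -/
def v5_E (n : ℕ) : Matrix Unit (KK n) ℤ := fun _ κ => if κ.r = 0 then 1 else 0

/-- A row of blocks. -/
def v5_k (E : Matrix Unit (KK n) ℤ) (B : ℤ → Matrix I' I A) : Matrix I' (I × KK n) A :=
  fun i x => E () x.2 • B x.2.l i x.1

theorem v5_mul [Fintype I'] (E' : Matrix Unit (KK n) ℤ) {E : Matrix (KK n) (KK n) ℤ}
    {B' : ℤ → Matrix I'' I' A} {B : KK n → Matrix I' I A} {D : ℤ → Matrix I'' I A}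
    (h : ∀ κ' κ, E κ' κ ≠ 0 → B' κ'.l * B κ = D κ.l) : v5_k E' B' * kr E B = v5_k (E' * E) D := by
  ext i x
  have e := congrFun₂ (kr_mul E' (B' := fun κ => B' κ.l) (D := fun κ => D κ.l) h) (i, ()) x
  exact e

theorem v5_br {x : A × A} (h : x.1 = x.2) (ε : Bool) : br A ε x = br A false x := by
  cases ε
  exacts [rfl, h.symm]

theorem v5_left [Fintype I'] (E : Matrix Unit (KK n) ℤ) (g : Matrix I'' I' (A × A))
    (f : Matrix I' I (A × A)) :
    g.map (br A ε) * v5_k E (v5_al j ε f) = v5_k E (v5_al j ε (g * f)) := by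
  ext i x
  simp only [v5_k, v5_al, Matrix.mul_apply, map_apply, mul_smul_comm, ← Finset.smul_sum]
  split_ifs <;> simp

theorem v5_psi [Fintype I'] (g : Matrix I'' I' (A × A)) {f : Matrix I' I (A × A)}
    (hf : Esh j' j f) : v5_al j' ε g l * psi j' j l f = v5_al j ε (g * f) l := by
  ext i x
  have e : v5_al j ε (g * f) l i x = ∑ k, br A ε (g i k) * v5_al j ε f l k x := by
    simp only [v5_al, Matrix.mul_apply]
    split_ifs <;> simp
  rw [e, Matrix.mul_apply, Fintype.sum_prod_type]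
  refine Finset.sum_congr rfl fun k _ => ?_
  obtain ⟨h1, h2⟩ := hf k x.1
  simp only [v5_al, psi, val, Fintype.sum_bool]
  rcases lt_trichotomy (j' k) l with h | h | h
  · rcases x with ⟨x, _ | _⟩ <;> cases ε <;> simp [h, h.ne]
  · rcases lt_trichotomy (j x.1) l with h' | h' | h'
    · simp [h2 (h ▸ h')]
    · simp [h, h', v5_br (h1 (h.trans h'.symm)) ε]
    · simp [h'.ne', h'.not_gt]
  · by_cases h' : j x.1 < j' k
    · simp [h2 h']
    · simp [show ¬j x.1 < l by omega, show ¬j x.1 = l by omega]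

theorem v5_tau [Fintype I] [DecidableEq I] (g : Matrix I' I (A × A)) (e : Bool) :
    v5_al j ε g (l + 1) * tau A j e l = if e = ε then v5_al j ε g l else 0 := by
  ext i x
  rw [Matrix.mul_apply, Finset.sum_eq_single (x.1, e) (fun y _ h => by
    rw [tau, if_neg fun c => h (Prod.ext c.1 c.2.1), mul_zero]) fun h => (h (Finset.mem_univ _)).elim]
  by_cases h : val j l x
  · have h1 : j x.1 < l + 1 := by
      unfold val at h
      omega
    split_ifs with c <;> simp [v5_al, tau, h, c, h1.ne, show val j (l + 1) (x.1, ε) from Or.inl h1]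
  · split_ifs <;> simp [v5_al, tau, h]

theorem v5_one {E : Matrix (KK n) (KK n) ℤ} (c : ℤ) (hc : c = 0 ∨ c = 1)
    (h : ∀ κ' κ, κ'.r = 0 → E κ' κ =
      if κ.r = 1 ∧ κ.e = ε ∧ κ'.l = κ.l + c ∧ κ'.e = false then 1 else 0) (κ : KK n) :
    (v5_E n * E) () κ = if κ.r = 1 ∧ κ.e = ε then 1 else 0 := by
  rw [Matrix.mul_apply]
  split_ifs with e
  · have h1 := κ.2.1
    have h2 := κ.2.2.1
    have h3 : κ.1.2.1 = 1 := e.1
    obtain ⟨k, ek⟩ : ∃ k : KK n, k.1 = (κ.l + c, 0, false) :=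
      ⟨⟨_, by simp only [KK.l]; omega, by simp only [KK.l]; omega, fun _ => rfl⟩, rfl⟩
    rw [Finset.sum_eq_single k (fun y _ hy => ?_) fun h => (h (Finset.mem_univ _)).elim,
      h _ _ (by simp [KK.r, ek])]
    · simp [v5_E, e, KK.l, KK.r, KK.e, ek]
    · unfold v5_E
      split_ifs with h0
      · rw [h _ _ h0, if_neg fun c => hy (Subtype.ext (ek ▸ Prod.ext c.2.2.1
          (Prod.ext h0 c.2.2.2))), mul_zero]
      · exact zero_mul _
  · refine Finset.sum_eq_zero fun y _ => ?_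
    unfold v5_E
    split_ifs with h0
    · rw [h _ _ h0, if_neg fun c => e ⟨c.1, c.2.1⟩, mul_zero]
    · exact zero_mul _

theorem v5_Ek (κ : KK n) : (v5_E n * Ek n ε) () κ = if κ.r = 1 ∧ κ.e = ε then 1 else 0 :=
  v5_one 1 (.inr rfl) (fun κ' κ h => by simp [Ek, h, nz]) κ

theorem v5_Ed (κ : KK n) : (v5_E n * Ed n ε) () κ = if κ.r = 1 ∧ κ.e = ε then 1 else 0 :=
  v5_one 0 (.inl rfl) (fun κ' κ h => by
    by_cases e : κ.r = 1 <;> simp [Ed, h, nz, e, lst]) κ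

end aux

omit [DecidableEq σ] in
theorem v5_alp (ε : Bool) : alp n Y ε = v5_k (v5_E n) (v5_al (lw Y) ε Y.p) := by
  ext i x
  simp only [alp, v5_k, v5_E, v5_al]
  by_cases h : x.2.r = 0 <;> simp [h]

omit [DecidableEq σ] in
theorem v5_hm {d : ℤ} {f : Matrix Y.J Y.J (A × A)} (h : Hm (grF _ (fF H)) d Y.t Y.t f) (ε : Bool) :
    Hm (grF _ H) d (brD Y ε).t (brD Y ε).t (f.map (br A ε)) := fun i j => by
  have h0 : br A ε (f i j) ≠ 0 → f i j ≠ 0 := fun c e => c (by rw [e, map_zero])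
  refine ⟨⟨?_, fun c => ?_⟩, fun c => (h i j).2 (h0 c)⟩
  · cases ε
    exacts [(h i j).1.1.1, (h i j).1.1.2]
  · simp only [(h i j).1.2 (h0 c)]

theorem v5_upd (a : ℤ) (m : σ → ℤ) :
    Function.update (fun s : Option σ => s.elim a m) none 0 = fun s => s.elim 0 m := by
  funext s
  cases s <;> simp

theorem alp_ch (hY : DOk (eF H) Y) (ε : Bool) :
    Ch (grF _ H) (brD Y ε) ((VV n Y).vT none ε) (alp n Y ε) := by
  have hp := esh_of hY.ok.hp
  have one : ∀ {f : Matrix Y.J Y.J (A × A)}, Esh (lw Y) (lw Y) f →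
      alp n Y ε * vm n (lw Y) (lw Y) f = v5_k (v5_E n) (v5_al (lw Y) ε (Y.p * f)) := fun hf => by
    rw [v5_alp, vm, v5_mul (D := v5_al (lw Y) ε _) _ fun κ' κ h => by
      rw [show κ' = κ from by_contra fun c => h (one_apply_ne c), v5_psi _ hf], Matrix.mul_one]
  refine ⟨⟨fun i x => ?_, by rw [v5_alp, v5_left, hY.ok.pp], by
    rw [one hp, hY.ok.pp, v5_alp]⟩, ?_⟩
  · unfold alp
    split_ifs with c
    · have h := v5_hm (hY.ok.hp.mono (gr_mono _ e_le_f)) ε i x.1.1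
      refine ⟨⟨h.1.1, fun e => (h.1.2 e).trans (v5_upd _ _).symm⟩, fun e => ?_⟩
      have := h.2 e
      simp only [DC.c, DC.m, Option.elim, c.1] at this ⊢
      omega
    · exact ⟨zero_mem _, fun e => absurd rfl e⟩
  have e1 : alp n Y ε * vk n Y = v5_k (v5_E n * Ek n ε) (v5_al (lw Y) ε Y.p) := by
    have e2 : ∀ e, alp n Y ε * (kr (Ek n e) fun κ => tau A (lw Y) e κ.l * psi (lw Y) (lw Y) κ.l Y.p) =
        v5_k (v5_E n * Ek n e) (if e = ε then v5_al (lw Y) ε Y.p else 0) := fun e => by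
      rw [v5_alp]
      refine v5_mul _ fun κ' κ h => ?_
      rw [(Ek_ne h).2.2.1, ← Matrix.mul_assoc, v5_tau]
      split_ifs
      · rw [v5_psi _ hp, hY.ok.pp]
      · exact Matrix.zero_mul _
    rw [vk, Matrix.mul_sum]
    simp only [e2]
    rw [Finset.sum_eq_single ε (fun e _ h => by
      ext i x
      simp [v5_k, h]) fun h => (h (Finset.mem_univ _)).elim, if_pos rfl]
  have e2 : alp n Y ε * (kr (Ed n ε) fun κ => psi (lw Y) (lw Y) κ.l Y.p) =
      v5_k (v5_E n * Ed n ε) (v5_al (lw Y) ε Y.p) := by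
    rw [v5_alp]
    refine v5_mul _ fun κ' κ h => ?_
    rw [(Ed_ne h).2.2.1, v5_psi _ hp, hY.ok.pp]
  change Y.D.map (br A ε) * alp n Y ε = alp n Y ε * ((vm n (lw Y) (lw Y) Y.D + vk n Y) *
    sg A (fun x : (Y.J × Bool) × KK n => x.2.l) *
    sg A (fun x : (Y.J × Bool) × KK n => x.2.l + x.2.r) +
      kr (Ed n ε) fun κ => psi (lw Y) (lw Y) κ.l Y.p)
  rw [Matrix.mul_add, ← Matrix.mul_assoc, ← Matrix.mul_assoc, Matrix.mul_add, e1, e2,
    one (esh_of hY.ok.hD), v5_alp, v5_left, hY.ok.pD, hY.ok.Dp]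
  ext i x
  simp only [Matrix.add_apply, mul_sg_apply, v5_k, v5_Ek, v5_Ed, smul_smul, ← Int.negOnePow_add]
  rw [show x.2.l + x.2.r + x.2.l = 2 * x.2.l + x.2.r by ring, Int.negOnePow_add,
    Int.negOnePow_two_mul, one_mul]
  by_cases h : x.2.r = 1 ∧ x.2.e = ε
  · simp [h, v5_E]
  · by_cases h' : x.2.r = 0 <;> simp [h, h', v5_E]

theorem v5_lab {I : Type} {d : ℤ} {s s' : I → (Λ × (Option σ → ℤ)) × ℤ} {f : Matrix I I A}
    (h : Hm (grF _ H) d s s f) (e : ∀ i, s' i =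
      (((s i).1.1, Function.update (s i).1.2 none 0), (s i).2 + (s i).1.2 none)) :
    Hm (grF _ H) d s' s' f := fun i j => by
  rw [e, e]
  refine ⟨⟨(h i j).1.1, fun c => ?_⟩, fun c => ?_⟩
  · simp only [(h i j).1.2 c]
  · simp only [(h i j).1.2 c, (h i j).2 c]
    omega

theorem vv_tac (hH : LR H) (hY : DOk (eF H) Y) (hL : Lw n Y)
    (h : Nul (grF _ (fF H)) 1 Y.toCx) : TAc H (VV n Y) none := by
  intro ε
  have hV := vv_ok hY n
  have hp := esh_of hY.ok.hp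
  have hD := esh_of hY.ok.hD
  have hF := hY.ok.mono (gr_mono _ e_le_f)
  have ob : Ok (grF _ H) (brD Y ε) := ⟨v5_hm hF.hp ε, v5_hm hF.hD ε,
    by rw [← Matrix.map_mul, hF.pp], by rw [← Matrix.map_mul, hF.pD],
    by rw [← Matrix.map_mul, hF.Dp], by rw [← Matrix.map_mul, hF.DD, Matrix.map_zero _ (map_zero _)]⟩
  have nb : Nul (grF _ H) 1 (brD Y ε) := by
    obtain ⟨s, h1, h2⟩ := h
    exact ⟨s.map (br A ε), v5_hm h1 ε, by
      rw [← Matrix.map_mul, ← Matrix.map_mul, ← Matrix.map_add _ (map_add _), h2, one_smul,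
        one_smul]⟩
  have low : ∀ {f : Matrix Y.J Y.J (A × A)}, Esh (lw Y) (lw Y) f → ∀ i j, br A ε (f i j) ≠ 0 →
      lw Y i ≤ lw Y j := fun hf i j c => not_lt.1 fun e => c (by rw [(hf i j).2 e, map_zero])
  have dg : ∀ {f : Matrix Y.J Y.J (A × A)}, Esh (lw Y) (lw Y) f → ∀ i j,
      (if lw Y i = lw Y j then br A ε (f i j) else 0) =
        dg0 (lw Y) (lw Y) (f.map (br A false)) i j := fun hf i j =>
    ite_congr rfl (fun c => v5_br ((hf i j).1 c) ε) fun _ => rfl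
  have m1 : ∀ {d : ℤ} {f : Matrix (VV n Y).J (VV n Y).J A}, Hm (grF _ H) d (VV n Y).t (VV n Y).t f →
      ∀ i j, f i j ≠ 0 → (VV n Y).m none i = (VV n Y).m none j :=
    fun hf i j c => congrFun ((hf i j).1.2 c) none
  have m2 := m1 (hm_mul_sg hV.ok.hD ((VV n Y).m none))
  have m3 : ∀ i j, (VV n Y).d none ε i j ≠ 0 → (VV n Y).m none i = (VV n Y).m none j + -1 :=
    fun i j c => ((hm_vd_iff.1 (hV.okd none ε).hD i j).2 c).2.1
  obtain ⟨k, k1, k2⟩ := cone_sg (lr_gr _ hH) (gg_ok hY.ok) hV.ok (bet_ch hY.ok hL) (lw Y)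
    ((VV n Y).m none) (fun _ _ _ hx c => congrFun (hx.2 c) none)
    (fun _ _ _ hx c => congrFun (hx.2 c) none) (fun _ _ _ hx c => congrFun (hx.2 c) none)
    (fun i j c => congrFun (((bet_ch hY.ok hL).hm i j).1.2 c) none) (bet_nul hH hY.ok hL)
  have nc : Nul (grF _ H) 1 ((brD Y ε).cone ((VV n Y).vT none ε) (alp n Y ε)) := by
    refine fil_one (lr_gr _ hH) (ob.cone (hV.vT none ε) (alp_ch hY ε))
      (Sum.elim (lw Y) ((VV n Y).m none)) ?_ ?_ ⟨k, v5_lab k1 ?_, ?_⟩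
    · rintro (i | i) (j | j) c
      exacts [low hp i j c, absurd rfl c, absurd rfl c, (m1 hV.ok.hp i j c).le]
    · rintro (i | i) (j | j) c
      · exact low hD i j c
      · change alp n Y ε i j ≠ 0 at c
        unfold alp at c
        split_ifs at c with e
        · have h1 := low hp _ _ c
          have h2 := e.2.1
          unfold val at h2
          change lw Y i ≤ j.2.l + j.2.r
          omega
        · exact absurd rfl c
      · exact absurd rfl c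
      · change -(((VV n Y).D * sg A ((VV n Y).m none)) i j + (VV n Y).d none ε i j) ≠ 0 at c
        change (VV n Y).m none i ≤ (VV n Y).m none j
        by_cases e : (VV n Y).d none ε i j = 0
        · exact (m2 i j fun e' => c (by rw [e, e', add_zero, neg_zero])).le
        · have := m3 i j e
          omega
    · rintro (i | i)
      · exact Prod.ext (Prod.ext rfl (v5_upd _ _).symm) (sub_add_cancel _ _).symm
      · exact Prod.ext rfl (add_right_comm _ _ _)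
    · refine (congrArg (fun D => D * k + k * D) ?_).trans (k2.trans (congrArg (1 • ·) ?_))
      · ext (i | i) (j | j)
        · change _ = (dg0 (lw Y) (lw Y) (Y.D.map (br A false)) * sg A (lw Y) * sg A (lw Y)) i j
          rw [Matrix.mul_assoc, sg_sg, Matrix.mul_one]
          exact dg hD i j
        · change (if lw Y i = j.2.l + j.2.r then alp n Y ε i j else 0) = bet n Y i j
          obtain ⟨h1, h2⟩ := hp i j.1.1
          unfold alp bet val
          by_cases e : j.2.r = 0 ∧ j.2.l = lw Y i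
          · rcases lt_trichotomy (lw Y j.1.1) (lw Y i) with c | c | c
            · simp [h2 c]
            · rw [v5_br (h1 c.symm) ε]
              simp [e, c, br]
            · simp [e, c.ne', c.not_gt]
          · refine (ite_eq_right_iff.2 fun c => if_neg fun c' => e ⟨c'.1, ?_⟩).trans
              (if_neg fun c => e ⟨c.1, c.2.1⟩).symm
            have := c'.1
            omega
        · exact ite_self _
        · change (if (VV n Y).m none i = (VV n Y).m none j then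
            -(((VV n Y).D * sg A ((VV n Y).m none)) i j + (VV n Y).d none ε i j) else 0) =
            -((VV n Y).D * sg A ((VV n Y).m none)) i j
          split_ifs with c
          · rw [show (VV n Y).d none ε i j = 0 from by_contra fun e => by
              have := m3 i j e
              omega, add_zero]
          · rw [by_contra fun e => c (m2 i j e), neg_zero]
      · ext (i | i) (j | j)
        exacts [(dg hp i j).symm, (ite_self _).symm, (ite_self _).symm,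
          (ite_eq_left_iff.2 fun c => by_contra fun e => c (m1 hV.ok.hp i j (Ne.symm e))).symm]
  obtain ⟨s, h1, h2⟩ := Nul.right (lr_gr _ hH) Sc.one (alp_ch hY ε).tw nc nb
  exact ⟨-s, (h1.unshift (by omega)).neg, by
    simpa only [Matrix.neg_mul, Matrix.mul_neg, mul_one] using h2⟩

end Pool.Agent.MP_f7db47_al.GR

end

section

/-!
The total complex.
-/

namespace Pool.Agent.MP_f7db47_al.GR

open Matrix KN

universe v w

section Fam

variable {A : Type v} [Ring A] {Λ σ : Type} [DecidableEq σ] {H : Fam A Λ} {n : ℕ}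
  {X : DC A Λ (Option σ)}

theorem v6a_ne {I J : Type} {f g : Matrix I J A} {i : I} {j : J} (h : pr f g i j ≠ 0) :
    f i j ≠ 0 ∨ g i j ≠ 0 := by
  by_contra c
  push Not at c
  exact h (Prod.ext c.1 c.2)

theorem v6a_vd {s : σ} {ε : Bool} {d : ℤ} {f : Matrix X.J X.J A}
    (h : Hm (grF _ H) d (X.vd (some s) ε).t (X.vd (some s) ε).t f) :
    Hm (grF _ (eF H)) d ((Tot X).vd s ε).t ((Tot X).vd s ε).t (pr f f) := by
  refine hm_vd_iff.2 fun i j => ?_
  obtain ⟨h1, h2⟩ := hm_vd_iff.1 h i j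
  have h3 := fun c : pr f f i j ≠ 0 => h2 ((v6a_ne c).elim id id)
  refine ⟨⟨h1, h1, fun _ => rfl, fun l => by_contra fun c => ?_⟩, fun c => ?_⟩
  · exact absurd ((h3 c).2.2 none (by simp)) (ne_of_gt l)
  · obtain ⟨a1, a2, a3⟩ := h3 c
    exact ⟨congrArg₂ (· + ·) a1 (a3 none (by simp)), a2, fun s' e => a3 (some s') (by simpa using e)⟩

omit [DecidableEq σ] in
theorem v6a_m {d : ℤ} {f : Matrix X.J X.J A} (h : Hm (grF _ H) d X.t X.t f) (i j : X.J)
    (c : f i j ≠ 0) : X.m none i = X.m none j := congrFun ((h i j).1.2 c) none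

omit [DecidableEq σ] in
theorem v6a_tot {d : ℤ} {f : Matrix X.J X.J A} (h : Hm (grF _ H) d X.t X.t f) :
    Hm (grF _ (eF H)) d (Tot X).t (Tot X).t (pr f f) := fun i j => by
  obtain ⟨⟨h1, h2⟩, h3⟩ := h i j
  have h4 := fun c : pr f f i j ≠ 0 => (v6a_ne c).elim id id
  refine ⟨⟨⟨h1, h1, fun _ => rfl, fun l => by_contra fun c => ?_⟩,
    fun c => congrArg (· ∘ some) (h2 (h4 c))⟩, fun c => ?_⟩
  · exact absurd (v6a_m h i j (h4 c)) (ne_of_gt l)
  · have a1 := h3 (h4 c)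
    have a2 := v6a_m h i j (h4 c)
    show X.c i + X.m none i = X.c j + X.m none j + d
    simp only [DC.c]
    omega

theorem v6a_d (hX : DOk H X) (i j : X.J) (c : pr (X.d none false) (X.d none true) i j ≠ 0) :
    X.c i = X.c j ∧ X.m none i = X.m none j + -1 ∧ ∀ s', s' ≠ none → X.m s' i = X.m s' j :=
  (v6a_ne c).elim (hm_vd_iff.1 (hX.okd none false).hD i j).2
    (hm_vd_iff.1 (hX.okd none true).hD i j).2

theorem tot_ok (hX : DOk H X) : DOk (eF H) (Tot X) := by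
  have hT := hX.vT none
  refine ⟨⟨v6a_tot hX.ok.hp, ?_, ?_, ?_, ?_, ?_⟩, fun s ε => ?_, fun s ε => ?_,
    fun s s' ε ε' e => ?_⟩
  · show Hm _ _ _ _ (pr _ _)
    rw [← pr_add]
    refine (v6a_tot (hm_mul_sg hX.ok.hD _)).add fun i j => ?_
    have h := v6a_d hX i j
    have h0 : X.m none j ≤ X.m none i → pr (X.d none false) (X.d none true) i j = 0 :=
      fun l => by_contra fun c => by have := (h c).2.1; omega
    refine ⟨⟨⟨(hm_vd_iff.1 (hX.okd none false).hD i j).1, (hm_vd_iff.1 (hX.okd none true).hD i j).1,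
      fun l => by rw [h0 (le_of_eq l.symm)]; rfl, fun l => h0 l.le⟩,
      fun c => funext fun s => (h c).2.2 (some s) (by simp)⟩, fun c => ?_⟩
    obtain ⟨a1, a2, -⟩ := h c
    show X.c i + X.m none i = X.c j + X.m none j + -1
    omega
  · exact (pr_mul ..).trans (congrArg₂ pr hX.ok.pp hX.ok.pp)
  · exact (pr_mul ..).trans (congrArg₂ pr (hT false).pD (hT true).pD)
  · exact (pr_mul ..).trans (congrArg₂ pr (hT false).Dp (hT true).Dp)
  · exact (pr_mul ..).trans ((congrArg₂ pr (hT false).DD (hT true).DD).trans pr_zero)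
  · have h := hX.okd (some s) ε
    exact ⟨v6a_vd h.hp, v6a_vd h.hD, (pr_mul ..).trans (congrArg₂ pr h.pp h.pp),
      (pr_mul ..).trans (congrArg₂ pr h.pD h.pD), (pr_mul ..).trans (congrArg₂ pr h.Dp h.Dp),
      (pr_mul ..).trans ((congrArg₂ pr h.DD h.DD).trans pr_zero)⟩
  · have h1 : sg A (X.m none) * X.d (some s) ε = X.d (some s) ε * sg A (X.m none) :=
      sg_comm fun i j c => ((hm_vd_iff.1 (hX.okd (some s) ε).hD i j).2 c).2.2 none (by simp)
    have h2 : ∀ δ, (X.D * sg A (X.m none) + X.d none δ) * X.d (some s) ε =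
        X.d (some s) ε * (X.D * sg A (X.m none) + X.d none δ) := fun δ => by
      rw [add_mul, mul_add, mul_assoc, h1, ← mul_assoc, hX.cm, mul_assoc,
        hX.cd none (some s) δ ε (by simp)]
    exact (pr_mul ..).trans ((congrArg₂ pr (h2 _) (h2 _)).trans (pr_mul ..).symm)
  · have h := hX.cd (some s) (some s') ε ε' (by simpa using e)
    exact (pr_mul ..).trans ((congrArg₂ pr h h).trans (pr_mul ..).symm)

theorem v6a_nul (hH : LR H) (hX : DOk H X) {w : A} (hw : Sc H w) (h : Nul (grF _ H) w X.toCx) :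
    ∃ m : ℕ, Nul (grF _ (eF H)) ((w, w) ^ (m + 1)) (Tot X).toCx := by
  obtain ⟨k, hk, e⟩ := h
  have hY := (tot_ok hX).ok
  have lo : ∀ {d f}, Hm (grF _ (eF H)) d (Tot X).t (Tot X).t f → Low (X.m none) (X.m none) f :=
    fun h i j c => not_lt.1 fun l => c ((h i j).1.1.2.2.2 l)
  have dg : ∀ {d f}, Hm (grF _ H) d X.t X.t f → ∀ i j, ¬X.m none i = X.m none j → pr f f i j = 0 :=
    fun h i j l => by_contra fun c => l (v6a_m h i j ((v6a_ne c).elim id id))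
  have e1 : dg0 (X.m none) (X.m none) (Tot X).p = pr X.p X.p := by
    funext i j
    unfold dg0
    split_ifs with l
    exacts [rfl, (dg hX.ok.hp i j l).symm]
  have e2 : dg0 (X.m none) (X.m none) (Tot X).D =
      pr (X.D * sg A (X.m none)) (X.D * sg A (X.m none)) := by
    funext i j
    unfold dg0
    split_ifs with l
    · show pr _ _ i j = _
      rw [← pr_add, Matrix.add_apply, add_eq_left]
      exact by_contra fun c => by have := (v6a_d hX i j c).2.1; omega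
    · exact (dg (hm_mul_sg hX.ok.hD _) i j l).symm
  refine fil_nul (lr_gr _ (lr_e hH)) hY (sc_gr _ (sc_e hw)) (X.m none) (lo hY.hp) (lo hY.hD)
    ⟨pr (sg A (X.m none) * k) (sg A (X.m none) * k), v6a_tot (hm_sg_mul hk _), ?_⟩
  have e3 : X.D * sg A (X.m none) * (sg A (X.m none) * k) +
      sg A (X.m none) * k * (X.D * sg A (X.m none)) = w • X.p := by
    rw [mul_assoc, ← mul_assoc (sg A _), sg_sg, one_mul, sg_comm (v6a_m hk), mul_assoc k,
      ← mul_assoc (sg A _), sg_comm (v6a_m hX.ok.hD), mul_assoc, sg_sg, mul_one, e]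
  show dg0 _ _ _ * _ + _ * dg0 _ _ _ = _ • dg0 _ _ _
  rw [e1, e2, pr_mul, pr_mul, pr_add, pr_smul, e3]

end Fam

theorem tot_ob {𝒮 : Sys.{v}} {σ : Type} [DecidableEq σ] (hS : 𝒮.Good) {X : DC 𝒮.A 𝒮.Λ (Option σ)}
    (hX : DOb 𝒮 (Set.range some) X) : DOb 𝒮.E Set.univ (Tot X) := by
  refine ⟨tot_ok hX.ok, ?_, fun s _ ε => ?_, fun s c => absurd trivial c⟩
  · rintro (_ | a)
    · choose k hk e using hX.tac none (by simp)
      refine ⟨1, one_mem _, pr (k false) (k true), fun i j => ?_, ?_⟩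
      · have h := fun ε => hm_vT_iff.1 (hk ε) i j
        have h1 := fun c : pr (k false) (k true) i j ≠ 0 => (v6a_ne c).elim (h false).2 (h true).2
        exact ⟨⟨⟨(h false).1, (h true).1⟩, fun c => funext fun s => (h1 c).2 (some s) (by simp)⟩,
          fun c => (h1 c).1⟩
      · show pr _ _ * _ + _ * pr _ _ = _ • pr _ _
        rw [pr_mul, pr_mul, pr_add, one_smul]
        exact congrArg₂ pr ((e false).trans (one_smul ..)) ((e true).trans (one_smul ..))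
    · obtain ⟨w, hw, h⟩ := hX.tor a
      obtain ⟨m, hm⟩ := v6a_nul (hS.mulL a) (hX.ok.mono (hS.le a)) (hS.sc a w hw) h
      exact ⟨_, pow_mem (show (w, w) ∈ dS 𝒮.S a from ⟨w, hw, rfl⟩) _, hm⟩
  · obtain ⟨k, hk, e⟩ := hX.ac (some s) ⟨s, rfl⟩ ε
    refine ⟨pr k k, v6a_vd hk, ?_⟩
    show pr _ _ * _ + _ * pr _ _ = _ • pr _ _
    rw [pr_mul, pr_mul, pr_add, one_smul]
    exact congrArg₂ pr (e.trans (one_smul ..)) (e.trans (one_smul ..))

end Pool.Agent.MP_f7db47_al.GR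

end

section

/-!
The unit.
-/

namespace Pool.Agent.MP_f7db47_al.GR

open Matrix KN

universe v w

variable {A : Type v} [Ring A] {Λ σ : Type} [DecidableEq σ] {H : Fam A Λ} {n : ℕ}
  {X : DC A Λ (Option σ)}

section Aux

variable {I I' K K' L : Type}

theorem v6_kr [Fintype I] [Fintype K] (E : Matrix K' K ℤ) (C : K → Matrix I' I A)
    (f : Matrix (I × K) L A) (x : I' × K') (i : L) :
    (kr E C * f) x i = ∑ κ, E x.2 κ • (C κ * f.submatrix (·, κ) id) x.1 i := by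
  simp only [Matrix.mul_apply, Fintype.sum_prod_type_right, kr, Finset.smul_sum, smul_mul_assoc,
    submatrix_apply, id]

theorem v6_sum {E : KK n → ℤ} (F : ℤ × ℕ × Bool → A) (a : ℤ × ℕ × Bool) (Q : Prop) [Decidable Q]
    (hE : ∀ κ, E κ = if κ.1 = a ∧ Q then 1 else 0)
    (ha : F a ≠ 0 → -(n : ℤ) ≤ a.1 ∧ a.1 + a.2.1 ≤ n ∧ (a.2.1 = 0 → a.2.2 = false)) :
    ∑ κ, E κ • F κ.1 = if Q then F a else 0 := by
  by_cases h0 : F a = 0
  · rw [h0, ite_self]
    refine Finset.sum_eq_zero fun κ _ => ?_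
    rw [hE]
    split_ifs with h
    · rw [h.1, h0, smul_zero]
    · exact zero_smul _ _
  · obtain ⟨κ, rfl⟩ : ∃ κ : KK n, κ.1 = a := ⟨⟨a, ha h0⟩, rfl⟩
    rw [Fintype.sum_eq_single κ fun κ' h => by
      rw [hE, if_neg fun c => h (Subtype.ext c.1), zero_smul], hE]
    by_cases q : Q <;> simp [q]

/-- Matrices that lower the weight by `r`. -/
def v6_ho (m : I → ℤ) (r : ℤ) (f : Matrix I I A) : Prop := ∀ i j, f i j ≠ 0 → m i + r = m j

theorem v6_mul [Fintype I] {m : I → ℤ} {r r' : ℤ} {f g : Matrix I I A} (h : v6_ho m r f)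
    (h' : v6_ho m r' g) : v6_ho m (r + r') (f * g) := fun i k e => by
  obtain ⟨j, -, hj⟩ := Finset.exists_ne_zero_of_sum_ne_zero e
  have h1 := h i j (left_ne_zero_of_mul hj)
  have h2 := h' j k (right_ne_zero_of_mul hj)
  omega

theorem v6_ite {P Q : Prop} [Decidable P] [Decidable Q] {a : A} (h : a ≠ 0 → (P ↔ Q)) :
    (if P then a else 0) = if Q then a else 0 := by
  by_cases e : a = 0
  · rw [e, ite_self, ite_self]
  · exact if_congr (h e) rfl rfl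

theorem v6_nz [Fintype I] (p : Matrix I I A) (d : Bool → Matrix I I A) (r : ℕ) (e : Bool) :
    wrd p d r (nz r e) = wrd p d r e := by
  cases r <;> rfl

theorem v6_ne {κ : KK n} {e : Bool} (h : κ.e ≠ nz κ.r e) : ∃ r, κ.r = r + 1 ∧ κ.e = !e := by
  unfold nz at h
  split_ifs at h with c
  · exact absurd (κ.2.2.2 c) h
  · exact ⟨κ.r - 1, by omega, Bool.eq_not_iff.2 h⟩

end Aux

theorem v6_W (hH : LR H) (hX : DOk H X) (r : ℕ) (e : Bool) :
    v6_ho (X.m none) r (wrd X.p (X.d none) r e) :=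
  fun i j h => ((wrd_ent hH hX none r e i j).2 h).2.1

omit [DecidableEq σ] in
theorem v6_hm {d : ℤ} {f : Matrix X.J X.J A} (h : Hm (grF _ H) d X.t X.t f) :
    v6_ho (X.m none) 0 f := fun i j e => (add_zero _).trans (congrFun ((h i j).1.2 e) none)

theorem v6_d (hX : DOk H X) (ε : Bool) : v6_ho (X.m none) 1 (X.d none ε) := fun i j e => by
  have := ((hm_vd_iff.1 (hX.okd none ε).hD i j).2 e).2.1
  omega

theorem v6_ds (hX : DOk H X) (s : σ) (ε : Bool) : v6_ho (X.m none) 0 (X.d (some s) ε) :=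
  fun i j e => (add_zero _).trans
    (((hm_vd_iff.1 (hX.okd (some s) ε).hD i j).2 e).2.2 none (Option.some_ne_none s).symm)

theorem v6_eta (hH : LR H) (hX : DOk H X) (x : (X.J × Bool) × KK n) (i : X.J) :
    eta n X x i = if x.1.2 = false ∧ x.2.l = X.m none x.1.1 then
      wrd X.p (X.d none) x.2.r x.2.e x.1.1 i else 0 :=
  v6_ite fun e => and_congr_right fun _ => and_iff_left_of_imp fun c => by
    rw [c, v6_W hH hX _ _ _ _ e]

theorem v6_eta_mul (hH : LR H) (hX : DOk H X) (g : Matrix X.J X.J A) (x : (X.J × Bool) × KK n)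
    (i : X.J) : (eta n X * g) x i = if x.1.2 = false ∧ x.2.l = X.m none x.1.1 then
      (wrd X.p (X.d none) x.2.r x.2.e * g) x.1.1 i else 0 := by
  simp only [Matrix.mul_apply, v6_eta hH hX]
  split_ifs <;> simp

theorem v6_psi (hH : LR H) (hX : DOk H X) (f : Matrix X.J X.J (A × A)) (κ : KK n)
    (y : X.J × Bool) (i : X.J) :
    (psi (X.m none) (X.m none) κ.l f * (eta n X).submatrix (·, κ) id) y i =
      if val (X.m none) κ.l y ∧ κ.l + κ.r = X.m none i then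
        (f.map (br A y.2) * wrd X.p (X.d none) κ.r κ.e) y.1 i else 0 := by
  have e : ∀ k, ∑ b, psi (X.m none) (X.m none) κ.l f y (k, b) * eta n X ((k, b), κ) i =
      if val (X.m none) κ.l y ∧ κ.l + κ.r = X.m none i then
        br A y.2 (f y.1 k) * wrd X.p (X.d none) κ.r κ.e k i else 0 := fun k => by
    rw [Fintype.sum_bool, eta, if_neg (by simp), mul_zero, zero_add, eta, psi, ite_zero_mul_ite_zero]
    refine v6_ite fun c => ?_
    have := v6_W hH hX κ.r κ.e k i (right_ne_zero_of_mul c)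
    exact ⟨fun h => ⟨h.1.1, h.2.2.2⟩, fun h => ⟨⟨h.1, .inr ⟨by dsimp only; omega, rfl⟩,
      .inl (by dsimp only; omega)⟩, rfl, by dsimp only; omega, h.2⟩⟩
  simp only [Matrix.mul_apply, Fintype.sum_prod_type, submatrix_apply, id, e, map_apply]
  split_ifs <;> simp

omit [DecidableEq σ] in
theorem v6_val {g : Matrix X.J X.J A} {r : ℕ} (hg : v6_ho (X.m none) r g) (l : ℤ) (y : X.J × Bool)
    (i : X.J) : (if val (X.m none) l y ∧ l + r = X.m none i then g y.1 i else 0) =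
      if y.2 = false ∧ l = X.m none y.1 then g y.1 i else 0 := v6_ite fun c => by
  have := hg _ _ c
  exact ⟨fun h => h.1.elim (fun _ => by omega) fun k => ⟨k.2, k.1.symm⟩,
    fun h => ⟨.inr ⟨h.2.symm, h.1⟩, by omega⟩⟩

theorem v6_vm (hH : LR H) (hX : DOk H X) {g : Matrix X.J X.J A} (h0 : v6_ho (X.m none) 0 g)
    (hp : g * X.p = X.p * g) (hd : ∀ e, g * X.d none e = X.d none e * g) (κ : KK n)
    (y : X.J × Bool) (i : X.J) :
    (psi (X.m none) (X.m none) κ.l (pr g g) * (eta n X).submatrix (·, κ) id) y i =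
      (eta n X * g) (y, κ) i := by
  rw [v6_psi hH hX, br_pr, Bool.cond_self, v6_eta_mul hH hX, wrd_comm hp hd]
  exact v6_val (add_zero (κ.r : ℤ) ▸ v6_mul (v6_W hH hX κ.r κ.e) h0) _ _ _

theorem v6_ep (hH : LR H) (hX : DOk H X) : eta n X * X.p = eta n X := by
  ext x i
  rw [v6_eta_mul hH hX, wrd_p hX.ok.pp, v6_eta hH hX]

theorem v6_pp (hH : LR H) (hX : DOk H X) (κ : KK n) :
    psi (X.m none) (X.m none) κ.l (pr X.p X.p) * (eta n X).submatrix (·, κ) id =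
      (eta n X).submatrix (·, κ) id := by
  ext y i
  rw [v6_vm hH hX (v6_hm hX.ok.hp) rfl
    (fun e => (hX.okd none e).pD.trans (hX.okd none e).Dp.symm), v6_ep hH hX]
  rfl

theorem v6_one {I L : Type} [Fintype I] (j : I → ℤ) (g : Matrix I I (A × A))
    (f : Matrix ((I × Bool) × KK n) L A) (y : I × Bool) (κ : KK n) (i : L) :
    (vm n j j g * f) (y, κ) i = (psi j j κ.l g * f.submatrix (·, κ) id) y i := by
  simp [vm, v6_kr, Matrix.one_apply]

theorem v6_Ed (hH : LR H) (hX : DOk H X) (hL : Lw n (Tot X)) (ε : Bool) :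
    kr (Ed n ε) (fun κ => psi (X.m none) (X.m none) κ.l (pr X.p X.p)) * eta n X =
      eta n X * X.d none ε := by
  ext ⟨y, κ⟩ i
  have hp := fun e => (hX.okd none e).pD
  have hp' := fun e => (hX.okd none e).Dp
  have e0 : ∀ r, lst r (lst r ε) = ε := fun r => by unfold lst; split_ifs <;> simp
  rw [v6_kr, v6_eta_mul hH hX]
  simp only [v6_pp hH hX, submatrix_apply, id, v6_eta hH hX]
  refine (v6_sum (fun a => if y.2 = false ∧ a.1 = X.m none y.1 then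
    wrd X.p (X.d none) a.2.1 a.2.2 y.1 i else 0) (κ.l, κ.r + 1, lst (κ.r + 1) ε)
    (κ.e = nz κ.r (lst (κ.r + 1) ε)) (fun κ' => if_congr ⟨?_, ?_⟩ rfl rfl) fun c => ?_).trans ?_
  · rintro ⟨h1, h2, h3, h4⟩
    have : κ'.e = lst (κ.r + 1) ε := by
      rw [← h1, ← h2]; unfold lst; split_ifs <;> simp
    exact ⟨Prod.ext h3.symm (Prod.ext h1 this), this ▸ h4⟩
  · rintro ⟨h1, h2⟩
    simp only [KK.l, KK.r, KK.e, h1] at h2 ⊢
    exact ⟨trivial, e0 _, trivial, h2⟩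
  · obtain ⟨c1, c2⟩ := ite_ne_right_iff.1 c
    have h1 := v6_W hH hX _ _ _ _ c2
    have h2 : X.m none i ≤ n := (hL i).2
    exact ⟨κ.2.1, by dsimp only at *; omega, fun h => absurd h (Nat.succ_ne_zero _)⟩
  · split_ifs with h1 h2 h2
    · rw [h1, v6_nz, wrd_succ' hp hp', e0]
    · rfl
    · obtain ⟨r, h3, h4⟩ := v6_ne h1
      have : lst (r + 1) κ.e = ε := by
        rw [h4, h3, ← e0 (r + 1 + 1)]
        simp only [lst, Nat.even_add_one (n := r + 1)]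
        split_ifs <;> simp
      rw [h3, ← this, wrd_d hp hp' fun e => (hX.okd none e).DD]
      rfl
    · rfl

omit [DecidableEq σ] in
theorem v6_sub (κ : KK n) :
    ((sg A fun x : (X.J × Bool) × KK n => x.2.l) * eta n X).submatrix (·, κ) id =
      κ.l.negOnePow • (eta n X).submatrix (·, κ) id := by
  ext z k
  exact sg_mul_apply _ _ _ _

theorem v6_tau (hH : LR H) (hX : DOk H X) (e : Bool) (κ : KK n) (y : X.J × Bool) (i : X.J) :
    (tau A (X.m none) e κ.l * (eta n X).submatrix (·, κ) id) y i = if y.2 = e then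
      (if κ.l + κ.r = X.m none i then wrd X.p (X.d none) κ.r κ.e y.1 i else 0) else 0 := by
  rw [tau_mul_apply]
  simp only [submatrix_apply, id, v6_eta hH hX, true_and]
  refine if_congr Iff.rfl ?_ rfl
  have := v6_W hH hX κ.r κ.e y.1 i
  by_cases c : X.m none y.1 = κ.l
  · rw [if_pos c, if_pos c.symm]
    exact (if_pos trivial).symm.trans (v6_ite fun h => by have := this h; simp; omega)
  · rw [if_neg c, if_neg (c := e = false ∧ _) fun h => c h.2.symm, ite_self]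
    exact (if_neg id).symm.trans (v6_ite fun h => by have := this h; simp; omega)

theorem v6_vk (hH : LR H) (hX : DOk H X) (hL : Lw n (Tot X)) (y : X.J × Bool) (κ : KK n) (i : X.J) :
    (vk n (Tot X) * ((sg A fun x : (X.J × Bool) × KK n => x.2.l) * eta n X)) (y, κ) i =
      -(κ.l.negOnePow • if κ.l + κ.r = X.m none i then
        (X.d none y.2 * wrd X.p (X.d none) κ.r κ.e) y.1 i else 0) := by
  unfold vk
  rw [Matrix.sum_mul, Matrix.sum_apply]
  simp only [v6_kr, v6_sub, Matrix.mul_smul, Matrix.mul_assoc, v6_pp hH hX, Matrix.smul_apply,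
    v6_tau hH hX]
  rw [Fintype.sum_eq_single y.2 fun e h => by simp [h.symm]]
  simp only [if_true]
  refine (v6_sum (fun a => a.1.negOnePow • if a.1 + a.2.1 = X.m none i then
    wrd X.p (X.d none) a.2.1 a.2.2 y.1 i else 0) (κ.l - 1, κ.r + 1, y.2)
    (κ.e = nz κ.r (!y.2)) (fun κ' => if_congr ⟨?_, ?_⟩ rfl rfl) fun c => ?_).trans ?_
  · rintro ⟨h1, h2, h3, h4⟩
    exact ⟨Prod.ext (eq_sub_of_add_eq h3.symm) (Prod.ext h1 h2), h4⟩
  · rintro ⟨h1, h2⟩
    simp only [KK.l, KK.r, KK.e, h1] at h2 ⊢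
    exact ⟨trivial, trivial, (sub_add_cancel _ _).symm, h2⟩
  · obtain ⟨c1, c2⟩ := ite_ne_right_iff.1 (right_ne_zero_of_smul c)
    have h1 := v6_W hH hX _ _ _ _ c2
    have h2 : -(n : ℤ) ≤ X.m none y.1 := (hL y.1).1
    have h3 : κ.l + κ.r ≤ n := κ.2.2.1
    exact ⟨by dsimp only at *; omega, by dsimp only; omega, fun h => absurd h (Nat.succ_ne_zero _)⟩
  · by_cases h1 : κ.e = nz κ.r !y.2
    · rw [if_pos h1, h1, v6_nz, Int.negOnePow_sub, Int.negOnePow_one, mul_neg_one, Units.neg_smul]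
      exact congrArg (fun z => -(κ.l.negOnePow • z)) (if_congr (by dsimp only; omega) rfl rfl)
    · obtain ⟨r, h3, h4⟩ := v6_ne h1
      rw [if_neg h1, h3, h4, Bool.not_not, d_wrd fun e => (hX.okd none e).DD]
      simp

theorem eta_map (hH : LR H) (hX : DOk H X) (hL : Lw n (Tot X)) :
    DMap H (VV n (Tot X)) X (eta n X) := by
  refine ⟨⟨⟨fun x i => ?_, ?_, v6_ep hH hX⟩, ?_⟩, ?_⟩
  · unfold eta
    split_ifs with c
    · obtain ⟨h1, h2⟩ := wrd_ent hH hX none x.2.r x.2.e x.1.1 i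
      refine ⟨⟨h1, fun e => funext fun s => ?_⟩, fun e => ?_⟩
      · cases s with
        | none => exact c.2.2
        | some s => exact (h2 e).2.2 (some s) (Option.some_ne_none s)
      · have := (h2 e).1
        have := c.2.1
        dsimp only [DC.c, DC.m] at *
        omega
    · exact ⟨zero_mem _, fun e => absurd rfl e⟩
  · ext ⟨y, κ⟩ i
    exact (v6_one _ _ _ y κ i).trans (congrFun (congrFun (v6_pp hH hX κ) y) i)
  · ext ⟨y, κ⟩ i
    have hD := v6_hm hX.ok.hD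
    have hW := v6_W hH hX κ.r κ.e
    have e1 : ∀ b, (Tot X).D.map (br A b) = sg A (X.m none) * X.D + X.d none b := fun b => by
      rw [sg_comm fun i j e => (add_zero _).symm.trans (hD i j e)]
      cases b <;> rfl
    have e2 := v6_val (add_zero (κ.r : ℤ) ▸ v6_mul hW hD) κ.l y i
    have e3 : (if val (X.m none) κ.l y ∧ κ.l + κ.r = X.m none i then
        (X.d none y.2 * wrd X.p (X.d none) κ.r κ.e) y.1 i else 0) = if κ.l + κ.r = X.m none i then
        (X.d none y.2 * wrd X.p (X.d none) κ.r κ.e) y.1 i else 0 := v6_ite fun c => by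
      have := v6_mul (v6_d hX y.2) hW _ _ c
      exact and_iff_right_of_imp fun h => .inl (by omega)
    refine (congrFun (congrFun (Matrix.mul_assoc _ _ _) _) _).trans ?_
    rw [Matrix.add_mul, Matrix.add_apply, v6_vk hH hX hL, v6_one, v6_sub, Matrix.mul_smul,
      Matrix.smul_apply, v6_psi hH hX, e1, Matrix.add_mul, Matrix.mul_assoc, Matrix.add_apply,
      sg_mul_apply, wrd_comm (hX.ok.Dp.trans hX.ok.pD.symm) (hX.cm none), v6_eta_mul hH hX, ← e3,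
      ← e2]
    split_ifs with c
    · by_cases c0 : (wrd X.p (X.d none) κ.r κ.e * X.D) y.1 i = 0
      · simp [c0]
      · have := v6_mul hW hD _ _ c0
        rw [show X.m none y.1 = κ.l by omega, smul_add, smul_smul, Int.units_mul_self, one_smul,
          add_neg_cancel_right]
    · simp
  · rintro (_ | s) ε
    · exact v6_Ed hH hX hL ε
    · ext ⟨y, κ⟩ i
      exact (v6_one _ _ _ y κ i).trans (v6_vm hH hX (v6_ds hX s ε)
        ((hX.okd _ ε).Dp.trans (hX.okd _ ε).pD.symm)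
        (fun e => hX.cd _ _ _ _ (Option.some_ne_none s)) κ y i)

theorem eta_nul (hH : LR H) (hX : DOk H X) (hL : Lw n (Tot X)) :
    WN H ((VV n (Tot X)).cone X (eta n X)) := by
  have hT := (tot_ok hX).ok
  have hp := v6_hm hX.ok.hp
  refine cone_left (lr_gr _ hH) hX.ok (vv_okc hT n) (gg_ok hT) (eta_map hH hX hL).ch
    (bet_ch hT hL) (bet_nul hH hT hL) ?_
  have key : ∀ t p D f, t = X.t → p = X.p → D = X.D → f = X.p →
      Nul (grF _ H) 1 ((Cx.mk X.J t p D).cone X.toCx f) := by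
    rintro _ _ _ _ rfl rfl rfl rfl
    exact a6_id hX.ok
  refine key _ _ _ _ (funext fun i => Prod.ext (Prod.ext rfl (funext ?_)) (add_sub_cancel_right _ _))
    ?_ ?_ ?_
  · rintro (_ | s) <;> rfl
  · ext i j
    exact (v6_ite (Q := True) fun c => iff_true_intro ((add_zero _).symm.trans (hp i j c))).trans
      (if_pos trivial)
  · have hD := v6_hm hX.ok.hD
    have : dg0 (X.m none) (X.m none) (X.D * sg A (X.m none) + X.d none false) =
        X.D * sg A (X.m none) := by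
      ext i j
      rw [dg0, Matrix.add_apply, mul_sg_apply]
      split_ifs with c
      · rw [show X.d none false i j = 0 from not_not.1 fun e => by
          have := v6_d hX false i j e
          omega, add_zero]
      · rw [show X.D i j = 0 from not_not.1 fun e => c ((add_zero _).symm.trans (hD i j e)), smul_zero]
    refine (congrArg (· * sg A (X.m none)) this).trans ?_
    rw [Matrix.mul_assoc, sg_sg, Matrix.mul_one]
  · ext i j
    obtain ⟨κ, hκ⟩ : ∃ κ : KK n, κ.1 = (X.m none i, 0, false) :=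
      ⟨⟨(X.m none i, 0, false), (hL i).1, (add_zero _).trans_le (hL i).2, fun _ => rfl⟩, rfl⟩
    rw [← hX.ok.pp, Matrix.mul_apply, Matrix.mul_apply, Fintype.sum_prod_type, Fintype.sum_prod_type]
    refine Finset.sum_congr rfl fun k _ => ?_
    rw [Fintype.sum_bool, Finset.sum_eq_zero fun κ' _ => by rw [bet, if_neg (by simp), zero_mul],
      zero_add, Fintype.sum_eq_single κ fun κ' h => by
        rw [bet, if_neg fun c => h (Subtype.ext (hκ ▸ Prod.ext c.2.1 (Prod.ext c.1 (κ'.2.2.2 c.1)))),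
          zero_mul], v6_eta hH hX, bet, ite_zero_mul_ite_zero]
    simp only [KK.l, KK.r, KK.e, hκ]
    refine (v6_ite (Q := True) fun c => iff_true_intro ?_).trans (if_pos trivial)
    have := (add_zero _).symm.trans (hp i k (left_ne_zero_of_mul c))
    exact ⟨⟨trivial, trivial, this.symm, trivial⟩, trivial, this⟩

end Pool.Agent.MP_f7db47_al.GR

end

section

/-!
Koszul duality in the diagonal case.
-/

namespace Pool.Agent.MP_f7db47_al.GR

open Matrix KN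

universe v w

section Aux

variable {A : Type v} [Ring A] {I : Type} [Fintype I] [DecidableEq I] {j : I → ℤ} {n : ℕ}
  {f g : Matrix I I (A × A)} {E E' : Matrix (KD n) (KD n) ℤ}

theorem v7_chi (l : ℤ) (f : Matrix I I (A × A)) (i' i : I) :
    chi j l f i' i = if j i ≤ l then (f i' i).1 else 0 := by
  rw [chi, mul_ind_apply]
  by_cases h : j i ≤ l <;> simp [h, br]

theorem v7_chi_mul {l l' : ℤ} (hg : Low j j g) (h : l ≤ l') :
    chi j l' f * chi j l g = chi j l (f * g) := by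
  have e : ind A {i | j i ≤ l'} * chi j l g = chi j l g := by
    ext i' i
    rw [ind_mul_apply, v7_chi]
    split_ifs with h1 h2 h2
    exacts [rfl, rfl, by_contra fun h3 =>
      h1 (((hg i' i fun e => h3 (by rw [e, Prod.fst_zero])).trans h2).trans h), rfl]
  rw [chi, Matrix.mul_assoc, e, chi, chi, Matrix.map_mul, Matrix.mul_assoc]

/-- Remove the letter and raise the level by `a`. -/
def v7_E (n : ℕ) (a : ℤ) : Matrix (KD n) (KD n) ℤ := fun κ' κ =>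
  if κ.r = κ'.r + 1 ∧ κ'.l = κ.l + a then 1 else 0

theorem v7_ne {a : ℤ} {κ' κ : KD n} (h : v7_E n a κ' κ ≠ 0) : κ.r = κ'.r + 1 ∧ κ'.l = κ.l + a :=
  (ite_ne_right_iff.1 h).1

omit [Fintype I] in
theorem v7_one {i i' : I} (h : (1 : Matrix I I ℤ) i i' ≠ 0) : i = i' :=
  by_contra fun e => h (one_apply_ne e)

theorem v7_EE (a b : ℤ) : v7_E n a * v7_E n b = 0 := by
  ext κ' κ
  refine Finset.sum_eq_zero fun k _ => by_contra fun h => ?_
  have h1 := (v7_ne (left_ne_zero_of_mul h)).1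
  have h2 := (v7_ne (right_ne_zero_of_mul h)).1
  have h3 : κ.r ≤ 1 := κ.2.2.2
  omega

omit [DecidableEq I] in
theorem v7_sum {p q : I → Prop} [DecidablePred p] [DecidablePred q] {c : Prop} [Decidable c]
    (h1 : c → ∃ k, p k ∧ q k) (h2 : ∀ k, p k → q k → c) (h3 : ∀ k k', p k → p k' → k = k') :
    ∑ k, (if p k then (1 : ℤ) else 0) * (if q k then 1 else 0) = if c then 1 else 0 := by
  split_ifs with h
  · obtain ⟨k, hp, hq⟩ := h1 h
    rw [Finset.sum_eq_single k (fun k' _ e => by rw [if_neg fun x => e (h3 _ _ x hp), zero_mul])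
      (by simp), if_pos hp, if_pos hq, mul_one]
  · refine Finset.sum_eq_zero fun k _ => ?_
    split_ifs with a b
    exacts [absurd (h2 k a b) h, mul_zero _, zero_mul _, zero_mul _]

theorem v7_ext {κ κ' : KD n} (h : κ.l = κ'.l) (h' : κ.r = κ'.r) : κ = κ' :=
  Subtype.ext (Prod.ext h h')

theorem v7_Et (κ' κ : KD n) : (v7_E n 1 * (v7_E n 1)ᵀ) κ' κ =
    if κ' = κ ∧ κ.r = 0 ∧ -(n : ℤ) < κ.l then 1 else 0 := by
  refine v7_sum ?_ (fun k a b => ?_) fun k k' a b => v7_ext (by omega) (by omega)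
  · rintro ⟨rfl, h1, h2⟩
    have h3 : κ'.l + κ'.r ≤ n := κ'.2.2.1
    refine ⟨⟨(κ'.l - 1, 1), by omega, by omega, le_rfl⟩, ?_, ?_⟩ <;>
      exact ⟨by rw [h1], (sub_add_cancel _ _).symm⟩
  · have h1 : -(n : ℤ) ≤ k.l := k.2.1
    have h2 : k.r ≤ 1 := k.2.2.2
    exact ⟨v7_ext (by omega) (by omega), by omega, by omega⟩

theorem v7_tE (κ' κ : KD n) : ((v7_E n 1)ᵀ * v7_E n 1) κ' κ = if κ' = κ ∧ κ.r = 1 then 1 else 0 := by
  refine v7_sum ?_ (fun k a b => ?_) fun k k' a b => v7_ext (by omega) (by omega)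
  · rintro ⟨rfl, h1⟩
    have h2 : -(n : ℤ) ≤ κ'.l := κ'.2.1
    have h3 : κ'.l + κ'.r ≤ n := κ'.2.2.1
    exact ⟨⟨(κ'.l + 1, 0), by omega, by omega, zero_le_one⟩, ⟨h1, rfl⟩, h1, rfl⟩
  · have h2 : κ.r ≤ 1 := κ.2.2.2
    exact ⟨v7_ext (by omega) (by omega), by omega⟩

/-- The action of a matrix along a pattern. -/
noncomputable def v7_v (j : I → ℤ) (E : Matrix (KD n) (KD n) ℤ) (f : Matrix I I (A × A)) :
    Matrix (I × KD n) (I × KD n) A := kr E fun κ => chi j κ.l f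

theorem v7_mul (hg : Low j j g) (hE : ∀ κ' κ, E κ' κ ≠ 0 → κ.l ≤ κ'.l) :
    v7_v j E' f * v7_v j E g = v7_v j (E' * E) (f * g) :=
  kr_mul E' fun κ' κ h => v7_chi_mul hg (hE κ' κ h)

theorem v7_m1 (hg : Low j j g) : v7_v j E' f * v7_v j 1 g = v7_v j E' (f * g) := by
  rw [v7_mul hg fun κ' κ h => by rw [v7_one h], mul_one]

theorem v7_mE (hg : Low j j g) {a : ℤ} (ha : 0 ≤ a) :
    v7_v j E' f * v7_v j (v7_E n a) g = v7_v j (E' * v7_E n a) (f * g) :=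
  v7_mul hg fun κ' κ h => by have := (v7_ne h).2; omega

theorem v7_zero : v7_v j E (0 : Matrix I I (A × A)) = 0 := by
  ext x' x
  simp [v7_v, kr, v7_chi]

theorem v7_zero' : v7_v j (0 : Matrix (KD n) (KD n) ℤ) f = 0 := kr_zero _

theorem v7_add : v7_v j E f + v7_v j E g = v7_v j E (f + g) := by
  simp only [v7_v, kr_add, chi, Matrix.map_add _ (map_add (br A false)), Matrix.add_mul]

theorem v7_ent {G : AddSubgroup A} {φ : KD n → ℤ} {x' x : I × KD n} (h : (f x'.1 x.1).1 ∈ G) :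
    kr E (fun κ => chi j (φ κ) f) x' x ∈ G ∧
      (kr E (fun κ => chi j (φ κ) f) x' x ≠ 0 → E x'.2 x.2 ≠ 0 ∧ f x'.1 x.1 ≠ 0) := by
  refine ⟨zsmul_mem ?_ _, fun e => ⟨(kr_ne e).1, fun c => (kr_ne e).2 (by simp [v7_chi, c])⟩⟩
  simp only [v7_chi]
  split_ifs
  exacts [h, zero_mem _]

theorem v7_sg {a : ℤ} (h : a = 0) (B : KD n → Matrix I I A) :
    sg A (fun x : I × KD n => x.2.l) * kr (v7_E n a) B = kr (v7_E n a) B * sg A fun x => x.2.l :=
  sg_comm fun _ _ e => by have := (v7_ne (kr_ne e).1).2; omega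

theorem v7_sg1 (B : KD n → Matrix I I A) :
    sg A (fun x : I × KD n => x.2.l) * kr 1 B = kr 1 B * sg A fun x => x.2.l :=
  sg_comm fun _ _ e => by rw [v7_one (kr_ne e).1]

theorem v7_ring {D K S P u Q : A} (uu : u * u = 1) (uS : u * S = -(S * u)) (uD : u * D = D * u)
    (uK : u * K = -(K * u)) (pD : P * ((D + K) * u) = (D + K) * u) (KP : K * P = K)
    (PP : P * P = P) (h : K * S + Q + S * K = P) :
    (D + K) * u * (u * (S * P)) + u * (S * P) * ((D + K) * u) + Q * P - P = D * S * P - S * D := by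
  have h1 : u * ((D + K) * u) = D - K := by
    rw [← mul_assoc, mul_add, uD, uK, ← neg_mul, ← add_mul, mul_assoc, uu, mul_one, sub_eq_add_neg]
  have h2 := congrArg (· * P) h
  simp only [add_mul, PP, mul_assoc S, KP] at h2
  rw [mul_assoc _ u, ← mul_assoc u u, uu, one_mul, mul_assoc u, mul_assoc S, pD, ← mul_assoc u, uS,
    neg_mul, mul_assoc S, h1, ← mul_assoc, add_mul, add_mul, mul_sub]
  linear_combination (norm := abel) h2

end Aux

variable {A : Type v} [Ring A] {Λ σ : Type} [DecidableEq σ] {H : Fam A Λ} {n : ℕ}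
  {Y : DC (A × A) (Λ × ℤ) σ}

omit [DecidableEq σ] in
theorem v7_low {Γ I : Type} {d : ℤ} {s : I → ((Λ × ℤ) × Γ) × ℤ} {f : Matrix I I (A × A)}
    (h : Hm (grF Γ (eF H)) d s s f) : Low (fun i => (s i).1.1.2) (fun i => (s i).1.1.2) f :=
  fun i j c => not_lt.1 fun e => c ((h i j).1.1.2.2.2 e)

omit [DecidableEq σ] in
theorem v7_hm {d e d' : ℤ} {f : Matrix Y.J Y.J (A × A)} (hf : Hm (grF _ (eF H)) d Y.t Y.t f)
    {E : Matrix (KD n) (KD n) ℤ} {φ : KD n → ℤ} (he : d' = d + e)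
    (hE : ∀ κ' κ, E κ' κ ≠ 0 → κ'.l + κ'.r = κ.l + κ.r ∧ κ.l = κ'.l + e) :
    Hm (grF _ H) d' (VD n Y).t (VD n Y).t (kr E fun κ => chi (lw Y) (φ κ) f) := fun x' x => by
  obtain ⟨h1, h2⟩ := v7_ent (j := lw Y) (E := E) (φ := φ) (hf x'.1 x.1).1.1.1
  refine ⟨⟨h1, fun c => funext fun s => ?_⟩, fun c => ?_⟩
  · cases s
    exacts [(hE _ _ (h2 c).1).1, congrFun ((hf _ _).1.2 (h2 c).2) _]
  · have := (hE _ _ (h2 c).1).2
    have := (hf _ _).2 (h2 c).2
    simp only [DC.c]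
    omega

theorem v7_hv {d : ℤ} {s : σ} {ε : Bool} {f : Matrix Y.J Y.J (A × A)}
    (hf : Hm (grF _ (eF H)) d (Y.vd s ε).t (Y.vd s ε).t f) :
    Hm (grF _ H) d ((VD n Y).vd (some s) ε).t ((VD n Y).vd (some s) ε).t (v7_v (lw Y) 1 f) := by
  rw [hm_vd_iff] at hf ⊢
  intro x' x
  obtain ⟨h1, h2⟩ := v7_ent (j := lw Y) (E := 1) (φ := KD.l) (hf x'.1 x.1).1.1
  refine ⟨h1, fun c => ?_⟩
  obtain ⟨h3, h4, h5⟩ := (hf _ _).2 (h2 c).2
  have h6 := v7_one (h2 c).1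
  refine ⟨by simp only [DC.c, h6] at h3 ⊢; rw [h3], h4, fun s' h => ?_⟩
  cases s' with
  | none => simp only [DC.m, h6, Option.elim]
  | some s' => exact h5 s' fun e => h (congrArg _ e)

omit [DecidableEq σ] in
theorem v7_D : (VD n Y).D =
    (v7_v (lw Y) 1 Y.D + v7_v (lw Y) (v7_E n 1) Y.p) * sg A fun x => x.2.l := rfl

omit [DecidableEq σ] in
theorem v7_d (ε : Bool) : (VD n Y).d none ε = v7_v (lw Y) (v7_E n 0) Y.p := by
  unfold v7_v v7_E
  simp only [add_zero]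
  rfl

omit [DecidableEq σ] in
theorem v7_okc (hY : Ok (grF _ (eF H)) Y.toCx) (n : ℕ) : Ok (grF _ H) (VD n Y).toCx := by
  have lp := v7_low hY.hp
  have lD := v7_low hY.hD
  have e1 : ∀ κ' κ : KD n, (1 : Matrix _ _ ℤ) κ' κ ≠ 0 →
      κ'.l + κ'.r = κ.l + κ.r ∧ κ.l = κ'.l + 0 := fun κ' κ h => by simp [v7_one h]
  have s2 : sg A (fun x : Y.J × KD n => x.2.l) * v7_v (lw Y) (v7_E n 1) Y.p =
      -(v7_v (lw Y) (v7_E n 1) Y.p * sg A fun x => x.2.l) :=
    sg_anti fun _ _ e => Or.inl (v7_ne (kr_ne e).1).2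
  refine ⟨v7_hm hY.hp rfl e1, hm_mul_sg ((v7_hm hY.hD rfl e1).add (v7_hm hY.hp (e := -1) rfl
    fun κ' κ h => by have := v7_ne h; omega)) _, (v7_m1 lp).trans (by rw [hY.pp]; rfl), ?_, ?_, ?_⟩
  · change v7_v (lw Y) 1 Y.p * _ = _
    rw [v7_D, ← mul_assoc, mul_add, v7_m1 lD, v7_mE lp zero_le_one, hY.pD, hY.pp, one_mul]
  · change _ * v7_v (lw Y) 1 Y.p = _
    rw [v7_D, mul_assoc, v7_v.eq_1 _ 1 Y.p, v7_sg1, ← v7_v, ← mul_assoc, add_mul, v7_m1 lp,
      v7_m1 lp, hY.Dp, hY.pp]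
  · rw [v7_D, mul_assoc, ← mul_assoc (sg _ _), mul_add, s2, v7_v.eq_1 _ 1 Y.D, v7_sg1, ← v7_v,
      ← neg_mul, ← add_mul, mul_assoc, sg_sg, mul_one, add_mul, mul_add, mul_add, mul_neg, mul_neg,
      v7_m1 lD, v7_m1 lD, v7_mE lp zero_le_one, v7_mE lp zero_le_one, v7_EE, hY.DD, hY.Dp, hY.pD,
      v7_zero, v7_zero', one_mul]
    abel

theorem vd_ok (hY : DOk (eF H) Y) (n : ℕ) : DOk H (VD n Y) := by
  have h0 := v7_okc hY.ok n
  have lp := v7_low hY.ok.hp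
  have lD := v7_low hY.ok.hD
  have ld : ∀ s ε, Low (lw Y) (lw Y) (Y.d s ε) := fun s ε =>
    v7_low (s := (Y.vd s ε).t) (hY.okd s ε).hD
  have pd : ∀ s ε, Y.p * Y.d s ε = Y.d s ε := fun s ε => (hY.okd s ε).pD
  have dp : ∀ s ε, Y.d s ε * Y.p = Y.d s ε := fun s ε => (hY.okd s ε).Dp
  have ds : ∀ s ε, (VD n Y).d (some s) ε = v7_v (lw Y) 1 (Y.d s ε) := fun _ _ => rfl
  have hp : (VD n Y).p = v7_v (lw Y) 1 Y.p := rfl
  refine ⟨h0, fun s ε => ⟨hm_vd h0.hp s ε, ?_, h0.pp, ?_, ?_, ?_⟩, fun s ε => ?_,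
    fun s s' ε ε' h => ?_⟩
  · cases s with
    | some s => exact v7_hv (hY.okd s ε).hD
    | none =>
      change Hm _ _ _ _ ((VD n Y).d none ε)
      rw [v7_d]
      refine hm_vd_iff.2 fun x' x => ?_
      obtain ⟨h1, h2⟩ := v7_ent (j := lw Y) (E := v7_E n 0) (φ := KD.l) (hY.ok.hp x'.1 x.1).1.1.1
      refine ⟨h1, fun c => ?_⟩
      have h3 := v7_ne (h2 c).1
      have h4 := (hY.ok.hp _ _).2 (h2 c).2
      refine ⟨by simp only [DC.c]; omega, by simp only [DC.m, Option.elim]; omega, fun s' h => ?_⟩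
      cases s' with
      | none => exact absurd rfl h
      | some s' => exact congrFun ((hY.ok.hp _ _).1.2 (h2 c).2) _
  · change (VD n Y).p * (VD n Y).d s ε = (VD n Y).d s ε
    cases s
    · rw [hp, v7_d, v7_mE lp le_rfl, hY.ok.pp, one_mul]
    · rw [hp, ds, v7_m1 (ld _ _), pd]
  · change (VD n Y).d s ε * (VD n Y).p = (VD n Y).d s ε
    cases s
    · rw [hp, v7_d, v7_m1 lp, hY.ok.pp]
    · rw [hp, ds, v7_m1 lp, dp]
  · change (VD n Y).d s ε * (VD n Y).d s ε = 0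
    cases s
    · rw [v7_d, v7_mE lp le_rfl, v7_EE, v7_zero']
    · rw [ds, v7_m1 (ld _ _), (hY.okd _ ε).DD, v7_zero]
  · cases s
    · rw [v7_D, v7_d, mul_assoc, v7_v.eq_1 _ (v7_E n 0), v7_sg rfl, ← v7_v, ← mul_assoc,
        ← mul_assoc, add_mul, mul_add, v7_mE lp le_rfl, v7_mE lp le_rfl, v7_m1 lD,
        v7_mE lp zero_le_one, v7_EE, v7_EE, hY.ok.Dp, hY.ok.pD, one_mul]
    · rw [v7_D, ds, mul_assoc, v7_v.eq_1 _ 1 (Y.d _ _), v7_sg1, ← v7_v, ← mul_assoc,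
        ← mul_assoc, add_mul, mul_add, v7_m1 (ld _ _), v7_m1 (ld _ _), v7_m1 lD,
        v7_mE lp zero_le_one, hY.cm, pd, dp, one_mul]
  · rcases s with _ | s <;> rcases s' with _ | s'
    · exact absurd rfl h
    · rw [v7_d, ds, v7_m1 (ld _ _), v7_mE lp le_rfl, pd, dp, one_mul]
    · rw [v7_d, ds, v7_m1 (ld _ _), v7_mE lp le_rfl, pd, dp, one_mul]
    · rw [ds, ds, v7_m1 (ld _ _), v7_m1 (ld _ _), hY.cd s s' ε ε' fun e => h (congrArg _ e)]

theorem vd_ac (hY : DOk (eF H) Y) {s : σ} (h : Ac (eF H) Y s) (n : ℕ) :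
    Ac H (VD n Y) (some s) := fun ε => by
  obtain ⟨k, h1, h2⟩ := h ε
  refine ⟨v7_v (lw Y) 1 k, v7_hv h1, ?_⟩
  change v7_v (lw Y) 1 (Y.d s ε) * _ + _ * v7_v (lw Y) 1 (Y.d s ε) = (1 : A) • v7_v (lw Y) 1 Y.p
  rw [v7_m1 (v7_low h1), v7_m1 (v7_low (hY.okd s ε).hD), v7_add, h2, one_smul, one_smul]

theorem beD_nul (hH : LR H) (hY : DOk (eF H) Y) (hL : Lw n Y) :
    Ch (grF _ H) (GG Y) (VD n Y).toCx (beD n Y) ∧
      Nul (grF _ H) 1 ((GG Y).cone (VD n Y).toCx (beD n Y)) := by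
  have hG := gg_ok hY.ok
  have hX := v7_okc hY.ok n
  have lp := v7_low hY.ok.hp
  have lD := v7_low hY.ok.hD
  have hH' := lr_gr (Option σ → ℤ) hH
  let e : Y.J → Y.J × KD n := fun i =>
    (i, ⟨(lw Y i, 0), (hL i).1, by simpa using (hL i).2, zero_le_one⟩)
  have he : ∀ i x, e i = x ↔ x.1 = i ∧ x.2.r = 0 ∧ x.2.l = lw Y i := fun i x =>
    ⟨fun h => h ▸ ⟨rfl, rfl, rfl⟩, fun h => Prod.ext h.1.symm (v7_ext h.2.2.symm h.2.1.symm)⟩
  have ht : (fun i => (VD n Y).t (e i)) = (GG Y).t := funext fun i => by simp [e, KD.l, KD.r]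
  obtain ⟨π, hπ⟩ : ∃ π : Matrix Y.J (Y.J × KD n) A, π = (1 : Matrix _ _ A).submatrix e id :=
    ⟨_, rfl⟩
  have a1 : ∀ M : Matrix (Y.J × KD n) (Y.J × KD n) A, π * M = M.submatrix e id := fun M => by
    rw [hπ]
    exact one_submatrix_mul e (Equiv.refl _) M
  have a2 : ∀ {K : Type} (M : Matrix K (Y.J × KD n) A), M * πᵀ = M.submatrix id e := fun M => by
    rw [hπ, transpose_submatrix, transpose_one]
    exact mul_submatrix_one (Equiv.refl _) e M
  have a3 : ∀ {K : Type} (M : Matrix K Y.J A) k x, (M * π) k x = if e x.1 = x then M k x.1 else 0 :=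
    fun M k x => by
      rw [mul_apply, Finset.sum_eq_single x.1 (fun i _ c => ?_) (by simp), hπ, submatrix_apply,
        one_apply, mul_boole]
      · rfl
      · rw [hπ, submatrix_apply, id, one_apply_ne fun h => c ((he _ _).1 h).1.symm, mul_zero]
  have a4 : π * πᵀ = 1 := by
    rw [a2, hπ, submatrix_submatrix]
    exact submatrix_one e fun _ _ h => congrArg Prod.fst h
  have a5 : ∀ f, Low (lw Y) (lw Y) f →
      π * v7_v (n := n) (lw Y) 1 f = dg0 (lw Y) (lw Y) (f.map (br A false)) * π := fun f hf => by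
    ext i x
    rw [a1, a3]
    by_cases c : f i x.1 = 0
    · simp [v7_v, kr, v7_chi, dg0, c, e]
    have := hf _ _ c
    simp only [submatrix_apply, v7_v, kr, v7_chi, dg0, id, one_apply, he, ite_smul, one_smul,
      zero_smul, true_and]
    by_cases c1 : (e i).2 = x.2
    · have c2 : x.2.r = 0 ∧ x.2.l = lw Y i := c1 ▸ ⟨rfl, rfl⟩
      rw [if_pos c1]
      split_ifs <;> first | rfl | omega
    · rw [if_neg c1]
      split_ifs with c2 c3
      exacts [absurd (v7_ext (c3.trans c2.2.symm) c2.1.symm) c1, rfl, rfl]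
  have a6 : π * v7_v (lw Y) (v7_E n 1) Y.p = 0 := by
    ext i x
    rw [a1]
    refine by_contra fun (c : v7_v (lw Y) (v7_E n 1) Y.p (e i) x ≠ 0) => ?_
    have h1 : lw Y i = x.2.l + 1 := (v7_ne (kr_ne c).1).2
    have h2 := (kr_ne c).2
    rw [v7_chi, ite_ne_right_iff] at h2
    have h3 : lw Y i ≤ lw Y x.1 := lp _ _ fun c => h2.2 (congrArg Prod.fst c)
    omega
  have a7 : sg A (lw Y) * π = π * sg A fun x : Y.J × KD n => x.2.l := sg_comm fun i x c => by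
    rw [hπ] at c
    exact ((he _ _).1 (by_contra fun h => c (one_apply_ne h))).2.2.symm
  obtain ⟨P, hP⟩ : ∃ P, P = v7_v (n := n) (lw Y) 1 Y.p := ⟨_, rfl⟩
  have hP' : (VD n Y).p = P := hP.symm
  have PP : P * P = P := hP' ▸ hX.pp
  have hp : Hm (grF _ H) 0 (VD n Y).t (VD n Y).t P := hP' ▸ hX.hp
  have gp : π * P = (GG Y).p * π := hP ▸ a5 _ lp
  have hb : beD n Y = π * P := by
    ext i x
    rw [gp, a3]
    simp only [beD, he, dg0, true_and]
    split_ifs <;> first | rfl | omega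
  have ch : Ch (grF _ H) (GG Y) (VD n Y).toCx (beD n Y) := by
    refine ⟨⟨?_, by rw [hb, gp, ← Matrix.mul_assoc, hG.pp], ?_⟩, ?_⟩
    · rw [hb, a1, ← ht]
      exact hp.submatrix e id
    · rw [hP', hb, Matrix.mul_assoc, PP]
    · rw [hb, Matrix.mul_assoc π, ← hP', hX.pD, hP', gp,
        ← Matrix.mul_assoc, hG.Dp, v7_D, ← Matrix.mul_assoc, Matrix.mul_add, a6, add_zero, a5 _ lD,
        Matrix.mul_assoc, Matrix.mul_assoc, a7]
  obtain ⟨S, hS⟩ : ∃ S, S = kr (v7_E n 1)ᵀ fun κ => chi (lw Y) (κ.l - 1) Y.p := ⟨_, rfl⟩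
  have b0 : ∀ (B : KD n → Matrix Y.J Y.J A) x y, kr (v7_E n 1)ᵀ B x y ≠ 0 →
      x.2.r = y.2.r + 1 ∧ y.2.l = x.2.l + 1 := fun B x y c => v7_ne (kr_ne c).1
  have b1 : ∀ (E : Matrix (KD n) (KD n) ℤ) f, v7_v (lw Y) E f * S =
      kr (E * (v7_E n 1)ᵀ) fun κ => chi (lw Y) (κ.l - 1) (f * Y.p) := fun E f =>
    hS ▸ kr_mul E fun κ' κ c => v7_chi_mul lp (by have := (v7_ne c).2; omega)
  have b2 : S * v7_v (lw Y) (v7_E n 1) Y.p = v7_v (lw Y) ((v7_E n 1)ᵀ * v7_E n 1) Y.p :=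
    hS ▸ kr_mul _ fun κ' κ c => by
      rw [v7_chi_mul lp (by have := (v7_ne c).2; omega), hY.ok.pp]
  have b3 : ∀ f, S * v7_v (lw Y) 1 f =
      kr (v7_E n 1)ᵀ fun κ => chi (lw Y) (κ.l - 1) Y.p * chi (lw Y) κ.l f := fun f => by
    rw [hS, v7_v, kr_mul _ fun κ' κ c => by rw [v7_one c], Matrix.mul_one]
  have PS : P * S = S := by rw [hP, b1, one_mul, hY.ok.pp, hS]
  obtain ⟨u, hu⟩ : ∃ u, u = sg A fun x : Y.J × KD n => x.2.l := ⟨_, rfl⟩
  have sP : u * P = P * u := by rw [hu, hP, v7_v, v7_sg1]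
  have key : v7_v (lw Y) (v7_E n 1) Y.p * S + P * πᵀ * π + S * v7_v (lw Y) (v7_E n 1) Y.p = P := by
    ext x y
    have := (hL y.1).1
    have h1 : -(n : ℤ) ≤ y.2.l := y.2.2.1
    have h2 : y.2.r ≤ 1 := y.2.2.2.2
    rw [b1, b2, hY.ok.pp, Matrix.add_apply, Matrix.add_apply, a3, a2, submatrix_apply]
    by_cases c : e y.1 = y
    · have := (he _ _).1 c
      simp only [c, if_true, id, v7_v, kr, v7_Et, v7_tE, v7_chi]
      rw [if_neg (by omega : ¬lw Y y.1 ≤ _), if_neg (by omega : ¬(x.2 = y.2 ∧ y.2.r = 1)), smul_zero,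
        zero_smul, zero_add, add_zero]
    · simp only [he, true_and] at c
      simp only [he, true_and, c, if_false, hP, v7_v, kr, v7_Et, v7_tE, v7_chi, one_apply,
        ite_smul, one_smul, zero_smul, add_zero]
      by_cases c' : x.2 = y.2
      · simp only [c', true_and, if_true]
        split_ifs <;> first | omega | simp
      · simp only [c', false_and, if_false, add_zero]
  refine ⟨ch, cone_wt hH' hG hX ch (i := P * πᵀ * (GG Y).p) (h := u * (S * P))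
    ⟨Hm.mul hH' ?_ hG.hp (add_zero _).symm, ?_, by rw [Matrix.mul_assoc, hG.pp]⟩ ⟨hu ▸ hm_sg_mul (Hm.mul hH' ?_
      hp (add_zero _).symm) _, ?_, ?_⟩ ?_ ?_ (fun x => x.2.r) fun x y c => ?_⟩
  · rw [a2, ← ht]
    exact hp.submatrix id e
  · rw [hP', ← Matrix.mul_assoc, ← Matrix.mul_assoc, PP]
  · exact hS ▸ v7_hm hY.ok.hp (e := 1) rfl fun κ' κ c => by have := v7_ne c; omega
  · rw [hP', ← mul_assoc, ← sP, mul_assoc, ← mul_assoc P, PS]
  · rw [hP', mul_assoc, mul_assoc, PP]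
  · rw [hb, Matrix.mul_assoc, ← Matrix.mul_assoc P, ← Matrix.mul_assoc P, PP, ← Matrix.mul_assoc,
      ← Matrix.mul_assoc, gp, Matrix.mul_assoc _ π, a4, Matrix.mul_one, hG.pp]
  · have : π * S = 0 := by
      ext i x
      rw [a1]
      exact by_contra fun (c : S (e i) x ≠ 0) =>
        absurd (b0 _ _ _ (hS ▸ c)).1 (Nat.succ_ne_zero _).symm
    rw [hb, Matrix.mul_assoc, ← mul_assoc, ← sP, mul_assoc, ← mul_assoc P, PS, ← Matrix.mul_assoc,
      hu, ← a7, Matrix.mul_assoc, ← Matrix.mul_assoc π, this, Matrix.zero_mul, Matrix.mul_zero]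
  · have uS : u * S = -(S * u) := by
      rw [hu, hS]
      exact sg_anti fun x y c => Or.inr (by have := (b0 _ _ _ c).2; omega)
    have pD := hX.pD
    rw [hP', v7_D, ← hu] at pD
    rw [hP', v7_D, ← hu, Matrix.mul_assoc _ _ (beD n Y), ch.pl, hb, ← Matrix.mul_assoc _ π,
      v7_ring (hu ▸ sg_sg _) uS (hu ▸ v7_sg1 _)
        (hu ▸ sg_anti fun _ _ e => Or.inl (v7_ne (kr_ne e).1).2) pD
        (by rw [hP, v7_m1 lp, hY.ok.pp]) PP key,
      b1, b3, hP, v7_v, kr_mul _ fun κ' κ c => by rw [v7_one c], Matrix.mul_one,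
      one_mul, Matrix.sub_apply] at c
    have z : ∀ B, ¬y.2.r < x.2.r → kr (v7_E n 1)ᵀ B x y = (0 : A) := fun B h =>
      by_contra fun c => h (by have := (b0 B x y c).1; omega)
    exact by_contra fun h => c (by rw [z _ h, z _ h, sub_zero])

end Pool.Agent.MP_f7db47_al.GR

end

section

/-!
The comparison map in the diagonal case.
-/

namespace Pool.Agent.MP_f7db47_al.GR

open Matrix KN

universe v w

variable {A : Type v} [Ring A] {Λ σ : Type} [DecidableEq σ] {H : Fam A Λ} {n : ℕ}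
  {Y : DC (A × A) (Λ × ℤ) σ}

section
variable {I : Type} [Fintype I] [DecidableEq I] {j : I → ℤ} {l : ℤ} {f g : Matrix I I (A × A)}

/-- The diagonal in level `l`. -/
def v7b_dc (j : I → ℤ) (l l' : ℤ) (f : Matrix I I (A × A)) : Matrix (I × Bool) I A :=
  fun x i => if val j l x ∧ j i ≤ l' then (f x.1 i).1 else 0

omit [DecidableEq I] in
theorem v7b_sum (c : Prop) [Decidable c] (a b : I) :
    (if c then ((f * g) a b).1 else 0) = ∑ i, if c then (f a i).1 * (g i b).1 else 0 := by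
  split_ifs
  · rw [Matrix.mul_apply, Prod.fst_sum]; rfl
  · exact Finset.sum_const_zero.symm

omit [DecidableEq I] in
theorem v7b_psi (hf : f.map (RingHom.prod (RingHom.fst A A) (RingHom.fst A A)) = f)
    (hg : Esh j j g) : psi j j l f * v7b_dc j l l g = v7b_dc j l l (f * g) := by
  ext ⟨a, e⟩ b
  have hb : ∀ i, br A e (f a i) = (f a i).1 := fun i => by
    cases e
    · rfl
    · exact (congrArg Prod.snd (congrFun₂ hf a i)).symm
  rw [v7b_dc, v7b_sum, Matrix.mul_apply, Fintype.sum_prod_type]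
  refine Finset.sum_congr rfl fun i _ => ?_
  have h0 := (hg i b).2
  simp only [psi, v7b_dc, hb, Fintype.sum_bool]
  by_cases c : val j l (a, e) <;> by_cases c' : j b ≤ l <;> simp only [c, c', true_and, and_true,
    false_and, and_false, if_false, if_true, zero_mul, mul_zero, add_zero]
  rcases lt_trichotomy (j i) l with h | h | h
  · cases e <;> simp [val, h, h.ne]
  · simp [val, h]
  · simp [h0 (c'.trans_lt h)]

theorem v7b_chi {l' : ℤ} (hl : l' ≤ l) {m : ℤ} (hg : Esh j j g) :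
    v7b_dc j m l f * chi j l' g = v7b_dc j m l' (f * g) := by
  ext x b
  rw [v7b_dc, v7b_sum, Matrix.mul_apply]
  refine Finset.sum_congr rfl fun i _ => ?_
  have h0 := (hg i b).2
  rw [chi, mul_ind_apply, v7b_dc]
  by_cases c : val j m x <;> by_cases c' : j b ≤ l' <;> simp only [c, c', true_and, and_true,
    false_and, and_false, if_false, if_true, zero_mul, mul_zero, Set.mem_ofPred_eq]
  by_cases h : j i ≤ l
  · rw [if_pos h]; rfl
  · simp [h0 (by omega)]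

theorem v7b_tau (hf : Esh j j f) :
    tau A j true l * v7b_dc j l l f + tau A j false l * v7b_dc j l l f = v7b_dc j (l + 1) l f := by
  ext ⟨a, e⟩ b
  have h0 := (hf a b).2
  rw [Matrix.add_apply, tau_mul_apply, tau_mul_apply]
  by_cases c : j b ≤ l
  · rcases lt_trichotomy (j a) l with h | h | h
    · cases e <;> simp [v7b_dc, val, h, h.ne, c, h.le]
    · cases e <;> simp [v7b_dc, val, h, c]
    · simp [v7b_dc, h0 (c.trans_lt h), h.ne', h.not_gt]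
  · simp [v7b_dc, c]

end

/-- The pattern of the comparison map. -/
def v7b_Z (n : ℕ) : Matrix (KK n) (KD n) ℤ := fun k' k => if k'.l = k.l ∧ k'.r = k.r then 1 else 0

/-- The word with a given first letter. -/
def v7b_up (k : KD n) (e : Bool) : KK n :=
  ⟨(k.l, k.r, nz k.r e), k.2.1, k.2.2.1, fun h => if_pos h⟩

theorem v7b_ne {k' : KK n} {k : KD n} (h : v7b_Z n k' k ≠ 0) : k'.l = k.l ∧ k'.r = k.r :=
  by_contra fun c => h (if_neg c)

theorem v7b_e {k : KK n} (h : k.r = 0) (e : Bool) : k.e = nz k.r e :=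
  (k.2.2.2 h).trans (if_pos h).symm

theorem v7b_one {M : Type v} [AddCommMonoid M] (F : KK n → M) (k : KD n) (e : Bool)
    (h : ∀ k', F k' ≠ 0 → k'.l = k.l ∧ k'.r = k.r ∧ k'.e = nz k.r e) :
    ∑ k', F k' = F (v7b_up k e) :=
  Finset.sum_eq_single _ (fun _ _ c => by_contra fun d => c (Subtype.ext
    (Prod.ext (h _ d).1 (Prod.ext (h _ d).2.1 (h _ d).2.2)))) fun c => absurd (Finset.mem_univ _) c

/-- The patterns in the diagonal case. -/
def v7b_E (n : ℕ) (c : ℤ) : Matrix (KD n) (KD n) ℤ :=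
  fun k' k => if k.r = k'.r + 1 ∧ k'.l = k.l + c then 1 else 0

theorem v7b_pat {E : Matrix (KK n) (KK n) ℤ} (c : ℤ) (e : Bool)
    (h : ∀ k' k, k.r ≤ 1 → E k' k = if k.r = k'.r + 1 ∧ k.e = e ∧ k'.l = k.l + c then 1 else 0) :
    E * v7b_Z n = v7b_Z n * v7b_E n c := by
  have h' : ∀ k' k, v7b_E n c k' k = if k.r = k'.r + 1 ∧ k'.l = k.l + c then 1 else 0 :=
    fun _ _ => rfl
  ext k' k
  have hk : k.r ≤ 1 := k.2.2.2
  rw [Matrix.mul_apply, Matrix.mul_apply, Finset.sum_eq_single (v7b_up k e),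
    h _ _ hk, show v7b_Z n (v7b_up k e) k = 1 from if_pos ⟨rfl, rfl⟩, mul_one]
  · by_cases d : k.r = k'.r + 1 ∧ k'.l = k.l + c
    · obtain ⟨k₀, e1, e2⟩ : ∃ k₀ : KD n, k₀.l = k'.l ∧ k₀.r = k'.r :=
        ⟨⟨(k'.l, k'.r), k'.2.1, k'.2.2.1, by have := d.1; change k'.r ≤ 1; omega⟩, rfl, rfl⟩
      rw [if_pos ⟨d.1, if_neg (by omega), d.2⟩, Finset.sum_eq_single k₀, h', e1, e2, if_pos d,
        mul_one]
      · exact (if_pos ⟨e1.symm, e2.symm⟩).symm
      · exact fun b _ hb => mul_eq_zero_of_left (if_neg fun a => hb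
          (Subtype.ext (Prod.ext (e1.trans a.1).symm (e2.trans a.2).symm))) _
      · exact fun a => absurd (Finset.mem_univ _) a
    · rw [if_neg fun a => d ⟨a.1, a.2.2⟩, Finset.sum_eq_zero fun b _ => ?_]
      by_contra a
      obtain ⟨a1, a2⟩ := v7b_ne (left_ne_zero_of_mul a)
      exact right_ne_zero_of_mul a ((h' _ _).trans (if_neg (by rwa [← a1, ← a2])))
  · intro b _ hb
    by_contra a
    obtain ⟨a1, a2⟩ := v7b_ne (right_ne_zero_of_mul a)
    refine left_ne_zero_of_mul a ((h _ _ (a2 ▸ hk)).trans (if_neg fun d => hb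
      (Subtype.ext (Prod.ext a1 (Prod.ext a2 (d.2.1.trans (if_neg ?_).symm))))))
    omega
  · exact fun a => absurd (Finset.mem_univ _) a

omit [DecidableEq σ] in
theorem v7b_zet : zet n Y = kr (v7b_Z n) fun k => v7b_dc (lw Y) k.l k.l Y.p := by
  ext x' x
  simp only [zet, kr, v7b_Z, v7b_dc, ite_smul, one_smul, zero_smul, ← ite_and, and_assoc]

theorem zet_map (hY : DOk (eF H) Y)
    (hF : DFix (RingHom.prod (RingHom.fst A A) (RingHom.fst A A)) Y) :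
    DMap H (VV n Y) (VD n Y) (zet n Y) := by
  have hp : Esh (lw Y) (lw Y) Y.p := esh_of hY.ok.hp
  have L : ∀ (E : Matrix (KK n) (KK n) ℤ) {f : Matrix Y.J Y.J (A × A)},
      f.map (RingHom.prod (RingHom.fst A A) (RingHom.fst A A)) = f → f * Y.p = f →
      kr E (fun k => psi (lw Y) (lw Y) k.l f) * zet n Y =
        kr (E * v7b_Z n) fun k => v7b_dc (lw Y) k.l k.l f := fun E f a b => by
    rw [v7b_zet]
    exact kr_mul _ fun k' k h => by rw [(v7b_ne h).1, v7b_psi a hp, b]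
  have R : ∀ (c : ℤ) (E : Matrix (KD n) (KD n) ℤ) {f : Matrix Y.J Y.J (A × A)}, 0 ≤ c →
      (∀ k' k, E k' k ≠ 0 → k'.l = k.l + c) → Esh (lw Y) (lw Y) f → Y.p * f = f →
      zet n Y * kr E (fun k => chi (lw Y) k.l f) =
        kr (v7b_Z n * E) fun k => v7b_dc (lw Y) (k.l + c) k.l f := fun c E f hc hE a b => by
    rw [v7b_zet]
    exact kr_mul _ fun k' k h => by rw [hE _ _ h, v7b_chi (by omega) a, b]
  have h1 : ∀ k' k : KD n, (1 : Matrix (KD n) (KD n) ℤ) k' k ≠ 0 → k'.l = k.l + 0 :=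
    fun k' k h => by_contra fun c => h (one_apply_ne fun e => c (by rw [e, add_zero]))
  have C : ∀ {f : Matrix Y.J Y.J (A × A)},
      f.map (RingHom.prod (RingHom.fst A A) (RingHom.fst A A)) = f → f * Y.p = f →
      Esh (lw Y) (lw Y) f → Y.p * f = f →
      vm n (lw Y) (lw Y) f * zet n Y =
        zet n Y * kr (1 : Matrix (KD n) (KD n) ℤ) fun k => chi (lw Y) k.l f :=
    fun a b c d => by
      rw [vm, L _ a b, R 0 1 le_rfl h1 c d, Matrix.one_mul, Matrix.mul_one]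
      simp only [add_zero]
  have pl : vm n (lw Y) (lw Y) Y.p * zet n Y = zet n Y := by
    rw [vm, L _ hF.1.1 hY.ok.pp, Matrix.one_mul, v7b_zet]
  refine ⟨⟨⟨fun x' x => ?_, pl, (C hF.1.1 hY.ok.pp hp hY.ok.pp).symm.trans pl⟩, ?_⟩, ?_⟩
  · have h := hY.ok.hp x'.1.1 x.1
    unfold zet
    split_ifs with c
    · have h0 : (Y.p x'.1.1 x.1).1 ≠ 0 → Y.p x'.1.1 x.1 ≠ 0 := fun a b => a (by rw [b]; rfl)
      refine ⟨⟨h.1.1.1, fun a => ?_⟩, fun a => ?_⟩
      · simp only [c.1, c.2.1, h.1.2 (h0 a)]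
      · simp only [c.1, h.2 (h0 a), add_zero]
    · exact ⟨zero_mem _, fun a => absurd rfl a⟩
  · have hs := sg_comm (u' := fun x : (Y.J × Bool) × KK n => x.2.l)
      (u := fun x : Y.J × KD n => x.2.l) (f := zet n Y)
      fun x' x h => by_contra fun c => h (if_neg fun d => c d.1)
    have hk : ∀ e, kr (Ek n e) (fun k => tau A (lw Y) e k.l * psi (lw Y) (lw Y) k.l Y.p) * zet n Y =
        kr (v7b_Z n * v7b_E n 1) fun k => tau A (lw Y) e k.l * v7b_dc (lw Y) k.l k.l Y.p :=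
      fun e => by
      rw [v7b_zet, ← v7b_pat (E := Ek n e) 1 e fun k' k h => if_congr (and_congr_right fun a =>
        and_congr_right fun _ => and_iff_left (v7b_e (by omega) _)) rfl rfl]
      exact kr_mul _ fun k' k h => by
        rw [(v7b_ne h).1, Matrix.mul_assoc, v7b_psi hF.1.1 hp, hY.ok.pp]
    have key : (vm n (lw Y) (lw Y) Y.D + vk n Y) * zet n Y = zet n Y *
        (kr (1 : Matrix (KD n) (KD n) ℤ) (fun k => chi (lw Y) k.l Y.D) +
          kr (v7b_E n 1) fun k => chi (lw Y) k.l Y.p) := by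
      rw [Matrix.add_mul, Matrix.mul_add, C hF.1.2 hY.ok.Dp (esh_of hY.ok.hD) hY.ok.pD, vk,
        Fintype.sum_bool, Matrix.add_mul, hk, hk, kr_add,
        R 1 (v7b_E n 1) zero_le_one (fun k' k h => by_contra fun c => h (if_neg fun d => c d.2))
          hp hY.ok.pp]
      simp only [v7b_tau hp]
    exact (Matrix.mul_assoc _ _ _).trans <| (congrArg _ hs).trans <|
      (Matrix.mul_assoc _ _ _).symm.trans <| (congrArg (· * _) key).trans (Matrix.mul_assoc _ _ _)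
  · rintro (_ | s) ε
    · have key := R 0 (v7b_E n 0) le_rfl
        (fun k' k h => by_contra fun c => h (if_neg fun d => c d.2)) hp hY.ok.pp
      rw [← v7b_pat (E := Ed n ε) 0 ε fun k' k h => if_congr (and_congr_right fun a => ?_) rfl rfl]
        at key
      · unfold v7b_E at key
        simp only [add_zero] at key
        exact (L _ hF.1.1 hY.ok.pp).trans key.symm
      · rw [and_iff_left (v7b_e (by omega) _), show k.r = 1 by omega, add_zero]
        rfl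
    · have := esh_of (hY.okd s ε).hD
      exact C (hF.2 s ε) (hY.okd s ε).Dp this (hY.okd s ε).pD

omit [DecidableEq σ] in
theorem v7b_bet (hp : Esh (lw Y) (lw Y) Y.p) (pp : Y.p * Y.p = Y.p) :
    bet n Y * zet n Y = beD n Y := by
  ext a ⟨b, k⟩
  rw [beD, ← pp, v7b_sum, Matrix.mul_apply, Fintype.sum_prod_type, Fintype.sum_prod_type]
  refine Finset.sum_congr rfl fun i _ => ?_
  have h0 := (hp a i).2
  have h1 := (hp i b).2
  rw [Fintype.sum_bool, Finset.sum_eq_zero fun k' _ => by simp [bet], zero_add,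
    v7b_one _ k false fun k' h => ?_]
  · by_cases c : k.r = 0 ∧ k.l = lw Y a
    · rcases lt_trichotomy (lw Y i) (lw Y a) with h | h | h
      · simp [bet, h0 h]
      · rcases lt_trichotomy (lw Y b) (lw Y a) with h' | h' | h'
        · simp [zet, h1 (h ▸ h')]
        · simp [bet, zet, v7b_up, val, c.1, c.2, h, h']
        · simp [zet, c.2, h'.ne', h'.not_ge]
      · by_cases d : lw Y b = lw Y a
        · simp [zet, h1 (d ▸ h)]
        · simp [bet, h.ne', d]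
    · rw [if_neg fun d => c ⟨d.1, d.2.1⟩]
      exact mul_eq_zero_of_left (if_neg fun d => c ⟨d.1, d.2.1⟩) _
  · have a1 := by_contra fun c => left_ne_zero_of_mul h (if_neg c)
    have a2 := by_contra fun c => right_ne_zero_of_mul h (if_neg c)
    exact ⟨a2.1, a2.2.1, a2.2.1 ▸ v7b_e a1.1 _⟩

theorem zet_nul (hH : LR H) (hY : DOk (eF H) Y) (hL : Lw n Y)
    (hF : DFix (RingHom.prod (RingHom.fst A A) (RingHom.fst A A)) Y) :
    WN H ((VV n Y).cone (VD n Y) (zet n Y)) :=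
  cone_left (lr_gr _ hH) (vd_ok hY n).ok (vv_okc hY.ok n) (gg_ok hY.ok) (zet_map hY hF).ch
    (bet_ch hY.ok hL) (bet_nul hH hY.ok hL)
    (by rw [v7b_bet (esh_of hY.ok.hp) hY.ok.pp]; exact (beD_nul hH hY hL).2)

end Pool.Agent.MP_f7db47_al.GR

end

section

/-!
Additive invariants of complexes of multicomplexes.
-/

namespace Pool.Agent.MP_f7db47_al.GR

open Matrix KN

universe v w

section Fam

variable {A : Type v} [Ring A] {Λ σ : Type} [DecidableEq σ] {H : Fam A Λ} {X' X X'' : DC A Λ σ}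

theorem d2_ctr {a : Spl X'.J X.J X''.J} (h : Tri X' X X'' a) (s : σ) (ε : Bool) :
    CTr (X'.vd s ε) (X.vd s ε) (X''.vd s ε) a :=
  ⟨fun i => congrArg (fun z => ((z.1.1, Function.update z.1.2 s z.2), z.1.2 s)) (h.c.tl i),
    fun i => congrArg (fun z => ((z.1.1, Function.update z.1.2 s z.2), z.1.2 s)) (h.c.tr i),
    h.c.p, h.d s ε⟩

theorem d2_mp {f : Matrix X.J X'.J A} (h : Mp (grF _ H) 0 X.toCx X'.toCx f) (s : σ) (ε : Bool) :
    Mp (grF _ H) 0 (X.vd s ε) (X'.vd s ε) f := ⟨hm_vd h.hm s ε, h.pl, h.pr⟩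

theorem d2_ch {f : Matrix X.J X'.J A} (h : DMap H X X' f) (s : σ) (ε : Bool) :
    Ch (grF _ H) (X.vd s ε) (X'.vd s ε) f := ⟨d2_mp h.ch.toMp s ε, h.cm s ε⟩

theorem d2_comm {I J : Type} [Fintype I] [Fintype J] {g : Matrix I J A} {f : Matrix J I A}
    {P u u' : Matrix I I A} {x x' : Matrix J J A} (e : g * f = P) (h1 : u * g = g * x)
    (h2 : u' * g = g * x') (e1 : u * P = u) (e2 : u' * P = u') (h : x * x' = x' * x) :
    u * u' = u' * u := by
  have k : ∀ {u u' : Matrix I I A} {x x' : Matrix J J A}, u * g = g * x → u' * g = g * x' →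
      u' * P = u' → u * u' = g * (x * x') * f := fun {u u' x x'} a b c => by
    rw [← Matrix.mul_assoc g, ← a, Matrix.mul_assoc u, ← b, Matrix.mul_assoc, Matrix.mul_assoc, e,
      c]
  rw [k h1 h2 e2, k h2 h1 e1, h]

theorem Tri.ok {a : Spl X'.J X.J X''.J} (h : Tri X' X X'' a) (hX : DOk H X) :
    DOk H X' ∧ DOk H X'' := by
  have h1 := fun s ε => (h.c.D.mul (h.d s ε)).eq (hX.cm s ε ▸ (h.d s ε).mul h.c.D)
  have h2 := fun s s' ε ε' c =>
    ((h.d s ε).mul (h.d s' ε')).eq (hX.cd s s' ε ε' c ▸ (h.d s' ε').mul (h.d s ε))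
  exact ⟨⟨(h.c.ok hX.ok).1, fun s ε => ((d2_ctr h s ε).ok (hX.okd s ε)).1, fun s ε => (h1 s ε).1,
      fun s s' ε ε' c => (h2 s s' ε ε' c).1⟩,
    (h.c.ok hX.ok).2, fun s ε => ((d2_ctr h s ε).ok (hX.okd s ε)).2, fun s ε => (h1 s ε).2,
      fun s s' ε ε' c => (h2 s s' ε ε' c).2⟩

theorem Tri.ses (hH : LR H) {a : Spl X'.J X.J X''.J} (h : Tri X' X X'' a) (hX : DOk H X) :
    Ses H X' X X'' := by
  obtain ⟨h1, h2, h3⟩ := h.c.ses (lr_gr _ hH) hX.ok
  have h4 := fun s ε => (d2_ctr h s ε).ses (lr_gr _ hH) (hX.okd s ε)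
  exact ⟨_, _, _, _, ⟨h1, fun s ε => (h4 s ε).1.cm⟩, ⟨h2, fun s ε => (h4 s ε).2.1.cm⟩, h3⟩

/-- A short exact sequence is isomorphic to an extension. -/
theorem Ses.ext (hH : LR H) (h' : DOk H X') (hX : DOk H X) (h'' : DOk H X'') (h : Ses H X' X X'') :
    ∃ t τ f g, DOk H (X'.ext X'' t τ) ∧ DMap H X (X'.ext X'' t τ) f ∧
      DMap H (X'.ext X'' t τ) X g ∧ f * g = X.p ∧ g * f = (X'.ext X'' t τ).p := by
  obtain ⟨i, q, r, u, hi, hq, hr, hu, e1, e2, e3⟩ := h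
  obtain ⟨a1, a2, a3, a4, a5⟩ := ses_ext (lr_gr _ hH) h'.ok hX.ok h''.ok hi.ch hq.ch hr hu e1 e2 e3
  have b := fun s ε => ses_ext (lr_gr _ hH) (h'.okd s ε) (hX.okd s ε) (h''.okd s ε) (d2_ch hi s ε)
    (d2_ch hq s ε) (d2_mp hr s ε) (d2_mp hu s ε) e1 e2 e3
  have o := h'.ok.ext h''.ok a1
  have o' := fun s ε => (h'.okd s ε).ext (h''.okd s ε) (b s ε).1
  refine ⟨r * X.D * u, fun s ε => r * X.d s ε * u, fromCols i u, fromRows r q,
    ⟨o, fun s ε => ?_, fun s ε => d2_comm a5 a3.cm (b s ε).2.2.1.cm o.Dp (o' s ε).Dp (hX.cm s ε),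
      fun s s' ε ε' c => d2_comm a5 (b s ε).2.2.1.cm (b s' ε').2.2.1.cm (o' s ε).Dp (o' s' ε').Dp
        (hX.cd s s' ε ε' c)⟩,
    ⟨a2, fun s ε => (b s ε).2.1.cm⟩, ⟨a3, fun s ε => (b s ε).2.2.1.cm⟩, a4, a5⟩
  rw [vd_ext]
  exact o' s ε

theorem Ac.retract (hH : LR H) (hX : DOk H X) (h' : DOk H X') {s : σ} {f : Matrix X.J X'.J A}
    {g : Matrix X'.J X.J A} (hf : Hm (grF _ H) 0 X.t X'.t f) (hg : Hm (grF _ H) 0 X'.t X.t g)
    (cf : ∀ ε, X.d s ε * f = f * X'.d s ε) (cg : ∀ ε, X'.d s ε * g = g * X.d s ε)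
    (e : g * X.p * f = X'.p) (h0 : Ac H X s) : Ac H X' s := by
  intro ε
  obtain ⟨k, k1, k2⟩ := h0 ε
  refine ⟨g * k * f, ((hm_vd hg s ε).mul (lr_gr _ hH) k1 rfl).mul (lr_gr _ hH) (hm_vd hf s ε)
    (by omega), ?_⟩
  rw [a2_conj (Z := X'.vd s ε) (Y := X.vd s ε) (Y' := X.vd s ε) (X := X'.vd s ε) (cg ε) (cf ε), k2,
    one_smul, one_smul]
  exact e

theorem Ses.ac_left (hH : LR H) (h' : DOk H X') (hX : DOk H X) (h'' : DOk H X'')
    (h : Ses H X' X X'') {s : σ} (h0 : Ac H X s) (h1 : Ac H X'' s) : Ac H X' s := by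
  obtain ⟨t, τ, f, g, o, hf, hg, -, e⟩ := h.ext hH h' hX h''
  exact Ac.left hH o (Ac.retract hH hX o hf.ch.hm hg.ch.hm (hf.cm s) (hg.cm s)
    (by rw [hg.ch.pr, e]) h0) h1

theorem Ses.ac_mid (hH : LR H) (h' : DOk H X') (hX : DOk H X) (h'' : DOk H X'')
    (h : Ses H X' X X'') {s : σ} (h0 : Ac H X' s) (h1 : Ac H X'' s) : Ac H X s := by
  obtain ⟨t, τ, f, g, o, hf, hg, e, -⟩ := h.ext hH h' hX h''
  exact Ac.retract hH o hX hg.ch.hm hf.ch.hm (hg.cm s) (hf.cm s) (by rw [hf.ch.pr, e])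
    (Ac.ext hH o h0 h1)

end Fam

variable {𝒮 : Sys.{v}} {σ : Type} [DecidableEq σ] {T : Set σ} {X' X X'' Y : DC 𝒮.A 𝒮.Λ σ}
  {M : Type w} [AddCommGroup M] {κ : DC 𝒮.A 𝒮.Λ σ → M} {f : Matrix Y.J X.J 𝒮.A}

/-- The source of a weak equivalence to an object is an object. -/
theorem DOb.of_qi (hS : 𝒮.Good) (hY : DOb 𝒮 T Y) (hX : DOk 𝒮.H X) (hf : DMap 𝒮.H Y X f)
    (h0 : WN 𝒮.H (Y.cone X f)) (ha : ∀ s ∈ T, Ac 𝒮.H X s) : DOb 𝒮 T X := by
  have o := hY.ok.cone hX hf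
  have h1 := TorS.right (𝒮 := 𝒮.gr (σ → ℤ)) (hS.gr _)
    (Ob.of_nul (𝒮 := 𝒮.gr (σ → ℤ)) o.ok (hS.gr _) h0).tor hY.tor hf.ch.tw
  exact ⟨hX, fun a => (h1 a).imp fun _ c => ⟨c.1, (sub_sh_sh X.toCx 1).nul_iff.2 (c.2.sh (-1))⟩, ha,
    fun s hs => (tac_sh hX).1 (TAc.right hS.mul o (WN.tac hS.mul o h0 s) (hY.tac s hs))⟩

theorem d2_cone (hκ : Add0 𝒮 T κ) (hS : 𝒮.Good) (hY : DOb 𝒮 T Y) (hX : DOb 𝒮 T X)
    (hf : DMap 𝒮.H Y X f) (h0 : WN 𝒮.H (Y.cone X f)) : κ X.sh = -κ Y := by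
  have o := hY.ok.cone hX.ok hf
  rw [eq_neg_iff_add_eq_zero, add_comm, ← hκ.ext Y X.sh f 0 hY hX.sh o]
  exact hκ.nul _ (hY.ext hS hX.sh o) h0

theorem Add0.sh (hκ : Add0 𝒮 T κ) (hS : 𝒮.Good) (hX : DOb 𝒮 T X) : κ X.sh = -κ X :=
  d2_cone hκ hS hX hX
    ⟨Ch.id hX.ok.ok, fun s ε => (hX.ok.okd s ε).Dp.trans (hX.ok.okd s ε).pD.symm⟩ (a6_id hX.ok.ok)

theorem Add0.qi (hκ : Add0 𝒮 T κ) (hS : 𝒮.Good) (hY : DOb 𝒮 T Y) (hX : DOb 𝒮 T X)
    (hf : DMap 𝒮.H Y X f) (h0 : WN 𝒮.H (Y.cone X f)) : κ X = κ Y :=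
  neg_injective ((hκ.sh hS hX).symm.trans (d2_cone hκ hS hY hX hf h0))

theorem Add0.ses (hκ : Add0 𝒮 T κ) (hS : 𝒮.Good) (h' : DOb 𝒮 T X') (hX : DOk 𝒮.H X)
    (h'' : DOb 𝒮 T X'') (h : Ses 𝒮.H X' X X'') : DOb 𝒮 T X ∧ κ X = κ X' + κ X'' := by
  obtain ⟨t, τ, f, g, o, hf, hg, e, e'⟩ := h.ext hS.mul h'.ok hX h''.ok
  have hE := h'.ext hS h'' o
  have h0 : WN 𝒮.H ((X'.ext X'' t τ).cone X g) :=
    cone_nul (lr_gr _ hS.mul) hX.ok o.ok (g := f) (h := 0) (k := 0)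
      ⟨hg.ch, hf.ch, Hm.zero _ _, Hm.zero _ _, by simp [e], by simp [e']⟩
  have h1 := hE.of_qi hS hX hg h0 fun s hs =>
    h.ac_mid hS.mul h'.ok hX h''.ok (h'.ac s hs) (h''.ac s hs)
  exact ⟨h1, (hκ.qi hS hE h1 hg h0).trans (hκ.ext _ _ t τ h' h'' o)⟩

theorem Add0.tri (hκ : Add0 𝒮 T κ) (hS : 𝒮.Good) {a : Spl X'.J X.J X''.J} (h : Tri X' X X'' a)
    (h' : DOb 𝒮 T X') (hX : DOk 𝒮.H X) (h'' : DOb 𝒮 T X'') :
    DOb 𝒮 T X ∧ κ X = κ X' + κ X'' := hκ.ses hS h' hX h'' (h.ses hS.mul hX)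

end Pool.Agent.MP_f7db47_al.GR

end

section

/-!
From the graded form to a new binary direction.
-/

namespace Pool.Agent.MP_f7db47_al.GR

open Matrix KN

universe v w

open Filter

theorem v8_lw {A : Type v} [Ring A] {Λ σ : Type} (Y : DC (A × A) (Λ × ℤ) σ) :
    ∀ᶠ n in atTop, Lw n Y :=
  eventually_all.2 fun i => (eventually_ge_atTop (lw Y i).natAbs).mono fun n h => by omega

theorem v8_ob {𝒮 : Sys.{v}} {σ : Type} [DecidableEq σ] (hS : 𝒮.Good)
    {Y : DC (𝒮.A × 𝒮.A) (𝒮.Λ × ℤ) σ} (h : DOb 𝒮.E Set.univ Y) {n : ℕ} (hL : Lw n Y) :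
    DOb 𝒮 (Set.range some) (VV n Y) := by
  refine ⟨vv_ok h.ok n, fun a => ?_, ?_, fun s hs => ?_⟩
  · obtain ⟨_, ⟨u, hu, rfl⟩, h1⟩ := h.tor (some a)
    have e : eF 𝒮.H ≤ eF (𝒮.L a) := fun i j x hx =>
      ⟨hS.le a _ _ hx.1, hS.le a _ _ hx.2.1, hx.2.2⟩
    exact ⟨u, hu, vv_nul (hS.mulL a) (h.ok.mono e).ok (hS.sc a u hu) h1 n⟩
  · rintro _ ⟨s, rfl⟩
    exact vv_ac h.ok (h.ac s trivial) n
  · obtain ⟨u, hu, h1⟩ := h.tor none
    obtain rfl : u = 1 := hu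
    cases s with
    | none => exact vv_tac hS.mul h.ok hL h1
    | some s => exact absurd ⟨s, rfl⟩ hs

theorem zd_opt {𝒮 : Sys.{v}} {σ : Type} [DecidableEq σ] (hS : 𝒮.Good)
    (h : ZD.{v, w} 𝒮.E σ Set.univ) : ZD.{v, w} 𝒮 (Option σ) (Set.range some) := by
  intro M _ κ hκ X hX
  have z : ∀ Y : DC (𝒮.A × 𝒮.A) (𝒮.Λ × ℤ) σ, (∀ n, Lw n Y → κ (VV n Y) = 0) →
      Germ.ofFun (l := atTop) (fun n => κ (VV n Y)) = 0 := fun Y e =>
    Germ.coe_eq.2 ((v8_lw Y).mono e)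
  have h1 := h (Germ atTop M) (fun Y => Germ.ofFun fun n => κ (VV n Y))
    ⟨⟨fun Y Y' t τ hY hY' ho => Germ.coe_eq.2 (((v8_lw Y).and (v8_lw Y')).mono fun n e =>
        (hκ.toAdd0.tri hS (vv_tri (tri_ext Y Y' t τ) n) (v8_ob hS hY e.1) (vv_ok ho n)
          (v8_ob hS hY' e.2)).2),
      fun Y hY h0 => z Y fun n e =>
        hκ.nul _ (v8_ob hS hY e) (vv_nul hS.mul hY.ok.ok Sc.one h0 n)⟩,
      fun s Y hY h0 => z Y fun n e =>
        hκ.sd (some s) _ (v8_ob hS hY e) (congrArg (vm n (lw Y) (lw Y)) h0),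
      fun b Y hY h0 => z Y fun n e => ?_⟩ (Tot X) (tot_ob hS hX)
  · obtain ⟨n, e, e'⟩ := ((v8_lw (Tot X)).and (Germ.coe_eq.1 h1)).exists
    exact (hκ.toAdd0.qi hS (v8_ob hS (tot_ob hS hX) e) hX (eta_map hS.mul hX.ok e)
      (eta_nul hS.mul hX.ok e)).trans e'
  · cases b with
    | some b => exact hκ.wd b _ (v8_ob hS hY e) (vv_fix h0 n)
    | none =>
      have h2 := zet_map (n := n) hY.ok h0
      have h3 := zet_nul hS.mul hY.ok e h0
      have h4 : DOb 𝒮 (Set.range some) (VD n Y) := (v8_ob hS hY e).of_qi hS (vd_ok hY.ok n) h2 h3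
        (Set.forall_mem_range.2 fun s => vd_ac hY.ok (hY.ac s trivial) n)
      exact (hκ.toAdd0.qi hS (v8_ob hS hY e) h4 h2 h3).symm.trans (hκ.sd none _ h4 rfl)

end Pool.Agent.MP_f7db47_al.GR

end

section

/-!
Acyclicity of single terms.
-/

namespace Pool.Agent.MP_f7db47_al.GR

open Matrix KN

universe v w

variable {A : Type v} [Ring A] {Λ σ : Type} [DecidableEq σ] {H : Fam A Λ} {X' X X'' : DC A Λ σ}
  {s : σ} {k : ℤ}

omit [DecidableEq σ] in
theorem r0_l {I : Type} (f : Matrix X.J I A) (i : X.J) (j : I) :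
    (X.ic k * f) i j = if X.c i = k then f i j else 0 := by
  rw [DC.ic, ind_mul_apply]
  by_cases c : X.c i = k <;> simp [c]

omit [DecidableEq σ] in
theorem r0_r {I : Type} (f : Matrix I X.J A) (i : I) (j : X.J) :
    (f * X.ic k) i j = if X.c j = k then f i j else 0 := by
  rw [DC.ic, mul_ind_apply]
  by_cases c : X.c j = k <;> simp [c]

omit [DecidableEq σ] in
theorem r0_shift {Y : DC A Λ σ} {f : Matrix Y.J X.J A} {k' : ℤ}
    (h : ∀ i j, f i j ≠ 0 → (Y.c i = k' ↔ X.c j = k)) : Y.ic k' * f = f * X.ic k := by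
  ext i j
  rw [r0_l, r0_r]
  by_cases c : f i j = 0
  · simp [c]
  · simp only [h i j c]

omit [DecidableEq σ] in
theorem ic_comm {Y : DC A Λ σ} {f : Matrix Y.J X.J A} (h : ∀ i j, f i j ≠ 0 → Y.c i = X.c j)
    (k : ℤ) : Y.ic k * f = f * X.ic k := r0_shift fun i j c => by rw [h i j c]

omit [DecidableEq σ] in
theorem ic_shift {Y : DC A Λ σ} {f : Matrix Y.J X.J A} {d : ℤ}
    (h : ∀ i j, f i j ≠ 0 → Y.c i = X.c j + d) (k : ℤ) : Y.ic (k + d) * f = f * X.ic k :=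
  r0_shift fun i j c => by rw [h i j c, add_left_inj]

omit [DecidableEq σ] in
theorem r0_ii {I : Type} (f : Matrix I X.J A) : f * X.ic k * X.ic k = f * X.ic k := by
  rw [Matrix.mul_assoc, DC.ic, ind_mul_ind, Set.inter_self]

theorem r0_vd {Y : DC A Λ σ} {f : Matrix Y.J X.J A} {d : ℤ} {ε : Bool}
    (h : Hm (grF _ H) d (Y.vd s ε).t (X.vd s ε).t f) (k : ℤ) : Y.ic k * f = f * X.ic k :=
  ic_comm (fun i j c => ((hm_vd_iff.1 h i j).2 c).1) k

omit [DecidableEq σ] in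
theorem r0_mul {f g : Matrix X.J X.J A} (h : X.ic k * g = g * X.ic k) :
    f * X.ic k * (g * X.ic k) = f * g * X.ic k := by
  rw [Matrix.mul_assoc, ← Matrix.mul_assoc _ g, h, r0_ii, Matrix.mul_assoc]

theorem r0_p (hX : DOk H X) (k : ℤ) : X.ic k * X.p = X.p * X.ic k :=
  ic_comm (fun i j c => by simpa using (hX.ok.hp i j).2 c) k

theorem r0_d (hX : DOk H X) (s : σ) (ε : Bool) (k : ℤ) : X.ic k * X.d s ε = X.d s ε * X.ic k :=
  r0_vd (hX.okd s ε).hD k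

theorem Ac.at (hX : DOk H X) (h : Ac H X s) (k : ℤ) : AcAt H X s k := fun ε => by
  obtain ⟨a, ha, e⟩ := h ε
  refine ⟨a * X.ic k, ha.mul_ind _, ?_⟩
  have e' : X.d s ε * a + a * X.d s ε = X.p := by simpa using e
  rw [Matrix.mul_assoc a, r0_d hX, ← e']
  simp only [Matrix.mul_assoc, Matrix.add_mul]

theorem ac_of_at (h : ∀ k, AcAt H X s k) : Ac H X s := fun ε => by
  choose a ha e using fun k => h k ε
  refine ⟨∑ k ∈ Finset.univ.image X.c, a k, Hm.sum _ fun k _ => ha k, ?_⟩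
  show X.d s ε * _ + _ * X.d s ε = (1 : A) • X.p
  rw [Matrix.mul_sum, Matrix.sum_mul, ← Finset.sum_add_distrib, Finset.sum_congr rfl fun k _ => e k]
  ext i j
  simp [Matrix.sum_apply, r0_r, Finset.sum_ite_eq]

theorem acAt_of_not (h : ∀ i, X.c i ≠ k) : AcAt H X s k := fun ε => by
  refine ⟨0, Hm.zero _ _, ?_⟩
  ext i j
  simp [r0_r, h j]

theorem term_ok (hX : DOk H X) (k : ℤ) : DOk H (X.term k) := by
  have hp : Hm (grF _ H) 0 (X.term k).t (X.term k).t (X.p * X.ic k) :=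
    fun i j => ⟨(hX.ok.hp.mul_ind _ i j).1, fun _ => rfl⟩
  have pp : X.p * X.ic k * (X.p * X.ic k) = X.p * X.ic k := by rw [r0_mul (r0_p hX k), hX.ok.pp]
  have hd := fun s ε => r0_d hX s ε k
  refine ⟨⟨hp, Hm.zero _ _, pp, by simp, by simp, by simp⟩, fun s ε => ⟨hm_vd hp s ε,
    hm_vd_iff.2 fun i j => ?_, pp, ?_, ?_, ?_⟩, fun s ε => by simp, fun s s' ε ε' c => ?_⟩
  · have := hm_vd_iff.1 ((hX.okd s ε).hD.mul_ind {i | X.c i = k}) i j
    exact ⟨this.1, fun c => ⟨rfl, (this.2 c).2⟩⟩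
  · exact (r0_mul (hd s ε)).trans (congrArg (· * X.ic k) (hX.okd s ε).pD)
  · exact (r0_mul (r0_p hX k)).trans (congrArg (· * X.ic k) (hX.okd s ε).Dp)
  · exact (r0_mul (hd s ε)).trans ((congrArg (· * X.ic k) (hX.okd s ε).DD).trans (by simp))
  · exact (r0_mul (hd s' ε')).trans ((congrArg (· * X.ic k) (hX.cd s s' ε ε' c)).trans
      (r0_mul (hd s ε)).symm)

theorem r0_sand (hX : DOk H X) {ε : Bool} {a : Matrix X.J X.J A}
    (e : X.ic k * (X.d s ε * X.ic k * a + a * X.ic k * X.d s ε) * X.ic k = X.ic k * X.p * X.ic k) :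
    X.d s ε * (X.ic k * a * X.ic k) + X.ic k * a * X.ic k * X.d s ε = X.p * X.ic k := by
  have hd := r0_d hX s ε k
  have h1 : X.ic k * (X.d s ε * X.ic k * a) = X.d s ε * X.ic k * a := by
    rw [← Matrix.mul_assoc, ← Matrix.mul_assoc, hd, r0_ii]
  have h2 : a * X.ic k * X.d s ε * X.ic k = a * X.ic k * X.d s ε := by
    rw [Matrix.mul_assoc, ← hd, ← Matrix.mul_assoc, r0_ii]
  rw [r0_p hX, r0_ii, Matrix.mul_add, Matrix.add_mul, h1, Matrix.mul_assoc (X.ic k), h2] at e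
  simpa only [Matrix.mul_assoc] using e

theorem r0_hm {ε : Bool} {a : Matrix X.J X.J A}
    (h : ∀ i j, X.c i = k → X.c j = k → a i j ∈ H (X.t i).1.1 (X.t j).1.1 ∧
      (a i j ≠ 0 → X.m s i = X.m s j + 1 ∧ ∀ s', s' ≠ s → X.m s' i = X.m s' j)) :
    Hm (grF _ H) 1 (X.vd s ε).t (X.vd s ε).t (X.ic k * a * X.ic k) :=
  hm_vd_iff.2 fun i j => by
    rw [r0_r, r0_l]
    split_ifs with hj hi
    · exact ⟨(h i j hi hj).1, fun c => ⟨hi.trans hj.symm, (h i j hi hj).2 c⟩⟩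
    all_goals exact ⟨zero_mem _, fun c => absurd rfl c⟩

theorem acAt_iff (hX : DOk H X) : AcAt H X s k ↔ Ac H (X.term k) s := by
  refine forall_congr' fun ε => ⟨fun ⟨a, ha, e⟩ => ⟨a * X.ic k, hm_vd_iff.2 fun i j => ?_, ?_⟩,
    fun ⟨a, ha, e⟩ => ⟨_, r0_hm (a := a) fun i j _ _ => ?_, r0_sand hX ?_⟩⟩
  · have := hm_vd_iff.1 (ha.mul_ind {i | X.c i = k}) i j
    exact ⟨this.1, fun c => ⟨rfl, (this.2 c).2⟩⟩
  · show X.d s ε * X.ic k * (a * X.ic k) + a * X.ic k * (X.d s ε * X.ic k) = (1 : A) • _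
    rw [r0_mul (r0_vd ha k), r0_mul (r0_d hX s ε k), ← Matrix.add_mul, e, r0_ii, one_smul]
  · have := hm_vd_iff.1 ha i j
    exact ⟨this.1, fun c => (this.2 c).2⟩
  · have e' : X.d s ε * X.ic k * a + a * (X.d s ε * X.ic k) = X.p * X.ic k := by simpa using e
    rw [Matrix.mul_assoc a, r0_d hX, e', ← Matrix.mul_assoc, r0_ii]

omit [DecidableEq σ] in
theorem r0_sub (f g : Matrix X.J X.J A) :
    f.submatrix (Subtype.val : {j // X.c j = k} → X.J) (Subtype.val : {j // X.c j = k} → X.J) *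
      g.submatrix (Subtype.val : {j // X.c j = k} → X.J) (Subtype.val : {j // X.c j = k} → X.J) =
      (f * X.ic k * g).submatrix Subtype.val Subtype.val := by
  ext i j
  rw [submatrix_apply, mul_apply, mul_apply]
  simp only [r0_r, submatrix_apply, ite_mul, zero_mul]
  rw [← Finset.sum_filter]
  exact (Finset.sum_subtype _ (by simp) fun l => f i l * g l j).symm

theorem r0_pc (hX : DOk H X) (ε : Bool) (k : ℤ) :
    (∃ h, Hm (grF _ H) 1 (X.vd s ε).t (X.vd s ε).t h ∧ X.d s ε * h + h * X.d s ε = X.p * X.ic k) ↔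
      Nul (grF _ H) 1 (pc (X.vT s ε) X.c k) := by
  have hD : (pc (X.vT s ε) X.c k).D = (X.d s ε).submatrix Subtype.val Subtype.val := by
    ext i j
    have : X.D i.1 j.1 = 0 := by
      by_contra c
      have h1 : X.c i.1 = X.c j.1 + -1 := (hX.ok.hD i.1 j.1).2 c
      have := i.2
      have := j.2
      omega
    simp [mul_sg_apply, this]
  rw [Nul, hD]
  refine ⟨fun ⟨a, ha, e⟩ => ⟨a.submatrix Subtype.val Subtype.val,
    Hm.submatrix (hm_vT_iff.2 fun i j => ?_) _ _, ?_⟩, fun ⟨b, hb, e⟩ => ?_⟩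
  · have := hm_vd_iff.1 ha i j
    exact ⟨this.1, fun c => ⟨by have := this.2 c; omega, (this.2 c).2.2⟩⟩
  · rw [r0_sub, r0_sub, Matrix.mul_assoc, Matrix.mul_assoc, r0_vd ha, r0_d hX,
      ← Matrix.mul_assoc, ← Matrix.mul_assoc]
    ext i j
    simpa [r0_r, j.2] using congrFun (congrFun e i.1) j.1
  · obtain ⟨a, rfl⟩ : ∃ a : Matrix X.J X.J A, b = a.submatrix Subtype.val Subtype.val :=
      ⟨fun i j => if h : X.c i = k ∧ X.c j = k then b ⟨i, h.1⟩ ⟨j, h.2⟩ else 0, by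
        ext i j
        simp [i.2, j.2]⟩
    have h0 : Hm (grF _ H) 1 (X.vT s ε).t (X.vT s ε).t (X.ic k * a * X.ic k) := fun i j => by
      rw [r0_r, r0_l]
      split_ifs with hj hi
      · exact hb ⟨i, hi⟩ ⟨j, hj⟩
      all_goals exact ⟨zero_mem _, fun c => absurd rfl c⟩
    refine ⟨_, r0_hm (a := a) fun i j hi hj => ?_, r0_sand hX ?_⟩
    · have := hm_vT_iff.1 h0 i j
      rw [r0_r, r0_l, if_pos hj, if_pos hi] at this
      exact ⟨this.1, fun c => ⟨by have := this.2 c; omega, (this.2 c).2⟩⟩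
    · rw [r0_sub, r0_sub, one_smul] at e
      ext i j
      rw [r0_r, r0_l, r0_r, r0_l]
      split_ifs with hj hi
      · exact congrFun (congrFun e ⟨i, hi⟩) ⟨j, hj⟩
      all_goals rfl

/-- The last term of a complex with acyclic total complexes is acyclic. -/
theorem acAt_last (hH : LR H) (hX : DOk H X) (h : TAc H X s) (h' : ∀ k', k' ≠ k → AcAt H X s k') :
    AcAt H X s k := fun ε => by
  refine (r0_pc hX ε k).2 (nul_pc_single (lr_gr _ hH) (hX.vT s ε) (fun i j c => ?_)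
    (fun i j c => ?_) (h ε) fun k' c => (r0_pc hX ε k').1 (h' k' c ε))
  · exact le_of_eq (by simpa using (hX.ok.hp i j).2 c)
  · by_cases d : X.d s ε i j = 0
    · have : X.c i = X.c j + -1 := (hX.ok.hD i j).2 fun e => c (by simp [mul_sg_apply, d, e])
      show X.c i ≤ X.c j
      omega
    · exact ((hm_vd_iff.1 (hX.okd s ε).hD i j).2 d).1.le

theorem AcAt.ext (hH : LR H) {t : Matrix X'.J X''.J A} {τ : σ → Bool → Matrix X'.J X''.J A}
    (h : DOk H (X'.ext X'' t τ)) (h' : AcAt H X' s k) (h'' : AcAt H X'' s k) :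
    AcAt H (X'.ext X'' t τ) s k := fun ε => by
  obtain ⟨a, ha, ea⟩ := h' ε
  obtain ⟨b, hb, eb⟩ := h'' ε
  obtain ⟨o', o'', -, ht⟩ := h.blocks
  have ht := (ht s ε).1
  have hi : (X'.ext X'' t τ).ic k = fromBlocks (X'.ic k) 0 0 (X''.ic k) := by
    rw [DC.ic, DC.ic, DC.ic, ind, ind, ind, fromBlocks_diagonal]
    congr 1
    funext i
    rcases i with i | i <;> rfl
  have hm := ((ha.mul (lr_gr _ hH) ht.hm (e := 0) (by omega)).mul (lr_gr _ hH) hb
    (e := 1) (by omega)).neg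
  refine ⟨fromBlocks (a * X'.ic k) (-(a * τ s ε * b)) 0 (X''.ic k * b), ?_, ?_⟩
  · rintro (i | i) (j | j)
    exacts [ha.mul_ind _ i j, hm i j, ⟨zero_mem _, fun c => absurd rfl c⟩, hb.ind_mul _ i j]
  have c1 : X'.ic k * τ s ε = τ s ε * X''.ic k := r0_vd ht.hm k
  have c2 : X'.d s ε * τ s ε = -(τ s ε * X''.d s ε) := a4_neg ht
  have c3 : X'.p * τ s ε = τ s ε := ht.pl
  have c4 : τ s ε * X''.p = τ s ε := ht.pr
  have e1 : X'.d s ε * (a * τ s ε * b) = τ s ε * (X''.ic k * b) + a * τ s ε * X''.d s ε * b := by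
    rw [← Matrix.mul_assoc, ← Matrix.mul_assoc, eq_sub_of_add_eq ea, Matrix.sub_mul,
      Matrix.mul_assoc X'.p, c1, ← Matrix.mul_assoc X'.p, c3, Matrix.mul_assoc a, c2]
    simp [Matrix.add_mul, Matrix.mul_assoc]
  have e2 : a * τ s ε * b * X''.d s ε = a * X'.ic k * τ s ε - a * τ s ε * X''.d s ε * b := by
    rw [Matrix.mul_assoc _ b, eq_sub_of_add_eq' eb, Matrix.mul_sub, Matrix.mul_assoc a (τ s ε),
      ← Matrix.mul_assoc (τ s ε), c4, ← c1]
    simp only [Matrix.mul_assoc]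
  rw [hi]
  show fromBlocks _ _ _ _ * _ + _ * fromBlocks _ _ _ _ = fromBlocks _ _ _ _ * _
  simp only [fromBlocks_multiply, fromBlocks_add, fromBlocks_inj, Matrix.mul_zero, Matrix.zero_mul,
    add_zero, zero_add, Matrix.mul_neg, Matrix.neg_mul, true_and, neg_zero]
  refine ⟨?_, ?_, ?_⟩
  · rw [Matrix.mul_assoc a, r0_d o', ← Matrix.mul_assoc, ← Matrix.mul_assoc,
      ← Matrix.add_mul, ea, r0_ii]
  · rw [e1, e2]
    abel
  · rw [← Matrix.mul_assoc, ← r0_d o'', Matrix.mul_assoc, Matrix.mul_assoc,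
      ← Matrix.mul_add, eb, ← Matrix.mul_assoc, r0_p o'', r0_ii]

end Pool.Agent.MP_f7db47_al.GR

end

section

/-!
Replacing a term by a cover: the new complex.
-/

namespace Pool.Agent.MP_f7db47_al.GR

open Matrix KN

universe v w

variable {A : Type v} [Ring A] {Λ σ : Type} [DecidableEq σ] {H : Fam A Λ} {W : DC A Λ (Option σ)}
  {C : Cov W} {k : ℤ}

theorem r1a_ic (hC : C.Ok H k) : C.F.ic k = 1 := by
  ext i j
  rw [← Matrix.mul_one (C.F.ic k), DC.ic, ind_mul_apply]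
  exact if_pos (hC.c i)

theorem r1a_φ (hC : C.Ok H k) : W.p * W.ic k * C.φ = C.φ := by
  rw [Matrix.mul_assoc, ic_comm (fun i j e => by simpa using (hC.hφ.hm i j).2 e), r1a_ic hC,
    Matrix.mul_one, hC.hφ.pl]

theorem r1a_φq (hC : C.Ok H k) : C.φ * (C.F.p - C.s * C.φ) = 0 := by
  rw [Matrix.mul_sub, hC.hφ.pr, ← Matrix.mul_assoc, hC.φs, r1a_φ hC, sub_self]

theorem r1a_qq (hC : C.Ok H k) :
    (C.F.p - C.s * C.φ) * (C.F.p - C.s * C.φ) = C.F.p - C.s * C.φ := by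
  rw [Matrix.sub_mul, Matrix.mul_assoc, r1a_φq hC, Matrix.mul_zero, sub_zero, Matrix.mul_sub,
    hC.mob.ok.pp, ← Matrix.mul_assoc, hC.hs.pl]

theorem r1a_qdq (hC : C.Ok H k) (s : Option σ) (ε : Bool) :
    (C.F.p - C.s * C.φ) * (C.F.d s ε * (C.F.p - C.s * C.φ)) = C.F.d s ε * (C.F.p - C.s * C.φ) := by
  have e : C.F.p * C.F.d s ε = C.F.d s ε := (hC.mob.okd s ε).pD
  rw [Matrix.sub_mul, Matrix.mul_assoc, ← Matrix.mul_assoc C.φ, ← hC.φd, Matrix.mul_assoc,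
    r1a_φq hC, Matrix.mul_zero, Matrix.mul_zero, sub_zero, ← Matrix.mul_assoc, e]

theorem Cov.Ok.k_ok (hC : C.Ok H k) (hH : LR H) (hW : DOk H W) : DOk H C.K := by
  have _ := hW
  have hq : Hm (grF _ H) 0 C.F.t C.F.t (C.F.p - C.s * C.φ) :=
    hC.mob.ok.hp.sub (hC.hs.hm.mul (lr_gr _ hH) hC.hφ.hm rfl)
  refine ⟨⟨hq, Hm.zero _ _, r1a_qq hC, Matrix.mul_zero _, Matrix.zero_mul _, Matrix.mul_zero _⟩,
    fun s ε => ⟨hm_vd hq s ε, (hC.mob.okd s ε).hD.mul (lr_gr _ hH) (hm_vd hq s ε) rfl, r1a_qq hC,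
      r1a_qdq hC s ε, ?_, ?_⟩, fun s ε => by simp, fun s s' ε ε' e => ?_⟩
  · exact (Matrix.mul_assoc _ _ _).trans (congrArg _ (r1a_qq hC))
  · have e : C.F.d s ε * C.F.d s ε = 0 := (hC.mob.okd s ε).DD
    simp only [Matrix.mul_assoc, r1a_qdq hC]
    rw [← Matrix.mul_assoc, e, Matrix.zero_mul]
  · simp only [Matrix.mul_assoc, r1a_qdq hC]
    rw [← Matrix.mul_assoc, hC.mob.cd s s' ε ε' e, Matrix.mul_assoc]

theorem r1a_qδ (hC : C.Ok H k) (hW : DOk H W) (ε : Bool) :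
    (C.F.p - C.s * C.φ) * (C.F.d none ε * C.s - C.s * W.d none ε) =
      C.F.d none ε * C.s - C.s * W.d none ε := by
  have e : C.F.p * C.F.d none ε = C.F.d none ε := (hC.mob.okd none ε).pD
  have e1 : W.p * W.d none ε = W.d none ε := (hW.okd none ε).pD
  have e2 : W.d none ε * W.p = W.d none ε := (hW.okd none ε).Dp
  have e3 := ic_comm (fun i j h => ((hm_vd_iff.1 (hW.okd none ε).hD i j).2 h).1) k
  have e4 : C.φ * (C.F.d none ε * C.s - C.s * W.d none ε) = 0 := by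
    rw [Matrix.mul_sub, ← Matrix.mul_assoc, ← Matrix.mul_assoc, ← hC.φd, Matrix.mul_assoc, hC.φs,
      Matrix.mul_assoc, e3, ← Matrix.mul_assoc, ← Matrix.mul_assoc, e1, e2, sub_self]
  rw [Matrix.sub_mul, Matrix.mul_assoc, e4, Matrix.mul_zero, sub_zero, Matrix.mul_sub,
    ← Matrix.mul_assoc, ← Matrix.mul_assoc, e, hC.hs.pl]

theorem r1a_some (hC : C.Ok H k) (hW : DOk H W) (s : σ) (ε ε' : Bool) :
    (C.K.cone C.K C.K.p).d (some s) ε' * fromRows (C.F.d none ε * C.s - C.s * W.d none ε)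
      ((C.F.d none ε * C.s - C.s * W.d none ε) * W.D) =
    fromRows (C.F.d none ε * C.s - C.s * W.d none ε)
      ((C.F.d none ε * C.s - C.s * W.d none ε) * W.D) * W.d (some s) ε' := by
  have e : C.F.d (some s) ε' * (C.F.p - C.s * C.φ) * (C.F.d none ε * C.s - C.s * W.d none ε) =
      (C.F.d none ε * C.s - C.s * W.d none ε) * W.d (some s) ε' := by
    rw [Matrix.mul_assoc, r1a_qδ hC hW, Matrix.mul_sub, Matrix.sub_mul, ← Matrix.mul_assoc,
      ← Matrix.mul_assoc, hC.mob.cd _ _ _ _ (Option.some_ne_none s), hC.sd, Matrix.mul_assoc, hC.sd,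
      Matrix.mul_assoc C.s, hW.cd _ _ _ _ (Option.some_ne_none s)]
    simp only [Matrix.mul_assoc]
  simp only [fromBlocks_mul_fromRows, fromRows_mul, Pi.zero_apply, Matrix.zero_mul, add_zero,
    zero_add]
  rw [← Matrix.mul_assoc, e, Matrix.mul_assoc, Matrix.mul_assoc, hW.cm]

theorem Cov.Ok.rr_ok (hC : C.Ok H k) (hH : LR H) (hW : DOk H W) : DOk H (rr W C) := by
  have hK := hC.k_ok hH hW
  have hG := lr_gr (Option σ → ℤ) hH
  refine DOk.ext (hK.cone hK ⟨⟨⟨hK.ok.hp, hK.ok.pp, hK.ok.pp⟩, by simp⟩, fun s ε =>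
    (hK.okd s ε).Dp.trans (hK.okd s ε).pD.symm⟩) hW (Tw.zero _ _) (fun s ε => ?_) (fun s ε => ?_)
    fun s s' ε ε' e => ?_
  · rcases s with _ | s
    swap
    · exact Tw.zero _ _
    have e1 : W.d none ε * W.p = W.d none ε := (hW.okd none ε).Dp
    have e2 : W.d none ε * W.d none ε = 0 := (hW.okd none ε).DD
    have e3 : C.F.d none ε * C.F.d none ε = 0 := (hC.mob.okd none ε).DD
    have a := hm_vd hC.hs.hm none ε
    have b := hm_vd (X := C.F.sh) (Y := W.sh) (hC.hs.hm.shift 1 1 rfl) none ε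
    have a1 := ((hC.mob.okd none ε).hD.mul hG a (e := -1) rfl).sub
      (a.mul hG (hW.okd none ε).hD rfl)
    have b1 := (((hC.mob.sh.okd none ε).hD.mul hG b (e := -1) rfl).sub
      (b.mul hG (hW.sh.okd none ε).hD rfl)).mul hG (e := -1)
        (hm_vd (X := W.sh) (Y := W) (hW.ok.hD.shift_left 1 rfl) none ε) rfl
    have e4 : C.F.d none ε * (C.F.p - C.s * C.φ) * (C.F.d none ε * C.s - C.s * W.d none ε) +
        (C.F.d none ε * C.s - C.s * W.d none ε) * W.d none ε = 0 := by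
      rw [Matrix.mul_assoc, r1a_qδ hC hW, Matrix.mul_sub, Matrix.sub_mul, ← Matrix.mul_assoc, e3,
        Matrix.mul_assoc C.s, e2, Matrix.mul_assoc, Matrix.zero_mul, Matrix.mul_zero]
      abel
    refine ⟨⟨?_, ?_, ?_⟩, ?_⟩
    · rintro (i | i) j
      exacts [a1 i j, b1 i j]
    · simp only [Option.elim_none, fromBlocks_mul_fromRows, Matrix.zero_mul, add_zero, zero_add,
        ← Matrix.mul_assoc, r1a_qδ hC hW]
    · simp only [Option.elim_none, fromRows_mul, Matrix.sub_mul, Matrix.mul_assoc, hW.ok.Dp, e1,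
        hC.hs.pr]
    · simp only [Option.elim_none, fromBlocks_mul_fromRows, fromRows_mul, Pi.zero_apply,
        Matrix.zero_mul, add_zero, zero_add]
      rw [Matrix.mul_assoc _ W.D, hW.cm, ← Matrix.mul_assoc, ← Matrix.mul_assoc]
      ext (i | i) j
      · exact congrFun (congrFun e4 i) j
      · rw [Matrix.add_apply, fromRows_apply_inr, fromRows_apply_inr, ← Matrix.add_apply,
          ← Matrix.add_mul, e4, Matrix.zero_mul]
        rfl
  · rcases s with _ | s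
    · simp only [Option.elim_none, fromBlocks_mul_fromRows, fromRows_mul, Matrix.zero_mul,
        Matrix.mul_zero, add_zero, zero_add, neg_zero, Matrix.mul_assoc, hW.ok.DD]
      rw [← Matrix.mul_assoc, r1a_qδ hC hW]
    · simp
  · rcases s with _ | s <;> rcases s' with _ | s'
    · exact absurd rfl e
    · simp only [Option.elim_none, Option.elim_some, Matrix.zero_mul, Matrix.mul_zero, add_zero,
        zero_add, r1a_some hC hW]
    · simp only [Option.elim_none, Option.elim_some, Matrix.zero_mul, Matrix.mul_zero, add_zero,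
        zero_add, r1a_some hC hW]
    · simp

end Pool.Agent.MP_f7db47_al.GR

end

section

/-!
Replacing a term by a cover.
-/

namespace Pool.Agent.MP_f7db47_al.GR

open Matrix KN

universe v w

section Fam

variable {A : Type v} [Ring A] {Λ σ : Type} [DecidableEq σ] {H : Fam A Λ} {W : DC A Λ (Option σ)}
  {C : Cov W} {k : ℤ}

theorem r1_a (hC : C.Ok H k) : C.φ * C.s * C.φ = C.φ := by
  have e : W.ic k * C.φ = C.φ := by
    ext i j
    rw [DC.ic, ind_mul_apply]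
    split_ifs with c
    · rfl
    · by_contra e
      exact c (((hC.hφ.hm i j).2 (Ne.symm e)).trans (by rw [add_zero]; exact hC.c j))
  rw [hC.φs, Matrix.mul_assoc, e, hC.hφ.pl]

theorem r1_b (hC : C.Ok H k) : C.s * (C.φ * C.s) = C.s := by
  rw [hC.φs, ← Matrix.mul_assoc, hC.hs.pr]
  ext i j
  rw [DC.ic, mul_ind_apply]
  split_ifs with c
  · rfl
  · by_contra e
    exact c ((((hC.hs.hm i j).2 (Ne.symm e)).trans (add_zero _)).symm.trans (hC.c i))

theorem r1_φq (hC : C.Ok H k) : C.φ * C.K.p = 0 := by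
  rw [Matrix.mul_sub, hC.hφ.pr, ← Matrix.mul_assoc, r1_a hC, sub_self]

theorem r1_qs (hC : C.Ok H k) : C.K.p * C.s = 0 := by
  rw [Matrix.sub_mul, hC.hs.pl, Matrix.mul_assoc, r1_b hC, sub_self]

theorem r1_pq (hC : C.Ok H k) : C.F.p * C.K.p = C.K.p := by
  rw [Matrix.mul_sub, hC.mob.ok.pp, ← Matrix.mul_assoc, hC.hs.pl]

theorem r1_qp (hC : C.Ok H k) : C.K.p * C.F.p = C.K.p := by
  rw [Matrix.sub_mul, hC.mob.ok.pp, Matrix.mul_assoc, hC.hφ.pr]

theorem r1_qq (hC : C.Ok H k) : C.K.p * C.K.p = C.K.p := by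
  rw [Matrix.sub_mul, r1_pq hC, Matrix.mul_assoc, r1_φq hC, Matrix.mul_zero, sub_zero]

theorem r1_qd (hC : C.Ok H k) (s ε) : C.K.p * (C.F.d s ε * C.K.p) = C.F.d s ε * C.K.p := by
  rw [Matrix.sub_mul, ← Matrix.mul_assoc, (hC.mob.okd s ε).pD, Matrix.mul_assoc,
    ← Matrix.mul_assoc C.φ, ← hC.φd, Matrix.mul_assoc, r1_φq hC]
  simp

theorem r1_τφ (hC : C.Ok H k) (s ε) :
    C.F.d s ε * C.K.p + (C.F.d s ε * C.s - C.s * W.d s ε) * C.φ = C.K.p * C.F.d s ε := by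
  rw [Matrix.mul_sub, Matrix.sub_mul, Matrix.sub_mul, (hC.mob.okd s ε).pD, (hC.mob.okd s ε).Dp]
  simp only [Matrix.mul_assoc, hC.φd]
  abel

theorem r1_qτ (hC : C.Ok H k) (hW : DOk H W) (s ε) :
    C.K.p * (C.F.d s ε * C.s - C.s * W.d s ε) = C.F.d s ε * C.s - C.s * W.d s ε := by
  have e : W.ic k * W.d s ε = W.d s ε * W.ic k :=
    ic_comm (fun i j c => ((hm_vd_iff.1 (hW.okd s ε).hD i j).2 c).1) k
  have e1 : C.φ * (C.F.d s ε * C.s - C.s * W.d s ε) = 0 := by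
    rw [Matrix.mul_sub, ← Matrix.mul_assoc, ← hC.φd, Matrix.mul_assoc, ← Matrix.mul_assoc C.φ,
      hC.φs, Matrix.mul_assoc, e, ← Matrix.mul_assoc, ← Matrix.mul_assoc, (hW.okd s ε).pD,
      (hW.okd s ε).Dp, sub_self]
  rw [Matrix.sub_mul, Matrix.mul_assoc, e1, Matrix.mul_zero, sub_zero, Matrix.mul_sub,
    ← Matrix.mul_assoc, ← Matrix.mul_assoc, (hC.mob.okd s ε).pD, hC.hs.pl]

theorem r1_hq (hC : C.Ok H k) (hH : LR H) : Hm (grF _ H) 0 C.F.t C.F.t C.K.p :=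
  hC.mob.ok.hp.sub (hC.hs.hm.mul (lr_gr _ hH) hC.hφ.hm (by omega))

theorem Cov.Ok.k_ac (hC : C.Ok H k) (hH : LR H) (hW : DOk H W) {s : σ} (h : Ac H W (some s)) :
    Ac H C.K (some s) := by
  refine Ac.retract hH hC.mob (hC.k_ok hH hW) (r1_hq hC hH) (r1_hq hC hH)
    (fun ε => (r1_qd hC _ ε).symm) (fun ε => ?_) (by rw [r1_qp hC, r1_qq hC]) (hC.acs s h)
  rw [← r1_τφ hC, hC.sd, sub_self, Matrix.zero_mul, add_zero]
  exact (Matrix.mul_assoc _ _ _).trans (by rw [r1_qq hC])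

theorem Cov.Ok.k_ac' (hC : C.Ok H k) (hH : LR H) (hW : DOk H W) (h : AcAt H W none k) :
    Ac H C.K none := fun ε => by
  obtain ⟨a, a1, a2⟩ := h ε
  obtain ⟨b, b1, b2⟩ := hC.ac ε
  have hG := lr_gr (Option σ → ℤ) hH
  have hq := hm_vd (r1_hq hC hH) none ε
  have hs := hm_vd hC.hs.hm none ε
  have hτ := ((hC.mob.okd none ε).hD.mul hG hs (e := -1) (by omega)).sub
    (hs.mul hG (hW.okd none ε).hD (by omega))
  have e1 := r1_τφ hC none ε
  have e2 := r1_qτ hC hW none ε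
  have e3 : C.F.d none ε * (C.F.d none ε * C.s - C.s * W.d none ε) =
      -((C.F.d none ε * C.s - C.s * W.d none ε) * W.d none ε) := by
    rw [Matrix.mul_sub, Matrix.sub_mul, ← Matrix.mul_assoc, (hC.mob.okd none ε).DD,
      Matrix.mul_assoc C.s, (hW.okd none ε).DD]
    simp [Matrix.mul_assoc]
  generalize C.F.d none ε * C.s - C.s * W.d none ε = τ at e1 e2 e3 hτ
  have e4 : C.F.d none ε * C.K.p * (C.K.p - τ * a * C.φ) =
      (C.K.p - τ * a * C.φ) * C.F.d none ε := by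
    have e5 : τ * (W.d none ε * a + a * W.d none ε) * C.φ = τ * C.φ := by
      rw [a2, ← hC.φs, Matrix.mul_assoc, r1_a hC]
    rw [Matrix.mul_sub, Matrix.sub_mul, Matrix.mul_assoc, r1_qq hC, ← e1, ← e5, Matrix.mul_assoc,
      Matrix.mul_assoc τ a, ← Matrix.mul_assoc C.K.p, e2, ← Matrix.mul_assoc, e3]
    simp only [Matrix.mul_add, Matrix.add_mul, Matrix.neg_mul, Matrix.mul_assoc, ← hC.φd]
    abel
  refine ⟨(C.K.p - τ * a * C.φ) * b * C.K.p, ((hq.sub ((hτ.mul hG a1 (e := 0) (by omega)).mul hG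
    (hm_vd hC.hφ.hm none ε) (by omega))).mul hG b1 (e := 1) (by omega)).mul hG hq (by omega), ?_⟩
  have e6 : (C.K.p - τ * a * C.φ) * C.K.p = C.K.p := by
    rw [Matrix.sub_mul, r1_qq hC, Matrix.mul_assoc, r1_φq hC, Matrix.mul_zero, sub_zero]
  generalize C.K.p - τ * a * C.φ = r at e4 e6
  rw [one_smul] at b2 ⊢
  change C.F.d none ε * C.K.p * _ + _ * (C.F.d none ε * C.K.p) = C.K.p
  rw [← Matrix.mul_assoc, ← Matrix.mul_assoc, e4, Matrix.mul_assoc _ C.K.p, r1_qd hC,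
    ← Matrix.mul_assoc, ← Matrix.add_mul, Matrix.mul_assoc r, Matrix.mul_assoc r, ← Matrix.mul_add,
    b2, Matrix.mul_assoc, r1_pq hC, e6]

theorem r1_mat {I J : Type} [Fintype I] [Fintype J] {p q d b : Matrix I I A} {φ : Matrix J I A}
    {s τ τ' : Matrix I J A} {e : Matrix J J A} (h0 : d * b + b * d = p) (h1 : q * q = q)
    (h2 : p * q = q) (h3 : p * s = s) (h4 : q * (d * q) = d * q) (h5 : d * q + τ * φ = q * d)
    (h6 : τ' * φ = 0) (h7 : e * φ = φ * d) (h8 : q * τ = τ) (h9 : τ + s * e = d * s)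
    (h10 : q * s = 0) (h11 : φ * q = 0) {ι : Matrix ((I ⊕ I) ⊕ J) I A}
    {π : Matrix I ((I ⊕ I) ⊕ J) A} {D : Matrix ((I ⊕ I) ⊕ J) ((I ⊕ I) ⊕ J) A}
    (hι : ι = fromRows (fromRows q 0) φ) (hπ : π = fromCols (fromCols q 0) s)
    (hD : D = fromBlocks (fromBlocks (d * q) 0 0 (d * q)) (fromRows τ τ') 0 e) :
    D * (ι * b * π) + ι * b * π * D = fromBlocks (fromBlocks q 0 0 0) 0 0 (φ * s) := by
  have e1 : D * ι = ι * d := by
    simp only [hD, hι, fromBlocks_mul_fromRows, fromRows_mul, h6, h7, Matrix.zero_mul,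
      Matrix.mul_zero, add_zero, zero_add, Matrix.mul_assoc, h1, ← h5]
    ext ((i | i) | i) j <;> simp
  have e2 : π * D = d * π := by
    simp only [hD, hπ, fromCols_mul_fromBlocks, mul_fromCols, fromCols_mul_fromRows,
      Matrix.zero_mul, Matrix.mul_zero, add_zero, h4, h8, h9]
  rw [← Matrix.mul_assoc, ← Matrix.mul_assoc, e1, Matrix.mul_assoc _ π, e2,
    ← Matrix.mul_assoc, ← Matrix.add_mul, Matrix.mul_assoc _ d b, Matrix.mul_assoc _ b,
    ← Matrix.mul_add, h0, Matrix.mul_assoc, hι, hπ, mul_fromCols p, mul_fromCols p, h2, h3,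
    fromRows_mul_fromCols, fromRows_mul_fromCols, fromRows_mul, mul_fromCols]
  simp [h1, h10, h11]

theorem Cov.Ok.rr_at (hC : C.Ok H k) (hH : LR H) (hW : DOk H W) :
    AcAt H (rr W C) none k := fun ε => by
  obtain ⟨b, b1, b2⟩ := hC.ac ε
  have hG := lr_gr (Option σ → ℤ) hH
  have hι : Hm (grF _ H) 0 (rr W C).t C.F.t (fromRows (fromRows C.K.p 0) C.φ) :=
    ((r1_hq hC hH).rows (Hm.zero _ _)).rows hC.hφ.hm
  have hπ : Hm (grF _ H) 0 C.F.t (rr W C).t (fromCols (fromCols C.K.p 0) C.s) :=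
    ((r1_hq hC hH).cols (Hm.zero _ _)).cols hC.hs.hm
  refine ⟨fromRows (fromRows C.K.p 0) C.φ * b * fromCols (fromCols C.K.p 0) C.s,
    ((hm_vd hι none ε).mul hG b1 (e := 1) (by omega)).mul hG (hm_vd hπ none ε) (by omega), ?_⟩
  have hc : ∀ i, (C.F.t i).2 = k := hC.c
  have z : C.s * W.D * C.φ = 0 := by
    ext i j
    by_contra c
    have := (((hC.hs.hm.mul hG hW.ok.hD (e := -1) (by omega)).mul hG hC.hφ.hm (e := -1)
      (by omega)) i j).2 c
    rw [hc, hc] at this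
    omega
  have z' : (C.F.d none ε * C.s - C.s * W.d none ε) * W.D * C.φ = 0 := by
    rw [Matrix.sub_mul, Matrix.sub_mul, Matrix.mul_assoc C.s, ← hW.cm, Matrix.mul_assoc C.s,
      Matrix.mul_assoc W.D, hC.φd, ← Matrix.mul_assoc W.D, ← Matrix.mul_assoc C.s,
      ← Matrix.mul_assoc C.s, z, Matrix.mul_assoc _ C.s, Matrix.mul_assoc _ (C.s * W.D), z]
    simp
  refine (r1_mat (one_smul A C.F.p ▸ b2) (r1_qq hC) (r1_pq hC) hC.hs.pl (r1_qd hC none ε)
    (r1_τφ hC none ε) z' (hC.φd none ε) (r1_qτ hC hW none ε) (sub_add_cancel _ _) (r1_qs hC)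
    (r1_φq hC) rfl rfl rfl).trans ?_
  rw [hC.φs]
  ext ((i | i) | i) ((j | j) | j) <;> rw [DC.ic, DC.ic, mul_ind_apply] <;>
    simp [mul_ind_apply, DC.c, hc]

theorem Cov.Ok.rr_lt (hC : C.Ok H k) (hH : LR H) (hW : DOk H W) {k' : ℤ} (hk : k' < k)
    (h : AcAt H W none k') : AcAt H (rr W C) none k' := by
  refine AcAt.ext hH (hC.rr_ok hH hW) (acAt_of_not ?_) h
  rintro (i | i) <;> have h1 : (C.F.t i).2 = k := hC.c i
  · change (C.F.t i).2 ≠ k'
    omega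
  · change (C.F.t i).2 + 1 ≠ k'
    omega

theorem Cov.Ok.rr_wn (hC : C.Ok H k) (hH : LR H) (hW : DOk H W) (h : WN H W) : WN H (rr W C) := by
  have h1 := Nul.ext (lr_gr _ hH) Sc.one Sc.one (Tw.zero _ _) (a6_id (hC.k_ok hH hW).ok) h
  rwa [one_mul] at h1

end Fam

variable {𝒮 : Sys.{v}} {σ : Type} [DecidableEq σ] {W : DC 𝒮.A 𝒮.Λ (Option σ)} {C : Cov W} {k : ℤ}
  {T : Set (Option σ)} {M : Type w} [AddCommGroup M] {κ : DC 𝒮.A 𝒮.Λ (Option σ) → M}

theorem r1_ob (hC : C.Ok 𝒮.H k) (hS : 𝒮.Good) (hW : DOb 𝒮 T W) :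
    DOb 𝒮 T (C.K.cone C.K C.K.p) := by
  have h := (hC.rr_ok hS.mul hW.ok).blocks.1
  refine DOb.of_wn hS h (a6_id (hC.k_ok hS.mul hW.ok).ok) fun s hs => ?_
  have h1 : Ac 𝒮.H C.K s := by
    cases s with
    | none => exact hC.k_ac' hS.mul hW.ok ((hW.ac _ hs).at hW.ok k)
    | some s => exact hC.k_ac hS.mul hW.ok (hW.ac _ hs)
  exact Ac.ext hS.mul h h1 (ac_sh.2 h1)

theorem Cov.Ok.rr_ob (hC : C.Ok 𝒮.H k) (hS : 𝒮.Good) (hW : DOb 𝒮 T W) : DOb 𝒮 T (rr W C) :=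
  (r1_ob hC hS hW).ext hS hW (hC.rr_ok hS.mul hW.ok)

theorem Cov.Ok.rr_eq (hC : C.Ok 𝒮.H k) (hS : 𝒮.Good) (hκ : Add0 𝒮 T κ) (hW : DOb 𝒮 T W) :
    κ (rr W C) = κ W := by
  rw [hκ.ext _ _ _ _ (r1_ob hC hS hW) hW (hC.rr_ok hS.mul hW.ok),
    hκ.nul _ (r1_ob hC hS hW) (a6_id (hC.k_ok hS.mul hW.ok).ok), zero_add]

end Pool.Agent.MP_f7db47_al.GR

end

section

/-!
The cover by free binary complexes.
-/

namespace Pool.Agent.MP_f7db47_al.GR

open Matrix KN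

universe v w

section Gen

variable {A : Type v} [Ring A] {I I' I'' K : Type}

/-- A row of blocks. -/
def r2_row (B : K → Matrix I' I A) : Matrix I' (I × K) A := fun i x => B x.2 i x.1

/-- A column of blocks. -/
def r2_col (B : K → Matrix I' I A) : Matrix (I' × K) I A := fun x i => B x.2 x.1 i

variable [Fintype I']

theorem r2_mul_row (f : Matrix I'' I' A) (B : K → Matrix I' I A) :
    f * r2_row B = r2_row fun κ => f * B κ := rfl

theorem r2_col_mul (B : K → Matrix I'' I' A) (f : Matrix I' I A) :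
    r2_col B * f = r2_col fun κ => B κ * f := rfl

variable [Fintype K]

theorem r2_row_col (B : K → Matrix I'' I' A) (B' : K → Matrix I' I A) :
    r2_row B * r2_col B' = ∑ κ, B κ * B' κ := by
  ext i j
  rw [Matrix.sum_apply, Matrix.mul_apply, Fintype.sum_prod_type_right]
  rfl

theorem r2_row_kr (B : K → Matrix I'' I' A) (E : Matrix K K ℤ) (B' : K → Matrix I' I A) :
    r2_row B * kr E B' = r2_row fun κ => ∑ κ', E κ' κ • (B κ' * B' κ) := by
  ext i x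
  rw [Matrix.mul_apply, Fintype.sum_prod_type_right, r2_row, Matrix.sum_apply]
  refine Finset.sum_congr rfl fun κ _ => ?_
  rw [Matrix.smul_apply, Matrix.mul_apply, Finset.smul_sum]
  exact Finset.sum_congr rfl fun j _ => mul_smul_comm _ _ _

variable [DecidableEq K]

theorem r2_row_one (B : K → Matrix I'' I' A) (B' : K → Matrix I' I A) :
    r2_row B * kr (1 : Matrix K K ℤ) B' = r2_row fun κ => B κ * B' κ := by
  simp [r2_row_kr, Matrix.one_apply]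

theorem r2_one_col (B : K → Matrix I'' I' A) (B' : K → Matrix I' I A) :
    kr (1 : Matrix K K ℤ) B * r2_col B' = r2_col fun κ => B κ * B' κ := by
  ext x i
  simp [Matrix.mul_apply, Fintype.sum_prod_type, kr, r2_col, Matrix.one_apply]

end Gen

variable {A : Type v} [Ring A] {Λ σ : Type} [DecidableEq σ] {H : Fam A Λ} {W : DC A Λ (Option σ)}

section

variable {a k d : ℤ} {b : ℕ} {f g : Matrix W.J W.J A} {E E' : Matrix (WW b) (WW b) ℤ} {ε : Bool}

omit [DecidableEq σ] in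
theorem r2_iw (h : ∀ i j, g i j ≠ 0 → W.c i = W.c j ∧ W.m none i = W.m none j) :
    iw W k a * g = g * iw W k a := by
  ext i j
  rw [iw, ind_mul_apply, mul_ind_apply]
  by_cases e : g i j = 0
  · simp [e]
  · simp [(h i j e).1, (h i j e).2]

omit [DecidableEq σ] in
theorem r2_uu (h : ∀ a, iw W k a * g = g * iw W k a) (a : ℤ) :
    f * iw W k a * (g * iw W k a) = f * g * iw W k a := by
  rw [← h, Matrix.mul_assoc, ← Matrix.mul_assoc (iw W k a), iw, ind_mul_ind, Set.inter_self, ← iw,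
    h, Matrix.mul_assoc]

theorem r2_p (hW : DOk H W) (k a : ℤ) : iw W k a * W.p = W.p * iw W k a :=
  r2_iw fun i j e => ⟨by simpa using (hW.ok.hp i j).2 e, congrFun ((hW.ok.hp i j).1.2 e) none⟩

theorem r2_s {s : σ} (h : Hm (grF _ H) d (W.vd (some s) ε).t (W.vd (some s) ε).t g) (k a : ℤ) :
    iw W k a * g = g * iw W k a :=
  r2_iw fun i j e => have c := (hm_vd_iff.1 h i j).2 e; ⟨c.1, c.2.2 none (by simp)⟩

variable (W) in
/-- Matrices on the cover. -/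
noncomputable abbrev r2_L (a k : ℤ) (E : Matrix (WW b) (WW b) ℤ) (f : Matrix W.J W.J A) :
    Matrix (W.J × WW b) (W.J × WW b) A := kr E fun κ => f * iw W k (a + κ.h)

omit [DecidableEq σ] in
theorem r2_mul (hE : ∀ κ' κ, E κ' κ ≠ 0 → κ'.h = κ.h) (h : ∀ a, iw W k a * g = g * iw W k a) :
    r2_L W a k E' f * r2_L W a k E g = r2_L W a k (E' * E) (f * g) :=
  kr_mul E' fun κ' κ e => by rw [hE κ' κ e, r2_uu h]

theorem r2_one (κ' κ : WW b) (h : (1 : Matrix (WW b) (WW b) ℤ) κ' κ ≠ 0) : κ' = κ :=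
  by_contra fun c => h (Matrix.one_apply_ne c)

omit [DecidableEq σ] in
theorem r2_mul1 (h : ∀ a, iw W k a * g = g * iw W k a) :
    r2_L W a k E' f * r2_L W a k 1 g = r2_L W a k E' (f * g) := by
  rw [r2_mul (fun κ' κ e => by rw [r2_one κ' κ e]) h, Matrix.mul_one]

theorem r2_hm {s : Option σ} (hf : ∀ i j, f i j ∈ H (W.t i).1.1 (W.t j).1.1 ∧ (f i j ≠ 0 →
      ∀ s', W.m (some s') i = W.m (some s') j + if some s' = s then d else 0))
    (hE : ∀ κ' κ, E κ' κ ≠ 0 → κ'.h = κ.h ∧ (κ'.r : ℤ) + (if none = s then d else 0) = κ.r) :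
    Hm (grF _ H) d ((bcov a b k W).F.vd s ε).t ((bcov a b k W).F.vd s ε).t (r2_L W a k E f) := by
  refine hm_vd_iff.2 fun x' x => ⟨zsmul_mem ?_ _, fun e => ?_⟩
  · simp only [iw, mul_ind_apply]
    split_ifs
    exacts [(hf _ _).1, zero_mem _]
  obtain ⟨e1, e2⟩ := kr_ne e
  obtain ⟨c1, c2⟩ := hE _ _ e1
  have c : ∀ s', (bcov a b k W).F.m s' x' = (bcov a b k W).F.m s' x + if s' = s then d else 0 := by
    rintro (_ | s')
    · change a + x'.2.h - x'.2.r = a + x.2.h - x.2.r + _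
      omega
    · refine (hf _ _).2 (fun c => e2 ?_) s'
      rw [iw, mul_ind_apply, c, ite_self]
  exact ⟨rfl, by simpa using c s, fun s' h => by simpa [h] using c s'⟩

theorem r2_hs {s : σ} (h : Hm (grF _ H) d (W.vd (some s) ε).t (W.vd (some s) ε).t f) :
    Hm (grF _ H) d ((bcov a b k W).F.vd (some s) ε).t ((bcov a b k W).F.vd (some s) ε).t
      (r2_L W a k 1 f) :=
  r2_hm (fun i j => ⟨(hm_vd_iff.1 h i j).1, fun e s' => by
    have c := ((hm_vd_iff.1 h i j).2 e).2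
    split_ifs with c'
    exacts [c' ▸ c.1, by rw [c.2 _ c', add_zero]]⟩) fun κ' κ e => by simp [r2_one κ' κ e]

theorem r2_hn (hW : DOk H W) (hE : ∀ κ' κ, E κ' κ ≠ 0 → κ'.h = κ.h ∧ (κ'.r : ℤ) + d = κ.r) :
    Hm (grF _ H) d ((bcov a b k W).F.vd none ε).t ((bcov a b k W).F.vd none ε).t
      (r2_L W a k E W.p) :=
  r2_hm (fun i j => ⟨(hW.ok.hp i j).1.1, fun e s' => by
    simpa using congrFun ((hW.ok.hp i j).1.2 e) (some s')⟩) (by simpa using hE)

omit [DecidableEq σ] in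
theorem r2_un {X Y : DC A Λ (Option σ)} {f : Matrix X.J Y.J A}
    (h : ∀ i j, f i j ∈ H (X.t i).1.1 (Y.t j).1.1 ∧ (f i j ≠ 0 → X.c i = Y.c j ∧
      X.m none i = Y.m none j + 0 ∧ ∀ s', s' ≠ none → X.m s' i = Y.m s' j)) :
    Hm (grF _ H) 0 X.t Y.t f := fun i j =>
  ⟨⟨(h i j).1, fun e => funext fun s => by
    rcases s with _ | s
    exacts [((h i j).2 e).2.1.trans (add_zero _), ((h i j).2 e).2.2 _ (by simp)]⟩,
    fun e => ((h i j).2 e).1.trans (add_zero _).symm⟩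

theorem r2_van (hH : LR H) (hW : DOk H W) (hM : Mw a (a + b) W) {r h : ℕ} (hr : h ≤ r) (e : Bool) :
    wrd W.p (W.d none) r e * iw W k (a + h) = 0 := by
  ext i j
  rw [iw, mul_ind_apply]
  split_ifs with c
  · by_contra c'
    have := ((wrd_ent hH hW none r e i j).2 c').2.1
    have := c.2
    have := (hM i).1
    omega
  · rfl

theorem r2_dw (hH : LR H) (hW : DOk H W) (hM : Mw a (a + b) W) (κ : WW b) :
    W.d none ε * (wrd W.p (W.d none) κ.r κ.e * iw W k (a + κ.h)) = ∑ κ', Ew b ε κ' κ •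
      (wrd W.p (W.d none) κ'.r κ'.e * iw W k (a + κ'.h) * (W.p * iw W k (a + κ.h))) := by
  rw [← Matrix.mul_assoc]
  by_cases c : κ.r = 0 ∨ κ.e ≠ ε
  swap
  · obtain ⟨r, hr⟩ := Nat.exists_eq_succ_of_ne_zero (not_or.1 c).1
    rw [hr, not_not.1 (not_or.1 c).2, d_wrd fun e => (hW.okd none e).DD, Matrix.zero_mul]
    simp [Ew, c]
  have e : W.d none ε * wrd W.p (W.d none) κ.r κ.e = wrd W.p (W.d none) (κ.r + 1) ε := by
    rcases c with c | c
    · rw [c]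
      rfl
    · rw [Bool.eq_not.2 c]
      rfl
  rw [e]
  by_cases c' : κ.h ≤ κ.r + 1
  · rw [r2_van hH hW hM c', eq_comm]
    refine Finset.sum_eq_zero fun κ' _ => ?_
    by_cases z : Ew b ε κ' κ = 0
    · rw [z, zero_smul]
    · rw [r2_van hH hW hM (by have := Ew_ne z; omega), Matrix.zero_mul, smul_zero]
  obtain ⟨κ₀, h1, h2, h3⟩ : ∃ κ₀ : WW b, κ₀.h = κ.h ∧ κ₀.r = κ.r + 1 ∧ κ₀.e = ε :=
    ⟨⟨(κ.h, κ.r + 1, ε), κ.2.1, κ.2.2.1, (not_le.1 c').le, fun z => absurd z (by simp only; omega)⟩,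
      rfl, rfl, rfl⟩
  rw [Finset.sum_eq_single κ₀ (fun κ' _ h => ?_) (by simp), h1, h2, h3, r2_uu (r2_p hW k),
    wrd_p hW.ok.pp, Ew, if_pos ⟨h1, h2, c, .inr h3⟩, one_smul]
  rw [show Ew b ε κ' κ = 0 from of_not_not fun z => h ?_, zero_smul]
  obtain ⟨k1, k2, -, k3⟩ := Ew_ne z
  exact Subtype.ext (Prod.ext (k1.trans h1.symm) (Prod.ext (k2.trans h2.symm)
    ((k3.resolve_left (by omega)).trans h3.symm)))

end

theorem bcov_ok (hH : LR H) (hW : DOk H W) {a : ℤ} {b : ℕ} (hM : Mw a (a + b) W) (k : ℤ) :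
    (bcov a b k W).Ok H k := by
  have up := r2_p hW k
  have ud : ∀ s ε a, iw W k a * W.d (some s) ε = W.d (some s) ε * iw W k a := fun s ε =>
    r2_s (hW.okd (some s) ε).hD k
  have pp := hW.ok.pp
  have hE : ∀ ε κ' κ, Ew b ε κ' κ ≠ 0 → κ'.h = κ.h := fun _ _ _ e => (Ew_ne e).1
  have hE' : ∀ ε κ' κ, (Ew b ε)ᵀ κ' κ ≠ 0 → κ'.h = κ.h := fun _ _ _ e => (Ew_ne e).1.symm
  have hp : Hm (grF _ H) 0 (bcov a b k W).F.t (bcov a b k W).F.t (bcov a b k W).F.p :=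
    r2_un (hm_vd_iff.1 (r2_hn (ε := false) hW fun κ' κ e => by simp [r2_one κ' κ e]))
  have PP : (bcov a b k W).F.p * (bcov a b k W).F.p = (bcov a b k W).F.p :=
    (r2_mul1 up).trans (by rw [pp])
  have c1 : ∀ s ε ε', r2_L W a k (Ew b ε) W.p * r2_L W a k 1 (W.d (some s) ε') =
      r2_L W a k 1 (W.d (some s) ε') * r2_L W a k (Ew b ε) W.p := fun s ε ε' => by
    rw [r2_mul1 (ud _ _), r2_mul (hE _) up, Matrix.one_mul, (hW.okd _ ε').pD, (hW.okd _ ε').Dp]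
  have ep : (bcov a b k W).F.p = r2_L W a k 1 W.p := rfl
  have ed : ∀ s ε, (bcov a b k W).F.d (some s) ε = r2_L W a k 1 (W.d (some s) ε) := fun _ _ => rfl
  have eφ : (bcov a b k W).φ = r2_row fun κ : WW b =>
      wrd W.p (W.d none) κ.r κ.e * iw W k (a + κ.h) := rfl
  have es : (bcov a b k W).s = r2_col fun κ : WW b =>
      if κ.r = 0 then W.p * iw W k (a + κ.h) else 0 := by
    ext x i
    simp only [r2_col]
    split_ifs <;> rfl
  refine ⟨⟨⟨hp, Hm.zero _ _, PP, Matrix.mul_zero _, Matrix.zero_mul _, Matrix.zero_mul _⟩, ?_,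
    fun _ _ => (Matrix.zero_mul _).trans (Matrix.mul_zero _).symm, ?_⟩, rfl, fun _ => rfl,
    ⟨r2_un fun i x => ?_, ?_, ?_⟩, ⟨r2_un fun x i => ?_, ?_, ?_⟩, ?_, fun s ε => ?_, ?_,
    fun ε => ⟨r2_L W a k (Ew b ε)ᵀ W.p, r2_hn hW fun κ' κ e => ?_, ?_⟩, fun s h ε => ?_⟩
  · rintro (_ | s) ε
    · exact ⟨hm_vd hp _ _, r2_hn hW fun κ' κ e => by have := Ew_ne e; omega, PP,
        (r2_mul (hE _) up).trans (by rw [pp, Matrix.one_mul]; rfl),
        (r2_mul1 up).trans (by rw [pp]; rfl),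
        (r2_mul (hE _) up).trans (by rw [Ew_Ew]; exact kr_zero _)⟩
    · have o := hW.okd (some s) ε
      exact ⟨hm_vd hp _ _, r2_hs o.hD, PP, (r2_mul1 (ud _ _)).trans (by rw [o.pD]; rfl),
        (r2_mul1 up).trans (by rw [o.Dp]; rfl),
        (r2_mul1 (ud _ _)).trans (by simp only [o.DD, r2_L, Matrix.zero_mul, kr_zero'])⟩
  · rintro (_ | s) (_ | s') ε ε' h
    exacts [absurd rfl h, c1 _ _ _, (c1 _ _ _).symm,
      (r2_mul1 (ud _ _)).trans (by rw [hW.cd _ _ _ _ h]; exact (r2_mul1 (ud _ _)).symm)]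
  · have c := wrd_ent hH hW none x.2.r x.2.e i x.1
    simp only [iw, mul_ind_apply]
    split_ifs with u
    · refine ⟨c.1, fun e => ⟨(c.2 e).1.trans u.1, ?_, ?_⟩⟩
      · have := (c.2 e).2.1
        have := u.2
        change _ = a + x.2.h - x.2.r + 0
        omega
      · rintro (_ | s) h
        exacts [absurd rfl h, (c.2 e).2.2 _ h]
    · exact ⟨zero_mem _, fun e => absurd rfl e⟩
  · rw [eφ]
    simp only [r2_mul_row, ← Matrix.mul_assoc, p_wrd pp fun e => (hW.okd none e).pD]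
  · rw [ep, eφ, r2_row_one]
    simp only [r2_uu up, wrd_p pp]
  · have c := hW.ok.hp x.1 i
    simp only [← up]
    simp only [iw, ind_mul_apply]
    split_ifs with r u
    · refine ⟨c.1.1, fun e => ⟨u.1.symm.trans ((c.2 e).trans (add_zero _)), ?_, ?_⟩⟩
      · have : W.m none x.1 = W.m none i := congrFun (c.1.2 e) none
        have := u.2
        change a + x.2.h - x.2.r = _
        omega
      · rintro (_ | s) h
        exacts [absurd rfl h, congrFun (c.1.2 e) (some s)]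
    all_goals exact ⟨zero_mem _, fun e => absurd rfl e⟩
  · rw [ep, es, r2_one_col]
    simp only [mul_ite, r2_uu up, pp, Matrix.mul_zero]
  · rw [es]
    simp only [r2_col_mul, ite_mul, Matrix.zero_mul, Matrix.mul_assoc, up,
      ← Matrix.mul_assoc W.p W.p, pp]
  · rintro (_ | s) ε
    · exact (congrArg r2_row (funext (r2_dw hH hW hM))).trans (r2_row_kr _ _ _).symm
    · rw [ed, eφ, r2_row_one]
      simp only [r2_mul_row, r2_uu (ud _ _), ← Matrix.mul_assoc, wrd_comm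
        ((hW.okd (some s) ε).Dp.trans (hW.okd (some s) ε).pD.symm)
        fun e => hW.cd _ none ε e (by simp)]
  · rw [ed, es, r2_col_mul, r2_one_col]
    simp only [mul_ite, ite_mul, Matrix.mul_zero, Matrix.zero_mul, r2_uu up, Matrix.mul_assoc W.p,
      ud, ← Matrix.mul_assoc W.p, (hW.okd (some s) ε).pD, (hW.okd (some s) ε).Dp]
  · rw [eφ, es, r2_row_col]
    ext i j
    obtain ⟨h1, h2⟩ := hM j
    obtain ⟨κ₀, k1, k2⟩ : ∃ κ₀ : WW b, W.m none j = a + κ₀.h ∧ κ₀.r = 0 :=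
      ⟨⟨((W.m none j - a).toNat, 0, false), by simp only; omega, by simp only; omega, Nat.zero_le _,
        fun _ => rfl⟩, show _ = a + (W.m none j - a).toNat by omega, rfl⟩
    rw [Matrix.sum_apply, Finset.sum_eq_single κ₀ (fun κ _ h => ?_) (by simp), if_pos k2, k2,
      r2_uu up, wrd_p pp, iw, DC.ic, mul_ind_apply, mul_ind_apply]
    · simp [← k1, wrd]
    split_ifs with r
    · rw [r2_uu up, iw, mul_ind_apply, if_neg fun u => h ?_]
      have := u.2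
      exact Subtype.ext (Prod.ext (by change κ.h = κ₀.h; omega) (Prod.ext (r.trans k2.symm)
        ((κ.2.2.2.2 (.inl r)).trans (κ₀.2.2.2.2 (.inl k2)).symm)))
    · simp
  · have := Ew_ne e
    omega
  · exact (congrArg₂ (· + ·) (r2_mul (hE' _) up) (r2_mul (hE _) up)).trans (by
      rw [kr_add', Ew_contr, pp, one_smul])
  · obtain ⟨u, h1, h2⟩ := h ε
    refine ⟨r2_L W a k 1 u, r2_hs h1, (congrArg₂ (· + ·) (r2_mul1 (r2_s h1 k))
      (r2_mul1 (ud _ _))).trans ?_⟩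
    simp only [r2_L, kr_add, ← Matrix.add_mul, one_smul, h2.trans (one_smul _ _)]

end Pool.Agent.MP_f7db47_al.GR

end

section

/-!
The resolution is functorial.
-/

namespace Pool.Agent.MP_f7db47_al.GR

open Matrix KN

universe v w

variable {A : Type v} [Ring A] {Λ σ : Type} {W' W W'' : DC A Λ (Option σ)} {n : ℕ}

theorem r2b_ext {τ : Type} {X' X X'' Y' Y Y'' : DC A Λ τ} {a : Spl X'.J X.J X''.J}
    {b : Spl Y'.J Y.J Y''.J} (h : Tri X' X X'' a) (k : Tri Y' Y Y'' b)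
    {t' : Matrix X'.J Y'.J A} {t : Matrix X.J Y.J A} {t'' : Matrix X''.J Y''.J A}
    (ht : Blk a b t' t t'') {u' : τ → Bool → Matrix X'.J Y'.J A}
    {u : τ → Bool → Matrix X.J Y.J A} {u'' : τ → Bool → Matrix X''.J Y''.J A}
    (hu : ∀ s ε, Blk a b (u' s ε) (u s ε) (u'' s ε)) :
    Tri (X'.ext Y' t' u') (X.ext Y t u) (X''.ext Y'' t'' u'') (a.add b) :=
  ⟨h.c.ext k.c ht, fun s ε => (h.d s ε).blocks (hu s ε) (Blk.zero _ _) (k.d s ε)⟩

theorem r2b_rr {C' : Cov W'} {C : Cov W} {C'' : Cov W''} {a : Spl W'.J W.J W''.J}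
    {b : Spl C'.F.J C.F.J C''.F.J} (h : Tri W' W W'' a) (hF : Tri C'.F C.F C''.F b)
    (hφ : Blk a b C'.φ C.φ C''.φ) (hs : Blk b a C'.s C.s C''.s) :
    Tri (rr W' C') (rr W C) (rr W'' C'') ((b.add b).add a) := by
  have hp := hF.c.p.sub (hs.mul hφ)
  have hK : Tri C'.K C.K C''.K b :=
    ⟨⟨hF.c.tl, hF.c.tr, hp, Blk.zero _ _⟩, fun s ε => (hF.d s ε).mul hp⟩
  have hK' : Tri C'.K.sh C.K.sh C''.K.sh b := ⟨hK.c.sh 1, hK.d⟩
  refine r2b_ext (r2b_ext hK hK' hp fun _ _ => Blk.zero _ _) h (Blk.zero _ _) fun s ε => ?_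
  cases s with
  | none =>
    have e := ((hF.d none ε).mul hs).sub (hs.mul (h.d none ε))
    exact e.rows (e.mul h.c.D)
  | some s => exact Blk.zero _ _

theorem r2b_iw {a : Spl W'.J W.J W''.J} (h : Tri W' W W'' a) (k l : ℤ) :
    Blk a a (iw W' k l) (iw W k l) (iw W'' k l) :=
  blk_ind a (fun i => by simp only [Set.mem_ofPred_eq, DC.c, DC.m, h.c.tl i])
    fun i => by simp only [Set.mem_ofPred_eq, DC.c, DC.m, h.c.tr i]

theorem r2b_wrd {a : Spl W'.J W.J W''.J} (h : Tri W' W W'' a) (r : ℕ) : ∀ e : Bool,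
    Blk a a (wrd W'.p (W'.d none) r e) (wrd W.p (W.d none) r e) (wrd W''.p (W''.d none) r e) := by
  induction r with
  | zero => exact fun _ => h.c.p
  | succ r ih => exact fun e => (h.d none e).mul (ih _)

theorem r2b_bcov {a : Spl W'.J W.J W''.J} (h : Tri W' W W'' a) (l : ℤ) (b : ℕ) (k : ℤ) :
    Tri (rr W' (bcov l b k W')) (rr W (bcov l b k W)) (rr W'' (bcov l b k W''))
      (((a.prod _).add (a.prod _)).add a) := by
  have hp := fun κ : WW b => h.c.p.mul (r2b_iw h k (l + κ.h))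
  have hw := fun κ : WW b => (r2b_wrd h κ.r κ.e).mul (r2b_iw h k (l + κ.h))
  refine r2b_rr (C' := bcov l b k W') (C := bcov l b k W) (C'' := bcov l b k W'')
    (b := a.prod _) h ⟨⟨fun x => ?_, fun x => ?_, Blk.kr _ hp, Blk.zero _ _⟩, fun s ε => ?_⟩
    ⟨?_, ?_, fun i x => (hw x.2).z i x.1⟩ ⟨?_, ?_, fun x i => ?_⟩
  · simp only [DC.m, h.c.tl x.1, Prod.map_fst, Prod.map_snd, id]
  · simp only [DC.m, h.c.tr x.1, Prod.map_fst, Prod.map_snd, id]
  · cases s with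
    | none => exact Blk.kr _ hp
    | some s => exact Blk.kr _ fun κ : WW b => (h.d (some s) ε).mul (r2b_iw h k (l + κ.h))
  · exact funext fun i => funext fun x => congrFun (congrFun (hw x.2).l i) x.1
  · exact funext fun i => funext fun x => congrFun (congrFun (hw x.2).r i) x.1
  · exact funext fun x => funext fun i =>
      if_congr Iff.rfl (congrFun (congrFun (hp x.2).l x.1) i) rfl
  · exact funext fun x => funext fun i =>
      if_congr Iff.rfl (congrFun (congrFun (hp x.2).r x.1) i) rfl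
  · exact ite_eq_right_iff.2 fun _ => (hp x.2).z x.1 i

theorem RR_tri {a : Spl W'.J W.J W''.J} (h : Tri W' W W'' a) (n k : ℕ) :
    ∃ b, Tri (RR n W' k) (RR n W k) (RR n W'' k) b := by
  induction k with
  | zero => exact ⟨a, h⟩
  | succ k ih =>
    obtain ⟨b, hb⟩ := ih
    exact ⟨_, r2b_bcov hb _ _ _⟩

theorem r2b_sd {s : Option σ} (C : Cov W) (h : W.d s false = W.d s true)
    (hF : C.F.d s false = C.F.d s true) : (rr W C).d s false = (rr W C).d s true := by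
  cases s <;> simp only [Option.elim, Pi.zero_apply, h, hF]

theorem RR_sd {s : σ} (h : W.d (some s) false = W.d (some s) true) (n k : ℕ) :
    (RR n W k).d (some s) false = (RR n W k).d (some s) true := by
  induction k with
  | zero => exact h
  | succ k ih => exact r2b_sd _ ih (by simp only [Option.elim, ih])

section Fx

variable {δ : A →+* A} {I J K L : Type}

theorem r2b_zero : (0 : Matrix I J A).map δ = 0 := Matrix.map_zero _ δ.map_zero

theorem r2b_mul [Fintype J] {f : Matrix I J A} {g : Matrix J K A} (hf : f.map δ = f)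
    (hg : g.map δ = g) : (f * g).map δ = f * g := by rw [Matrix.map_mul, hf, hg]

theorem r2b_sub {f g : Matrix I J A} (hf : f.map δ = f) (hg : g.map δ = g) :
    (f - g).map δ = f - g := by rw [Matrix.map_sub _ δ.map_sub, hf, hg]

theorem r2b_blk {f : Matrix I J A} {g : Matrix I L A} {u : Matrix K L A} (hf : f.map δ = f)
    (hg : g.map δ = g) (hu : u.map δ = u) : (fromBlocks f g 0 u).map δ = fromBlocks f g 0 u := by
  rw [fromBlocks_map, hf, hg, hu, r2b_zero]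

theorem r2b_kr (E : Matrix K L ℤ) {B : L → Matrix I J A} (h : ∀ κ, (B κ).map δ = B κ) :
    (kr E B).map δ = kr E B := by rw [kr_map, funext h]

theorem r2b_ind [DecidableEq I] (U : Set I) : (ind A U).map δ = ind A U := by
  rw [ind, diagonal_map δ.map_zero]
  refine congrArg diagonal (funext fun i => ?_)
  split_ifs
  exacts [δ.map_one, δ.map_zero]

theorem r2b_fix (C : Cov W) (h : DFix δ W) (hF : DFix δ C.F) (hφ : C.φ.map δ = C.φ)
    (hs : C.s.map δ = C.s) : DFix δ (rr W C) := by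
  have hp := r2b_sub hF.1.1 (r2b_mul hs hφ)
  refine ⟨⟨r2b_blk (r2b_blk hp r2b_zero hp) r2b_zero h.1.1,
    r2b_blk (r2b_blk r2b_zero hp ?_) r2b_zero h.1.2⟩, fun s ε =>
    r2b_blk (r2b_blk (r2b_mul (hF.2 s ε) hp) r2b_zero (r2b_mul (hF.2 s ε) hp)) ?_ (h.2 s ε)⟩
  · rw [Matrix.map_neg _ δ.map_neg, r2b_zero]
  · cases s with
    | none =>
      have e := r2b_sub (r2b_mul (hF.2 none ε) hs) (r2b_mul hs (h.2 none ε))
      exact (fromRows_map _ _ _).trans (congrArg₂ fromRows e (r2b_mul e h.1.2))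
    | some s => exact r2b_zero

theorem r2b_bfix (h : DFix δ W) (l : ℤ) (b : ℕ) (k : ℤ) : DFix δ (rr W (bcov l b k W)) := by
  have hi : ∀ u, (iw W k u).map δ = iw W k u := fun _ => r2b_ind _
  have hp := fun κ : WW b => r2b_mul h.1.1 (hi (l + κ.h))
  refine r2b_fix (bcov l b k W) h ⟨⟨r2b_kr _ hp, r2b_zero⟩, fun s ε => ?_⟩ ?_ ?_
  · cases s with
    | none => exact r2b_kr _ hp
    | some s => exact r2b_kr _ fun κ : WW b => r2b_mul (h.2 (some s) ε) (hi (l + κ.h))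
  · exact funext fun i => funext fun x => congrFun (congrFun
      (r2b_mul (wrd_map h.1.1 (h.2 none) x.2.r x.2.e) (hi (l + x.2.h))) i) x.1
  · exact funext fun x => funext fun i => (apply_ite δ _ _ _).trans
      (if_congr Iff.rfl (congrFun (congrFun (hp x.2) x.1) i) δ.map_zero)

end Fx

theorem RR_fix {δ : A →+* A} (h : DFix δ W) (n k : ℕ) : DFix δ (RR n W k) := by
  induction k with
  | zero => exact h
  | succ k ih => exact r2b_bfix ih _ _ _

theorem r2b_cw (C : Cov W) (h : Cw n W) {k : ℤ} (hc : ∀ i, C.F.c i = k) (h1 : -(n : ℤ) ≤ k)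
    (h2 : k + 1 ≤ n) : Cw n (rr W C) := by
  rintro ((i | i) | i)
  · have e : (rr W C).c (.inl (.inl i)) = k := hc i
    omega
  · have e : (rr W C).c (.inl (.inr i)) = k + 1 := congrArg (· + 1) (hc i)
    omega
  · exact h i

theorem RR_cw (h : Cw n W) {k : ℕ} (hk : k ≤ 2 * n) : Cw n (RR n W k) := by
  induction k with
  | zero => exact h
  | succ k ih =>
    exact r2b_cw _ (ih (by omega)) (k := -(n : ℤ) + k) (fun _ => rfl) (by omega) (by omega)

theorem r2b_mw {a : ℤ} {b : ℕ} (k : ℤ) (h : Mw a (a + b) W) :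
    Mw (a - 1) (a + b) (rr W (bcov a b k W)) := by
  have e : ∀ κ : WW b, a - 1 < a + κ.h - κ.r ∧ a + κ.h - κ.r ≤ a + b := fun κ => by
    obtain ⟨-, h1, h2, -⟩ := κ.2
    simp only [WW.h, WW.r]
    omega
  rintro ((i | i) | i)
  · exact e i.2
  · exact e i.2
  · exact ⟨(sub_one_lt a).trans (h i).1, (h i).2⟩

theorem RR_mw (h : Mw (-(n : ℤ) - 1) n W) (k : ℕ) : Mw (-(n : ℤ) - 1 - k) n (RR n W k) := by
  induction k with
  | zero => exact fun i => ⟨lt_of_eq_of_lt (by omega) (h i).1, (h i).2⟩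
  | succ k ih =>
    have e : -(n : ℤ) - 1 - k + (2 * n + 1 + k : ℕ) = n := by omega
    have := r2b_mw (-(n : ℤ) + k) (e.symm ▸ ih :
      Mw (-(n : ℤ) - 1 - k) (-(n : ℤ) - 1 - k + (2 * n + 1 + k : ℕ)) (RR n W k))
    exact fun i => ⟨lt_of_eq_of_lt (by omega) (this i).1, (this i).2.trans e.le⟩

theorem RD_cw (h : Cw n W) {k : ℕ} (hk : k ≤ 2 * n) : Cw n (RD n W k) := by
  induction k with
  | zero => exact h
  | succ k ih =>
    exact r2b_cw _ (ih (by omega)) (k := -(n : ℤ) + k) (by rintro (i | i) <;> rfl) (by omega)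
      (by omega)

theorem RD_sd (h : W.d none false = W.d none true) (n k : ℕ) :
    (RD n W k).d none false = (RD n W k).d none true := by
  induction k with
  | zero => exact h
  | succ k ih => exact r2b_sd _ ih rfl

theorem ev_win (W : DC A Λ (Option σ)) :
    ∀ᶠ n : ℕ in Filter.atTop, Cw n W ∧ Mw (-(n : ℤ) - 1) n W := by
  refine Filter.Eventually.and (Filter.eventually_all.2 fun i => ?_)
    (Filter.eventually_all.2 fun i => ?_)
  · filter_upwards [Filter.eventually_ge_atTop (W.c i).natAbs] with n hn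
    omega
  · filter_upwards [Filter.eventually_ge_atTop (W.m none i).natAbs] with n hn
    omega

end Pool.Agent.MP_f7db47_al.GR

end

section

/-!
The cover of a diagonal term.
-/

namespace Pool.Agent.MP_f7db47_al.GR

open Matrix KN

universe v w

variable {A : Type v} [Ring A] {Λ σ : Type} [DecidableEq σ] {H : Fam A Λ} {W : DC A Λ (Option σ)}

theorem r3_z {P : Prop} {S : AddSubgroup A} : (0 : A) ∈ S ∧ ((0 : A) ≠ 0 → P) :=
  ⟨zero_mem _, fun e => absurd rfl e⟩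

theorem r3_hm {σ : Type} {X Y : DC A Λ σ} {f : Matrix X.J Y.J A}
    (h : ∀ i j, f i j ∈ H (X.t i).1.1 (Y.t j).1.1 ∧
      (f i j ≠ 0 → X.c i = Y.c j ∧ ∀ s, X.m s i = Y.m s j)) : Hm (grF _ H) 0 X.t Y.t f :=
  fun i j => ⟨⟨(h i j).1, fun e => funext ((h i j).2 e).2⟩,
    fun e => ((h i j).2 e).1.trans (add_zero _).symm⟩

theorem r3_vd {s : Option σ} {ε : Bool} {d : ℤ} {f : Matrix W.J W.J A}
    (hf : Hm (grF _ H) d (W.vd s ε).t (W.vd s ε).t f) (k : ℤ) (i j : W.J) :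
    (f * W.ic k) i j ∈ H (W.t i).1.1 (W.t j).1.1 ∧ ((f * W.ic k) i j ≠ 0 → W.c i = k ∧ W.c j = k ∧
      W.m s i = W.m s j + d ∧ ∀ s', s' ≠ s → W.m s' i = W.m s' j) := by
  rw [DC.ic, mul_ind_apply]
  split_ifs with e
  · exact (hm_vd_iff.1 hf i j).imp_right fun h e' => ⟨(h e').1.trans e, e, (h e').2⟩
  · exact r3_z

theorem r3_diag {s : σ} {ε : Bool} {d : ℤ} {f : Matrix W.J W.J A}
    (hf : Hm (grF _ H) d (W.vd (some s) ε).t (W.vd (some s) ε).t f) (k : ℤ) :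
    Hm (grF _ H) d ((dcov k W).F.vd (some s) ε).t ((dcov k W).F.vd (some s) ε).t
      (fromBlocks (f * W.ic k) 0 0 (f * W.ic k)) := by
  refine hm_vd_iff.2 ?_
  rintro (i | i) (j | j)
  · exact (r3_vd hf k i j).imp_right fun h e => ⟨rfl, (h e).2.2⟩
  · exact r3_z
  · exact r3_z
  · refine (r3_vd hf k i j).imp_right fun h e => ⟨rfl, (h e).2.2.1, ?_⟩
    rintro (_ | s') hs
    · exact congrArg (· - 1) ((h e).2.2.2 _ hs)
    · exact (h e).2.2.2 _ hs

theorem dcov_ok (hW : DOk H W) (h : W.d none false = W.d none true) (k : ℤ) :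
    (dcov k W).Ok H k := by
  have eP := r3_vd (hW.okd none false).hp k
  have eP' : ∀ i j, (W.p * W.ic k) i j ≠ 0 → ∀ s, W.m s i = W.m s j := fun i j e s => by
    cases s
    exacts [((eP i j).2 e).2.2.1.trans (add_zero _), ((eP i j).2 e).2.2.2 _ (by simp)]
  have cI : ∀ {s ε d f}, Hm (grF _ H) d (W.vd s ε).t (W.vd s ε).t f → W.ic k * f = f * W.ic k :=
    fun hf => ic_comm (fun i j e => ((hm_vd_iff.1 hf i j).2 e).1) k
  have II : W.ic k * W.ic k = W.ic k := by rw [DC.ic, ind_mul_ind, Set.inter_self]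
  have Id : ∀ s ε, W.ic k * W.d s ε = W.d s ε * W.ic k := fun s ε => cI (hW.okd s ε).hD
  have Id' : ∀ s ε (x : Matrix W.J W.J A), W.ic k * (W.d s ε * x) = W.d s ε * (W.ic k * x) :=
    fun s ε x => by rw [← Matrix.mul_assoc, Id, Matrix.mul_assoc]
  have Ip : ∀ x : Matrix W.J W.J A, W.ic k * (W.p * x) = W.p * (W.ic k * x) := fun x => by
    rw [← Matrix.mul_assoc, cI (hW.okd none false).hp, Matrix.mul_assoc]
  have pp : ∀ x : Matrix W.J W.J A, W.p * (W.p * x) = W.p * x := fun x => by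
    rw [← Matrix.mul_assoc, hW.ok.pp]
  have pd : ∀ s ε (x : Matrix W.J W.J A), W.p * (W.d s ε * x) = W.d s ε * x := fun s ε x => by
    rw [← Matrix.mul_assoc, (hW.okd s ε).pD]
  have dp : ∀ s ε (x : Matrix W.J W.J A), W.d s ε * (W.p * x) = W.d s ε * x := fun s ε x => by
    rw [← Matrix.mul_assoc, (hW.okd s ε).Dp]
  have dd : ∀ s ε (x : Matrix W.J W.J A), W.d s ε * (W.d s ε * x) = 0 := fun s ε x => by
    rw [← Matrix.mul_assoc, (hW.okd s ε).DD, Matrix.zero_mul]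
  have cd : ∀ s s' ε ε' (x : Matrix W.J W.J A), s ≠ s' →
      W.d s ε * (W.d s' ε' * x) = W.d s' ε' * (W.d s ε * x) := fun s s' ε ε' x e => by
    rw [← Matrix.mul_assoc, hW.cd s s' ε ε' e, Matrix.mul_assoc]
  have hp : Hm (grF _ H) 0 (dcov k W).F.t (dcov k W).F.t (dcov k W).F.p := by
    refine r3_hm ?_
    rintro (i | i) (j | j)
    · exact ⟨(eP i j).1, fun e => ⟨rfl, eP' i j e⟩⟩
    · exact r3_z
    · exact r3_z
    · refine ⟨(eP i j).1, fun e => ⟨rfl, ?_⟩⟩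
      rintro (_ | s)
      exacts [congrArg (· - 1) (eP' i j e none), eP' i j e _]
  have FF : (dcov k W).F.p * (dcov k W).F.p = (dcov k W).F.p := by
    simp [fromBlocks_multiply, Matrix.mul_assoc, Ip, II, pp]
  refine ⟨⟨⟨hp, Hm.zero _ _, FF, mul_zero _, zero_mul _, mul_zero _⟩, ?_,
    fun _ _ => (zero_mul _).trans (mul_zero _).symm, ?_⟩, rfl, ?_, ⟨r3_hm ?_, ?_, ?_⟩,
    ⟨r3_hm ?_, ?_, ?_⟩, ?_, fun s ε => ?_, ?_, fun ε => ⟨fromBlocks 0 (W.p * W.ic k) 0 0,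
      hm_vd_iff.2 ?_, ?_⟩, fun s hs ε => ?_⟩
  · rintro (_ | s) ε
    · refine ⟨hm_vd hp _ _, hm_vd_iff.2 ?_, FF, ?_, ?_, ?_⟩
      · rintro (i | i) (j | j)
        · exact r3_z
        · exact r3_z
        · refine ⟨(eP i j).1, fun e => ⟨rfl, congrArg (· - 1) (eP' i j e none), ?_⟩⟩
          rintro (_ | s) hs
          exacts [absurd rfl hs, eP' i j e _]
        · exact r3_z
      all_goals simp [fromBlocks_multiply, Matrix.mul_assoc, Ip, II, pp]
    · refine ⟨hm_vd hp _ _, r3_diag (hW.okd _ ε).hD k, FF, ?_, ?_, ?_⟩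
      all_goals simp [fromBlocks_multiply, Matrix.mul_assoc, Ip, II, Id', pd, dp, dd]
  · rintro (_ | s) (_ | s') ε ε' e
    · exact absurd rfl e
    · simp [fromBlocks_multiply, Matrix.mul_assoc, Ip, II, Id', pd, dp]
    · simp [fromBlocks_multiply, Matrix.mul_assoc, Ip, II, Id', pd, dp]
    · simp [fromBlocks_multiply, Matrix.mul_assoc, II, Id', cd _ _ ε ε' _ e]
  · rintro (i | i) <;> rfl
  · rintro i (j | j)
    · exact ⟨(eP i j).1, fun e => ⟨((eP i j).2 e).1, eP' i j e⟩⟩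
    · refine (r3_vd (hW.okd none false).hD k i j).imp_right fun h e => ⟨(h e).1, ?_⟩
      rintro (_ | s)
      exacts [(h e).2.2.1, (h e).2.2.2 _ (by simp)]
  · simp [mul_fromCols, pp, pd]
  · simp [fromCols_mul_fromBlocks, Matrix.mul_assoc, Ip, II, pp, dp]
  · rintro (i | i) j
    · exact ⟨(eP i j).1, fun e => ⟨((eP i j).2 e).2.1.symm, eP' i j e⟩⟩
    · exact r3_z
  · simp [fromBlocks_mul_fromRows, Matrix.mul_assoc, Ip, II, pp]
  · simp [fromRows_mul, Matrix.mul_assoc, cI (hW.okd none false).hp, pp]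
  · rintro (_ | s) ε
    · have e : W.d none ε = W.d none false := by cases ε <;> simp [h]
      simp [e, mul_fromCols, fromCols_mul_fromBlocks, Matrix.mul_assoc, Ip, II, dp, dd]
    · simp [mul_fromCols, fromCols_mul_fromBlocks, Matrix.mul_assoc, II, Id', dp, pd,
        cd (some s) none ε false]
  · simp [fromBlocks_mul_fromRows, fromRows_mul, Matrix.mul_assoc, Ip, II, Id, dp, pd]
  · simp [fromCols_mul_fromRows, Matrix.mul_assoc, Ip, II, pp]
  · rintro (i | i) (j | j)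
    · exact r3_z
    · refine ⟨(eP i j).1, fun e => ⟨rfl, (eP' i j e none).trans (sub_add_cancel _ _).symm, ?_⟩⟩
      rintro (_ | s) hs
      exacts [absurd rfl hs, eP' i j e _]
    · exact r3_z
    · exact r3_z
  · simp [fromBlocks_multiply, fromBlocks_add, Matrix.mul_assoc, Ip, II, pp]
  · obtain ⟨g, g1, g2⟩ := hs ε
    have e : W.d (some s) ε * W.ic k * (g * W.ic k) + g * W.ic k * (W.d (some s) ε * W.ic k) =
        W.p * W.ic k := by
      have g3 : W.d (some s) ε * g + g * W.d (some s) ε = W.p := g2.trans (one_smul _ _)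
      rw [← g3, Matrix.add_mul, Matrix.mul_assoc, ← Matrix.mul_assoc (W.ic k), cI g1]
      simp only [Matrix.mul_assoc, II, Id']
    refine ⟨_, r3_diag g1 k, ?_⟩
    simp [fromBlocks_multiply, fromBlocks_add, e]

end Pool.Agent.MP_f7db47_al.GR

end

section

/-!
The resolution theorem.
-/

namespace Pool.Agent.MP_f7db47_al.GR

open Matrix KN

universe v w

section

variable {𝒮 : Sys.{v}} {σ : Type} [DecidableEq σ] {n : ℕ} {T : Set (Option σ)}
  {W : DC 𝒮.A 𝒮.Λ (Option σ)}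

/-- The properties of the `k`-th step of a resolution. -/
structure r4_St (n : ℕ) (T : Set (Option σ)) (W Y : DC 𝒮.A 𝒮.Λ (Option σ)) (k : ℕ) : Prop where
  ob : DOb 𝒮 T Y
  ac : ∀ c < -(n : ℤ) + k, AcAt 𝒮.H Y none c
  wn : WN 𝒮.H W → WN 𝒮.H Y
  eq : ∀ (M : Type w) [AddCommGroup M] (κ : DC 𝒮.A 𝒮.Λ (Option σ) → M), Add0 𝒮 T κ → κ Y = κ W

theorem r4_zero (h : DOb 𝒮 T W) (hc : Cw n W) : r4_St.{v, w} n T W W 0 :=
  ⟨h, fun _ hk => acAt_of_not fun i => by have := (hc i).1; omega, id, fun _ _ _ _ => rfl⟩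

theorem r4_succ (hS : 𝒮.Good) {Y : DC 𝒮.A 𝒮.Λ (Option σ)} {k : ℕ} (h : r4_St.{v, w} n T W Y k)
    {C : Cov Y} (hC : C.Ok 𝒮.H (-(n : ℤ) + k)) : r4_St.{v, w} n T W (rr Y C) (k + 1) := by
  refine ⟨hC.rr_ob hS h.ob, fun c hc => ?_, fun h0 => hC.rr_wn hS.mul h.ob.ok (h.wn h0),
    fun M _ κ hκ => (hC.rr_eq hS hκ h.ob).trans (h.eq M κ hκ)⟩
  rcases lt_or_ge c (-(n : ℤ) + k) with e | e
  · exact hC.rr_lt hS.mul h.ob.ok e (h.ac c e)
  · obtain rfl : c = -(n : ℤ) + k := by omega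
    exact hC.rr_at hS.mul h.ob.ok

theorem r4_RR (hS : 𝒮.Good) (h : DOb 𝒮 T W) (hc : Cw n W ∧ Mw (-(n : ℤ) - 1) n W) (k : ℕ) :
    r4_St.{v, w} n T W (RR n W k) k := by
  induction k with
  | zero => exact r4_zero h hc.1
  | succ k ih =>
    refine r4_succ hS ih (bcov_ok hS.mul ih.ob.ok ?_ _)
    rw [show -(n : ℤ) - 1 - k + (2 * n + 1 + k : ℕ) = n by omega]
    exact RR_mw hc.2 k

theorem r4_RD (hS : 𝒮.Good) (h : DOb 𝒮 T W) (hc : Cw n W) (hd : W.d none false = W.d none true)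
    (k : ℕ) : r4_St.{v, w} n T W (RD n W k) k := by
  induction k with
  | zero => exact r4_zero h hc
  | succ k ih => exact r4_succ hS ih (dcov_ok ih.ob.ok (RD_sd hd n k) _)

theorem r4_St.univ (hS : 𝒮.Good) {Y : DC 𝒮.A 𝒮.Λ (Option σ)}
    (h : r4_St.{v, w} n (Set.range some) W Y (2 * n)) (hc : Cw n Y) : DOb 𝒮 Set.univ Y := by
  have h1 : ∀ c, c ≠ (n : ℤ) → AcAt 𝒮.H Y none c := fun c e => by
    rcases lt_or_gt_of_ne e with e | e
    · exact h.ac c (by omega)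
    · exact acAt_of_not fun i => by have := (hc i).2; omega
  refine ⟨h.ob.ok, h.ob.tor, fun s _ => ?_, fun s hs => absurd trivial hs⟩
  rcases s with _ | s
  · refine ac_of_at fun c => ?_
    by_cases e : c = n
    · exact e ▸ acAt_last hS.mul h.ob.ok (h.ob.tac none (by simp)) h1
    · exact h1 c e
  · exact h.ob.ac _ ⟨s, rfl⟩

theorem r4_ev (hS : 𝒮.Good) (h : DOb 𝒮 (Set.range some) W) : ∀ᶠ n : ℕ in Filter.atTop,
    DOb 𝒮 Set.univ (RR n W (2 * n)) ∧ (WN 𝒮.H W → WN 𝒮.H (RR n W (2 * n))) :=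
  (ev_win W).mono fun _ hn => ⟨(r4_RR.{v, 0} hS h hn _).univ hS (RR_cw hn.1 le_rfl),
    (r4_RR.{v, 0} hS h hn _).wn⟩

end

theorem zd_univ {𝒮 : Sys.{v}} {σ : Type} [DecidableEq σ] (hS : 𝒮.Good)
    (h : ZD.{v, w} 𝒮 (Option σ) (Set.range some)) : ZD.{v, w} 𝒮 (Option σ) Set.univ := by
  intro M _ κ hκ
  let κ' : DC 𝒮.A 𝒮.Λ (Option σ) → Filter.Germ (Filter.atTop : Filter ℕ) M :=
    fun W => Filter.Germ.ofFun fun n : ℕ => κ (RR n W (2 * n))
  have z : ∀ W, κ' W = 0 ↔ ∀ᶠ n : ℕ in Filter.atTop, κ (RR n W (2 * n)) = 0 :=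
    fun W => Filter.Germ.coe_eq
  have u : ∀ W, DOb 𝒮 Set.univ W → (κ' W = 0 ↔ κ W = 0) := fun W hW => by
    rw [z, ← Filter.eventually_const (f := (Filter.atTop : Filter ℕ)) (p := κ W = 0)]
    exact Filter.eventually_congr ((ev_win W).mono fun n hn => by
      rw [(r4_RR hS hW hn _).eq M κ hκ.toAdd0])
  have a : Add0 𝒮 (Set.range some) κ' := by
    refine ⟨fun X Y t τ hX hY hE => Filter.Germ.coe_eq.2 ?_, fun X hX h0 => (z X).2
      ((r4_ev hS hX).mono fun n hn => hκ.nul _ hn.1 (hn.2 h0))⟩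
    filter_upwards [r4_ev hS hX, r4_ev hS hY, r4_ev hS (hX.ext hS hY hE)] with n h1 h2 h3
    obtain ⟨b, hb⟩ := RR_tri (tri_ext X Y t τ) n (2 * n)
    exact (hκ.toAdd0.tri hS hb h1.1 h3.1.ok h2.1).2
  refine fun X hX => (u X hX).1 (h _ κ' ⟨a, fun s W hW hd => ?_, fun b W hW hd => (z W).2
    ((r4_ev hS hW).mono fun n hn => hκ.wd b _ hn.1 (RR_fix hd _ _))⟩ X
    (hX.anti hS (Set.subset_univ _)))
  rcases s with _ | s
  · obtain ⟨n, hn, -⟩ := (ev_win W).exists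
    have h1 := r4_RD.{v, w} hS hW hn hd (2 * n)
    have h2 := h1.univ hS (RD_cw hn le_rfl)
    rw [← h1.eq _ κ' a, u _ h2]
    exact hκ.sd none _ h2 (RD_sd hd _ _)
  · exact (z W).2 ((r4_ev hS hW).mono fun n hn => hκ.sd _ _ hn.1 (RR_sd hd _ _))

end Pool.Agent.MP_f7db47_al.GR

end

section

/-!
Euler characteristics.
-/

namespace Pool.Agent.MP_f7db47_al.GR

open Matrix KN

universe v w

section

variable {A : Type v} [Ring A] {Λ σ : Type} {H : Fam A Λ} {X' X X'' Y : DC A Λ σ}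

theorem x1_mul {K : Type} {f : Matrix Y.J X.J A} (h : ∀ i j, f i j ≠ 0 → Y.c i = X.c j)
    (g : Matrix K Y.J A) (k : ℤ) : g * Y.ic k * (f * X.ic k) = g * f * X.ic k := by
  rw [Matrix.mul_assoc g, ← Matrix.mul_assoc (Y.ic k), ic_comm h, Matrix.mul_assoc f, DC.ic,
    ind_mul_ind, Set.inter_self, Matrix.mul_assoc]

theorem x1_c {f : Matrix Y.J X.J A} (h : Hm (grF _ H) 0 Y.t X.t f) (i : Y.J) (j : X.J)
    (e : f i j ≠ 0) : Y.c i = X.c j := ((h i j).2 e).trans (add_zero _)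

theorem x1_sh (X : DC A Λ σ) (k : ℤ) : X.sh.term (k + 1) = X.term k := by
  have e : X.sh.ic (k + 1) = X.ic k := congrArg (ind A) (Set.ext fun _ => add_left_inj 1)
  unfold DC.term
  rw [e]

variable [DecidableEq σ]

theorem x1_mp (hX : DOk H X) {f : Matrix Y.J X.J A} (h : Mp (grF _ H) 0 Y.toCx X.toCx f) (k : ℤ) :
    Mp (grF _ H) 0 (Y.term k).toCx (X.term k).toCx (f * X.ic k) :=
  ⟨fun i j => ⟨(h.hm.mul_ind _ i j).1, fun _ => rfl⟩, (x1_mul (x1_c h.hm) _ k).trans (by rw [h.pl]),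
    (x1_mul (x1_c hX.ok.hp) _ k).trans (by rw [h.pr])⟩

theorem x1_dmap (hX : DOk H X) {f : Matrix Y.J X.J A} (h : DMap H Y X f) (k : ℤ) :
    DMap H (Y.term k) (X.term k) (f * X.ic k) :=
  ⟨⟨x1_mp hX h.ch.toMp k, (Matrix.zero_mul _).trans (Matrix.mul_zero _).symm⟩, fun s ε =>
    (x1_mul (x1_c h.ch.hm) _ k).trans (by
      rw [h.cm]
      exact (x1_mul (fun i j e => ((hm_vd_iff.1 (hX.okd s ε).hD i j).2 e).1) _ k).symm)⟩

theorem x1_ses (h' : DOk H X') (hX : DOk H X) (h'' : DOk H X'') (h : Ses H X' X X'') (k : ℤ) :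
    Ses H (X'.term k) (X.term k) (X''.term k) := by
  obtain ⟨i, q, r, s, hi, hq, hr, hs, e1, e2, e3⟩ := h
  refine ⟨_, _, _, _, x1_dmap h' hi k, x1_dmap hX hq k, x1_mp hX hr k, x1_mp h'' hs k,
    (x1_mul (x1_c hi.ch.hm) _ k).trans (by rw [e1]),
    (x1_mul (x1_c hs.hm) _ k).trans (by rw [e2]), ?_⟩
  exact (congrArg₂ (· + ·) (x1_mul (x1_c hr.hm) _ k) (x1_mul (x1_c hq.ch.hm) _ k)).trans
    (by rw [← Matrix.add_mul, e3])

theorem x1_mob (hX : DOk H X) {k : ℤ} (h : ∀ s, Ac H (X.term k) s) : MOb H (X.term k) :=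
  ⟨term_ok hX k, rfl, fun _ => rfl, h⟩

theorem x1_zero (hX : MOb H X) : X.term 0 = X := by
  have e : X.ic 0 = 1 := by
    rw [DC.ic, Set.eq_univ_of_forall (s := {i | X.c i = 0}) hX.c, ind]
    simp
  have e1 : (fun i => ((X.t i).1, (0 : ℤ))) = X.t := funext fun i => Prod.ext rfl (hX.c i).symm
  unfold DC.term
  rw [e, e1, ← hX.D, Matrix.mul_one]
  simp only [Matrix.mul_one]

/-- The image of an idempotent. -/
theorem x1_re (hH : LR H) (hX : DOk H X) {e : Matrix X.J X.J A} (he : Hm (grF _ H) 0 X.t X.t e)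
    (h1 : e * e = e) (h2 : ∀ s ε, e * (X.d s ε * e) = X.d s ε * e) :
    DOk H (X.re e 0 fun s ε => X.d s ε * e) := by
  have h3 : ∀ s ε s' ε', X.d s ε * e * (X.d s' ε' * e) = X.d s ε * X.d s' ε' * e :=
    fun s ε s' ε' => by rw [mul_assoc, h2, mul_assoc]
  exact ⟨⟨he, Hm.zero _ _, h1, mul_zero _, zero_mul _, zero_mul _⟩, fun s ε =>
    ⟨hm_vd he s ε, (hX.okd s ε).hD.mul (lr_gr _ hH) (hm_vd he s ε) rfl, h1, h2 s ε,
      (mul_assoc _ _ _).trans (congrArg _ h1),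
      (h3 s ε s ε).trans (by rw [(hX.okd s ε).DD, zero_mul])⟩,
    fun _ _ => (zero_mul _).trans (mul_zero _).symm, fun s s' ε ε' h =>
      (h3 s ε s' ε').trans (by rw [hX.cd s s' ε ε' h, h3])⟩

/-- A contractible complex is an extension of its cycles by its shifted cycles. -/
theorem x1_cyc (hH : LR H) (hX : DOk H X) (h0 : WN H X) :
    ∃ W : DC A Λ σ, DOk H W ∧ ∀ k, Ses H (W.term k) (X.term k) (W.term (k - 1)) := by
  have hL := lr_gr (σ → ℤ) hH
  obtain ⟨h, hh, e⟩ := h0.sand hL hX.ok fun _ => by simp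
  rw [one_smul] at e
  have e1 : X.D * h * X.D = X.D := by
    have := congrArg (X.D * ·) e
    simpa only [mul_add, ← mul_assoc, hX.ok.DD, zero_mul, zero_add, hX.ok.Dp] using this
  have e2 : X.D * h * (X.D * h) = X.D * h := by rw [← mul_assoc, e1]
  have e3 : ∀ s ε, X.D * h * (X.d s ε * (X.D * h)) = X.d s ε * (X.D * h) := fun s ε => by
    rw [← mul_assoc (X.d s ε), ← hX.cm, ← mul_assoc, ← mul_assoc, e1]
  have m1 : Hm (grF _ H) 0 X.t X.t (X.D * h) := hX.ok.hD.mul hL hh.hm rfl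
  have hW := x1_re hH hX m1 e2 e3
  have hX0 : DOk H (X.re X.p 0 X.d) :=
    ⟨⟨hX.ok.hp, Hm.zero _ _, hX.ok.pp, mul_zero _, zero_mul _, zero_mul _⟩, hX.okd,
      fun _ _ => (zero_mul _).trans (mul_zero _).symm, hX.cd⟩
  refine ⟨_, hW, fun k => ?_⟩
  rw [← x1_sh _ (k - 1), sub_add_cancel]
  refine x1_ses hW hX0 hW.sh ⟨X.D * h, X.D, X.D * h, h * (X.D * h),
    ⟨⟨⟨m1, ?_, e2⟩, (zero_mul _).trans (mul_zero _).symm⟩, fun s ε => (e3 s ε).symm⟩,
    ⟨⟨⟨hX.ok.hD.shift_left 1 rfl, e1, hX.ok.Dp⟩, by simp⟩, fun s ε => ?_⟩, ⟨m1, e2, ?_⟩,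
    ⟨(hh.hm.mul hL m1 (e := 1) rfl).shift_right 1 rfl, ?_, ?_⟩, e2, ?_, ?_⟩ k
  · exact (mul_assoc _ _ _).symm.trans (congrArg (· * h) hX.ok.pD)
  · exact (mul_assoc _ _ _).trans ((congrArg _ e1).trans (hX.cm s ε).symm)
  · exact (mul_assoc _ _ _).trans (congrArg _ hh.pr)
  · exact (mul_assoc _ _ _).symm.trans (congrArg (· * (X.D * h)) hh.pl)
  · exact (mul_assoc _ _ _).trans (congrArg _ e2)
  · exact (mul_assoc _ _ _).symm.trans e2
  · exact (congrArg₂ (· + ·) e2 ((mul_assoc _ _ _).trans (congrArg _ e1))).trans e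

variable {M : Type w} [AddCommGroup M] {γ : DC A Λ σ → M}
  (hγ : ∀ X' X X'', MOb H X' → MOb H X → MOb H X'' → Ses H X' X X'' → γ X = γ X' + γ X'')
include hγ

theorem x1_out {k : ℤ} (hX : MOb H (X.term k)) (h : ∀ i, X.c i ≠ k) : γ (X.term k) = 0 := by
  have e : (X.term k).p = 0 := by
    ext i j
    exact (mul_ind_apply _ _ _ _).trans (if_neg (h j))
  have d : DMap H (X.term k) (X.term k) 0 :=
    ⟨Ch.zero _ _, fun _ _ => (mul_zero _).trans (zero_mul _).symm⟩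
  exact left_eq_add.1 (hγ _ _ _ hX hX hX ⟨0, 0, 0, 0, d, d, Mp.zero _ _ _, Mp.zero _ _ _,
    (mul_zero _).trans e.symm, (mul_zero _).trans e.symm, by rw [e, mul_zero, add_zero]⟩)

theorem x1_fin (hX : ∀ k, MOb H (X.term k)) (u : ℤ → ℤ) :
    Function.HasFiniteSupport fun k => u k • γ (X.term k) :=
  (Set.finite_range X.c).subset fun k hk => by_contra fun h =>
    hk ((congrArg _ (x1_out hγ (hX k) fun i e => h ⟨i, e⟩)).trans (smul_zero _))

end

theorem gz_of_zd {𝒮 : Sys.{v}} {σ : Type} [DecidableEq σ] [IsEmpty 𝒮.ι] [IsEmpty 𝒮.β]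
    (hS : 𝒮.Good) (h : ZD.{v, w} 𝒮 σ Set.univ) : GZ.{v, w} 𝒮.H σ := by
  intro M _ γ hγ hd X hX
  have tm : ∀ {X : DC 𝒮.A 𝒮.Λ σ}, DOb 𝒮 Set.univ X → ∀ k, MOb 𝒮.H (X.term k) := fun hX k =>
    x1_mob hX.ok fun s => (acAt_iff hX.ok).1 ((hX.ac s trivial).at hX.ok k)
  have oX : DOb 𝒮 Set.univ X :=
    ⟨hX.ok, fun a => isEmptyElim (α := 𝒮.ι) a, fun s _ => hX.ac s, fun _ c => absurd trivial c⟩
  have := h M (fun X => ∑ᶠ k : ℤ, (k.negOnePow : ℤ) • γ (X.term k))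
    ⟨⟨fun X Y t τ oX oY o => ?_, fun X oX h0 => ?_⟩, fun s X oX e => ?_, fun b => isEmptyElim b⟩ X oX
  · rw [finsum_eq_single _ 0 fun k hk => by
      rw [x1_out hγ (tm oX k) fun i e => hk (e.symm.trans (hX.c i)), smul_zero], x1_zero hX] at this
    simpa using this
  · rw [← finsum_add_distrib (x1_fin hγ (tm oX) _) (x1_fin hγ (tm oY) _)]
    exact finsum_congr fun k => by
      rw [hγ _ _ _ (tm oX k) (tm (oX.ext hS oY o) k) (tm oY k)
        (x1_ses oX.ok o oY.ok ((tri_ext X Y t τ).ses hS.mul o) k), smul_add]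
  · obtain ⟨W, oW, hW⟩ := x1_cyc hS.mul oX.ok h0
    obtain ⟨b, hb⟩ := (Set.finite_range W.c).bddBelow
    have a1 : ∀ s (n : ℕ) k, k < b + n → Ac 𝒮.H (W.term k) s := fun s n => by
      induction n with
      | zero =>
        exact fun k hk => (acAt_iff oW).1 (acAt_of_not fun i e => by
          have := hb ⟨i, e⟩
          omega)
      | succ n ih =>
        exact fun k hk => (hW k).ac_left hS.mul (term_ok oW k) (tm oX k).ok (term_ok oW _)
          ((tm oX k).ac s) (ih _ (by omega))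
    have a2 : ∀ k, MOb 𝒮.H (W.term k) := fun k =>
      x1_mob oW fun s => a1 s (k + 1 - b).toNat k (by omega)
    have a3 := finsum_add_distrib (x1_fin hγ a2 fun k => k.negOnePow)
      (x1_fin hγ (X := W.sh) (fun k => by
        rw [← sub_add_cancel k 1, x1_sh]
        exact a2 _) fun k => k.negOnePow)
    rw [← finsum_comp_equiv (Equiv.addRight 1) (f := fun k : ℤ => _ • γ (W.sh.term k))] at a3
    simp only [Equiv.coe_addRight, x1_sh, Int.negOnePow_succ, Units.val_neg, neg_smul,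
      finsum_neg_distrib, add_neg_cancel] at a3
    refine (finsum_congr fun k => ?_).trans a3
    rw [hγ _ _ _ (a2 k) (tm oX k) (a2 _) (hW k), smul_add, ← x1_sh W (k - 1), sub_add_cancel]
  · refine finsum_eq_zero_of_forall_eq_zero fun k => ?_
    rw [hd s _ (tm oX k) (congrArg (· * X.ic k) e), smul_zero]

end Pool.Agent.MP_f7db47_al.GR

end

section

/-!
Change of the set of directions.
-/

namespace Pool.Agent.MP_f7db47_al.GR

open Matrix KN

universe v w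

section Aux

variable {A : Type v} [Ring A] {Λ Γ Γ' σ σ' : Type} {H : Fam A Λ}

theorem a1_hm {d : ℤ} {J : Type} {t : J → (Λ × Γ) × ℤ} {g : J → Γ'} {f : Matrix J J A}
    (h : Hm (grF Γ H) d t t f) (hg : ∀ i j, (t i).1.2 = (t j).1.2 → g i = g j) :
    Hm (grF Γ' H) d (fun i => (((t i).1.1, g i), (t i).2)) (fun i => (((t i).1.1, g i), (t i).2)) f :=
  fun i j => ⟨⟨(h i j).1.1, fun c => hg i j ((h i j).1.2 c)⟩, (h i j).2⟩

/-- new extra labels. -/
@[reducible] def a1_rl (X : Cx A (Λ × Γ)) (g : X.J → Γ') : Cx A (Λ × Γ') where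
  J := X.J
  t i := (((X.t i).1.1, g i), (X.t i).2)
  p := X.p
  D := X.D

theorem a1_ok {X : Cx A (Λ × Γ)} {g : X.J → Γ'} (h : Ok (grF Γ H) X)
    (hg : ∀ i j, (X.t i).1.2 = (X.t j).1.2 → g i = g j) : Ok (grF Γ' H) (a1_rl X g) :=
  ⟨a1_hm h.hp hg, a1_hm h.hD hg, h.pp, h.pD, h.Dp, h.DD⟩

theorem a1_nul {X : Cx A (Λ × Γ)} {g : X.J → Γ'} {w : A} (h : Nul (grF Γ H) w X)
    (hg : ∀ i j, (X.t i).1.2 = (X.t j).1.2 → g i = g j) : Nul (grF Γ' H) w (a1_rl X g) :=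
  h.imp fun _ h => ⟨a1_hm h.1 hg, h.2⟩

theorem a1_eq (X : DC A Λ σ) {t : X.J → (Λ × (σ → ℤ)) × ℤ} {d : σ → Bool → Matrix X.J X.J A}
    (ht : t = X.t) (hd : d = X.d) :
    ({ J := X.J, t := t, p := X.p, D := X.D, d := d } : DC A Λ σ) = X := by
  subst ht hd
  rfl

theorem a1_up [DecidableEq σ] [DecidableEq σ'] {e : σ' → σ} (he : Function.Injective e) {s : σ'}
    {m m' : σ → ℤ} {c c' : ℤ} (h : Function.update m (e s) c = Function.update m' (e s) c') :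
    Function.update (m ∘ e) s c = Function.update (m' ∘ e) s c' := by
  rw [← Function.update_comp_eq_of_injective m he, ← Function.update_comp_eq_of_injective m' he, h]

theorem a1_dok [DecidableEq σ] [DecidableEq σ'] {X : DC A Λ σ} {e : σ' → σ}
    (he : Function.Injective e) (h : DOk H X) : DOk H (X.rx e) :=
  ⟨a1_ok h.ok fun _ _ c => congrArg (· ∘ e) c,
    fun s ε => a1_ok (h.okd (e s) ε) fun _ _ c => a1_up he c,
    fun s ε => h.cm (e s) ε, fun s s' ε ε' c => h.cd (e s) (e s') ε ε' (he.ne c)⟩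

/-- no directions. -/
@[reducible] def a1_to (σ : Type) [IsEmpty σ] (X : Cx A Λ) : DC A Λ σ where
  J := X.J
  t i := (((X.t i).1, isEmptyElim), (X.t i).2)
  p := X.p
  D := X.D
  d := isEmptyElim

theorem a1_hm' {d : ℤ} {J : Type} {t : J → Λ × ℤ} {g : Γ} {f : Matrix J J A} (h : Hm H d t t f) :
    Hm (grF Γ H) d (fun i => (((t i).1, g), (t i).2)) (fun i => (((t i).1, g), (t i).2)) f :=
  fun i j => ⟨⟨(h i j).1, fun _ => rfl⟩, (h i j).2⟩

theorem a1_hm'' {d : ℤ} {J : Type} {t : J → (Λ × Γ) × ℤ} {f : Matrix J J A}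
    (h : Hm (grF Γ H) d t t f) :
    Hm H d (fun i => ((t i).1.1, (t i).2)) (fun i => ((t i).1.1, (t i).2)) f :=
  fun i j => ⟨(h i j).1.1, (h i j).2⟩

theorem a1_to_ok [DecidableEq σ] [IsEmpty σ] {X : Cx A Λ} (h : Ok H X) : DOk H (a1_to σ X) :=
  ⟨⟨a1_hm' h.hp, a1_hm' h.hD, h.pp, h.pD, h.Dp, h.DD⟩, isEmptyElim, isEmptyElim, isEmptyElim⟩

theorem a1_to_nul [IsEmpty σ] {X : Cx A Λ} {w : A} (h : Nul H w X) :
    Nul (grF _ H) w (a1_to σ X).toCx :=
  h.imp fun _ h => ⟨a1_hm' h.1, h.2⟩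

end Aux

variable {𝒮 : Sys.{v}} {σ σ' : Type} [DecidableEq σ] [DecidableEq σ']

theorem a1_dob {X : DC 𝒮.A 𝒮.Λ σ} {e : σ' → σ} (he : Function.Injective e)
    (h : DOb 𝒮 Set.univ X) : DOb 𝒮 Set.univ (X.rx e) :=
  ⟨a1_dok he h.ok, fun a => (h.tor a).imp fun _ c =>
      ⟨c.1, a1_nul c.2 fun _ _ c => congrArg (· ∘ e) c⟩,
    fun s _ ε => a1_nul (h.ac (e s) trivial ε) fun _ _ c => a1_up he c,
    fun _ c => absurd trivial c⟩

theorem a1_to_ob [IsEmpty σ] {X : Cx 𝒮.A 𝒮.Λ} (h : Ob 𝒮 X) : DOb 𝒮 Set.univ (a1_to σ X) :=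
  ⟨a1_to_ok h.ok, fun a => (h.tor a).imp fun _ c => ⟨c.1, a1_to_nul c.2⟩, isEmptyElim, isEmptyElim⟩

theorem zd_of_zc [IsEmpty σ] (hS : 𝒮.Good) (h : ZC.{v, w} 𝒮) : ZD.{v, w} 𝒮 σ Set.univ := by
  intro M _ κ hκ X hX
  have h1 := h M (fun X => κ (a1_to σ X)) ⟨fun X Y t hX hY ht => ?_, fun X hX h0 => ?_,
    fun b X hX hb => hκ.wd b _ (a1_to_ob hX) ⟨hb, isEmptyElim⟩⟩
    (X.toCx.smap id Prod.fst) ⟨⟨a1_hm'' hX.ok.ok.hp, a1_hm'' hX.ok.ok.hD, hX.ok.ok.pp,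
      hX.ok.ok.pD, hX.ok.ok.Dp, hX.ok.ok.DD⟩,
      fun a => (hX.tor a).imp fun _ c => ⟨c.1, c.2.imp fun _ c => ⟨a1_hm'' c.1, c.2⟩⟩⟩
  · rw [← a1_eq X (t := fun i => (((X.t i).1.1, isEmptyElim), (X.t i).2)) (d := isEmptyElim)
      (funext fun i => Prod.ext (Prod.ext rfl (Subsingleton.elim _ _)) rfl) (Subsingleton.elim _ _)]
    exact h1
  · have e : a1_to σ (X.ext Y t) = (a1_to σ X).ext (a1_to σ Y) t isEmptyElim :=
      a1_eq ((a1_to σ X).ext (a1_to σ Y) t isEmptyElim)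
        (funext fun i => by cases i <;> rfl) (Subsingleton.elim _ _)
    have h2 : DOk 𝒮.H (a1_to σ (X.ext Y t)) := a1_to_ok (hX.ok.ext hY.ok ht)
    rw [e] at h2
    exact (congrArg κ e).trans (hκ.ext _ _ _ _ (a1_to_ob hX) (a1_to_ob hY) h2)
  · exact hκ.nul _ (a1_to_ob ⟨hX, fun a => ⟨1, one_mem _, h0.mono (hS.le a)⟩⟩) (a1_to_nul h0)

theorem ZD.equiv (h : ZD.{v, w} 𝒮 σ Set.univ) (e : σ ≃ σ') : ZD.{v, w} 𝒮 σ' Set.univ := by
  intro M _ κ hκ X hX
  have he := e.symm.injective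
  have h1 := h M (fun X => κ (X.rx e.symm)) ⟨⟨fun X Y t τ hX hY ht => ?_, fun X hX h0 =>
    hκ.nul _ (a1_dob he hX) (a1_nul h0 fun _ _ c => congrArg (· ∘ e.symm) c)⟩,
    fun s X hX hs => hκ.sd (e s) _ (a1_dob he hX) ?_,
    fun b X hX hb => hκ.wd b _ (a1_dob he hX) ⟨hb.1, fun s => hb.2 _⟩⟩ (X.rx e)
    (a1_dob e.injective hX)
  · rw [← a1_eq X (t := fun i => (((X.t i).1.1, ((X.t i).1.2 ∘ e) ∘ e.symm), (X.t i).2))
      (d := fun s => X.d (e (e.symm s)))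
      (funext fun i => Prod.ext (Prod.ext rfl (funext fun s =>
        congrArg (X.t i).1.2 (e.apply_symm_apply s))) rfl)
      (funext fun s => congrArg X.d (e.apply_symm_apply s))]
    exact h1
  · have e1 : (X.ext Y t τ).rx e.symm = (X.rx e.symm).ext (Y.rx e.symm) t fun s => τ (e.symm s) :=
      a1_eq ((X.rx e.symm).ext (Y.rx e.symm) t fun s => τ (e.symm s))
        (funext fun i => by cases i <;> rfl) rfl
    have h2 := a1_dok he ht
    rw [e1] at h2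
    exact (congrArg κ e1).trans (hκ.ext _ _ _ _ (a1_dob he hX) (a1_dob he hY) h2)
  · change X.d (e.symm (e s)) false = X.d (e.symm (e s)) true
    rwa [e.symm_apply_apply]

end Pool.Agent.MP_f7db47_al.GR

end
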