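import Pool.Agent.Mg.Ff7db47n.N7
import Pool.Agent.Mg.Ff7db47n.N8
import Pool.Agent.Mg.Ff7db47k.K1
import Pool.Agent.MP_f7db47_al.GR.ODefs

section

/-!
The system of small controlled operators.
-/

namespace Pool.Agent.MP_f7db47_al.GR

open OB

universe v

/-- The system of small controlled operators. -/
@[reducible] noncomputable def S0 {R : Type v} [Ring R] (Φ : ℕ → AddSubgroup R) [Flt Φ] (G : Type)
    [Group G] (V : Type) [MulAction G V] {ι : Type} (u : ι → Rˣ) : Sys.{v} where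
  A := FF R G V
  Λ := Unit
  H := ssF Φ G V
  ι := ι
  L _ := ssF Φ G V
  S := scS G V u
  β := Empty
  Δ := Empty.elim

/-- The trivial filtration. -/
def tp (R : Type v) [Ring R] : ℕ → AddSubgroup R := fun _ => ⊤

instance (R : Type v) [Ring R] : Flt (tp R) := ⟨trivial, fun _ _ => trivial, fun _ _ _ => le_rfl⟩

end Pool.Agent.MP_f7db47_al.GR

end

section

/-!
Extension of scalars to the ring of two lines, for controlled operators.
-/

namespace Pool.Agent.MP_f7db47_al.GR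

open Matrix KN OB Polynomial

universe v w

section Aux

set_option linter.unusedSectionVars false

variable {R R' : Type v} [Ring R] [Ring R'] {G : Type} [Group G] {V : Type} [MulAction G V]

/-- A coefficient of an entry. -/
noncomputable def g13_ev (k : Ix V × Ix V × G) : FF R G V →+ R :=
  AddMonoidHom.mk' (fun a => (ent a.op k.1 k.2.1).coeff k.2.2) fun _ _ => rfl

lemma g13_ext {a b : FF R G V} (h : ∀ k, g13_ev k a = g13_ev k b) : a = b :=
  ent_inj (a := a.op) (b := b.op) (by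
    ext i j g
    exact h (i, j, g))

lemma g13_ev_sc (k : Ix V × Ix V × G) (c : R) (a : FF R G V) :
    g13_ev k (sc G V c * a) = c * g13_ev k a := rfl

/-- Change of coefficients. -/
noncomputable def g13_bc (φ : R →+ R') (a : FF R G V) : FF R' G V :=
  .of (opOf ((ent a.op).map (MonoidAlgebra.map φ)) fun j => (ent_fin a.op j).subset
    fun _ hi c => hi ((congrArg (MonoidAlgebra.map φ) c).trans (MonoidAlgebra.map_zero φ)))

lemma g13_ent (φ : R →+ R') (a : FF R G V) :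
    ent (g13_bc φ a).op = (ent a.op).map (MonoidAlgebra.map φ) := ent_opOf _ _

lemma g13_ev_bc (k : Ix V × Ix V × G) (φ : R →+ R') (a : FF R G V) :
    g13_ev k (g13_bc φ a) = φ (g13_ev k a) :=
  congrArg (fun m : Matrix _ _ (MonoidAlgebra R' G) => (m k.1 k.2.1).coeff k.2.2) (g13_ent φ a)

/-- Change of coefficients along a ring homomorphism. -/
noncomputable def g13_br (φ : R →+* R') : FF R G V →+* FF R' G V where
  toFun := g13_bc φ
  map_zero' := g13_ext fun k => by simp only [g13_ev_bc, map_zero]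
  map_add' _ _ := g13_ext fun k => by simp only [g13_ev_bc, map_add]
  map_one' := by
    classical
    refine ent_inj ((g13_ent _ _).trans ?_)
    rw [op_one, ent_id]
    exact (Matrix.map_one _ (MonoidAlgebra.map_zero _) (MonoidAlgebra.map_one φ)).trans ent_id.symm
  map_mul' a b := ent_inj (funext₂ fun i k => by
    change ent (g13_bc _ _).op i k = ent ((g13_bc _ _).op ∘ₗ (g13_bc _ _).op) i k
    rw [ent_comp', g13_ent, g13_ent, g13_ent, map_apply, op_mul, ent_comp',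
      ← MonoidAlgebra.coe_mapRingHom, map_finsum _ ((ent_fin b.op k).subset
        fun j hj => right_ne_zero_of_mul hj)]
    simp only [map_mul, map_apply])

lemma g13_ev_br (k : Ix V × Ix V × G) (φ : R →+* R') (a : FF R G V) :
    g13_ev k (g13_br φ a) = φ (g13_ev k a) := g13_ev_bc k (φ : R →+ R') a

lemma g13_br_sc (φ : R →+* R') (c : R) : g13_br φ (sc G V c) = sc G V (φ c) := by
  rw [← mul_one (sc G V c), ← mul_one (sc G V (φ c)), ← map_one (g13_br φ)]
  exact g13_ext fun k => by rw [g13_ev_br, g13_ev_sc, g13_ev_sc, g13_ev_br, map_mul]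

lemma g13_mem {Φ : ℕ → AddSubgroup R} [Flt Φ] {Φ' : ℕ → AddSubgroup R'} [Flt Φ'] (φ : R →+ R')
    (h : ∀ d, ∃ e, ∀ x ∈ Φ d, φ x ∈ Φ' e) {a : FF R G V} (ha : a ∈ SS Φ G V) :
    g13_bc φ a ∈ SS Φ' G V := by
  have k : ∀ {E : Ix V → G → Ix V → Prop}, Sp E a.op → Sp E (g13_bc φ a).op := fun h i j g c =>
    h i j g fun e => c ((g13_ev_bc (i, j, g) φ a).trans ((congrArg φ e).trans (map_zero φ)))
  obtain ⟨⟨⟨E, h1, h2⟩, d, h3⟩, S, h4, h5⟩ := ha
  obtain ⟨e, he⟩ := h d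
  exact ⟨⟨⟨E, h1, k h2⟩, e, fun i j g => (g13_ev_bc (i, j, g) φ a).symm ▸ he _ (h3 i j g)⟩,
    S, h4, k h5⟩

variable (R G V) in
/-- Polynomials in operators as operators over polynomials. -/
noncomputable def g13_p1 : (FF R G V)[X] →+* FF R[X] G V :=
  eval₂RingHom' (g13_br C) (sc G V X) fun _ => (sc_cen (fun _ => X_mul) _).symm

lemma g13_p1_mon (n : ℕ) (a : FF R G V) :
    g13_p1 R G V (monomial n a) = g13_bc (monomial n).toAddMonoidHom a := by
  rw [g13_p1, eval₂RingHom'_apply, eval₂_monomial, ← map_pow, ← sc_cen fun _ => X_pow_mul]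
  exact g13_ext fun k => by
    rw [g13_ev_sc, g13_ev_br, g13_ev_bc, X_pow_mul, C_mul_X_pow_eq_monomial]
    rfl

lemma g13_ev_p1 (k : Ix V × Ix V × G) (f : (FF R G V)[X]) (n : ℕ) :
    (g13_ev k (g13_p1 R G V f)).coeff n = g13_ev k (f.coeff n) := by
  induction f using Polynomial.induction_on' with
  | add p q hp hq => simp only [map_add, coeff_add, hp, hq]
  | monomial m a =>
    rw [g13_p1_mon, g13_ev_bc, coeff_monomial, apply_ite (g13_ev k), map_zero]
    exact coeff_monomial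

variable (R G V) in
/-- Pairs of operators as operators over pairs. -/
noncomputable def g13_p2 : FF R G V × FF R G V →+* FF (R × R) G V where
  toFun x := sc G V (1, 0) * g13_br ((RingHom.id R).prod (RingHom.id R)) x.1 +
    sc G V (0, 1) * g13_br ((RingHom.id R).prod (RingHom.id R)) x.2
  map_zero' := by simp
  map_add' x y := by simp only [Prod.fst_add, Prod.snd_add, map_add, mul_add, add_add_add_comm]
  map_one' := by simp [← map_add, ← Prod.one_eq_mk]
  map_mul' x y := by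
    have e : ∀ (c c' : R × R) (a b : FF (R × R) G V), (∀ x, c' * x = x * c') →
        sc G V c * a * (sc G V c' * b) = sc G V (c * c') * (a * b) := fun c c' a b h => by
      rw [mul_assoc, ← mul_assoc a, ← sc_cen h, map_mul]
      simp only [mul_assoc]
    rw [mul_add, add_mul, add_mul, e, e, e, e] <;> simp [Prod.ext_iff, ← Prod.zero_eq_mk]

lemma g13_ev_p2 (k : Ix V × Ix V × G) (x : FF R G V × FF R G V) :
    g13_ev k (g13_p2 R G V x) = (g13_ev k x.1, g13_ev k x.2) := by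
  simp [g13_p2, g13_ev_sc, g13_ev_br]

lemma g13_p2_sc (c c' : R) : g13_p2 R G V (sc G V c, sc G V c') = sc G V (c, c') := by
  simp [g13_p2, g13_br_sc, ← map_mul, ← map_add]

variable (Φ : ℕ → AddSubgroup R) [Flt Φ]

/-- The filtration of the polynomial ring. -/
def g13_F1 (d : ℕ) : AddSubgroup R[X] where
  carrier := {p | ∀ n, p.coeff n ∈ Φ d ∧ (d < n → p.coeff n = 0)}
  zero_mem' _ := ⟨zero_mem _, fun _ => rfl⟩
  add_mem' h h' n := by
    rw [coeff_add]
    exact ⟨add_mem (h n).1 (h' n).1, fun c => by rw [(h n).2 c, (h' n).2 c, add_zero]⟩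
  neg_mem' h n := by
    rw [coeff_neg]
    exact ⟨neg_mem (h n).1, fun c => by rw [(h n).2 c, neg_zero]⟩

lemma g13_mon {d : ℕ} {x : R} (h : x ∈ Φ d) (m : ℕ) : monomial m x ∈ g13_F1 Φ (d + m) := fun n => by
  rw [coeff_monomial]
  split_ifs
  exacts [⟨Flt.mono le_self_add h, fun _ => by omega⟩, ⟨zero_mem _, fun _ => rfl⟩]

instance : Flt (g13_F1 Φ) where
  one := g13_mon Φ Flt.one 0
  mul h h' n := by
    rw [coeff_mul]
    refine ⟨sum_mem fun x _ => Flt.mul (h _).1 (h' _).1, fun c => Finset.sum_eq_zero fun x hx => ?_⟩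
    rw [Finset.HasAntidiagonal.mem_antidiagonal] at hx
    by_contra k
    have h1 := mt (h _).2 (left_ne_zero_of_mul k)
    have h2 := mt (h' _).2 (right_ne_zero_of_mul k)
    omega
  mono _ _ c _ h n := ⟨Flt.mono c (h n).1, fun k => (h n).2 (c.trans_lt k)⟩

variable (R) in
/-- The embedding in Laurent polynomials. -/
noncomputable abbrev g13_t : R[X] × R[X] →+* LaurentPolynomial R × LaurentPolynomial R :=
  RingHom.prodMap toLaurent toLaurent

/-- The filtration of the ring of two lines. -/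
noncomputable def g13_F2 (d : ℕ) : AddSubgroup (LaurentPolynomial R × LaurentPolynomial R) :=
  AddSubgroup.map (g13_t R : R[X] × R[X] →+ _)
    { carrier := {x | x.1 ∈ g13_F1 Φ d ∧ x.2 ∈ g13_F1 Φ d ∧ x.1.coeff 0 = x.2.coeff 0}
      zero_mem' := ⟨zero_mem _, zero_mem _, rfl⟩
      add_mem' := fun h h' => ⟨add_mem h.1 h'.1, add_mem h.2.1 h'.2.1, by
        rw [Prod.fst_add, Prod.snd_add, coeff_add, coeff_add, h.2.2, h'.2.2]⟩
      neg_mem' := fun h => ⟨neg_mem h.1, neg_mem h.2.1, by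
        rw [Prod.fst_neg, Prod.snd_neg, coeff_neg, coeff_neg, h.2.2]⟩ }

instance : Flt (g13_F2 Φ) where
  one := ⟨1, ⟨Flt.one, Flt.one, rfl⟩, map_one (g13_t R)⟩
  mul := by
    rintro d e _ _ ⟨x, h, rfl⟩ ⟨y, h', rfl⟩
    exact ⟨x * y, ⟨Flt.mul h.1 h'.1, Flt.mul h.2.1 h'.2.1, by
      rw [Prod.fst_mul, Prod.snd_mul, mul_coeff_zero, mul_coeff_zero, h.2.2, h'.2.2]⟩,
      map_mul (g13_t R) x y⟩
  mono _ _ c := AddSubgroup.map_mono fun _ h => ⟨Flt.mono c h.1, Flt.mono c h.2.1, h.2.2⟩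

variable {Φ}

lemma g13_p1_mem {f : (FF R G V)[X]} (h : ∀ n, f.coeff n ∈ SS Φ G V) :
    g13_p1 R G V f ∈ SS (g13_F1 Φ) G V := by
  rw [f.as_sum_support, map_sum]
  refine sum_mem fun n _ => ?_
  rw [g13_p1_mon]
  exact g13_mem _ (fun d => ⟨d + n, fun x hx => g13_mon Φ hx n⟩) (h n)

lemma g13_p1_onto {z : FF R[X] G V} (h : z ∈ SS (g13_F1 Φ) G V) :
    ∃ f : (FF R G V)[X], (∀ n, f.coeff n ∈ SS Φ G V) ∧ g13_p1 R G V f = z := by
  obtain ⟨d, hd⟩ := h.1.2
  let c : ℕ → FF R G V := fun n => g13_bc (lcoeff R n).toAddMonoidHom z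
  have e : ∀ n, (∑ m ∈ Finset.range (d + 1), monomial m (c m)).coeff n = c n := fun n => by
    simp only [finsetSum_coeff, coeff_monomial, Finset.sum_ite_eq', Finset.mem_range]
    split_ifs with k
    exacts [rfl, g13_ext fun x =>
      ((g13_ev_bc x _ z).trans ((hd x.1 x.2.1 x.2.2 n).2 (by omega))).symm]
  exact ⟨_, fun n => (e n).symm ▸ g13_mem _ (fun d => ⟨d, fun x hx => (hx n).1⟩) h,
    g13_ext fun k => Polynomial.ext fun n =>
      (g13_ev_p1 k _ n).trans ((congrArg _ (e n)).trans (g13_ev_bc k _ z))⟩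

variable (R G V) in
/-- The embedding. -/
noncomputable def g13_ps :
    (FF R G V)[X] × (FF R G V)[X] →+* FF (LaurentPolynomial R × LaurentPolynomial R) G V :=
  (g13_br (g13_t R)).comp ((g13_p2 R[X] G V).comp ((g13_p1 R G V).prodMap (g13_p1 R G V)))

lemma g13_ev_ps (k : Ix V × Ix V × G) (x : (FF R G V)[X] × (FF R G V)[X]) :
    g13_ev k (g13_ps R G V x) =
      g13_t R (g13_ev k (g13_p1 R G V x.1), g13_ev k (g13_p1 R G V x.2)) :=
  (g13_ev_br k _ _).trans (congrArg _ (g13_ev_p2 k _))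

lemma g13_inj : Function.Injective (g13_ps R G V) := fun x y h => by
  have t : Function.Injective (g13_t R) := toLaurent_injective.prodMap toLaurent_injective
  have e := fun k => t ((g13_ev_ps k x).symm.trans ((congrArg _ h).trans (g13_ev_ps k y)))
  refine Prod.ext (Polynomial.ext fun n => g13_ext fun k => ?_)
    (Polynomial.ext fun n => g13_ext fun k => ?_)
  · rw [← g13_ev_p1, ← g13_ev_p1, (Prod.mk.inj (e k)).1]
  · rw [← g13_ev_p1, ← g13_ev_p1, (Prod.mk.inj (e k)).2]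

lemma g13_iff (y : FF (LaurentPolynomial R × LaurentPolynomial R) G V) :
    y ∈ SS (g13_F2 Φ) G V ↔ ∃ x ∈ bF (ssF Φ G V) () (), g13_ps R G V x = y := by
  constructor
  · intro h
    obtain ⟨d, hd⟩ := h.1.2
    obtain ⟨f, f1, f2⟩ := g13_p1_onto (g13_mem (Φ' := g13_F1 Φ)
      (LaurentPolynomial.trunc.comp (AddMonoidHom.fst _ _)) (fun d => ⟨d, by
        rintro _ ⟨x, hx, rfl⟩
        exact (trunc_toLaurent x.1).symm ▸ hx.1⟩) h)
    obtain ⟨g, g1, g2⟩ := g13_p1_onto (g13_mem (Φ' := g13_F1 Φ)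
      (LaurentPolynomial.trunc.comp (AddMonoidHom.snd _ _)) (fun d => ⟨d, by
        rintro _ ⟨x, hx, rfl⟩
        exact (trunc_toLaurent x.2).symm ▸ hx.2.1⟩) h)
    have e : ∀ k : Ix V × Ix V × G, ∃ x : R[X] × R[X], x.1.coeff 0 = x.2.coeff 0 ∧
        g13_t R x = g13_ev k y ∧ g13_ev k (g13_p1 R G V f) = x.1 ∧
        g13_ev k (g13_p1 R G V g) = x.2 := fun k => by
      obtain ⟨x, hx, (e : g13_t R x = g13_ev k y)⟩ := hd k.1 k.2.1 k.2.2
      rw [f2, g2, g13_ev_bc, g13_ev_bc, ← e]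
      exact ⟨x, hx.2.2, rfl, trunc_toLaurent x.1, trunc_toLaurent x.2⟩
    refine ⟨(f, g), ⟨f1, g1, g13_ext fun k => ?_⟩, g13_ext fun k => ?_⟩ <;>
      obtain ⟨x, e1, e2, e3, e4⟩ := e k
    · rw [← g13_ev_p1, ← g13_ev_p1, e3, e4, e1]
    · rw [g13_ev_ps, e3, e4, e2]
  · rintro ⟨x, ⟨h1, h2, h3⟩, rfl⟩
    have a1 := g13_p1_mem h1
    have a2 := g13_p1_mem h2
    have e : g13_ps R G V x =
        g13_bc ((g13_t R : R[X] × R[X] →+ _).comp (AddMonoidHom.inl _ _)) (g13_p1 R G V x.1) +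
        g13_bc ((g13_t R : R[X] × R[X] →+ _).comp (AddMonoidHom.inr _ _)) (g13_p1 R G V x.2) :=
      g13_ext fun k => by simp [g13_ev_ps, g13_ev_bc]
    have b : g13_ps R G V x ∈ SS (tp _) G V := e ▸ add_mem
      (g13_mem _ (fun _ => ⟨0, fun _ _ => AddSubgroup.mem_top _⟩) a1)
      (g13_mem _ (fun _ => ⟨0, fun _ _ => AddSubgroup.mem_top _⟩) a2)
    obtain ⟨d, hd⟩ := a1.1.2
    obtain ⟨d', hd'⟩ := a2.1.2
    refine ⟨⟨b.1.1, d + d', fun i j g => ⟨_, ⟨Flt.mono le_self_add (hd i j g),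
      Flt.mono le_add_self (hd' i j g), ?_⟩, (g13_ev_ps (i, j, g) x).symm⟩⟩, b.2⟩
    exact (g13_ev_p1 (i, j, g) _ 0).trans ((congrArg _ h3).trans (g13_ev_p1 (i, j, g) _ 0).symm)

lemma g13_ps_sc {f : (FF R G V)[X]} {c : R[X]} (h : g13_p1 R G V f = sc G V c)
    (y : FF (LaurentPolynomial R × LaurentPolynomial R) G V) :
    y ∈ Submonoid.powers (sc G V (toLaurent c, toLaurent c)) ↔
      ∃ x ∈ Submonoid.powers (f, f), g13_ps R G V x = y := by
  have e : g13_ps R G V (f, f) = sc G V (toLaurent c, toLaurent c) := by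
    change g13_br _ (g13_p2 _ G V (g13_p1 R G V f, g13_p1 R G V f)) = _
    rw [h, g13_p2_sc, g13_br_sc]
    rfl
  rw [← e, ← Submonoid.map_powers, Submonoid.mem_map]

end Aux

variable {R : Type v} [Ring R] (Φ : ℕ → AddSubgroup R) [Flt Φ] (G : Type) [Group G] (V : Type)
  [MulAction G V] {ι : Type} (u : ι → Rˣ)

theorem exists_base (hu : ∀ i x, (u i : R) * x = x * u i) (hm : ∀ i, ∃ d, (u i : R) ∈ Φ d) :
    ∃ (R' : Type v) (_ : Ring R') (Φ' : ℕ → AddSubgroup R') (_ : Flt Φ') (u' : Option ι → R'ˣ),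
      (∀ i x, (u' i : R') * x = x * u' i) ∧ (∀ i, ∃ d, (u' i : R') ∈ Φ' d) ∧
      Eqv (S0 Φ G V u).B (S0 Φ' G V u') := by
  let c : Option ι → R[X] := fun i => i.elim X fun i => C (u i : R)
  have h1 : ∀ i, IsUnit (toLaurent (c i), toLaurent (c i)) := fun i => by
    rw [Prod.isUnit_iff, and_self]
    cases i
    exacts [toLaurent_X (R := R) ▸ LaurentPolynomial.isUnit_T 1, ((u _).isUnit.map C).map _]
  have h2 : ∀ i x, toLaurent (c i) * x = x * toLaurent (c i) := fun i x => by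
    obtain ⟨n, f, e⟩ := x.exists_T_pow
    have k : Commute (c i) f := by
      cases i
      exacts [commute_X f, Polynomial.ext fun n =>
        (coeff_C_mul _).trans ((hu _ _).trans (coeff_mul_C _ _ _).symm)]
    refine (LaurentPolynomial.isUnit_T n).mul_left_injective ?_
    simp only
    rw [mul_assoc, ← e, (k.map toLaurent).eq, e, mul_assoc, LaurentPolynomial.T_mul, mul_assoc]
  refine ⟨_, _, g13_F2 Φ, inferInstance, fun i => (h1 i).unit,
    fun i x => Prod.ext (h2 i x.1) (h2 i x.2), fun i => ?_,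
    g13_ps R G V, .refl _, .refl _, .refl _, g13_inj, fun _ _ => g13_iff, fun i _ _ => ?_,
    fun i y => ?_, fun b => b.elim⟩
  · cases i with
    | none => exact ⟨_, (X, X), ⟨g13_mon Φ Flt.one 1, g13_mon Φ Flt.one 1, rfl⟩, rfl⟩
    | some i =>
      obtain ⟨d, hd⟩ := hm i
      exact ⟨_, (C (u i : R), C (u i : R)), ⟨g13_mon Φ hd 0, g13_mon Φ hd 0, rfl⟩, rfl⟩
  · cases i <;> exact g13_iff
  · cases i with
    | none => exact g13_ps_sc (eval₂_X _ _) y
    | some i =>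
      refine (g13_ps_sc ((eval₂_C _ _).trans (g13_br_sc C (u i : R))) y).trans ?_
      exact (Submonoid.map_powers (RingHom.prod C C) (OB.sc G V (u i : R))).symm ▸ Iff.rfl

end Pool.Agent.MP_f7db47_al.GR

end

section

/-!
Multicomplexes over the ideal of small operators and over the obstruction category.
-/

namespace Pool.Agent.MP_f7db47_al.GR

open Matrix KN OB

universe v

variable {R : Type v} [Ring R] {G : Type} [Group G] {V : Type} [MulAction G V] {n : ℕ}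

/-- A rectangular matrix of operators as a big matrix. -/
noncomputable def bigR {K L : Type} (A : Matrix K L (FF R G V)) :
    Matrix (K × Ix V) (L × Ix V) (MonoidAlgebra R G) := fun y z => ent (A y.1 z.1).op y.2 z.2

/-- A presentation of a multicomplex over the small operators. -/
structure PresM (X : DC (FF R G V) Unit (Fin n)) (Y : Mc R G V n) (e : Y.M.I → X.J × Ix V) :
    Prop where
  inj : Function.Injective e
  t : ∀ i, Y.M.t i = (e i).2.t
  x : ∀ i, Y.M.x i = (e i).2.p.1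
  deg : ∀ i, Y.deg i = (X.t (e i).1).1.2
  p : Y.p = (bigR X.p).submatrix e e
  d : ∀ s ε, Y.d s ε = (bigR (X.d s ε)).submatrix e e
  sup : ∀ y z, bigR X.p y z ≠ 0 → y ∈ Set.range e ∧ z ∈ Set.range e

variable {X' X X'' : DC (FF R G V) Unit (Fin n)} {Y' Y Y'' : Mc R G V n}
  {e' : Y'.M.I → X'.J × Ix V} {e : Y.M.I → X.J × Ix V} {e'' : Y''.M.I → X''.J × Ix V}

section Big

variable {K L M : Type} [Fintype L]

omit [MulAction G V] in
lemma o6_mul (A : Matrix K L (FF R G V)) (B : Matrix L M (FF R G V)) (y : K × Ix V)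
    (z : M × Ix V) : bigR (A * B) y z = ∑ᶠ w, bigR A y w * bigR B w z := by
  rw [finsum_curry, finsum_eq_sum_of_fintype]
  · let e : FF R G V →+ MonoidAlgebra R G := AddMonoidHom.mk' (fun a => ent a.op y.2 z.2)
      fun _ _ => rfl
    refine (map_sum e _ _).trans (Finset.sum_congr rfl fun l _ => ?_)
    exact ent_comp' (A y.1 l).op (B l z.1).op y.2 z.2
  · refine (Set.finite_iUnion fun l => (ent_fin (B l z.1).op z.2).image (Prod.mk l)).subset ?_
    rintro ⟨l, j⟩ c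
    exact Set.mem_iUnion.2 ⟨l, j, fun d => c ((congrArg (_ * ·) d).trans (mul_zero _)), rfl⟩

lemma o6_ctrl [Finite K] {A : Matrix K L (FF R G V)} (hA : ∀ k l, CG (tp R) (A k l))
    {M N : Obj V} {e : M.I → K × Ix V} {f : N.I → L × Ix V} (h2 : ∀ i, M.t i = (e i).2.t)
    (h3 : ∀ i, M.x i = (e i).2.p.1) (h4 : ∀ i, N.t i = (f i).2.t)
    (h5 : ∀ i, N.x i = (f i).2.p.1) : CtrlH M N ((bigR A).submatrix e f) := by
  choose E c1 c2 using fun k : K × L => (hA k.1 k.2).1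
  have hE := good_fin c1
  have e1 : ∀ y g z, (bigR A y z).coeff g ≠ 0 → ∃ k, E k y.2 g z.2 :=
    fun y g z c => ⟨(y.1, z.1), c2 _ _ _ g c⟩
  refine ⟨hE.gfin.imp fun F c => ⟨c.1, fun i j g d => c.2 _ _ _ (e1 _ _ _ d)⟩, ?_, ?_⟩
  · obtain ⟨α, hα⟩ := hE.l.band
    obtain ⟨β, hβ⟩ := hE.r.band
    refine ⟨α + β, fun i j c => ?_⟩
    obtain ⟨g, hg⟩ := ne_coeff c
    have f1 := hα _ _ ⟨g, e1 _ _ _ hg⟩
    have f2 := hβ _ _ ⟨g, e1 _ _ _ hg⟩
    rw [h2, h4]
    omega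
  · refine fun ε hε => (hE.ctl ε hε).imp fun T c i j g d k => ?_
    rw [h3, h5]
    exact c _ _ _ (e1 _ _ _ d) (h2 i ▸ k)

end Big

omit [MulAction G V] in
lemma o6_sub (h : PresM X Y e) {K M I I' : Type} {A : Matrix K X.J (FF R G V)}
    {B : Matrix X.J M (FF R G V)} (hA : A * X.p = A ∨ X.p * B = B) (f : I → K × Ix V)
    (g : I' → M × Ix V) :
    mulR ((bigR A).submatrix f e) ((bigR B).submatrix e g) = (bigR (A * B)).submatrix f g := by
  ext1 i k
  rw [Matrix.submatrix_apply, o6_mul, mulR]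
  refine Eq.trans (finsum_mem_range (f := fun w => bigR A (f i) w * bigR B w (g k)) h.inj).symm ?_
  rw [finsum_mem_def, Set.indicator_eq_self.2]
  refine fun w hw => by_contra fun c => hA.elim (fun hA => left_ne_zero_of_mul hw ?_)
    fun hA => right_ne_zero_of_mul hw ?_ <;> rw [← hA, o6_mul] <;>
    refine finsum_eq_zero_of_forall_eq_zero fun u => ?_
  · rw [(by_contra fun d => c (h.sup _ _ d).2 : bigR X.p u w = 0), mul_zero]
  · rw [(by_contra fun d => c (h.sup _ _ d).1 : bigR X.p w u = 0), zero_mul]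

lemma o6_mor (h' : PresM X' Y' e') (h : PresM X Y e) {a : Matrix X'.J X.J (FF R G V)}
    {c : Fin n → ℤ} (h1 : ∀ k l, CG (tp R) (a k l))
    (h2 : ∀ k l, a k l ≠ 0 → (X'.t k).1.2 = (X.t l).1.2 + c) (pl : X'.p * a = a)
    (pr : a * X.p = a) : Mc.Mor Y' Y c ((bigR a).submatrix e' e) :=
  ⟨o6_ctrl h1 h'.t h'.x h.t h.x, fun i j k => by
    rw [h'.deg, h.deg]
    exact h2 _ _ fun d => k (congrArg (fun a : FF R G V => ent a.op _ _) d),
    by rw [h'.p, o6_sub h' (.inr pl), pl], by rw [h.p, o6_sub h (.inl pr), pr]⟩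

lemma o6_mp (h' : PresM X' Y' e') (h : PresM X Y e) {a : Matrix X'.J X.J (FF R G V)}
    (k : Mp (grF _ (ssF (tp R) G V)) 0 X'.toCx X.toCx a) :
    Mc.Mor Y' Y 0 ((bigR a).submatrix e' e) :=
  o6_mor h' h (fun i j => (k.hm i j).1.1.1)
    (fun i j c => ((k.hm i j).1.2 c).trans (add_zero _).symm) k.pl k.pr

lemma o6_hom (h' : PresM X' Y' e') (h : PresM X Y e) {a : Matrix X'.J X.J (FF R G V)}
    (k : DMap (ssF (tp R) G V) X' X a) : Mc.Hom Y' Y ((bigR a).submatrix e' e) :=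
  ⟨o6_mp h' h k.ch.toMp, fun s ε => by
    rw [h'.d, h.d, o6_sub h' (.inr k.ch.pl), o6_sub h (.inl k.ch.pr), k.cm]⟩

lemma o6_vd (h : PresM X Y e) {a : Matrix X.J X.J (FF R G V)} {s : Fin n}
    {ε : Bool} {d : ℤ} (k : Mp (grF _ (ssF (tp R) G V)) d (X.vd s ε) (X.vd s ε) a) :
    Mc.Mor Y Y (Pi.single s d) ((bigR a).submatrix e e) :=
  o6_mor h h (fun i j => (k.hm i j).1.1.1) (fun i j c => funext fun s' => by
    obtain ⟨-, c1, c2⟩ := (hm_vd_iff.1 k.hm i j).2 c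
    by_cases u : s' = s
    · subst u
      rw [Pi.add_apply, Pi.single_eq_same]
      exact c1
    · rw [Pi.add_apply, Pi.single_eq_of_ne u, add_zero]
      exact c2 s' u) k.pl k.pr

theorem PresM.isAc (h : PresM X Y e) (hX : MOb (ssF (tp R) G V) X) : Y.IsAc := by
  have pp := hX.ok.ok.pp
  have k := hX.ok.okd
  have dp : ∀ s ε, X.d s ε * X.p = X.d s ε := fun s ε => (k s ε).Dp
  refine ⟨(Set.finite_range fun j => (X.t j).1.2).subset ?_,
    h.p ▸ o6_mp h h ⟨hX.ok.ok.hp, pp, pp⟩, fun s ε => ?_, fun s ε => ?_,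
    fun s s' ε ε' c => ?_, fun s ε => ?_⟩
  · rintro _ ⟨i, rfl⟩
    exact ⟨_, (h.deg i).symm⟩
  · rw [h.d, ← Pi.single_neg]
    exact o6_vd h ⟨(k s ε).hD, (k s ε).pD, (k s ε).Dp⟩
  · rw [h.d, o6_sub h (.inl (dp s ε)), (k s ε).DD]
    rfl
  · rw [h.d, h.d, o6_sub h (.inl (dp s ε)), o6_sub h (.inl (dp s' ε')), hX.ok.cd s s' ε ε' c]
  · obtain ⟨a, h1, h2⟩ := (hX.ac s ε).sand (lr_gr _ ss_idl.lr) (k s ε) fun x => by simp
    refine ⟨_, o6_vd h h1, ?_⟩
    rw [h.d, h.p, o6_sub h (.inl (dp s ε)), o6_sub h (.inl h1.pr)]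
    exact congrArg (fun A => (bigR A).submatrix e e) (h2.trans (one_smul _ _))

theorem PresM.isSes (h' : PresM X' Y' e') (h : PresM X Y e) (h'' : PresM X'' Y'' e'')
    (k : Ses (ssF (tp R) G V) X' X X'') : Y'.IsSes Y Y'' := by
  obtain ⟨i, q, r, s, hi, hq, hr, hs, k1, k2, k3⟩ := k
  refine ⟨_, _, _, _, o6_hom h h' hi, o6_hom h'' h hq, o6_mp h' h hr, o6_mp h h'' hs, ?_, ?_, ?_⟩
  · rw [o6_sub h (.inl hr.pr), k1, h'.p]
  · rw [o6_sub h (.inr hs.pl), k2, h''.p]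
  · rw [o6_sub h' (.inr hr.pl), o6_sub h'' (.inl hs.pr), h.p]
    exact congrArg (fun A => (bigR A).submatrix e e) k3

theorem exists_presM (hX : MOb (ssF (tp R) G V) X) : ∃ Y e, PresM X Y e := by
  classical
  obtain ⟨U, h1, h2⟩ := sm_common (Finset.univ.image fun k : X.J × X.J => X.p k.1 k.2)
    fun x hx => by
      obtain ⟨k, -, rfl⟩ := Finset.mem_image.1 hx
      exact (hX.ok.ok.hp _ _).1.1.2
  obtain ⟨K, c3, c4⟩ := h1.2
  refine ⟨⟨{  I := {y : X.J × Ix V // y.2 ∈ U}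
              t := fun y => y.1.2.t
              x := fun y => y.1.2.p.1
              fin := fun n => ((Set.finite_univ.prod (h1.1 n)).preimage
                Subtype.val_injective.injOn).subset fun y c => ⟨trivial, y.2, c⟩
              nonneg := fun y => y.1.2.p.2.1
              total := fun y => y.1.2.p.2.2
              cpt := ⟨K, c3, fun y => c4 _ y.2⟩ }, fun y => (X.t y.1.1).1.2,
      (bigR X.p).submatrix Subtype.val Subtype.val,
      fun s ε => (bigR (X.d s ε)).submatrix Subtype.val Subtype.val⟩,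
    Subtype.val, Subtype.val_injective,
    fun _ => rfl, fun _ => rfl, fun _ => rfl, rfl, fun _ _ => rfl, fun y z c => ?_⟩
  obtain ⟨g, hg⟩ := ne_coeff c
  have := h2 _ (Finset.mem_image_of_mem _ (Finset.mem_univ (y.1, z.1))) _ _ g hg
  exact ⟨⟨⟨y, this.1⟩, rfl⟩, ⟨z, this.2⟩, rfl⟩

end Pool.Agent.MP_f7db47_al.GR

end

section

/-!
Vanishing of the groups of Grayson over the obstruction category.
-/

namespace Pool.Agent.MP_f7db47_al.GR

open Matrix KN OB

universe v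

variable {R : Type v} [Ring R] {G : Type} [Group G] {V : Type} [MulAction G V] {n : ℕ}

lemma o7_blk {Y : Mc R G V n} {J : Type} [Fintype J] [DecidableEq J] (m : J → Fin n → ℤ)
    {δ : Y.M.I → J} (hδ : ∀ i, Y.deg i = m (δ i)) {e : Y.M.I → Ix V} (he : Function.Injective e)
    (ht : ∀ i, Y.M.t i = (e i).t) (hx : ∀ i, Y.M.x i = (e i).p.1) {c : Fin n → ℤ}
    {a : Matrix Y.M.I Y.M.I (MonoidAlgebra R G)} (ha : Mc.Mor Y Y c a) :
    ∃ A : Matrix J J (FF R G V),
      (∀ k l, A k l ∈ ssF (tp R) G V () () ∧ (A k l ≠ 0 → m k = m l + c)) ∧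
      Supp (fun i => (δ i, e i)) A ∧
      (big A).submatrix (fun i => (δ i, e i)) (fun i => (δ i, e i)) = a := by
  obtain ⟨A, h1, h2, h3⟩ := exists_blk (Φ := tp R) (Y := ⟨Y.M, fun _ => 0, 0, 0⟩)
    (fun _ : J => ((), 0)) (δ := δ) (fun _ => rfl) he ht hx (d := 0) (a := a)
    ⟨⟨⟨0, fun _ _ _ => trivial⟩, ha.ctrl⟩, fun _ _ _ => rfl⟩
  refine ⟨A, fun k l => ⟨(h1 k l).1, fun c => ?_⟩, h2, h3⟩
  by_contra d
  refine c (ent_inj (Matrix.ext fun y z => by_contra fun f => d ?_))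
  obtain ⟨⟨i, a1⟩, j, a2⟩ := h2 (k, y) (l, z) f
  obtain ⟨rfl, rfl⟩ := Prod.mk.inj a1
  obtain ⟨rfl, rfl⟩ := Prod.mk.inj a2
  rw [← hδ, ← hδ]
  exact ha.deg i j fun g => f ((congrFun (congrFun h3 i) j).trans g)

lemma o7_hm {A : Type*} [Ring A] {H : Fam A Unit} {J : Type} {m : J → Fin n → ℤ} (s : Fin n)
    {c : ℤ} {a : Matrix J J A}
    (h : ∀ k l, a k l ∈ H () () ∧ (a k l ≠ 0 → m k = m l + Pi.single s c)) :
    Hm (grF _ H) c (fun j => (((), Function.update (m j) s 0), m j s))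
      (fun j => (((), Function.update (m j) s 0), m j s)) a := fun k l =>
  ⟨⟨(h k l).1, fun d => funext fun i => by
    by_cases f : i = s <;> simp [f, (h k l).2 d]⟩, fun d => by simp [(h k l).2 d]⟩

theorem exists_dc {Y : Mc R G V n} (hY : Y.IsAc) :
    ∃ (X : DC (FF R G V) Unit (Fin n)) (e : Y.M.I → X.J × Ix V),
      MOb (ssF (tp R) G V) X ∧ PresM X Y e := by
  obtain ⟨e, he, ht, hx⟩ := exists_emb Y.M
  let δ : Y.M.I → hY.bd.toFinset := fun i => ⟨Y.deg i, hY.bd.mem_toFinset.2 ⟨i, rfl⟩⟩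
  have hE : Function.Injective fun i => (δ i, e i) := fun _ _ c => he (congrArg Prod.snd c)
  obtain ⟨p, p1, p2, p3⟩ := o7_blk Subtype.val (δ := δ) (fun _ => rfl) he ht hx hY.hp
  choose d d1 d2 d3 using fun s ε =>
    o7_blk Subtype.val (δ := δ) (fun _ => rfl) he ht hx (hY.hd s ε)
  have pp : p * p = p := (p2.mul p2).ext p2 (by
    rw [← mul_big hE p2, p3]
    exact hY.hp.pl)
  refine ⟨⟨⟨hY.bd.toFinset, fun j => (((), j.1), 0), p, 0⟩, d⟩, _,
    ⟨⟨⟨fun k l => ⟨⟨(p1 k l).1, fun c => ((p1 k l).2 c).trans (add_zero _)⟩, fun _ => rfl⟩,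
      Hm.zero _ _, pp, mul_zero _, zero_mul _, zero_mul _⟩,
      fun s ε => ⟨o7_hm s ?_, o7_hm s ?_, pp, (p2.mul (d2 s ε)).ext (d2 s ε) ?_,
        ((d2 s ε).mul p2).ext (d2 s ε) ?_, ((d2 s ε).mul (d2 s ε)).ext supp_zero ?_⟩,
      fun s ε => (zero_mul _).trans (mul_zero _).symm,
      fun s s' ε ε' c => ((d2 s ε).mul (d2 s' ε')).ext ((d2 s' ε').mul (d2 s ε)) ?_⟩,
      rfl, fun _ => rfl, fun s ε => ?_⟩,
    hE, ht, hx, fun _ => rfl, p3.symm, fun s ε => (d3 s ε).symm, p2⟩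
  · rwa [Pi.single_zero]
  · rw [Pi.single_neg]
    exact d1 s ε
  · rw [← mul_big hE p2, p3, d3]
    exact (hY.hd s ε).pl
  · rw [← mul_big hE (d2 s ε), p3, d3]
    exact (hY.hd s ε).pr
  · rw [← mul_big hE (d2 s ε), d3]
    exact hY.dd s ε
  · rw [← mul_big hE (d2 s ε), ← mul_big hE (d2 s' ε'), d3, d3]
    exact hY.cm s s' ε ε' c
  · obtain ⟨k, k1, k2⟩ := hY.ac s ε
    obtain ⟨h, h1, h2, h3⟩ := o7_blk Subtype.val (δ := δ) (fun _ => rfl) he ht hx k1
    refine ⟨h, o7_hm s h1, Eq.trans ((((d2 s ε).mul h2).add (h2.mul (d2 s ε))).ext p2 ?_)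
      (one_smul _ p).symm⟩
    rw [big_add, Matrix.submatrix_add, Pi.add_apply, Pi.add_apply, ← mul_big hE (d2 s ε),
      ← mul_big hE h2, d3, h3, p3]
    exact k2

/-- The class in the group of Grayson. -/
noncomputable def o7_cl (Y : Mc R G V n) :
    FreeAbelianGroup (Mc R G V n) ⧸ AddSubgroup.closure (GRel R G V n) :=
  QuotientAddGroup.mk (FreeAbelianGroup.of Y)

lemma o7_ext {Y' Y Y'' : Mc R G V n} (h' : Y'.IsAc) (h : Y.IsAc) (h'' : Y''.IsAc)
    (k : Y'.IsSes Y Y'') : o7_cl Y = o7_cl Y' + o7_cl Y'' := by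
  have := (QuotientAddGroup.eq_zero_iff _).2
    (AddSubgroup.subset_closure (k := GRel R G V n) (Or.inl ⟨_, _, _, h', h, h'', k, rfl⟩))
  rwa [sub_sub, QuotientAddGroup.mk_sub, QuotientAddGroup.mk_add, sub_eq_zero] at this

lemma o7_ses {A : Type*} [Ring A] {H : Fam A Unit} {X : DC A Unit (Fin n)} (h : MOb H X) :
    MOb H (X.re 0 0 0) ∧ Ses H X X (X.re 0 0 0) := by
  have a := h.ok.ok
  refine ⟨⟨⟨⟨Hm.zero _ _, Hm.zero _ _, mul_zero _, mul_zero _, mul_zero _, mul_zero _⟩,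
    fun _ _ => ⟨Hm.zero _ _, Hm.zero _ _, mul_zero _, mul_zero _, mul_zero _, mul_zero _⟩,
    fun _ _ => rfl, fun _ _ _ _ _ => rfl⟩, rfl, h.c, fun _ _ => ⟨0, Hm.zero _ _, by simp⟩⟩,
    X.p, 0, X.p, 0, ⟨Ch.id a, fun s ε => (h.ok.okd s ε).Dp.trans (h.ok.okd s ε).pD.symm⟩,
    ⟨Ch.zero _ _, fun _ _ => (mul_zero _).trans (zero_mul _).symm⟩, (Ch.id a).toMp,
    Mp.zero _ _ _, a.pp, mul_zero _, ?_⟩
  rw [mul_zero, add_zero, a.pp]

lemma o7_eq {X : DC (FF R G V) Unit (Fin n)} {Y Y' : Mc R G V n} {e : Y.M.I → X.J × Ix V}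
    {e' : Y'.M.I → X.J × Ix V} (h : PresM X Y e) (h' : PresM X Y' e')
    (hX : MOb (ssF (tp R) G V) X) : o7_cl Y = o7_cl Y' := by
  obtain ⟨a, b⟩ := o7_ses hX
  obtain ⟨W, E, c⟩ := exists_presM a
  exact (o7_ext (h'.isAc hX) (h.isAc hX) (c.isAc a) (h'.isSes h c b)).trans
    (o7_ext (h'.isAc hX) (h'.isAc hX) (c.isAc a) (h'.isSes h' c b)).symm

theorem kzero_of_gz (h : GZ.{v, max 1 v} (ssF (tp R) G V) (Fin n)) : KZero R G V n := by
  classical
  let γ : DC (FF R G V) Unit (Fin n) → _ := fun X =>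
    if c : ∃ Y e, PresM X Y e then o7_cl c.choose else 0
  have k : ∀ {X Y e}, MOb (ssF (tp R) G V) X → PresM X Y e → γ X = o7_cl Y :=
    fun {X Y e} hX c => by
      have c' : ∃ Y e, PresM X Y e := ⟨Y, e, c⟩
      exact (dif_pos c').trans (o7_eq c'.choose_spec.choose_spec c hX)
  intro Y hY
  obtain ⟨X, e, hX, c⟩ := exists_dc hY
  refine (QuotientAddGroup.eq_zero_iff _).1 ((k hX c).symm.trans
    (h _ γ (fun X' X X'' a' a a'' b => ?_) (fun s X a b => ?_) X hX))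
  · obtain ⟨Y', e', c'⟩ := exists_presM a'
    obtain ⟨Y, e, c⟩ := exists_presM a
    obtain ⟨Y'', e'', c''⟩ := exists_presM a''
    rw [k a' c', k a c, k a'' c'',
      o7_ext (c'.isAc a') (c.isAc a) (c''.isAc a'') (c'.isSes c c'' b)]
  · obtain ⟨Y, e, c⟩ := exists_presM a
    rw [k a c]
    exact (QuotientAddGroup.eq_zero_iff _).2 (AddSubgroup.subset_closure
      (Or.inr ⟨_, c.isAc a, ⟨s, by rw [c.d, c.d, b]⟩, rfl⟩))

end Pool.Agent.MP_f7db47_al.GR

end

section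

/-!
Vanishing of the groups of Grayson.
-/

namespace Pool.Agent.MP_f7db47_al.GR

open OB

universe v w

variable {G : Type} [Group G] {V : Type} [MulAction G V]

theorem s0_good {R : Type v} [Ring R] {Φ : ℕ → AddSubgroup R} [Flt Φ] {ι : Type} {u : ι → Rˣ}
    (hu : ∀ i x, (u i : R) * x = x * u i) (hm : ∀ i, ∃ d, (u i : R) ∈ Φ d) : (S0 Φ G V u).Good :=
  ⟨(ss_good hu hm).mul, fun _ => (ss_good hu hm).mul, fun _ => le_rfl,
    fun _ _ hw => (ss_good hu hm).sc hw, fun b => b.elim, fun b => b.elim⟩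

variable {Γ : Type} [Group Γ] (hΓ : VD.FJ Γ) (f : G →* Γ)
  (hV : ∀ (B : Subgroup Γ) (φ : B →* Multiplicative ℤ), Finite φ.ker →
    ∃ v : V, ∀ g, f g ∈ B → g • v = v)

include hΓ hV

theorem zc_all (j : ℕ) : ∀ (R : Type v) [Ring R] (Φ : ℕ → AddSubgroup R) [Flt Φ] (ι : Type)
    [Fintype ι] (u : ι → Rˣ), (∀ i x, (u i : R) * x = x * u i) → (∀ i, ∃ d, (u i : R) ∈ Φ d) →
    ZC.{v, w} ((S0 Φ G V u).En j) := by
  induction j with
  | zero =>
    intro R _ Φ _ ι _ u hu hm M _ κ hκ X hX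
    have o : ∀ {X}, KN.Obj (ssF Φ G V) (scS G V u) Finset.univ X → Ob (S0 Φ G V u) X :=
      fun h => ⟨h.ok, fun a => h.tor a (Finset.mem_univ a)⟩
    have hX' : KN.Obj (ssF Φ G V) (scS G V u) Finset.univ X := ⟨hX.ok, fun a _ => hX.tor a⟩
    exact (ss_null_fj hu (fun Δ _ _ _ I K _ hQ =>
      ⟨KN.mkVT ((coef G V hu).sca I) (KN.van_of_vn (KN.van _ ·) hQ I K), rfl⟩) hΓ f hV
      ⟨Φ, inferInstance, hm⟩ _ X hX').inv (ss_good hu hm)
      (fun X Y t a b => hκ.ext X Y t (o a) (o b)) hκ.nul hX'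
  | succ j ih =>
    intro R _ Φ _ ι _ u hu hm
    obtain ⟨R', _, Φ', _, u', hu', hm', e⟩ := exists_base Φ G V u hu hm
    exact zc_E ((s0_good hu hm).En j) ((e.En j).pull (ih R' Φ' _ u' hu' hm'))

theorem kzero_fj (R : Type v) [Ring R] (n : ℕ) : KZero R G V n := by
  let u : Empty → Rˣ := Empty.elim
  have hS : (S0 (tp R) G V u).Good := s0_good (fun i => i.elim) fun i => i.elim
  have key : ∀ n j : ℕ, ZD.{v, max 1 v} ((S0 (tp R) G V u).En j) (Fin n) Set.univ := by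
    intro n
    induction n with
    | zero =>
      exact fun j => zd_of_zc (hS.En j)
        (zc_all hΓ f hV j R _ _ u (fun i => i.elim) fun i => i.elim)
    | succ n ih =>
      exact fun j => (zd_univ (hS.En j) (zd_opt (hS.En j) (ih (j + 1)))).equiv
        (finSuccEquiv n).symm
  exact kzero_of_gz (gz_of_zd (𝒮 := S0 (tp R) G V u) hS (key n 0))

end Pool.Agent.MP_f7db47_al.GR

end
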